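import Pool.Agent.MP_648617_ag.kol.Vers
import Pool.Agent.MP_648617_ag.vers.Norm
import Mathlib.Algebra.DualNumber
import Mathlib.RingTheory.Localization.FractionRing
import Mathlib.Tactic.FieldSimp

-- ======== part 0: formerly Pool.Agent.MP_648617_ag.kol.Base
section MrgPart0

/-! PROJECT KOL: evaluation of power series, approximation in Rim algebras, first identities. -/

open IsLocalRing PowerSeries

noncomputable section

namespace Pool.Agent.MP_648617_ag.Kol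

instance germC : IsGerm ℂ where
  complete := inferInstance
  res r := ⟨r, by simp⟩

section Eval

variable {T T' : Type} [CommRing T] [CommRing T'] (I : Ideal T')

theorem haus [IsHausdorff I T'] {t : T'} (h : ∀ n, t ∈ I ^ n) : t = 0 :=
  IsHausdorff.haus' (I := I) t fun n => by
    rw [SModEq.zero, smul_eq_mul, Ideal.mul_top]; exact h n

theorem exists_mvEvI {σ : Type} [Finite σ] [IsAdicComplete I T'] (φ : T →+* T') (e : σ → T')
    (he : ∀ k, e k ∈ I) : ∃ Θ : MvPowerSeries σ T →+* T',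
      (∀ t, Θ (MvPowerSeries.C t) = φ t) ∧ ∀ k, Θ (MvPowerSeries.X k) = e k := by
  let _ := φ.toAlgebra
  have am : ∀ n {p : MvPolynomial σ T}, p ∈ MvPolynomial.idealOfVars σ T ^ n →
      MvPolynomial.aeval e p ∈ I ^ n := fun n p hp => by
    have h : (MvPolynomial.idealOfVars σ T).map (MvPolynomial.aeval (R := T) e) ≤ I := by
      rw [Ideal.map_span, Ideal.span_le]
      rintro _ ⟨_, ⟨k, rfl⟩, rfl⟩
      simpa using he k
    have h2 := Ideal.mem_map_of_mem (MvPolynomial.aeval (R := T) e) hp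
    rw [Ideal.map_pow] at h2
    exact Ideal.pow_right_mono h n h2
  let g : ∀ n : ℕ, (MvPolynomial σ T ⧸ MvPolynomial.idealOfVars σ T ^ n) →ₐ[T] T' ⧸ I ^ n :=
    fun n => Ideal.Quotient.liftₐ _ ((Ideal.Quotient.mkₐ T _).comp (MvPolynomial.aeval e))
      fun p hp => Ideal.Quotient.eq_zero_iff_mem.2 (am n hp)
  let f : ∀ n : ℕ, MvPowerSeries σ T →ₐ[T] T' ⧸ I ^ n := fun n =>
    (g n).comp ((MvPowerSeries.truncTotalAlgHom σ T n).restrictScalars T)
  have hf : ∀ n p, f n p =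
      Ideal.Quotient.mk _ (MvPolynomial.aeval e (MvPowerSeries.truncTotal n p)) := fun n p => rfl
  have hc : ∀ {m n : ℕ} (hle : m ≤ n),
      (Ideal.Quotient.factorₐ T (Ideal.pow_le_pow_right hle)).comp (f n) = f m := by
    intro m n hle
    ext p
    rw [AlgHom.comp_apply, hf, hf]
    change Ideal.Quotient.mk _ _ = _
    rw [Ideal.Quotient.eq, ← map_sub]
    exact am m (MvPowerSeries.truncTotal_sub_truncTotal_mem_pow_idealOfVars hle le_rfl p)
  refine ⟨(IsAdicComplete.liftAlgHom I f hc).toRingHom,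
    fun t => (IsAdicComplete.liftAlgHom I f hc).commutes t, fun k => ?_⟩
  rw [← sub_eq_zero]
  refine haus I fun n => ?_
  change IsAdicComplete.liftAlgHom I f hc _ - _ ∈ _
  rw [← Ideal.Quotient.eq, IsAdicComplete.mk_liftAlgHom, ← MvPolynomial.coe_X]
  have := (MvPowerSeries.truncTotalAlgHom σ T n).commutes (MvPolynomial.X k)
  change g n (MvPowerSeries.truncTotalAlgHom σ T n
    (algebraMap _ _ (MvPolynomial.X k : MvPolynomial σ T))) = _
  rw [this]
  change Ideal.Quotient.mk _ (MvPolynomial.aeval e (MvPolynomial.X k : MvPolynomial σ T)) = _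
  rw [MvPolynomial.aeval_X]

theorem exists_evI [IsAdicComplete I T'] (φ : T →+* T') {z : T'} (hz : z ∈ I) :
    ∃ E : T⟦X⟧ →+* T', (∀ t, E (C t) = φ t) ∧ E X = z :=
  (exists_mvEvI (σ := Unit) I φ (fun _ => z) fun _ => hz).imp fun _ h => ⟨h.1, h.2 ()⟩

/-- Truncation. -/
theorem map_eq_sum_add (E : T⟦X⟧ →+* T') (F : T⟦X⟧) (n : ℕ) : ∃ G, E F =
    ∑ k ∈ Finset.range n, E (C (coeff k F)) * E X ^ k + E X ^ n * E G := by
  refine ⟨PowerSeries.mk fun i => coeff (i + n) F, ?_⟩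
  conv_lhs => rw [eq_X_pow_mul_shift_add_trunc n F, map_add, map_mul, map_pow, add_comm]
  congr 1
  rw [trunc_apply, ← Polynomial.coeToPowerSeries.ringHom_apply, map_sum, map_sum,
    Nat.Ico_zero_eq_range]
  refine Finset.sum_congr rfl fun k _ => ?_
  rw [Polynomial.coeToPowerSeries.ringHom_apply, Polynomial.coe_monomial, ← map_pow, ← map_mul,
    monomial_eq_C_mul_X_pow]

/-- Two evaluations that agree modulo a closed ideal. -/
theorem evI_congr (J : Ideal T') (hJ : ∀ t, (∀ n, t ∈ J ⊔ I ^ n) → t ∈ J) (E E' : T⟦X⟧ →+* T')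
    (hC : ∀ t, E (C t) - E' (C t) ∈ J) (hX : E X - E' X ∈ J) (h : E X ∈ I) (h' : E' X ∈ I)
    (F : T⟦X⟧) : E F - E' F ∈ J := by
  refine hJ _ fun n => ?_
  have key : ∀ χ : T⟦X⟧ →+* T', χ X ∈ I →
      χ F - ∑ k ∈ Finset.range n, χ (C (coeff k F)) * χ X ^ k ∈ I ^ n := fun χ hχ => by
    obtain ⟨G, hG⟩ := map_eq_sum_add χ F n
    rw [hG, add_sub_cancel_left]
    exact Ideal.mul_mem_right _ _ (Ideal.pow_mem_pow hχ n)
  have h3 : ∑ k ∈ Finset.range n, E (C (coeff k F)) * E X ^ k -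
      ∑ k ∈ Finset.range n, E' (C (coeff k F)) * E' X ^ k ∈ J := by
    rw [← Ideal.Quotient.eq]
    simp only [map_sum, map_mul, map_pow, Ideal.Quotient.eq.2 hX, Ideal.Quotient.eq.2 (hC _)]
  have := add_mem (Ideal.mem_sup_left h3 : _ ∈ J ⊔ I ^ n)
    (Ideal.mem_sup_right (sub_mem (key E h) (key E' h')))
  convert this using 1
  ring

theorem evI_ext [IsHausdorff I T'] (E E' : T⟦X⟧ →+* T') (hC : ∀ t, E (C t) = E' (C t))
    (hX : E X = E' X) (h : E X ∈ I) : E = E' := by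
  ext1 F
  exact sub_eq_zero.1 (evI_congr I ⊥ (fun t ht => haus I fun n => by simpa using ht n) E E'
    (fun t => by simp [hC]) (by simp [hX]) h (hX ▸ h) F)

theorem mvEvI_ext {σ : Type} [Finite σ] [IsHausdorff I T'] (φ ψ : MvPowerSeries σ T →+* T')
    (hC : ∀ r, φ (MvPowerSeries.C r) = ψ (MvPowerSeries.C r))
    (hX : ∀ k, φ (MvPowerSeries.X k) = ψ (MvPowerSeries.X k))
    (hm : ∀ k, φ (MvPowerSeries.X k) ∈ I) : φ = ψ := by
  ext F
  rw [← sub_eq_zero]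
  refine haus I fun n => ?_
  have hp : ∀ p : MvPolynomial σ T, φ p = ψ p := fun p => by
    induction p using MvPolynomial.induction_on with
    | C r => simpa using hC r
    | add p q hp hq => simp [hp, hq]
    | mul_X p k hp => simp [hp, hX]
  have h1 : ∀ χ : MvPowerSeries σ T →+* T', (∀ k, χ (MvPowerSeries.X k) ∈ I) →
      χ F - χ (MvPowerSeries.truncTotal n F : MvPolynomial σ T) ∈ I ^ n := fun χ hχ => by
    have h2 := Vers.sub_trunc_mem (I.comap χ) hχ n F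
    rw [← map_sub]
    exact Ideal.le_comap_pow χ n h2
  have := sub_mem (h1 φ hm) (h1 ψ fun k => hX k ▸ hm k)
  rwa [hp, sub_sub_sub_cancel_right] at this

end Eval

section EvAt

variable {R : Type} [CommRing R] [Algebra ℂ R] [IsGerm R]

theorem mem_max_ps {F : R⟦X⟧} : F ∈ maximalIdeal R⟦X⟧ ↔ cc F ∈ maximalIdeal R :=
  Vers.mem_max_mv (σ := Unit)

theorem mem_max_B {c : B} : c ∈ maximalIdeal B ↔ cc c = 0 := by
  rw [mem_max_ps, maximalIdeal_eq_bot, Ideal.mem_bot]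

theorem isUnit_B {c : B} : IsUnit c ↔ cc c ≠ 0 := by
  rw [isUnit_iff_constantCoeff, isUnit_iff_ne_zero]

theorem isUnit_T {F : B⟦X⟧} : IsUnit F ↔ cc (cc F) ≠ 0 := by
  rw [isUnit_iff_constantCoeff, isUnit_B]

/-- Evaluation at an element of the maximal ideal. -/
def evAt (ξ : R) : R⟦X⟧ →+* R := (Vers.ev R ξ).toRingHom

@[simp] theorem evAt_C (ξ c : R) : evAt ξ (C c) = c := Vers.ev_C ξ c

theorem evAt_X {ξ : R} (h : ξ ∈ maximalIdeal R) : evAt ξ X = ξ := Vers.ev_X h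

theorem sub_dvd_sub_evAt {ξ : R} (h : ξ ∈ maximalIdeal R) (F : R⟦X⟧) :
    X - C ξ ∣ F - C (evAt ξ F) := by
  rw [← Ideal.mem_span_singleton]
  exact evI_congr (maximalIdeal R⟦X⟧) _ (fun _ => Vers.closed _) (RingHom.id _)
    ((C : R →+* R⟦X⟧).comp (evAt ξ)) (fun t => by simp)
    (by simp [evAt_X h]) (mem_max_ps.2 (by simp))
    (mem_max_ps.2 (by simpa [evAt_X h] using h)) F

theorem dvd_iff_evAt {ξ : R} (h : ξ ∈ maximalIdeal R) (F : R⟦X⟧) :
    X - C ξ ∣ F ↔ evAt ξ F = 0 := by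
  refine ⟨?_, fun e => by simpa [e] using sub_dvd_sub_evAt h F⟩
  rintro ⟨G, rfl⟩
  simp [evAt_X h]

theorem evAt_sub_cc {ξ : R} (h : ξ ∈ maximalIdeal R) (F : R⟦X⟧) : ξ ∣ evAt ξ F - cc F := by
  obtain ⟨G, hG⟩ := map_eq_sum_add (evAt ξ) F 1
  exact ⟨evAt ξ G, by rw [hG]; simp [evAt_X h]⟩

theorem cc_evAt {ξ : B} (h : cc ξ = 0) (F : B⟦X⟧) : cc (evAt ξ F) = cc (cc F) := by
  obtain ⟨G, hG⟩ := evAt_sub_cc (mem_max_B.2 h) F
  rw [← sub_eq_zero, ← map_sub, hG, map_mul, h, zero_mul]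

/-- A ring map out of `R⟦X⟧` that sends `X` to the image of `ξ` factors through `evAt`. -/
theorem map_eq_evAt {S : Type} [CommRing S] (Φ : R⟦X⟧ →+* S) {ξ : R} (h : ξ ∈ maximalIdeal R)
    (hX : Φ X = Φ (C ξ)) (F : R⟦X⟧) : Φ F = Φ (C (evAt ξ F)) := by
  obtain ⟨G, hG⟩ := sub_dvd_sub_evAt h F
  rw [← sub_eq_zero, ← map_sub, hG, map_mul, map_sub, hX, sub_self, zero_mul]

theorem prime_X_sub_C [IsDomain R] {ξ : R} (h : ξ ∈ maximalIdeal R) : Prime (X - C ξ : R⟦X⟧) := by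
  refine ⟨fun e => ?_, fun e => ?_, fun F G hFG => ?_⟩
  · simpa [coeff_one_X, coeff_C] using congrArg (coeff 1) e
  · have := (dvd_iff_evAt h 1).1 e.dvd
    simp at this
  · simpa only [dvd_iff_evAt h, map_mul, mul_eq_zero] using hFG

theorem algHom_eq_res (ρ : R →ₐ[ℂ] ℂ) : ρ = Vers.res R := by
  ext r
  have := Vers.map_max ρ (Vers.sub_res r)
  rw [maximalIdeal_eq_bot, Ideal.mem_bot, map_sub, AlgHom.commutes] at this
  exact sub_eq_zero.1 this

end EvAt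

section Ax

variable {T O : Type} [CommRing T] [CommRing O] [IsLocalRing T] [IsLocalRing O] (𝒜 : Axes T O)

theorem Axes.Z_mem (p : Option Ln) : 𝒜.Z p ∈ maximalIdeal O := 𝒜.mem p

theorem Axes.φ_inj : Function.Injective 𝒜.φ := fun t t' h => by
  have := @𝒜.bij.1 (t, 0) (t', 0) (by simp [h])
  exact congrArg Prod.fst this

theorem Axes.exists_coord (o : O) :
    ∃ (c : T) (H : Option Ln → T⟦X⟧), o = 𝒜.φ c + ∑ p, 𝒜.Z p * 𝒜.E p (H p) := by
  obtain ⟨⟨c, H⟩, h⟩ := 𝒜.bij.2 o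
  exact ⟨c, H, by simpa [Axes.Z] using h.symm⟩

theorem Axes.coord_eq_zero {c : T} {H : Option Ln → T⟦X⟧}
    (h : 𝒜.φ c + ∑ p, 𝒜.Z p * 𝒜.E p (H p) = 0) : c = 0 ∧ H = 0 := by
  have := @𝒜.bij.1 (c, H) (0, 0) (by simpa [Axes.Z] using h)
  exact Prod.mk.inj this

theorem Axes.Z_ne (p : Option Ln) : 𝒜.Z p ≠ 0 := fun h => by
  classical
  have := (𝒜.coord_eq_zero (c := 0) (H := Pi.single p 1) (by
    rw [map_zero, zero_add, Finset.sum_eq_single p (fun q _ hq => by simp [hq]) (by simp), h,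
      zero_mul])).2
  simpa using congrFun this p

/-- Every element is a polynomial in the generators up to a high power of the generators. -/
theorem Axes.approx (S : Subring O) (hφ : ∀ t, 𝒜.φ t ∈ S) (hZ : ∀ p, 𝒜.Z p ∈ S) (o : O) (n : ℕ) :
    ∃ s ∈ S, ∃ G : Option Ln → O, o = s + ∑ p, 𝒜.Z p ^ n * G p := by
  obtain ⟨c, H, rfl⟩ := 𝒜.exists_coord o
  choose G hG using fun p => map_eq_sum_add (𝒜.E p) (H p) n
  refine ⟨𝒜.φ c + ∑ p, 𝒜.Z p * ∑ k ∈ Finset.range n, 𝒜.φ (coeff k (H p)) * 𝒜.Z p ^ k,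
    add_mem (hφ _) (sum_mem fun p _ => mul_mem (hZ p) (sum_mem fun k _ =>
      mul_mem (hφ _) (pow_mem (hZ p) k))), fun p => 𝒜.Z p * 𝒜.E p (G p), ?_⟩
  rw [add_assoc, ← Finset.sum_add_distrib]
  congr 1
  refine Finset.sum_congr rfl fun p _ => ?_
  rw [hG p]
  simp only [𝒜.E_C, Axes.Z]
  ring

/-- A subring that contains the generators and is closed is everything. -/
theorem Axes.mem_of_closed (S : Subring O) (hφ : ∀ t, 𝒜.φ t ∈ S) (hZ : ∀ p, 𝒜.Z p ∈ S)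
    (hS : ∀ o, (∀ n, ∃ s ∈ S, o - s ∈ maximalIdeal O ^ n) → o ∈ S) (o : O) : o ∈ S :=
  hS o fun n => by
    obtain ⟨s, hs, G, rfl⟩ := 𝒜.approx S hφ hZ o n
    refine ⟨s, hs, ?_⟩
    rw [add_sub_cancel_left]
    exact sum_mem fun p _ => Ideal.mul_mem_right _ _ (Ideal.pow_mem_pow (𝒜.Z_mem p) n)

theorem Axes.hom_congr {T' : Type} [CommRing T'] (I J : Ideal T')
    (hJ : ∀ t, (∀ n, t ∈ J ⊔ I ^ n) → t ∈ J) (Φ Φ' : O →+* T')
    (hφ : ∀ t, Φ (𝒜.φ t) - Φ' (𝒜.φ t) ∈ J) (hZ : ∀ p, Φ (𝒜.Z p) - Φ' (𝒜.Z p) ∈ J)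
    (h : ∀ p, Φ (𝒜.Z p) ∈ I) (h' : ∀ p, Φ' (𝒜.Z p) ∈ I) (o : O) : Φ o - Φ' o ∈ J := by
  refine hJ _ fun n => ?_
  obtain ⟨s, hs, G, rfl⟩ := 𝒜.approx
    (((Ideal.Quotient.mk J).comp Φ).eqLocus ((Ideal.Quotient.mk J).comp Φ'))
    (fun t => Ideal.Quotient.eq.2 (hφ t)) (fun p => Ideal.Quotient.eq.2 (hZ p)) o n
  have key : ∀ χ : O →+* T', (∀ p, χ (𝒜.Z p) ∈ I) → χ (∑ p, 𝒜.Z p ^ n * G p) ∈ I ^ n :=
    fun χ hχ => by
      rw [map_sum]
      exact sum_mem fun p _ => by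
        rw [map_mul, map_pow]; exact Ideal.mul_mem_right _ _ (Ideal.pow_mem_pow (hχ p) n)
  have := add_mem (Ideal.mem_sup_left (Ideal.Quotient.eq.1 hs) : _ ∈ J ⊔ I ^ n)
    (Ideal.mem_sup_right (sub_mem (key Φ h) (key Φ' h')))
  rw [map_add, map_add]
  convert this using 1
  ring

theorem Axes.hom_ext {T' : Type} [CommRing T'] (I : Ideal T') [IsHausdorff I T'] (Φ Φ' : O →+* T')
    (hφ : ∀ t, Φ (𝒜.φ t) = Φ' (𝒜.φ t)) (hZ : ∀ p, Φ (𝒜.Z p) = Φ' (𝒜.Z p))
    (h : ∀ p, Φ (𝒜.Z p) ∈ I) : Φ = Φ' := by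
  ext1 o
  exact sub_eq_zero.1 (𝒜.hom_congr I ⊥ (fun t ht => haus I fun n => by simpa using ht n) Φ Φ'
    (fun t => by simp [hφ]) (fun p => by simp [hZ]) h (fun p => hZ p ▸ h p) o)

theorem Axes.mem_max_iff {c : T} {H : Option Ln → T⟦X⟧} :
    𝒜.φ c + ∑ p, 𝒜.Z p * 𝒜.E p (H p) ∈ maximalIdeal O ↔ c ∈ maximalIdeal T := by
  have h : ∑ p, 𝒜.Z p * 𝒜.E p (H p) ∈ maximalIdeal O :=
    sum_mem fun p _ => Ideal.mul_mem_right _ _ (𝒜.Z_mem p)
  rw [(maximalIdeal O).add_mem_iff_left h]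
  exact ⟨fun hc => by_contra fun hn => hc ((notMem_maximalIdeal.1 hn).map 𝒜.φ), 𝒜.loc c⟩

end Ax

section Co

variable {O : Type} [CommRing O] [IsLocalRing O] (𝒞 : Core O)

theorem Core.β_apply (c : B) : 𝒞.β c = 𝒞.φ (C c) := rfl

theorem Core.yy_mul_z (i : Ln) : 𝒞.yy i * 𝒞.z i = 𝒞.φ (𝒞.g i) := 𝒞.rels.rel0 i

theorem Core.z_mul_z {i j : Ln} (h : i ≠ j) :
    𝒞.z i * 𝒞.z j = 𝒞.φ (𝒞.al i j) * 𝒞.z i + 𝒞.φ (𝒞.al j i) * 𝒞.z j := 𝒞.rels.rel i j h

theorem Core.yy_mul_z' {i j : Ln} (h : i ≠ j) :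
    𝒞.yy j * 𝒞.z i = 𝒞.φ (𝒞.f i - 𝒞.f j) * (𝒞.z i - 𝒞.φ (𝒞.al j i)) := by
  have h1 := 𝒞.yy_mul_z i
  rw [𝒞.div i j h] at h1
  simp only [Core.yy, map_mul, map_sub] at h1 ⊢
  linear_combination h1

theorem Core.al_mul_yy {i j : Ln} (h : i ≠ j) :
    𝒞.φ (𝒞.al j i) * 𝒞.yy j = 𝒞.yy i * (𝒞.φ (𝒞.al j i) - 𝒞.z i) := by
  have h1 := 𝒞.yy_mul_z i
  rw [𝒞.div i j h] at h1
  simp only [Core.yy, map_mul, map_sub] at h1 ⊢
  linear_combination h1

theorem Core.ξ_mem (p : Pt) : 𝒞.ξ p ∈ maximalIdeal B := mem_max_B.2 (𝒞.ξ0 p)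

theorem Core.U_unit (i : Ln) : IsUnit (𝒞.U i) := isUnit_T.2 (by rw [𝒞.hU]; exact one_ne_zero)

theorem Core.g_ne (i : Ln) : 𝒞.g i ≠ 0 := by
  rw [𝒞.hg]
  exact mul_ne_zero (𝒞.U_unit i).ne_zero
    (Finset.prod_ne_zero_iff.2 fun p _ => (prime_X_sub_C (𝒞.ξ_mem p)).ne_zero)

theorem Core.yy_ne (i : Ln) : 𝒞.yy i ≠ 0 := fun h =>
  𝒞.g_ne i (𝒞.toAxes.φ_inj (by rw [← 𝒞.yy_mul_z, h, zero_mul, map_zero]))

theorem Core.ϖ_ne : 𝒞.ϖ ≠ 0 := by
  rw [𝒞.hϖ]
  exact mul_ne_zero (pow_ne_zero _ X_ne_zero) (isUnit_B.2 𝒞.ϖu0).ne_zero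

theorem Core.cc_ϖ : cc 𝒞.ϖ = 0 := by
  rw [𝒞.hϖ, map_mul, map_pow, constantCoeff_X, zero_pow 𝒞.w_pos.ne', zero_mul]

theorem Core.ξ_sub (p q : Pt) : 𝒞.ξ p - 𝒞.ξ q = 𝒞.ϖ * (𝒞.ut p - 𝒞.ut q) := by
  rw [𝒞.hξ p, 𝒞.hξ q]; ring

theorem Core.ut_sub_unit {i : Ln} {p q : Pt} (hp : inc i p) (hq : inc i q) (h : p ≠ q) :
    IsUnit (𝒞.ut p - 𝒞.ut q) := by
  rw [isUnit_B, map_sub, 𝒞.ut0, 𝒞.ut0, sub_ne_zero]
  exact fun e => h (u_inj i p q hp hq (by exact_mod_cast e))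

theorem Core.yy_eq {i : Ln} {p : Pt} (hp : inc i p) :
    𝒞.yy i = 𝒞.y - 𝒞.β (𝒞.η p) - (𝒞.x - 𝒞.β (𝒞.ξ p)) * 𝒞.φ (𝒞.fh i p) := by
  rw [Core.yy, 𝒞.hf i p hp]
  simp only [map_add, map_mul, map_sub, Core.β_apply, Core.x]
  ring

theorem Core.f_sub {i j : Ln} (h : i ≠ j) : ∃ c : B⟦X⟧, IsUnit c ∧
    𝒞.f i - 𝒞.f j = (X - C (𝒞.ξ (pt i j))) * c := by
  refine ⟨𝒞.fh i (pt i j) - 𝒞.fh j (pt i j), ?_, ?_⟩
  · rw [isUnit_T, map_sub, map_sub, 𝒞.fh0 _ _ (inc_left i j h), 𝒞.fh0 _ _ (inc_right i j h),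
      sub_ne_zero]
    exact fun e => h (a_inj i j (by exact_mod_cast e))
  · rw [𝒞.hf i _ (inc_left i j h), 𝒞.hf j _ (inc_right i j h)]; ring

end Co

end Pool.Agent.MP_648617_ag.Kol

end
end MrgPart0

-- ======== part 1: formerly Pool.Agent.MP_648617_ag.kol.Axv
section MrgPart1

/-! PROJECT KOL, row AXV: the order of a test form on the `z_0`-axis. -/

open IsLocalRing PowerSeries

noncomputable section

namespace Pool.Agent.MP_648617_ag.Kol

namespace Axv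

theorem sharp_map {S S' : Type} [CommRing S] [CommRing S'] (Φ : S →+* S') (β : B →+* S) (ϖ : B)
    (x y : S) (d : ℕ) (N : MvPolynomial (Fin 2) B) :
    Φ (sharp β ϖ x y d N) = sharp (Φ.comp β) ϖ (Φ x) (Φ y) d N := by
  simp only [sharp, map_sum, map_mul, map_pow, RingHom.comp_apply]

theorem deg_le {d : ℕ} {N : MvPolynomial (Fin 2) B} (hN : N.totalDegree ≤ d) {m : Fin 2 →₀ ℕ}
    (hm : m ∈ N.support) : m 0 + m 1 ≤ d := by
  have := (MvPolynomial.le_totalDegree hm).trans hN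
  rwa [Finsupp.sum_fintype _ _ (fun _ => rfl), Fin.sum_univ_two] at this

theorem prod_dvd {R J : Type} [CommRing R] [IsDomain R] (s : Finset J) (π : J → R) (κ : J → ℕ)
    (hπ : ∀ p ∈ s, Prime (π p)) (hn : ∀ p ∈ s, ∀ q ∈ s, π p ∣ π q → p = q) (F : R)
    (hF : ∀ p ∈ s, π p ^ κ p ∣ F) : ∏ p ∈ s, π p ^ κ p ∣ F := by
  classical
  induction s using Finset.induction_on with
  | empty => simp
  | insert a s ha ih =>
    obtain ⟨G, rfl⟩ := ih (fun p hp => hπ p (Finset.mem_insert_of_mem hp))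
      (fun p hp q hq => hn p (Finset.mem_insert_of_mem hp) q (Finset.mem_insert_of_mem hq))
      (fun p hp => hF p (Finset.mem_insert_of_mem hp))
    have hp := hπ a (Finset.mem_insert_self a s)
    have h1 : ¬π a ∣ ∏ p ∈ s, π p ^ κ p := fun h => by
      obtain ⟨q, hq, h⟩ := (Prime.dvd_finsetProd_iff hp _).1 h
      exact ha (hn a (Finset.mem_insert_self a s) q (Finset.mem_insert_of_mem hq)
        (hp.dvd_of_dvd_pow h) ▸ hq)
    obtain ⟨H, rfl⟩ := hp.pow_dvd_of_dvd_mul_left _ h1 (hF a (Finset.mem_insert_self a s))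
    rw [Finset.prod_insert ha]
    exact ⟨H, by ring⟩

/-- The top coefficient on the tangent cone. -/
theorem coeff_sharp {ϖ : B} (hϖ : cc ϖ = 0) {y : ℂ⟦X⟧} (hy : X ^ 2 ∣ y) {d : ℕ}
    {N : MvPolynomial (Fin 2) B} (hN : N.totalDegree ≤ d) :
    coeff d (sharp ((C : ℂ →+* ℂ⟦X⟧).comp cc) ϖ X y d N) = cc (N.coeff (Finsupp.single 0 d)) := by
  rw [sharp, map_sum, Finset.sum_eq_single (Finsupp.single 0 d)]
  · simp [coeff_X_pow]
  · intro m hm hne
    have h1 := deg_le hN hm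
    rw [RingHom.comp_apply, coeff_C_mul]
    rcases h1.lt_or_eq with h2 | h2
    · rw [map_mul, map_pow, hϖ, zero_pow (by omega), mul_zero, zero_mul]
    · have h3 : m 1 ≠ 0 := fun h3 => hne (by
        ext i
        fin_cases i
        · simp; omega
        · simpa using h3)
      have h4 : (X : ℂ⟦X⟧) ^ (d + 1) ∣ X ^ m 0 * y ^ m 1 :=
        (pow_dvd_pow X (by omega : d + 1 ≤ m 0 + 2 * m 1)).trans (by
          rw [pow_add, pow_mul]
          exact mul_dvd_mul_left _ (pow_dvd_pow_of_dvd hy _))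
      rw [X_pow_dvd_iff.1 h4 d (by omega), mul_zero]
  · intro h
    simp [MvPolynomial.notMem_support_iff.1 h]

variable {O : Type} [CommRing O] [IsLocalRing O] (𝒞 : Core O)

/-- The local equation of a point. -/
def π (p : Pt) : B⟦X⟧ := X - C (𝒞.ξ p)

/-- The test form in the coordinate `w = 1 / z_0`. -/
def S (d : ℕ) (N : MvPolynomial (Fin 2) B) : Polynomial B⟦X⟧ :=
  sharp ((Polynomial.C : B⟦X⟧ →+* Polynomial B⟦X⟧).comp C) 𝒞.ϖ (Polynomial.C (π 𝒞 0))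
    (Polynomial.C (𝒞.f 0 - C (𝒞.η 0)) + Polynomial.C (𝒞.g 0) * Polynomial.X) d N

theorem S_deg {d : ℕ} {N : MvPolynomial (Fin 2) B} (hN : N.totalDegree ≤ d) :
    (S 𝒞 d N).natDegree ≤ d := by
  refine Polynomial.natDegree_sum_le_of_forall_le _ _ fun m hm => ?_
  have h1 := deg_le hN hm
  rw [RingHom.comp_apply, ← map_pow]
  refine (Polynomial.natDegree_C_mul_le _ _).trans ((Polynomial.natDegree_C_mul_le _ _).trans
    (Polynomial.natDegree_pow_le.trans ?_))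
  have : (Polynomial.C (𝒞.f 0 - C (𝒞.η 0)) + Polynomial.C (𝒞.g 0) * Polynomial.X).natDegree ≤ 1 := by
    rw [add_comm]; exact Polynomial.natDegree_linear_le
  calc _ ≤ m 1 * 1 := Nat.mul_le_mul_left _ this
    _ ≤ d := by omega

theorem S_dvd (h : SharpStmt) {d κ : ℕ} {N : MvPolynomial (Fin 2) B} (hN : N.totalDegree ≤ d)
    {p : Pt} (hp : inc 0 p) (hV : Van (𝒞.ut p) (𝒞.vt p) κ N) (j : ℕ) :
    π 𝒞 p ^ κ ∣ (S 𝒞 d N).coeff j := by
  refine (Polynomial.C_dvd_iff_dvd_coeff _ _).1 ?_ j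
  rw [map_pow, ← Ideal.mem_span_singleton, ← Ideal.span_singleton_pow]
  refine Ideal.pow_right_mono ?_ κ (h _ _ 𝒞.ϖ _ _ _ _ d κ N hN hV)
  rw [Ideal.span_le]
  rintro _ (rfl | rfl)
  · refine Ideal.mem_span_singleton.2 (dvd_of_eq ?_)
    rw [RingHom.comp_apply, ← map_sub, π, π, 𝒞.hξ p, map_add]
    congr 1
    ring
  · obtain ⟨G, hG⟩ : π 𝒞 p ∣ 𝒞.g 0 := by
      rw [𝒞.hg]
      exact (Finset.dvd_prod_of_mem _ (mem_on.2 hp)).mul_left _
    refine Ideal.mem_span_singleton.2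
      ⟨Polynomial.C (𝒞.fh 0 p) + Polynomial.C G * Polynomial.X, ?_⟩
    have e : 𝒞.f 0 - C (𝒞.η 0) = C (𝒞.ϖ * 𝒞.vt p) + π 𝒞 p * 𝒞.fh 0 p := by
      rw [𝒞.hf 0 p hp, 𝒞.hη p, map_add, π]; ring
    rw [e, hG]
    simp only [RingHom.comp_apply, map_add, map_mul]
    ring

theorem sum_kap (k : ℕ) : ∑ p ∈ on 0, kap k p = 3 * k + 6 := by
  rw [Finset.sum_congr rfl (g := fun p => k * tri p + 1) fun p hp => by
    rw [kap, if_pos (mem_on.1 hp)], Finset.sum_add_distrib, ← Finset.mul_sum,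
    sum_tri_on 0 (by decide), Finset.sum_const, card_on, smul_eq_mul, mul_one, mul_comm]
  rfl

/-- The fixed factor. -/
def Pi (k : ℕ) : B⟦X⟧ := ∏ p ∈ on 0, π 𝒞 p ^ kap k p

theorem map_π (p : Pt) : PowerSeries.map cc (π 𝒞 p) = X := by
  rw [π, map_sub, map_X, map_C, 𝒞.ξ0, map_zero, sub_zero]

theorem exists_Q (h : SharpStmt) {k : ℕ} {N : MvPolynomial (Fin 2) B}
    (hN : N.totalDegree ≤ 3 * k + 6) (hV : ∀ p, Van (𝒞.ut p) (𝒞.vt p) (kap k p) N) :
    ∃ Q : ℕ → B⟦X⟧, (∀ j, (S 𝒞 (3 * k + 6) N).coeff j = Pi 𝒞 k * Q j) ∧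
      cc (cc (Q 0)) = cc (N.coeff (Finsupp.single 0 (3 * k + 6))) := by
  have h1 : ∀ j, Pi 𝒞 k ∣ (S 𝒞 (3 * k + 6) N).coeff j := fun j =>
    prod_dvd _ _ _ (fun p _ => prime_X_sub_C (𝒞.ξ_mem p)) (fun p hp q hq hpq => by
      by_contra hne
      have := (dvd_iff_evAt (𝒞.ξ_mem p) _).1 hpq
      rw [map_sub, evAt_X (𝒞.ξ_mem p), evAt_C, 𝒞.ξ_sub] at this
      exact mul_ne_zero 𝒞.ϖ_ne (𝒞.ut_sub_unit (mem_on.1 hp) (mem_on.1 hq) hne).ne_zero this) _
      fun p hp => S_dvd 𝒞 h hN (mem_on.1 hp) (hV p) j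
  choose Q hQ using h1
  refine ⟨Q, hQ, ?_⟩
  have h2 : (X : ℂ⟦X⟧) ^ 2 ∣ PowerSeries.map cc (𝒞.f 0 - C (𝒞.η 0)) := by
    have e : 𝒞.f 0 - C (𝒞.η 0) = π 𝒞 0 * 𝒞.fh 0 0 := by
      rw [𝒞.hf 0 0 inc_zero_zero, π]; ring
    rw [e, map_mul, map_π, pow_two]
    refine mul_dvd_mul_left _ (X_dvd_iff.2 ?_)
    rw [← coeff_zero_eq_constantCoeff_apply, coeff_map, coeff_zero_eq_constantCoeff_apply,
      𝒞.fh0 0 0 inc_zero_zero, a_zero, Int.cast_zero]
  have h3 := coeff_sharp 𝒞.cc_ϖ h2 hN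
  have h4 : PowerSeries.map cc (Polynomial.constantCoeff (S 𝒞 (3 * k + 6) N)) =
      sharp ((C : ℂ →+* ℂ⟦X⟧).comp cc) 𝒞.ϖ X (PowerSeries.map cc (𝒞.f 0 - C (𝒞.η 0)))
        (3 * k + 6) N := by
    rw [S, sharp_map, sharp_map]
    congr 1
    · ext1 c
      simp
    · simp [map_π]
    · simp
  rw [← h3, ← h4, Polynomial.constantCoeff_apply, hQ, map_mul, Pi, map_prod]
  simp only [map_pow, map_π]
  rw [Finset.prod_pow_eq_pow_sum, sum_kap, coeff_X_pow_mul', if_pos le_rfl, Nat.sub_self,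
    coeff_map, coeff_zero_eq_constantCoeff_apply]

theorem z_mul [IsDomain O] {d : ℕ} {N : MvPolynomial (Fin 2) B} (hN : N.totalDegree ≤ d) :
    𝒞.sharp d N * 𝒞.z 0 ^ d =
      ∑ j ∈ Finset.range (d + 1), 𝒞.φ ((S 𝒞 d N).coeff j) * 𝒞.z 0 ^ (d - j) := by
  let ι := algebraMap O (FractionRing O)
  have hι : Function.Injective ι := IsFractionRing.injective O _
  have hz : ι (𝒞.z 0) ≠ 0 := fun e => 𝒞.toAxes.Z_ne (some 0) (hι (e.trans (map_zero ι).symm))
  have h1 : Polynomial.eval₂RingHom (ι.comp 𝒞.φ) (ι (𝒞.z 0))⁻¹ (S 𝒞 d N) = ι (𝒞.sharp d N) := by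
    rw [S, Core.sharp, sharp_map, sharp_map]
    congr 1
    · ext1 c
      simp [Core.β_apply]
    · simp [π, Core.β_apply, Core.x]
    · have := congrArg ι (𝒞.yy_mul_z 0)
      simp only [Core.yy, map_mul, map_sub] at this
      simp only [map_add, map_mul, map_sub, Polynomial.coe_eval₂RingHom, Polynomial.eval₂_C,
        Polynomial.eval₂_X, RingHom.comp_apply, Core.β_apply, ← this]
      field_simp
      ring
  apply hι
  rw [map_mul, ← h1, Polynomial.coe_eval₂RingHom,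
    Polynomial.eval₂_eq_sum_range' _ (Nat.lt_succ_of_le (S_deg 𝒞 hN)), Finset.sum_mul, map_sum]
  refine Finset.sum_congr rfl fun j hj => ?_
  obtain ⟨i, rfl⟩ := Nat.exists_eq_add_of_le (Nat.lt_succ_iff.1 (Finset.mem_range.1 hj))
  rw [Nat.add_sub_cancel_left, map_mul, map_pow, map_pow, pow_add, RingHom.comp_apply, inv_pow]
  field_simp

theorem exists_unit (k : ℕ) : ∃ c : B⟦X⟧, IsUnit c ∧
    Pi 𝒞 (k + 1) * 𝒞.g 0 ^ k = c * (∏ j ∈ Finset.univ.erase 0, (𝒞.f 0 - 𝒞.f j)) ^ (k + 1) := by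
  have h1 : ∀ j : Ln, ∃ c : B⟦X⟧, IsUnit c ∧ (0 ≠ j → 𝒞.f 0 - 𝒞.f j = π 𝒞 (pt 0 j) * c) :=
    fun j => by
      by_cases h : 0 = j
      · exact ⟨1, isUnit_one, fun h' => absurd h h'⟩
      · exact (𝒞.f_sub h).imp fun c hc => ⟨hc.1, fun _ => hc.2⟩
  choose c hc hc' using h1
  obtain ⟨V, hV⟩ : IsUnit (∏ j ∈ Finset.univ.erase (0 : Ln), c j) :=
    IsUnit.prod_iff.2 fun j _ => hc j
  have h2 : ∏ j ∈ Finset.univ.erase (0 : Ln), π 𝒞 (pt 0 j) = ∏ p ∈ on 0, π 𝒞 p ^ (1 + tri p) := by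
    rw [← Finset.prod_fiberwise_of_maps_to' (t := on 0) (g := pt 0)
      (fun j hj => mem_on.2 (inc_left 0 j (Finset.ne_of_mem_erase hj).symm)) (π 𝒞)]
    exact Finset.prod_congr rfl fun p hp => by
      rw [Finset.prod_const, card_fibre 0 p (mem_on.1 hp)]
  have h3 : Pi 𝒞 (k + 1) * (∏ p ∈ on 0, π 𝒞 p) ^ k =
      (∏ p ∈ on 0, π 𝒞 p ^ (1 + tri p)) ^ (k + 1) := by
    rw [Pi, ← Finset.prod_pow, ← Finset.prod_pow, ← Finset.prod_mul_distrib]
    refine Finset.prod_congr rfl fun p hp => ?_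
    rw [kap, if_pos (mem_on.1 hp), ← pow_add, ← pow_mul]
    congr 1
    ring
  refine ⟨𝒞.U 0 ^ k * (↑V⁻¹ : B⟦X⟧) ^ (k + 1), ((𝒞.U_unit 0).pow k).mul ((V⁻¹).isUnit.pow _), ?_⟩
  rw [Finset.prod_congr rfl fun j hj => hc' j (Finset.ne_of_mem_erase hj).symm,
    Finset.prod_mul_distrib, h2, ← hV, mul_pow, ← h3, 𝒞.hg, mul_pow]
  have h4 : (↑V⁻¹ : B⟦X⟧) ^ (k + 1) * (V : B⟦X⟧) ^ (k + 1) = 1 := by
    rw [← mul_pow, Units.inv_mul, one_pow]
  change _ * (_ * (∏ p ∈ on 0, π 𝒞 p) ^ k) = _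
  linear_combination (-(𝒞.U 0 ^ k * (Pi 𝒞 (k + 1) * (∏ p ∈ on 0, π 𝒞 p) ^ k))) * h4

end Axv

open Axv in
theorem axv (h : SharpStmt) : AxvStmt := by
  intro O _ _ _ _ 𝒞 ax hax k N hk hN hV hc
  obtain ⟨k, rfl⟩ := Nat.exists_eq_add_of_le' hk
  obtain ⟨Q, hQ, hQ0⟩ := exists_Q 𝒞 h hN hV
  obtain ⟨c, hcu, hcc⟩ := exists_unit 𝒞 k
  have hz := z_mul 𝒞 hN
  generalize hd : 3 * (k + 1) + 6 = d at *
  have hcard : (Finset.univ.erase (0 : Ln)).card = 9 := by decide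
  let H : O := ∑ j ∈ Finset.range (d + 1), 𝒞.φ (Q j) * 𝒞.z 0 ^ (d - j)
  have hH : 𝒞.sharp d N * 𝒞.z 0 ^ d = 𝒞.φ (Pi 𝒞 (k + 1)) * H := by
    rw [hz, Finset.mul_sum]
    exact Finset.sum_congr rfl fun j _ => by rw [hQ, map_mul, mul_assoc]
  refine ⟨H * 𝒞.φ c * (𝒞.z 0 ^ 9) ^ (k + 1), 𝒞.z 0 ^ d * 𝒞.z 0 ^ k *
    (∏ j ∈ Finset.univ.erase 0, (𝒞.z 0 - 𝒞.φ (𝒞.al j 0))) ^ (k + 1), 12 * k + 17, ?_, ?_, ?_⟩
  · have h1 : ∏ j, 𝒞.yy j ^ ee (k + 1) j =
        𝒞.yy 0 ^ (k + 2) * (∏ j ∈ Finset.univ.erase 0, 𝒞.yy j) ^ (k + 1) := by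
      rw [← Finset.mul_prod_erase _ _ (Finset.mem_univ 0), ← Finset.prod_pow]
      exact congrArg₂ _ rfl (Finset.prod_congr rfl fun j hj => by
        rw [ee, if_neg (Finset.ne_of_mem_erase hj)])
    have h2 : (∏ j ∈ Finset.univ.erase 0, 𝒞.yy j) * 𝒞.z 0 ^ 9 =
        𝒞.φ (∏ j ∈ Finset.univ.erase 0, (𝒞.f 0 - 𝒞.f j)) *
          ∏ j ∈ Finset.univ.erase 0, (𝒞.z 0 - 𝒞.φ (𝒞.al j 0)) := by
      have e : 𝒞.z 0 ^ 9 = ∏ _j ∈ Finset.univ.erase (0 : Ln), 𝒞.z 0 := by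
        rw [Finset.prod_const, hcard]
      rw [e, ← Finset.prod_mul_distrib, map_prod, ← Finset.prod_mul_distrib]
      exact Finset.prod_congr rfl fun j hj => 𝒞.yy_mul_z' (Finset.ne_of_mem_erase hj).symm
    have h3 := congrArg (· ^ (k + 1)) h2
    have h4 := congrArg (· ^ k) (𝒞.yy_mul_z 0)
    have h5 := congrArg 𝒞.φ hcc
    simp only [mul_pow, map_mul, map_pow] at h3 h4 h5
    rw [h1]
    generalize (∏ j ∈ Finset.univ.erase 0, 𝒞.yy j) ^ (k + 1) = Y at *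
    generalize (∏ j ∈ Finset.univ.erase 0, (𝒞.z 0 - 𝒞.φ (𝒞.al j 0))) ^ (k + 1) = A at *
    generalize (𝒞.z 0 ^ 9) ^ (k + 1) = W at *
    have h6 : 𝒞.yy 0 ^ (2 * (k + 1)) = 𝒞.yy 0 ^ (k + 2) * 𝒞.yy 0 ^ k := by ring
    rw [h6]
    linear_combination (H * 𝒞.φ c * 𝒞.yy 0 ^ (k + 2)) * h3 - (H * 𝒞.yy 0 ^ (k + 2) * A) * h5 -
      (𝒞.yy 0 ^ (k + 2) * 𝒞.yy 0 ^ k * 𝒞.z 0 ^ k * A) * hH -
      (𝒞.φ (Pi 𝒞 (k + 1)) * H * 𝒞.yy 0 ^ (k + 2) * A) * h4
  · have h1 : ∀ j ∈ Finset.univ.erase (0 : Ln), ax (𝒞.z 0 - 𝒞.φ (𝒞.al j 0)) = X := fun j hj => by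
      rw [map_sub, hax.self, hax.base,
        mem_max_B.1 (mem_max_ps.1 (𝒞.al_mem j 0 (Finset.ne_of_mem_erase hj))), map_zero, sub_zero]
    rw [map_mul, map_mul, map_pow, map_pow, map_pow, map_prod, Finset.prod_congr rfl h1,
      Finset.prod_const, hcard, hax.self, ← hd]
    exact dvd_of_eq (by ring)
  · intro hdv
    rw [map_mul, map_mul, map_pow ax, map_pow ax, hax.self, hax.base, ← pow_mul] at hdv
    have h1 := X_pow_dvd_iff.1 hdv (d + 9 * (k + 1)) (by omega)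
    rw [coeff_mul_X_pow, coeff_mul_C] at h1
    refine mul_ne_zero ?_ (isUnit_T.1 hcu) h1
    rw [map_sum, map_sum, Finset.sum_eq_single 0]
    · rw [map_mul, map_pow, hax.self, hax.base, coeff_C_mul, Nat.sub_zero, coeff_X_pow_self,
        mul_one, hQ0]
      exact hc
    · intro j hj hj0
      rw [map_mul, map_pow, hax.self, hax.base, coeff_C_mul, coeff_X_pow, if_neg (by omega),
        mul_zero]
    · simp

end Pool.Agent.MP_648617_ag.Kol

end
end MrgPart1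

-- ======== part 2: formerly Pool.Agent.MP_648617_ag.kol.Chart1
section MrgPart2

/-! PROJECT KOL, row CHART: membership in the charts and the ratios. -/

noncomputable section

namespace Pool.Agent.MP_648617_ag.Kol

namespace Chart

theorem inj : Function.Injective (algebraMap (Polynomial (Polynomial ℂ)) KK) :=
  IsFractionRing.injective _ _

theorem xx_ne : xx ≠ 0 := by
  intro h
  have h1 : algebraMap (Polynomial (Polynomial ℂ)) KK (Polynomial.C Polynomial.X) =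
      algebraMap (Polynomial (Polynomial ℂ)) KK 0 := by
    rw [map_zero]; exact h
  exact Polynomial.X_ne_zero (Polynomial.C_eq_zero.1 (inj h1))

theorem lin_ne (n : ℤ) : yy - n * xx ≠ 0 := by
  intro h
  have h1 : algebraMap (Polynomial (Polynomial ℂ)) KK
      (Polynomial.X - Polynomial.C ((n : Polynomial ℂ) * Polynomial.X)) =
      algebraMap (Polynomial (Polynomial ℂ)) KK 0 := by
    rw [map_zero, map_sub, map_mul, map_mul, map_intCast, map_intCast]; exact h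
  exact Polynomial.X_sub_C_ne_zero _ (inj h1)

theorem yy_ne : yy ≠ 0 := by simpa using lin_ne 0

theorem vv_eq (i : Ln) : vv i = (yy - a i * xx) / xx := by
  have := xx_ne
  unfold vv; field_simp

theorem vv_ne (i : Ln) : vv i ≠ 0 := by
  rw [vv_eq]; exact div_ne_zero (lin_ne _) xx_ne

theorem vv_zero : vv 0 = yy / xx := by simp [vv, a_zero]

theorem vv_sub (i j : Ln) : vv j = vv i + ((a i - a j : ℤ) : KK) := by
  unfold vv; push_cast; ring

theorem yy_eq (i : Ln) : yy = xx * (vv i + a i) := by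
  have := xx_ne
  unfold vv; field_simp; ring

theorem ZZ_some (i : Ln) : ZZ (some i) = xx ^ (l i - 1) / vv i := by
  have h1 := xx_ne
  have h2 := lin_ne (a i)
  obtain ⟨n, hn⟩ : ∃ n, l i = n + 1 := ⟨l i - 1, by have := six_le i; omega⟩
  show xx ^ l i / (yy - a i * xx) = _
  rw [vv_eq, hn, Nat.add_sub_cancel]
  field_simp
  ring

theorem one_sub (j : Ln) : (1 - a j * (xx / yy))⁻¹ = vv 0 * (vv j)⁻¹ := by
  have h1 := xx_ne
  have h2 := lin_ne (a j)
  have h3 := yy_ne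
  have h4 : 1 - a j * (xx / yy) = (yy - a j * xx) / yy := by field_simp
  rw [h4, vv_zero, vv_eq]
  field_simp

theorem inv_vv (j : Ln) : (vv j)⁻¹ = xx / yy * (1 - a j * (xx / yy))⁻¹ := by
  have h1 := xx_ne
  have h3 := yy_ne
  rw [one_sub, vv_zero]
  field_simp

/-! ### Membership in the chart at infinity -/

theorem n_y : yy ∈ ch none := Algebra.subset_adjoin (Or.inl (by simp))

theorem n_r : xx / yy ∈ ch none := Algebra.subset_adjoin (Or.inl (by simp))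

theorem n_u (j : Ln) : (1 - a j * (xx / yy))⁻¹ ∈ ch none :=
  Algebra.subset_adjoin (Or.inr ⟨j, rfl⟩)

theorem n_x : xx ∈ ch none := by
  have h : xx = yy * (xx / yy) := by have := yy_ne; field_simp
  rw [h]; exact mul_mem n_y n_r

theorem n_inv (j : Ln) : (vv j)⁻¹ ∈ ch none := by
  rw [inv_vv]; exact mul_mem n_r (n_u j)

theorem n_div (j : Ln) (m : ℕ) : xx ^ m / vv j ∈ ch none := by
  rw [div_eq_mul_inv]; exact mul_mem (pow_mem n_x m) (n_inv j)

/-! ### Membership in the charts of the arms -/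

section Arm

variable (i : Ln) (k : Fin (l i - 1))

theorem s_p : vv i / xx ^ k.1 ∈ ch (some ⟨i, k⟩) := Algebra.subset_adjoin (Or.inl (by simp))

theorem s_q : xx ^ (k.1 + 1) / vv i ∈ ch (some ⟨i, k⟩) := Algebra.subset_adjoin (Or.inl (by simp))

theorem s_inv {j : Ln} (h : j ≠ i) : (vv j)⁻¹ ∈ ch (some ⟨i, k⟩) :=
  Algebra.subset_adjoin (Or.inr ⟨j, h, rfl⟩)

theorem s_x : xx ∈ ch (some ⟨i, k⟩) := by
  have h : xx = vv i / xx ^ k.1 * (xx ^ (k.1 + 1) / vv i) := by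
    have h1 := xx_ne
    have h2 := vv_ne i
    field_simp
    ring
  rw [h]; exact mul_mem (s_p i k) (s_q i k)

theorem s_low {m : ℕ} (h : m ≤ k.1) : vv i / xx ^ m ∈ ch (some ⟨i, k⟩) := by
  obtain ⟨d, hd⟩ := Nat.exists_eq_add_of_le h
  have e : vv i / xx ^ m = vv i / xx ^ k.1 * xx ^ d := by
    have h1 := xx_ne
    rw [hd]; field_simp; ring
  rw [e]; exact mul_mem (s_p i k) (pow_mem (s_x i k) d)

theorem s_high {m : ℕ} (h : k.1 < m) : xx ^ m / vv i ∈ ch (some ⟨i, k⟩) := by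
  obtain ⟨d, hd⟩ := Nat.exists_eq_add_of_lt h
  have e : xx ^ m / vv i = xx ^ (k.1 + 1) / vv i * xx ^ d := by
    have h1 := vv_ne i
    rw [hd]; field_simp; ring
  rw [e]; exact mul_mem (s_q i k) (pow_mem (s_x i k) d)

theorem s_v (j : Ln) : vv j ∈ ch (some ⟨i, k⟩) := by
  have h : vv i ∈ ch (some ⟨i, k⟩) := by simpa using s_low i k (Nat.zero_le _)
  rw [vv_sub i j]; exact add_mem h (intCast_mem _ _)

theorem s_y : yy ∈ ch (some ⟨i, k⟩) := by
  rw [yy_eq i]; exact mul_mem (s_x i k) (add_mem (s_v i k i) (intCast_mem _ _))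

theorem s_div {j : Ln} (h : j ≠ i) (m : ℕ) : xx ^ m / vv j ∈ ch (some ⟨i, k⟩) := by
  rw [div_eq_mul_inv]; exact mul_mem (pow_mem (s_x i k) m) (s_inv i k h)

end Arm

theorem base (c : Option ((i : Ln) × Fin (l i - 1))) : A0 ≤ ch c := by
  refine Algebra.adjoin_le ?_
  rcases c with _ | ⟨i, k⟩
  · rintro φ (rfl | ⟨_ | j, rfl⟩)
    · exact n_x
    · exact n_y
    · rw [ZZ_some]; exact n_div j _
  · rintro φ (rfl | ⟨_ | j, rfl⟩)
    · exact s_x i k
    · exact s_y i k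
    · rw [ZZ_some]
      by_cases h : j = i
      · subst h; exact s_high j k k.2
      · exact s_div i k h _

/-! ### The ratios as products -/

/-- The factors of the local generators. -/
def fa (i : Ln) (m : ℕ) : KK := xx ^ m / vv i

theorem fa_ne (i : Ln) (m : ℕ) : fa i m ≠ 0 := div_ne_zero (pow_ne_zero _ xx_ne) (vv_ne i)

theorem fa_inv (i : Ln) (m : ℕ) : (fa i m)⁻¹ = vv i / xx ^ m := inv_div _ _

theorem tt_some (i : Ln) (k : Fin (l i - 1)) :
    tt (some ⟨i, k⟩) = ∏ m ∈ Finset.range (k.1 + 1), fa i m := rfl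

theorem tt_ne (c : Option ((i : Ln) × Fin (l i - 1))) : tt c ≠ 0 := by
  rcases c with _ | ⟨i, k⟩
  · exact one_ne_zero
  · rw [tt_some]; exact Finset.prod_ne_zero_iff.2 fun m _ => fa_ne i m

theorem ratio_up (i : Ln) (k k' : Fin (l i - 1)) (h : k.1 ≤ k'.1) :
    tt (some ⟨i, k'⟩) / tt (some ⟨i, k⟩) = ∏ m ∈ Finset.Ico (k.1 + 1) (k'.1 + 1), fa i m := by
  rw [div_eq_iff (tt_ne _), tt_some, tt_some, mul_comm,
    Finset.prod_range_mul_prod_Ico _ (Nat.succ_le_succ h)]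

theorem ratio_down (i : Ln) (k k' : Fin (l i - 1)) (h : k'.1 ≤ k.1) :
    tt (some ⟨i, k'⟩) / tt (some ⟨i, k⟩) =
      ∏ m ∈ Finset.Ico (k'.1 + 1) (k.1 + 1), (fa i m)⁻¹ := by
  rw [Finset.prod_inv_distrib, ← ratio_up i k' k h, inv_div]

theorem tt_inv (i : Ln) (k : Fin (l i - 1)) :
    (tt (some ⟨i, k⟩))⁻¹ = ∏ m ∈ Finset.range (k.1 + 1), (fa i m)⁻¹ := by
  rw [Finset.prod_inv_distrib, tt_some]

theorem s_fa_inv (i : Ln) (k : Fin (l i - 1)) {m : ℕ} (h : m < k.1 + 1) :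
    (fa i m)⁻¹ ∈ ch (some ⟨i, k⟩) := by
  rw [fa_inv]; exact s_low i k (Nat.lt_succ_iff.1 h)

theorem s_tt_inv (i : Ln) (k : Fin (l i - 1)) : (tt (some ⟨i, k⟩))⁻¹ ∈ ch (some ⟨i, k⟩) := by
  rw [tt_inv]
  exact prod_mem fun m hm => s_fa_inv i k (Finset.mem_range.1 hm)

theorem s_tt (i : Ln) (k : Fin (l i - 1)) {j : Ln} (h : j ≠ i) (k' : Fin (l j - 1)) :
    tt (some ⟨j, k'⟩) ∈ ch (some ⟨i, k⟩) := by
  rw [tt_some]; exact prod_mem fun m _ => s_div i k h m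

theorem ratio (c c' : Option ((i : Ln) × Fin (l i - 1))) : tt c / tt c' ∈ ch c' := by
  rcases c' with _ | ⟨i, k⟩
  · rcases c with _ | ⟨j, k'⟩
    · rw [div_self (tt_ne _)]; exact one_mem _
    · rw [show tt none = 1 from rfl, div_one, tt_some]
      exact prod_mem fun m _ => n_div j m
  · rcases c with _ | ⟨j, k'⟩
    · rw [show tt none = 1 from rfl, one_div]; exact s_tt_inv i k
    · by_cases h : j = i
      · subst h
        rcases le_total k.1 k'.1 with h | h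
        · rw [ratio_up j k k' h]
          exact prod_mem fun m hm => s_high j k (Finset.mem_Ico.1 hm).1
        · rw [ratio_down j k k' h]
          exact prod_mem fun m hm => s_fa_inv j k (Finset.mem_Ico.1 hm).2
      · rw [div_eq_mul_inv]; exact mul_mem (s_tt i k h k') (s_tt_inv i k)

end Chart

end Pool.Agent.MP_648617_ag.Kol

end
end MrgPart2

-- ======== part 3: formerly Pool.Agent.MP_648617_ag.kol.Chart
section MrgPart3

/-! PROJECT KOL, row CHART: the charts glue to the blow up. -/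

noncomputable section

namespace Pool.Agent.MP_648617_ag.Kol

namespace Chart

/-! ### Compatibility -/

/-- The ring obtained by inverting `ρ`. -/
def away (S : Subalgebra ℂ KK) (ρ : KK) (h : ρ ∈ S) : Subalgebra ℂ KK where
  carrier := {φ | ∃ N : ℕ, ρ ^ N * φ ∈ S}
  mul_mem' := by
    rintro φ χ ⟨N, hN⟩ ⟨M, hM⟩
    refine ⟨N + M, ?_⟩
    rw [show ρ ^ (N + M) * (φ * χ) = ρ ^ N * φ * (ρ ^ M * χ) by ring]
    exact mul_mem hN hM
  add_mem' := by
    rintro φ χ ⟨N, hN⟩ ⟨M, hM⟩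
    refine ⟨N + M, ?_⟩
    rw [show ρ ^ (N + M) * (φ + χ) = ρ ^ M * (ρ ^ N * φ) + ρ ^ N * (ρ ^ M * χ) by ring]
    exact add_mem (mul_mem (pow_mem h M) hN) (mul_mem (pow_mem h N) hM)
  algebraMap_mem' c := ⟨0, by simp⟩

theorem le_away {S : Subalgebra ℂ KK} {ρ : KK} (h : ρ ∈ S) {φ : KK} (hφ : φ ∈ S) :
    φ ∈ away S ρ h := ⟨0, by simpa using hφ⟩

theorem inv_away {S : Subalgebra ℂ KK} {ρ : KK} (h : ρ ∈ S) {s : Finset ℕ} {F : ℕ → KK} {w : KK}
    (e : ρ = (∏ m ∈ s, F m) * w) (hw : w ∈ S) (hF : ∀ m ∈ s, F m ∈ S) {m : ℕ} (hm : m ∈ s)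
    (h0 : F m ≠ 0) : (F m)⁻¹ ∈ away S ρ h := by
  refine ⟨1, ?_⟩
  have : ρ ^ 1 * (F m)⁻¹ = (∏ n ∈ s.erase m, F n) * w := by
    rw [e, ← Finset.mul_prod_erase s F hm]; field_simp
  rw [this]
  exact mul_mem (prod_mem fun n hn => hF n (Finset.mem_of_mem_erase hn)) hw

theorem fa_zero (i : Ln) : ((fa i 0)⁻¹)⁻¹ = (vv i)⁻¹ := by simp [fa]

theorem comp (c c' : Option ((i : Ln) × Fin (l i - 1))) : ch c ≤ away (ch c') _ (ratio c c') := by
  rcases c' with _ | ⟨i, k⟩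
  · rcases c with _ | ⟨j, k'⟩
    · exact fun φ hφ => le_away _ hφ
    · refine Algebra.adjoin_le ?_
      rintro φ ((rfl | rfl) | ⟨j', -, rfl⟩)
      · rw [← fa_inv]
        exact inv_away (w := 1) (F := fa j) _
          (by rw [show tt none = 1 from rfl, div_one, mul_one, tt_some]) (one_mem _)
          (fun m _ => n_div j m) (Finset.self_mem_range_succ _) (fa_ne _ _)
      · exact le_away _ (n_div j _)
      · exact le_away _ (n_inv j')
  · rcases c with _ | ⟨j, k'⟩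
    · have key : ∀ j, (vv j)⁻¹ ∈ away (ch (some ⟨i, k⟩)) _ (ratio none (some ⟨i, k⟩)) := by
        intro j
        by_cases h : j = i
        · subst h
          rw [← fa_zero]
          exact inv_away (w := 1) (F := fun m => (fa j m)⁻¹) _
            (by rw [show tt none = 1 from rfl, one_div, mul_one, tt_inv]) (one_mem _)
            (fun m hm => s_fa_inv j k (Finset.mem_range.1 hm))
            (Finset.mem_range.2 (Nat.succ_pos _)) (inv_ne_zero (fa_ne _ _))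
        · exact le_away _ (s_inv i k h)
      refine Algebra.adjoin_le ?_
      rintro φ ((rfl | rfl) | ⟨j', rfl⟩)
      · exact le_away _ (s_y i k)
      · rw [← inv_div yy xx, ← vv_zero]; exact key 0
      · show (1 - a j' * (xx / yy))⁻¹ ∈ _
        rw [one_sub]
        exact mul_mem (le_away _ (s_v i k 0)) (key j')
    · refine Algebra.adjoin_le ?_
      by_cases h : j = i
      · subst h
        rintro φ ((rfl | rfl) | ⟨j', hj, rfl⟩)
        · rcases le_or_gt k'.1 k.1 with h | h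
          · exact le_away _ (s_low j k h)
          · rw [← fa_inv]
            exact inv_away (w := 1) (F := fa j) _ (by rw [mul_one, ratio_up j k k' h.le])
              (one_mem _)
              (fun m hm => s_high j k (Finset.mem_Ico.1 hm).1)
              (Finset.mem_Ico.2 ⟨h, Nat.lt_succ_self _⟩) (fa_ne _ _)
        · rcases le_or_gt k.1 k'.1 with h | h
          · exact le_away _ (s_high j k (Nat.lt_succ_of_le h))
          · show fa j (k'.1 + 1) ∈ _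
            rw [← inv_inv (fa j (k'.1 + 1))]
            exact inv_away (w := 1) (F := fun m => (fa j m)⁻¹) _
              (by rw [mul_one, ratio_down j k k' h.le]) (one_mem _)
              (fun m hm => s_fa_inv j k (Finset.mem_Ico.1 hm).2)
              (Finset.mem_Ico.2 ⟨le_rfl, Nat.succ_lt_succ h⟩) (inv_ne_zero (fa_ne _ _))
        · exact le_away _ (s_inv j k hj)
      · rintro φ ((rfl | rfl) | ⟨j', -, rfl⟩)
        · rw [← fa_inv]
          exact inv_away (F := fa j) _ (by rw [div_eq_mul_inv, tt_some]) (s_tt_inv i k)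
            (fun m _ => s_div i k h m) (Finset.self_mem_range_succ _) (fa_ne _ _)
        · exact le_away _ (s_div i k h _)
        · by_cases h' : j' = i
          · subst h'
            rw [← fa_zero]
            exact inv_away (F := fun m => (fa j' m)⁻¹) _
              (by rw [div_eq_mul_inv, mul_comm, tt_inv]) (s_tt j' k h k')
              (fun m hm => s_fa_inv j' k (Finset.mem_range.1 hm))
              (Finset.mem_range.2 (Nat.succ_pos _)) (inv_ne_zero (fa_ne _ _))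
          · exact le_away _ (s_inv i k h')

/-! ### Properness -/

theorem proper (V : ValuationSubring KK) (hV : ∀ φ ∈ A0, φ ∈ V) : ∃ c, ∀ φ ∈ ch c, φ ∈ V := by
  let S : Subalgebra ℂ KK :=
    { V.toSubring.toSubsemiring with algebraMap_mem' := fun c => hV _ (algebraMap_mem A0 c) }
  have hy : yy ∈ V := hV _ (Algebra.subset_adjoin (Or.inr ⟨none, rfl⟩))
  have hz : ∀ i, xx ^ (l i - 1) / vv i ∈ V := fun i => by
    rw [← ZZ_some]; exact hV _ (Algebra.subset_adjoin (Or.inr ⟨some i, rfl⟩))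
  by_cases h0 : yy / xx ∈ V
  · have hv : ∀ j, vv j ∈ V := fun j => sub_mem h0 (intCast_mem V _)
    obtain ⟨i, hi⟩ : ∃ i, ∀ j, j ≠ i → (vv j)⁻¹ ∈ V := by
      by_cases hall : ∀ j, (vv j)⁻¹ ∈ V
      · exact ⟨0, fun j _ => hall j⟩
      · obtain ⟨i, hi⟩ := not_forall.1 hall
        refine ⟨i, fun j hj => ?_⟩
        by_contra hj'
        have hn : ((a i - a j : ℤ) : ℂ) ≠ 0 :=
          Int.cast_ne_zero.2 (sub_ne_zero.2 fun e => hj (a_inj _ _ e).symm)
        have hc : (((a i - a j : ℤ) : KK))⁻¹ ∈ V := by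
          have := hV _ (algebraMap_mem A0 ((a i - a j : ℤ) : ℂ)⁻¹)
          rwa [map_inv₀, map_intCast] at this
        have hn' : ((a i - a j : ℤ) : KK) ≠ 0 := by
          rw [← map_intCast (algebraMap ℂ KK)]
          exact (map_ne_zero _).2 hn
        have h1 := vv_ne i
        have h2 := vv_ne j
        have h3 := vv_sub i j
        rcases V.mem_or_inv_mem (vv i / vv j) with h | h
        · apply hj'
          have e : (vv j)⁻¹ = (((a i - a j : ℤ) : KK))⁻¹ * (1 - vv i / vv j) := by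
            field_simp; linear_combination -h3
          rw [e]; exact mul_mem hc (sub_mem (one_mem _) h)
        · apply hi
          rw [inv_div] at h
          have e : (vv i)⁻¹ = (((a i - a j : ℤ) : KK))⁻¹ * (vv j / vv i - 1) := by
            field_simp; linear_combination -h3
          rw [e]; exact mul_mem hc (sub_mem h (one_mem _))
    obtain ⟨k, hk1, hk2, hk3⟩ : ∃ k, k < l i - 1 ∧ vv i / xx ^ k ∈ V ∧ xx ^ (k + 1) / vv i ∈ V := by
      have : ∀ n, 0 < n → xx ^ n / vv i ∈ V →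
          ∃ k, k < n ∧ vv i / xx ^ k ∈ V ∧ xx ^ (k + 1) / vv i ∈ V := by
        intro n
        induction n with
        | zero => exact fun h => absurd h (lt_irrefl 0)
        | succ n ih =>
          intro _ hn
          by_cases h : vv i / xx ^ n ∈ V
          · exact ⟨n, Nat.lt_succ_self n, h, hn⟩
          · have hpos : 0 < n := Nat.pos_of_ne_zero fun e => h (by simpa [e] using hv i)
            have h' := (V.mem_or_inv_mem _).resolve_left h
            rw [inv_div] at h'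
            obtain ⟨k, a1, a2, a3⟩ := ih hpos h'
            exact ⟨k, Nat.lt_succ_of_lt a1, a2, a3⟩
      exact this _ (by have := six_le i; omega) (hz i)
    refine ⟨some ⟨i, ⟨k, hk1⟩⟩, fun φ hφ => ?_⟩
    have : ch (some ⟨i, ⟨k, hk1⟩⟩) ≤ S := by
      refine Algebra.adjoin_le ?_
      rintro φ ((rfl | rfl) | ⟨j, hj, rfl⟩)
      · exact hk2
      · exact hk3
      · exact hi j hj
    exact this hφ
  · have hr : xx / yy ∈ V := by
      have := (V.mem_or_inv_mem _).resolve_left h0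
      rwa [inv_div] at this
    refine ⟨none, fun φ hφ => ?_⟩
    have : ch none ≤ S := by
      refine Algebra.adjoin_le ?_
      rintro φ ((rfl | rfl) | ⟨j, rfl⟩)
      · exact hy
      · exact hr
      · show (1 - a j * (xx / yy))⁻¹ ∈ V
        have h1 := vv_ne j
        have h2 : (vv j)⁻¹ ∈ V := by
          refine (V.mem_or_inv_mem _).resolve_left fun h => h0 ?_
          rw [show yy / xx = vv j + a j by unfold vv; ring]
          exact add_mem h (intCast_mem V _)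
        have e : (1 - a j * (xx / yy))⁻¹ = 1 + a j * (vv j)⁻¹ := by
          rw [one_sub, show vv 0 = vv j + a j by rw [vv_zero]; unfold vv; ring]
          field_simp
        rw [e]; exact add_mem (one_mem _) (mul_mem (intCast_mem V _) h2)
    exact this hφ

end Chart

theorem chartStmt : ChartStmt where
  ne := Chart.tt_ne
  base := Chart.base
  ratio := Chart.ratio
  comp c c' _ hφ := Chart.comp c c' hφ
  proper := Chart.proper

end Pool.Agent.MP_648617_ag.Kol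

end
end MrgPart3

-- ======== part 4: formerly Pool.Agent.MP_648617_ag.kol.Core14
section MrgPart4

/-! PROJECT KOL, row CORE. -/

open IsLocalRing PowerSeries

noncomputable section

namespace Pool.Agent.MP_648617_ag.Kol

namespace Core14

theorem not_dvd_pow {c : ℂ⟦X⟧} {t : ℕ} (h : ¬X ^ (t + 1) ∣ c) (n : ℕ) :
    ¬X ^ (t * n + 1) ∣ c ^ n := by
  have h0 : c ≠ 0 := fun e => h (e ▸ dvd_zero _)
  obtain ⟨r, hr⟩ := ENat.ne_top_iff_exists.1 (order_eq_top.not.2 h0)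
  have key : ∀ (F : ℂ⟦X⟧) (m : ℕ), X ^ m ∣ F ↔ (m : ℕ∞) ≤ F.order := fun F m =>
    X_pow_dvd_iff.trans ⟨nat_le_order F m, fun h i hi =>
      coeff_of_lt_order i (lt_of_lt_of_le (by exact_mod_cast hi) h)⟩
  rw [key, ← hr, Nat.cast_le] at h
  rw [key, order_pow, ← hr, nsmul_eq_mul, ← Nat.cast_mul, Nat.cast_le]
  have : n * r ≤ n * t := Nat.mul_le_mul_left n (by omega)
  rw [mul_comm t]
  omega

theorem ax_δ {O : Type} [CommRing O] [IsLocalRing O] {𝒞 : Core O} {ax : O →+* ℂ⟦X⟧} {i : Ln}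
    (h : IsAx 𝒞 i ax) : ax (𝒞.δ i) = X ^ 10 := by
  rw [Core.δ, map_mul, map_prod, h.self, Finset.prod_congr rfl (g := fun _ => X), Finset.prod_const,
    Finset.card_erase_of_mem (Finset.mem_univ _), ← pow_succ']
  · rfl
  · intro j hj
    rw [map_sub, h.self, h.base,
      mem_max_B.1 (mem_max_ps.1 (𝒞.al_mem j i (Finset.ne_of_mem_erase hj))), map_zero, sub_zero]

end Core14

open Core14 in
theorem core14 (h1 : DerStmt) (h2 : RegStmt) (h3 : PsiStmt) (h4 : LbStmt) (h5 : UbStmt)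
    (h6 : AxvStmt) (h7 : CountStmt) (h8 : ValStmt) : CoreStmt := by
  rintro O _ _ _ 𝒞 K _ ι hι ⟨𝒵, hZ, hM⟩
  have : IsDomain O := hι.1.isDomain ι
  obtain ⟨dx, dy, hd⟩ := h1 O 𝒞 K ι hι
  obtain ⟨ax, hax⟩ := (h3 O 𝒞).1 0
  obtain ⟨V, hV, hVm, hVd⟩ := h8 O K ι hι ax
  obtain ⟨e, Y, hn, hreg, hY, hcov⟩ := hM V hV (hVm _ (by simp [Core.β_apply, hax.base]))
  obtain ⟨h, hh⟩ := hd.rep e
  obtain ⟨M, v, H, hH, hv, hdv⟩ := h4 O 𝒞 K ι hι e.n h hn (h2 O 𝒞 K ι hι dx dy hd 𝒵 hZ e h hh hreg)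
    ax hax
  have hι0 : ∀ {o}, o ≠ 0 → ι o ≠ 0 := fun ho => (map_ne_zero_iff ι hι.1).2 ho
  have h0 : h ≠ 0 := by
    rintro rfl
    have hz : 𝒞.z 0 ≠ 0 := 𝒞.toAxes.Z_ne _
    have := hVd 1 (𝒞.z 0) (ι (𝒞.z 0))⁻¹ 1 (hcov _ fun W hW => by
      obtain ⟨D, E, hD, hE, w, -, hw⟩ := (hY W hW).2.2.2
      simp [hh D E hD.1 hE.1] at hw) (by rw [inv_mul_cancel₀ (hι0 hz), map_one]) hz
      (by rw [hax.self, pow_one])
    rw [map_one, pow_one] at this
    exact X_prime.not_isUnit (isUnit_of_dvd_one this)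
  generalize hne : e.n = n at *
  obtain ⟨N, hN, hvan, hc⟩ := h7 𝒞.ut 𝒞.vt 𝒞.ut0 𝒞.vt0 (n + 1)
  obtain ⟨c, d, t, hcd, hdd, hcc⟩ := h6 O 𝒞 ax hax (n + 1) N n.succ_pos hN hvan hc
  set σ := ι (𝒞.sharp (3 * (n + 1) + 6) N) / ι (∏ j, 𝒞.yy j ^ ee (n + 1) j) with hσ
  have hP : ι (∏ j, 𝒞.yy j ^ ee (n + 1) j) ≠ 0 :=
    hι0 (Finset.prod_ne_zero_iff.2 fun j _ => pow_ne_zero _ (𝒞.yy_ne j))
  have hφ : σ ^ n / h ^ (2 * (n + 1)) ∈ V := hcov _ fun W hW => by
    obtain ⟨D, E, hD, hE, w, hw, hw1⟩ := (hY W hW).2.2.2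
    have hs := h5 O 𝒞 K ι hι dx dy hd (ee (n + 1)) (kap (n + 1)) (2 * (n + 1)) _ N hN hvan
      (fun p => (kap_eq _ p).le) W (hY W hW).1 (hY W hW).2.1 D E hD hE
    rw [hh D E hD.1 hE.1, hne] at hw1
    have : σ ^ n / h ^ (2 * (n + 1)) =
        (σ * 𝒞.jac ι D E ^ (2 * (n + 1))) ^ n * w ^ (2 * (n + 1)) := by
      rw [div_eq_iff (pow_ne_zero _ h0)]
      calc σ ^ n = σ ^ n * (h * 𝒞.jac ι D E ^ n * w) ^ (2 * (n + 1)) := by
            rw [hw1, one_pow, mul_one]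
        _ = _ := by ring
    rw [this]
    exact mul_mem (pow_mem hs _) (pow_mem hw _)
  have hc0 : c ≠ 0 := fun e => hcc (by simp [e])
  have hδ : 𝒞.δ 0 ≠ 0 := fun e => by simpa [e] using (ax_δ hax).symm
  have hd0 : d ≠ 0 := fun e => hP (by
    rw [e, mul_zero] at hcd
    rw [(mul_eq_zero.1 hcd).resolve_left hc0, map_zero])
  have hH0 : H ≠ 0 := fun e => mul_ne_zero h0 (hι0 (mul_ne_zero (pow_ne_zero n (𝒞.yy_ne 0))
    (pow_ne_zero M hδ))) (by rw [← hH, e, map_zero])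
  have hc' : ι c = σ * ι (𝒞.yy 0) ^ (2 * (n + 1)) * ι d := by
    rw [hσ, div_mul_eq_mul_div, div_mul_eq_mul_div, eq_div_iff hP, ← map_mul, hcd, map_mul,
      map_mul, map_pow]
  have := hVd (c ^ n * 𝒞.δ 0 ^ (M * (2 * (n + 1)))) (H ^ (2 * (n + 1)) * d ^ n) _
    (v * (2 * (n + 1)) + (t + (n + 1)) * n) hφ (by
      simp only [map_mul, map_pow, hH, hc']
      field_simp
      ring) (mul_ne_zero (pow_ne_zero _ hH0) (pow_ne_zero _ hd0)) (by
      rw [map_mul, map_pow, map_pow, pow_add, pow_mul, pow_mul X]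
      exact mul_dvd_mul (pow_dvd_pow_of_dvd hdv _) (pow_dvd_pow_of_dvd hdd _))
  rw [map_mul, map_pow, map_pow, ax_δ hax, ← pow_mul] at this
  refine not_dvd_pow hcc n ((mul_dvd_mul_iff_right
    (pow_ne_zero (10 * (M * (2 * (n + 1)))) (X_ne_zero (R := ℂ)))).1 ?_)
  rw [← pow_add]
  exact (pow_dvd_pow _ (by nlinarith)).trans this

end Pool.Agent.MP_648617_ag.Kol

end
end MrgPart4

-- ======== part 5: formerly Pool.Agent.MP_648617_ag.kol.Der
section MrgPart5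

/-! Row DER: the coordinate vector fields. -/

open IsLocalRing PowerSeries

noncomputable section

namespace Pool.Agent.MP_648617_ag.Kol

namespace Der

section Dual

variable {S O : Type} [CommRing S] [CommRing O]

/-- The ring map to the dual numbers given by a derivation along `ι`. -/
def dualHom (ι : S →+* O) (d : S →+ O) (hd : ∀ a b, d (a * b) = ι a * d b + ι b * d a) :
    S →+* DualNumber O where
  toFun r := (ι r, d r)
  map_one' := by
    ext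
    · exact map_one ι
    · have := hd 1 1
      rw [mul_one, map_one ι, one_mul] at this
      exact left_eq_add.1 this
  map_mul' r s := by
    ext
    · exact map_mul ι r s
    · rw [DualNumber.snd_mul]
      show d (r * s) = ι r * d s + d r * ι s
      rw [hd]; ring
  map_zero' := by
    ext
    · exact map_zero ι
    · exact map_zero d
  map_add' r s := by
    ext
    · exact map_add ι r s
    · exact map_add d r s

theorem dual_cancel [IsDomain O] {u t : DualNumber O} (hu : u.fst ≠ 0) (h : u * t = 0) :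
    t = 0 := by
  have h1 : t.fst = 0 := by
    have := congrArg TrivSqZeroExt.fst h
    rw [TrivSqZeroExt.fst_mul, TrivSqZeroExt.fst_zero] at this
    exact (mul_eq_zero.1 this).resolve_left hu
  have h2 : t.snd = 0 := by
    have := congrArg TrivSqZeroExt.snd h
    rw [DualNumber.snd_mul, h1, mul_zero, add_zero, TrivSqZeroExt.snd_zero] at this
    exact (mul_eq_zero.1 this).resolve_left hu
  ext
  · exact h1
  · exact h2

theorem germ_dual [Algebra ℂ O] [IsGerm O] : IsGerm (DualNumber O) := by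
  let τ : O⟦X⟧ →+* DualNumber O := dualHom cc (coeff 1 : O⟦X⟧ →ₗ[O] O).toAddMonoidHom
    fun a b => by
      show coeff 1 (a * b) = cc a * coeff 1 b + cc b * coeff 1 a
      rw [coeff_one_mul]; ring
  let τ' : O⟦X⟧ →ₐ[ℂ] DualNumber O :=
    { τ with
      commutes' := fun c => by
        ext
        · show cc (algebraMap ℂ O⟦X⟧ c) = _
          simp [PowerSeries.algebraMap_apply, TrivSqZeroExt.algebraMap_eq_inl']
        · show coeff 1 (algebraMap ℂ O⟦X⟧ c) = _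
          simp [PowerSeries.algebraMap_apply, TrivSqZeroExt.algebraMap_eq_inl'] }
  refine Vers.germ_of_surj τ' fun w => ⟨C w.fst + C w.snd * X, ?_⟩
  ext
  · show cc (C w.fst + C w.snd * X) = _
    simp
  · show coeff 1 (C w.fst + C w.snd * X) = _
    simp [coeff_C]

end Dual

section Frac

variable {O K : Type} [CommRing O] [Field K] {ι : O →+* K}

/-- A derivation extends to the fraction field. -/
theorem extend (h : IsFrac ι) (d : O →+ K) (hd : ∀ a b, d (a * b) = ι a * d b + ι b * d a) :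
    ∃ D : Derivation ℤ K K, ∀ o, D (ι o) = d o := by
  let _ := ι.toAlgebra
  have hd' : IsDomain O := h.1.isDomain ι
  have hF : IsFractionRing O K :=
    { map_units := fun y => isUnit_iff_ne_zero.2 fun e =>
        nonZeroDivisors.ne_zero y.2 (h.1 (e.trans (map_zero ι).symm))
      surj := fun φ => by
        obtain ⟨a, b, hb, e⟩ := h.2 φ
        exact ⟨(a, ⟨b, mem_nonZeroDivisors_of_ne_zero hb⟩), e⟩
      exists_of_eq := fun e => ⟨1, by rw [h.1 e]⟩ }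
  have hu : ∀ y : nonZeroDivisors O, IsUnit (dualHom ι d hd y) := fun y =>
    TrivSqZeroExt.isUnit_iff_isUnit_fst.2 (IsLocalization.map_units K y)
  let Ψ : K →+* DualNumber K := IsLocalization.lift hu
  have hΨ : ∀ o, Ψ (ι o) = dualHom ι d hd o := fun o => IsLocalization.lift_eq hu o
  have h1 : ∀ k, (Ψ k).fst = k := fun k => by
    have : (TrivSqZeroExt.fstHom K K K).toRingHom.comp Ψ = RingHom.id K :=
      IsLocalization.ringHom_ext (nonZeroDivisors O) (by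
        ext o
        exact congrArg TrivSqZeroExt.fst (hΨ o))
    exact RingHom.congr_fun this k
  let L : K →+ K := AddMonoidHom.mk' (fun k => (Ψ k).snd) fun a b => by
    rw [map_add, TrivSqZeroExt.snd_add]
  refine ⟨Derivation.mk' L.toIntLinearMap fun a b => ?_,
    fun o => congrArg TrivSqZeroExt.snd (hΨ o)⟩
  show (Ψ (a * b)).snd = a * (Ψ b).snd + b * (Ψ a).snd
  rw [map_mul, DualNumber.snd_mul, h1, h1]; ring

variable {Bs : Type} [CommRing Bs] {β : Bs →+* O}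

theorem field_smul (h : IsFrac ι) {D : Derivation ℤ K K} (hD : IsField β ι D) (k : K) :
    IsField β ι (k • D) := by
  have hd' : IsDomain O := h.1.isDomain ι
  obtain ⟨h0, c, hc, hr⟩ := hD
  obtain ⟨a, b, hb, e⟩ := h.2 k
  refine ⟨fun s => by rw [Derivation.smul_apply, h0, smul_zero], c * b, mul_ne_zero hc hb,
    fun o => ?_⟩
  obtain ⟨r, hr⟩ := hr o
  refine ⟨a * r, ?_⟩
  rw [map_mul, map_mul, hr, ← e, Derivation.smul_apply, smul_eq_mul]; ring

theorem field_add (h : IsFrac ι) {D E : Derivation ℤ K K} (hD : IsField β ι D)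
    (hE : IsField β ι E) : IsField β ι (D + E) := by
  have hd' : IsDomain O := h.1.isDomain ι
  obtain ⟨h0, c, hc, hr⟩ := hD
  obtain ⟨h0', c', hc', hr'⟩ := hE
  refine ⟨fun s => by rw [Derivation.add_apply, h0, h0', add_zero], c * c', mul_ne_zero hc hc',
    fun o => ?_⟩
  obtain ⟨r, hr⟩ := hr o
  obtain ⟨r', hr'⟩ := hr' o
  refine ⟨c' * r + c * r', ?_⟩
  rw [map_add, map_mul, map_mul, map_mul, hr, hr', Derivation.add_apply]; ring

/-- Clearing the denominator of a vector field. -/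
theorem exists_int (h : IsFrac ι) {D : Derivation ℤ K K} (hD : IsField β ι D) :
    ∃ (c : K) (δ : O →+ O), c ≠ 0 ∧ (∀ o, ι (δ o) = c * D (ι o)) ∧
      ∀ a b, δ (a * b) = a * δ b + b * δ a := by
  obtain ⟨-, c, hc, hr⟩ := hD
  choose δ hδ using hr
  refine ⟨ι c, AddMonoidHom.mk' δ fun a b => h.1 ?_,
    fun e => hc (h.1 (e.trans (map_zero ι).symm)), hδ, fun a b => h.1 ?_⟩
  · rw [map_add, hδ, hδ, hδ, map_add, map_add]; ring
  · show ι (δ (a * b)) = ι (a * δ b + b * δ a)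
    rw [map_add, map_mul, map_mul, hδ, hδ, hδ, map_mul, Derivation.leibniz, smul_eq_mul,
      smul_eq_mul]
    ring

end Frac

section Main

variable {O : Type} [CommRing O] [Algebra ℂ O] [IsGerm O] (𝒞 : Core O)

theorem der_mul {R : Type} [CommRing R] (F G : R⟦X⟧) :
    derivative R (F * G) = F * derivative R G + G * derivative R F :=
  (derivative R).leibniz F G

theorem chain_int (δ : O →+ O) (hδ : ∀ a b, δ (a * b) = a * δ b + b * δ a)
    (h0 : ∀ b, δ (𝒞.β b) = 0) (F : B⟦X⟧) : δ (𝒞.φ F) = 𝒞.φ (derivative B F) * δ 𝒞.x := by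
  have hx : 𝒞.x ∈ maximalIdeal O := 𝒞.loc _ (mem_max_ps.2 (by simp))
  have key : ∀ (n : ℕ) (F : B⟦X⟧),
      δ (𝒞.φ F) - 𝒞.φ (derivative B F) * δ 𝒞.x ∈ maximalIdeal O ^ n := by
    intro n
    induction n with
    | zero => intro F; simp
    | succ n ih =>
      intro F
      obtain ⟨G, hG⟩ : X ∣ F - C (cc F) := X_dvd_iff.2 (by simp)
      have e : F = C (cc F) + X * G := by rw [← hG]; ring
      have : δ (𝒞.φ F) - 𝒞.φ (derivative B F) * δ 𝒞.x =
          𝒞.x * (δ (𝒞.φ G) - 𝒞.φ (derivative B G) * δ 𝒞.x) := by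
        rw [e, map_add, map_add, map_mul, hδ, map_add, der_mul, derivative_C,
          derivative_X, ← 𝒞.β_apply, h0]
        simp only [map_add, map_mul, mul_one, zero_add, Core.x]
        ring
      rw [this, pow_succ']
      exact Ideal.mul_mem_mul hx (ih G)
  exact sub_eq_zero.1 (Vers.krull fun n => key n F)

theorem gen_int (δ : O →+ O) (hδ : ∀ a b, δ (a * b) = a * δ b + b * δ a) (J : Ideal O)
    (hφ : ∀ F, δ (𝒞.φ F) ∈ J) (hZ : ∀ p, δ (𝒞.Z p) ∈ J) (o : O) : δ o ∈ J := by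
  have key : ∀ p (n : ℕ) (H : B⟦X⟧⟦X⟧), δ (𝒞.E p H) ∈ J ⊔ maximalIdeal O ^ n := by
    intro p n
    induction n with
    | zero => intro H; simp
    | succ n ih =>
      intro H
      obtain ⟨G, hG⟩ : X ∣ H - C (cc H) := X_dvd_iff.2 (by simp)
      have e : H = C (cc H) + X * G := by rw [← hG]; ring
      obtain ⟨j, hj, r, hr, e'⟩ := Submodule.mem_sup.1 (ih G)
      rw [e, map_add, map_add, map_mul, hδ, 𝒞.E_C, ← e', mul_add]
      refine add_mem (Ideal.mem_sup_left (hφ _)) (add_mem (add_mem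
        (Ideal.mem_sup_left (J.mul_mem_left _ hj)) (Ideal.mem_sup_right ?_))
        (Ideal.mem_sup_left (J.mul_mem_left _ (hZ p))))
      rw [pow_succ']
      exact Ideal.mul_mem_mul (𝒞.mem p) hr
  obtain ⟨c, H, rfl⟩ := 𝒞.toAxes.exists_coord o
  rw [map_add, map_sum]
  refine add_mem (hφ c) (sum_mem fun p _ => ?_)
  rw [hδ]
  exact add_mem (J.mul_mem_left _ (Vers.closed J fun n => key p n _))
    (J.mul_mem_left _ (hZ p))

/-- A derivation of `O` with prescribed values on `x` and `y`, up to the factor `∏ y_i`. -/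
theorem exists_der (h : UpStmt) [IsDomain O] (lam mu : O) :
    ∃ δ : O →+ O, (∀ a b, δ (a * b) = a * δ b + b * δ a) ∧
      (∀ F, δ (𝒞.φ F) = (∏ i, 𝒞.yy i) * lam * 𝒞.φ (derivative B F)) ∧
      δ 𝒞.y = (∏ i, 𝒞.yy i) * mu := by
  classical
  have hg : IsGerm (DualNumber O) := germ_dual
  let d : B⟦X⟧ →+ O := AddMonoidHom.mk'
    (fun F => (∏ i, 𝒞.yy i) * lam * 𝒞.φ (derivative B F)) fun F G => by
      rw [map_add, map_add]; ring
  have hd : ∀ a b, d (a * b) = 𝒞.φ a * d b + 𝒞.φ b * d a := fun a b => by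
    show (∏ i, 𝒞.yy i) * lam * 𝒞.φ (derivative B (a * b)) =
      𝒞.φ a * ((∏ i, 𝒞.yy i) * lam * 𝒞.φ (derivative B b)) +
      𝒞.φ b * ((∏ i, 𝒞.yy i) * lam * 𝒞.φ (derivative B a))
    rw [der_mul, map_add, map_mul, map_mul]; ring
  let φ' := dualHom 𝒞.φ d hd
  let Z' : Option Ln → DualNumber O := fun p => match p with
    | none => (𝒞.y, (∏ i, 𝒞.yy i) * mu)
    | some i => (𝒞.z i, (∏ j ∈ Finset.univ.erase i, 𝒞.yy j) *
        (lam * 𝒞.φ (derivative B (𝒞.g i)) -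
          𝒞.z i * (mu - lam * 𝒞.φ (derivative B (𝒞.f i)))))
  have hZ1 : ∀ p, (Z' p).fst = 𝒞.Z p := fun p => by cases p <;> rfl
  have r0 : ∀ i, (Z' none - φ' (𝒞.f i)) * Z' (some i) = φ' (𝒞.g i) := fun i => by
    ext
    · exact 𝒞.yy_mul_z i
    · rw [DualNumber.snd_mul]
      show 𝒞.yy i * ((∏ j ∈ Finset.univ.erase i, 𝒞.yy j) *
        (lam * 𝒞.φ (derivative B (𝒞.g i)) -
          𝒞.z i * (mu - lam * 𝒞.φ (derivative B (𝒞.f i))))) +
        ((∏ i, 𝒞.yy i) * mu - (∏ i, 𝒞.yy i) * lam * 𝒞.φ (derivative B (𝒞.f i))) * 𝒞.z i =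
        (∏ i, 𝒞.yy i) * lam * 𝒞.φ (derivative B (𝒞.g i))
      rw [← Finset.mul_prod_erase Finset.univ 𝒞.yy (Finset.mem_univ i)]
      ring
  have hrel : Rel 𝒞.f 𝒞.g 𝒞.al φ' Z' := ⟨r0, fun i j hij => by
    rw [← sub_eq_zero]
    refine dual_cancel (u := Z' none - φ' (𝒞.f i)) (𝒞.yy_ne i)
      (dual_cancel (u := Z' none - φ' (𝒞.f j)) (𝒞.yy_ne j) ?_)
    have hi := r0 i
    have hj := r0 j
    rw [𝒞.div i j hij, map_mul, map_sub] at hi
    rw [𝒞.div j i hij.symm, map_mul, map_sub] at hj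
    linear_combination
      ((Z' none - φ' (𝒞.f j)) * Z' (some j) - φ' (𝒞.al i j) * (Z' none - φ' (𝒞.f j))) * hi +
      ((φ' (𝒞.f j) - φ' (𝒞.f i)) * φ' (𝒞.al j i) -
        φ' (𝒞.al j i) * (Z' none - φ' (𝒞.f i))) * hj⟩
  obtain ⟨Φ, hΦ, hΦZ⟩ := h B⟦X⟧ O 𝒞.toRim (DualNumber O) (maximalIdeal _) φ' Z'
    (fun p hu => 𝒞.toAxes.Z_mem p (hZ1 p ▸ TrivSqZeroExt.isUnit_iff_isUnit_fst.1 hu)) hrel
  have h1 : ∀ o, (Φ o).fst = o := fun o => by
    have : (TrivSqZeroExt.fstHom O O O).toRingHom.comp Φ = RingHom.id O :=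
      𝒞.toAxes.hom_ext (maximalIdeal O) _ _ (fun t => congrArg TrivSqZeroExt.fst (hΦ t))
        (fun p => (congrArg TrivSqZeroExt.fst (hΦZ p)).trans (hZ1 p))
        (fun p => by
          show (Φ (𝒞.Z p)).fst ∈ _
          rw [hΦZ, hZ1]; exact 𝒞.toAxes.Z_mem p)
    exact RingHom.congr_fun this o
  refine ⟨AddMonoidHom.mk' (fun o => (Φ o).snd) fun a b => by
    rw [map_add, TrivSqZeroExt.snd_add], fun a b => ?_,
    fun F => congrArg TrivSqZeroExt.snd (hΦ F), congrArg TrivSqZeroExt.snd (hΦZ none)⟩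
  show (Φ (a * b)).snd = a * (Φ b).snd + b * (Φ a).snd
  rw [map_mul, DualNumber.snd_mul, h1, h1]; ring

variable {K : Type} [Field K] {ι : O →+* K}

theorem exists_field (h : UpStmt) (hι : IsFrac ι) (lam mu : O) :
    ∃ D, IsField 𝒞.β ι D ∧ D (ι 𝒞.x) = ι lam ∧ D (ι 𝒞.y) = ι mu := by
  have hd' : IsDomain O := hι.1.isDomain ι
  obtain ⟨δ, hδ, hφ, hy⟩ := exists_der 𝒞 h lam mu
  have hc : (∏ i, 𝒞.yy i) ≠ 0 := Finset.prod_ne_zero_iff.2 fun i _ => 𝒞.yy_ne i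
  have hc' : ι (∏ i, 𝒞.yy i) ≠ 0 := fun e => hc (hι.1 (e.trans (map_zero ι).symm))
  obtain ⟨D, hD⟩ := extend hι (AddMonoidHom.mk' (fun o => (ι (∏ i, 𝒞.yy i))⁻¹ * ι (δ o))
    fun a b => by rw [map_add, map_add]; ring) fun a b => by
      show (ι (∏ i, 𝒞.yy i))⁻¹ * ι (δ (a * b)) = ι a * ((ι (∏ i, 𝒞.yy i))⁻¹ * ι (δ b)) +
        ι b * ((ι (∏ i, 𝒞.yy i))⁻¹ * ι (δ a))
      rw [hδ, map_add, map_mul, map_mul]; ring
  have hD' : ∀ o, D (ι o) = (ι (∏ i, 𝒞.yy i))⁻¹ * ι (δ o) := hD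
  refine ⟨D, ⟨fun b => ?_, _, hc, fun o => ⟨δ o, ?_⟩⟩, ?_, ?_⟩
  · rw [hD', 𝒞.β_apply, hφ, derivative_C, map_zero, mul_zero, map_zero, mul_zero]
  · rw [hD', mul_inv_cancel_left₀ hc']
  · rw [hD', Core.x, hφ, derivative_X, map_one, mul_one, map_mul, inv_mul_cancel_left₀ hc']
  · rw [hD', hy, map_mul, inv_mul_cancel_left₀ hc']

theorem chain (hι : IsFrac ι) {D : Derivation ℤ K K} (hD : IsField 𝒞.β ι D) (F : B⟦X⟧) :
    D (ι (𝒞.φ F)) = ι (𝒞.φ (derivative B F)) * D (ι 𝒞.x) := by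
  obtain ⟨c, δ, hc, hδ, hl⟩ := exists_int hι hD
  have := congrArg ι (chain_int 𝒞 δ hl
    (fun b => hι.1 (by rw [hδ, hD.1, mul_zero, map_zero])) F)
  rw [map_mul, hδ, hδ] at this
  exact mul_left_cancel₀ hc (by rw [this]; ring)

/-- The values of a vector field on `O` are combinations of its values on the generators. -/
theorem gen (hι : IsFrac ι) {D : Derivation ℤ K K} (hD : IsField 𝒞.β ι D) (W : AddSubgroup K)
    (hW : ∀ o, ∀ w ∈ W, ι o * w ∈ W) (hx : D (ι 𝒞.x) ∈ W) (hZ : ∀ p, D (ι (𝒞.Z p)) ∈ W)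
    (o : O) : D (ι o) ∈ W := by
  obtain ⟨c, δ, hc, hδ, hl⟩ := exists_int hι hD
  let J : Ideal O :=
    { carrier := {o | c⁻¹ * ι o ∈ W}
      add_mem' := fun {a b} ha hb => by
        show c⁻¹ * ι (a + b) ∈ W
        rw [map_add, mul_add]; exact W.add_mem ha hb
      zero_mem' := by
        show c⁻¹ * ι 0 ∈ W
        rw [map_zero, mul_zero]; exact W.zero_mem
      smul_mem' := fun a b hb => by
        show c⁻¹ * ι (a * b) ∈ W
        rw [map_mul, mul_left_comm]; exact hW a _ hb }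
  have hJ : ∀ o, δ o ∈ J ↔ D (ι o) ∈ W := fun o => by
    show c⁻¹ * ι (δ o) ∈ W ↔ _
    rw [hδ, inv_mul_cancel_left₀ hc]
  exact (hJ o).1 (gen_int 𝒞 δ hl J
    (fun F => (hJ _).2 (by rw [chain 𝒞 hι hD]; exact hW _ _ hx)) (fun p => (hJ _).2 (hZ p)) o)

theorem eq_zero (hι : IsFrac ι) {D : Derivation ℤ K K} (hD : IsField 𝒞.β ι D)
    (hx : D (ι 𝒞.x) = 0) (hy : D (ι 𝒞.y) = 0) : D = 0 := by
  have hne : ∀ {o : O}, o ≠ 0 → ι o ≠ 0 := fun ho e => ho (hι.1 (e.trans (map_zero ι).symm))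
  have hφ : ∀ F, D (ι (𝒞.φ F)) = 0 := fun F => by rw [chain 𝒞 hι hD, hx, mul_zero]
  have h0 : ∀ o, D (ι o) = 0 := fun o => by
    refine AddSubgroup.mem_bot.1 (gen 𝒞 hι hD ⊥ (fun o w hw => ?_) (AddSubgroup.mem_bot.2 hx)
      (fun p => AddSubgroup.mem_bot.2 ?_) o)
    · rw [AddSubgroup.mem_bot] at hw ⊢
      rw [hw, mul_zero]
    · cases p with
      | none => exact hy
      | some i =>
        have h1 : D (ι (𝒞.yy i)) = 0 := by rw [Core.yy, map_sub, map_sub, hy, hφ, sub_zero]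
        have h2 := hφ (𝒞.g i)
        rw [← 𝒞.yy_mul_z, map_mul, Derivation.leibniz, h1, smul_zero, add_zero, smul_eq_mul] at h2
        exact (mul_eq_zero.1 h2).resolve_left (hne (𝒞.yy_ne i))
  ext φ
  obtain ⟨a, b, hb, e⟩ := hι.2 φ
  have h2 := h0 a
  rw [← e, Derivation.leibniz, h0, smul_zero, zero_add, smul_eq_mul] at h2
  exact (mul_eq_zero.1 h2).resolve_left (hne hb)

end Main

end Der

/-- Row DER. -/
theorem der (h : UpStmt) : DerStmt := by
  intro O _ _ _ 𝒞 K _ ι hι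
  obtain ⟨dx, fx, xx, xy⟩ := Der.exists_field 𝒞 h hι 1 0
  obtain ⟨dy, fy, yx, yy⟩ := Der.exists_field 𝒞 h hι 0 1
  rw [map_one] at xx yy
  rw [map_zero] at xy yx
  have comb : ∀ c c' : K, IsField 𝒞.β ι (c • dx + c' • dy) := fun c c' =>
    Der.field_add hι (Der.field_smul hι fx c) (Der.field_smul hι fy c')
  have span : ∀ D, IsField 𝒞.β ι D → D = D (ι 𝒞.x) • dx + D (ι 𝒞.y) • dy := fun D hD => by
    have := Der.eq_zero 𝒞 hι (Der.field_add hι hD
      (Der.field_smul hι (comb (D (ι 𝒞.x)) (D (ι 𝒞.y))) (-1)))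
      (by simp [xx, yx]) (by simp [xy, yy])
    ext k
    have h2 := DFunLike.congr_fun this k
    simp only [Derivation.add_apply, Derivation.smul_apply, smul_eq_mul,
      Derivation.zero_apply] at h2 ⊢
    linear_combination h2
  refine ⟨dx, dy, fx, fy, xx, xy, yx, yy, comb, span, fun D hD => Der.chain 𝒞 hι hD,
    fun D hD W hW hloc hx hy hz => ⟨hD, fun φ hφ => ?_⟩, fun e => ?_⟩
  · have hO : ∀ o, D (ι o) ∈ W := Der.gen 𝒞 hι hD W.toSubring.toAddSubgroup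
      (fun o w hw => W.mul_mem _ _ (hW o) hw) hx fun p => by
        cases p with
        | none => exact hy
        | some i => exact hz i
    obtain ⟨a, b, hb, e⟩ := hloc φ hφ
    rw [ValuationSubring.mem_nonunits_iff, not_lt] at hb
    have hb0 : ι b ≠ 0 := fun e0 => by
      rw [e0, map_zero] at hb
      exact not_lt.2 hb zero_lt_one
    have hinv : (ι b)⁻¹ ∈ W := by
      rw [← W.valuation_le_one_iff, map_inv₀]
      exact inv_le_one_of_one_le₀ hb
    have h2 : D φ = (D (ι a) - φ * D (ι b)) * (ι b)⁻¹ := by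
      rw [← e, Derivation.leibniz, smul_eq_mul, smul_eq_mul]
      field_simp
      ring
    rw [h2]
    exact W.toSubring.mul_mem (W.toSubring.sub_mem (hO a) (W.toSubring.mul_mem hφ (hO b))) hinv
  · refine ⟨e.h * (dx e.a * dy e.b - dx e.b * dy e.a) ^ e.n, fun D E hD hE => ?_⟩
    have hD' := fun k => DFunLike.congr_fun (span D hD) k
    have hE' := fun k => DFunLike.congr_fun (span E hE) k
    simp only [Derivation.add_apply, Derivation.smul_apply, smul_eq_mul] at hD' hE'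
    rw [Form.val, Core.jac, mul_assoc, ← mul_pow, hD' e.a, hD' e.b, hE' e.a, hE' e.b]
    congr 2
    ring

end Pool.Agent.MP_648617_ag.Kol

end
end MrgPart5

-- ======== part 6: formerly Pool.Agent.MP_648617_ag.kol.Lb
section MrgPart6

/-! PROJECT KOL: the lower bound on the `z_0`-axis. -/

open IsLocalRing PowerSeries

noncomputable section

namespace Pool.Agent.MP_648617_ag.Kol

namespace Lb

theorem jB_ne {c : B} (hc : c ≠ 0) : jB c ≠ 0 := by
  intro h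
  refine hc (PowerSeries.ext fun n => ?_)
  have h1 := congrArg (coeff n) h
  rw [jB, coeff_map, map_zero] at h1
  have h2 := congrArg (fun F : LaurentPolynomial ℂ => F.coeff 0) h1
  simpa using h2

theorem om_pow (n : ℕ) : om 1 ^ n = om n := by
  rw [om, om, ← map_pow, LaurentPolynomial.T_pow, mul_one]

theorem prod_split {S : Type} [CommRing S] {i k : Ln} (h : i ≠ k) (F : Ln → S) (c : S)
    (hF : ∀ j, j ≠ i → j ≠ k → F j = c) :
    ∏ j ∈ Finset.univ.erase i, F j = F k * c ^ 8 := by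
  have hk : k ∈ Finset.univ.erase i := Finset.mem_erase.2 ⟨h.symm, Finset.mem_univ _⟩
  rw [← Finset.mul_prod_erase _ _ hk]
  congr 1
  rw [Finset.prod_congr rfl (g := fun _ => c) fun j hj =>
    hF j (Finset.mem_erase.1 (Finset.mem_erase.1 hj).2).1 (Finset.mem_erase.1 hj).1,
    Finset.prod_const, Finset.card_erase_of_mem hk,
    Finset.card_erase_of_mem (Finset.mem_univ _)]
  rfl

variable {O : Type} [CommRing O] [IsLocalRing O] {𝒞 : Core O} {i k : Ln}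

theorem psi_δ (h : i ≠ k) (P : Psi 𝒞 i k) : P.Ψ (𝒞.δ i) =
    (jB (𝒞.ϖ ^ (l i - 1) * P.α) * (1 - om 1)) ^ 9 * (-jB (𝒞.ϖ ^ (l i - 1) * P.α) * om 1) := by
  rw [Core.δ, map_mul, map_prod, prod_split h _ (P.Ψ (𝒞.z i)) fun j h1 h2 => by
    rw [map_sub, (P.alj j h1 h2).1, sub_zero], map_sub, P.al, P.zi]
  ring

theorem psi_δ' (h : i ≠ k) (P : Psi 𝒞 i k) : P.Ψ (𝒞.δ k) =
    (jB (𝒞.ϖ ^ (l k - 1) * P.α') * (1 - om (-1))) ^ 9 *
      (-jB (𝒞.ϖ ^ (l k - 1) * P.α') * om (-1)) := by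
  rw [Core.δ, map_mul, map_prod, prod_split h.symm _ (P.Ψ (𝒞.z k)) fun j h1 h2 => by
    rw [map_sub, (P.alj j h2 h1).2, sub_zero], map_sub, P.al', P.zk]
  ring

theorem psi_γ (P : Psi 𝒞 i k) (M : ℕ) :
    ∃ (g : ℕ) (γ : B), cc γ ≠ 0 ∧ P.Ψ (𝒞.γ i k ^ M) = jB (X ^ g * γ) := by
  have h1 : ∀ s : Finset Ln, (∀ j ∈ s, j ≠ i ∧ j ≠ k) →
      ∃ (g : ℕ) (γ : B), cc γ ≠ 0 ∧ P.Ψ (∏ j ∈ s, 𝒞.yy j) = jB (X ^ g * γ) := by
    intro s
    induction s using Finset.induction_on with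
    | empty => exact fun _ => ⟨0, 1, by simp, by simp⟩
    | insert j s hj ih =>
      intro hs
      obtain ⟨g, γ, hγ, e⟩ := ih fun j hj => hs j (Finset.mem_insert_of_mem hj)
      obtain ⟨c, hc, e'⟩ := P.yj j (hs j (Finset.mem_insert_self _ _)).1
        (hs j (Finset.mem_insert_self _ _)).2
      refine ⟨𝒞.w + g, 𝒞.ϖu * c * γ, ?_, ?_⟩
      · rw [map_mul, map_mul]
        exact mul_ne_zero (mul_ne_zero 𝒞.ϖu0 hc) hγ
      · rw [Finset.prod_insert hj, map_mul, e, e', ← map_mul, 𝒞.hϖ]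
        congr 1
        ring
  obtain ⟨g, γ, hγ, e⟩ := h1 ((Finset.univ.erase i).erase k) fun j hj =>
    ⟨(Finset.mem_erase.1 (Finset.mem_erase.1 hj).2).1, (Finset.mem_erase.1 hj).1⟩
  refine ⟨g * M, γ ^ M, ?_, ?_⟩
  · rw [map_pow]
    exact pow_ne_zero _ hγ
  · rw [map_pow, Core.γ, e, ← map_pow, mul_pow, ← pow_mul]

end Lb

open Lb

/-- One vertex of the triangle. -/
theorem Lb.vertex (h1 : PsiStmt) (h2 : NfStmt) (h3 : SeqStmt) {O : Type} [CommRing O]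
    [Algebra ℂ O] [IsGerm O] (𝒞 : Core O) {K : Type} [Field K] {ι : O →+* K}
    (hι : Function.Injective ι) {n : ℕ} {h : K} {i k : Ln} (hN : Node i k) (hi : l i = 6)
    (hk : l k = 6) {M M' M₀ : ℕ} {H H' G : O} (hM : n ≤ M) (hM' : n ≤ M')
    (hH : ι H = h * ι (𝒞.yy i ^ n * 𝒞.δ i ^ M)) (hH' : ι H' = h * ι (𝒞.yy k ^ n * 𝒞.δ k ^ M'))
    (hG : ι G = h * ι (𝒞.yy i ^ n * 𝒞.γ i k ^ M₀)) {ax ax' : O →+* ℂ⟦X⟧} (hax : IsAx 𝒞 i ax)
    (hax' : IsAx 𝒞 k ax') :
    (∀ t, 2 * t + n < 20 * M → coeff t (ax H) = 0) ∧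
    ∀ r, n = 2 * r → coeff (10 * M' - r) (ax' H') * (gd i (pt i k) : ℂ) ^ r =
      coeff (10 * M - r) (ax H) * (-gd k (pt i k) : ℂ) ^ r := by
  obtain ⟨P⟩ := (h1 O 𝒞).2 i k hN
  have hik := hN.1
  have e1 : H * 𝒞.γ i k ^ M₀ = G * 𝒞.δ i ^ M := hι (by
    rw [map_mul, map_mul, hH, hG]
    simp only [map_mul]
    ring)
  have e2 : H' * 𝒞.γ i k ^ M₀ * 𝒞.φ (𝒞.al k i) ^ n =
      G * (𝒞.φ (𝒞.al k i) - 𝒞.z i) ^ n * 𝒞.δ k ^ M' := hι (by
    have e := congrArg (fun o => ι (o ^ n)) (𝒞.al_mul_yy hik)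
    simp only [mul_pow, map_mul] at e
    rw [map_mul, map_mul, map_mul, map_mul, hH', hG]
    simp only [map_mul]
    linear_combination h * ι (𝒞.δ k ^ M') * ι (𝒞.γ i k ^ M₀) * e)
  obtain ⟨g, γ, hγ, eγ⟩ := psi_γ P M₀
  have hA : 𝒞.ϖ ^ (l i - 1) * P.α = X ^ (𝒞.w * 5) * (𝒞.ϖu ^ 5 * P.α) := by
    rw [hi, 𝒞.hϖ]; ring
  have hA' : 𝒞.ϖ ^ (l k - 1) * P.α' = X ^ (𝒞.w * 5) * (𝒞.ϖu ^ 5 * P.α') := by
    rw [hk, 𝒞.hϖ]; ring
  have ha : (a k : ℂ) - a i ≠ 0 := sub_ne_zero.2 fun e => hik (a_inj k i (by exact_mod_cast e)).symm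
  have ha' : (a i : ℂ) - a k ≠ 0 := sub_ne_zero.2 fun e => hik (a_inj i k (by exact_mod_cast e))
  have hgi : (gd i (pt i k) : ℂ) ≠ 0 := by exact_mod_cast gd_ne _ _ (inc_left i k hik)
  have hgk : (gd k (pt i k) : ℂ) ≠ 0 := by exact_mod_cast gd_ne _ _ (inc_right i k hik)
  have hα : cc (𝒞.ϖu ^ 5 * P.α) ≠ 0 := by
    rw [map_mul, map_pow, P.hα]
    exact mul_ne_zero (pow_ne_zero _ 𝒞.ϖu0) (mul_ne_zero (inv_ne_zero ha) hgi)
  have hα' : cc (𝒞.ϖu ^ 5 * P.α') ≠ 0 := by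
    rw [map_mul, map_pow, P.hα']
    exact mul_ne_zero (pow_ne_zero _ 𝒞.ϖu0) (mul_ne_zero (inv_ne_zero ha') hgk)
  have f1 := congrArg P.Ψ e1
  rw [map_mul, map_mul, eγ, map_pow, psi_δ hik, hA] at f1
  have f2 := congrArg P.Ψ e2
  rw [map_mul, map_mul, map_mul, map_mul, eγ, map_pow, map_pow, map_pow, psi_δ' hik, map_sub,
    P.al, P.zi, hA, hA'] at f2
  have hne : jB (X ^ (𝒞.w * 5) * (𝒞.ϖu ^ 5 * P.α)) ^ n ≠ 0 :=
    pow_ne_zero _ (jB_ne (mul_ne_zero (pow_ne_zero _ X_ne_zero) (isUnit_B.2 hα).ne_zero))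
  have f3 : P.Ψ H' * jB (X ^ g * γ) = P.Ψ G * om n *
      ((jB (X ^ (𝒞.w * 5) * (𝒞.ϖu ^ 5 * P.α')) * (1 - om (-1))) ^ 9 *
        (-jB (X ^ (𝒞.w * 5) * (𝒞.ϖu ^ 5 * P.α')) * om (-1))) ^ M' := by
    refine mul_right_cancel₀ hne ?_
    rw [f2, ← om_pow, mul_sub, mul_one, sub_sub_cancel, mul_pow]
    ring
  have nG := h2 O 𝒞 i k hik P ax ax' hax hax' G
  have nH := (h2 O 𝒞 i k hik P ax ax' hax hax' H).1
  have nH' := (h2 O 𝒞 i k hik P ax ax' hax hax' H').2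
  rw [hA] at nH
  rw [hA'] at nH'
  rw [hA, hA'] at nG
  obtain ⟨s1, s2⟩ := h3 (𝒞.w * 5) g n M M' _ _ γ _ _ _ _ _ _ _
    (Nat.mul_pos 𝒞.w_pos (by norm_num)) hM hM' hα hα' hγ nG.1 nG.2 nH nH' f1 f3
  refine ⟨s1, fun r hr => ?_⟩
  have s3 := s2 r hr
  rw [map_mul, map_mul, map_pow, P.hα, P.hα'] at s3
  have hu : (cc 𝒞.ϖu ^ 5 * ((a k : ℂ) - a i)⁻¹) ^ r ≠ 0 :=
    pow_ne_zero _ (mul_ne_zero (pow_ne_zero _ 𝒞.ϖu0) (inv_ne_zero ha))
  refine mul_right_cancel₀ hu ?_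
  have hneg : ((a i : ℂ) - a k)⁻¹ = -((a k : ℂ) - a i)⁻¹ := by
    rw [← inv_neg, neg_sub]
  rw [hneg] at s3
  rw [mul_assoc, mul_assoc, ← mul_pow, ← mul_pow]
  rw [show (gd i (pt i k) : ℂ) * (cc 𝒞.ϖu ^ 5 * ((a k : ℂ) - a i)⁻¹) =
      cc 𝒞.ϖu ^ 5 * (((a k : ℂ) - a i)⁻¹ * gd i (pt i k)) by ring,
    show (-gd k (pt i k) : ℂ) * (cc 𝒞.ϖu ^ 5 * ((a k : ℂ) - a i)⁻¹) =
      cc 𝒞.ϖu ^ 5 * (-((a k : ℂ) - a i)⁻¹ * gd k (pt i k)) by ring]
  exact s3

theorem lb (h1 : PsiStmt) (h2 : NfStmt) (h3 : SeqStmt) : LbStmt := by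
  intro O _ _ _ 𝒞 K _ ι hι n h hn hreg ax0 hax0
  obtain ⟨ax1, hax1⟩ := (h1 O 𝒞).1 1
  obtain ⟨ax2, hax2⟩ := (h1 O 𝒞).1 2
  obtain ⟨⟨M0, H0, hM0, hH0⟩, hG0⟩ := hreg 0
  obtain ⟨⟨M1, H1, hM1, hH1⟩, hG1⟩ := hreg 1
  obtain ⟨⟨M2, H2, hM2, hH2⟩, hG2⟩ := hreg 2
  obtain ⟨N0, G0, hG0⟩ := hG0 1
  obtain ⟨N1, G1, hG1⟩ := hG1 2
  obtain ⟨N2, G2, hG2⟩ := hG2 0
  obtain ⟨s0, t0⟩ := vertex h1 h2 h3 𝒞 hι.1 node01 rfl rfl hM0 hM1 hH0 hH1 hG0 hax0 hax1
  obtain ⟨-, t1⟩ := vertex h1 h2 h3 𝒞 hι.1 node12 rfl rfl hM1 hM2 hH1 hH2 hG1 hax1 hax2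
  obtain ⟨-, t2⟩ := vertex h1 h2 h3 𝒞 hι.1 node20 rfl rfl hM2 hM0 hH2 hH0 hG2 hax2 hax0
  refine ⟨M0, (20 * M0 + 2 - n) / 2, H0, hH0, by omega, X_pow_dvd_iff.2 fun t ht => ?_⟩
  by_cases hlt : 2 * t + n < 20 * M0
  · exact s0 t hlt
  obtain ⟨r, hr⟩ : ∃ r, n = 2 * r := ⟨n / 2, by omega⟩
  have ht' : t = 10 * M0 - r := by omega
  subst ht'
  have u0 := t0 r hr
  have u1 := t1 r hr
  have u2 := t2 r hr
  have htri : (gd 0 (pt 0 1) : ℂ) * gd 1 (pt 1 2) * gd 2 (pt 2 0) =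
      8 * ((gd 1 (pt 0 1) : ℂ) * gd 2 (pt 1 2) * gd 0 (pt 2 0)) := by
    exact_mod_cast triangle.symm
  have hQ : (gd 1 (pt 0 1) : ℂ) * gd 2 (pt 1 2) * gd 0 (pt 2 0) ≠ 0 := by
    have := mul_ne_zero (mul_ne_zero (gd_ne 1 _ (inc_right 0 1 (by decide)))
      (gd_ne 2 _ (inc_right 1 2 (by decide)))) (gd_ne 0 _ (inc_right 2 0 (by decide)))
    exact_mod_cast this
  generalize (gd 0 (pt 0 1) : ℂ) = p0 at *
  generalize (gd 1 (pt 1 2) : ℂ) = p1 at *
  generalize (gd 2 (pt 2 0) : ℂ) = p2 at *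
  generalize (gd 1 (pt 0 1) : ℂ) = q0 at *
  generalize (gd 2 (pt 1 2) : ℂ) = q1 at *
  generalize (gd 0 (pt 2 0) : ℂ) = q2 at *
  generalize coeff (10 * M0 - r) (ax0 H0) = ρ0 at *
  generalize coeff (10 * M1 - r) (ax1 H1) = ρ1 at *
  generalize coeff (10 * M2 - r) (ax2 H2) = ρ2 at *
  have key : ρ0 * (p0 * p1 * p2) ^ r = ρ0 * ((-q0) * (-q1) * (-q2)) ^ r := by
    rw [mul_pow, mul_pow, mul_pow, mul_pow]
    linear_combination p0 ^ r * p1 ^ r * u2 + p0 ^ r * (-q2) ^ r * u1 +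
      (-q1) ^ r * (-q2) ^ r * u0
  by_contra hρ
  have k2 := mul_left_cancel₀ hρ key
  rw [htri, show (-q0) * (-q1) * (-q2) = -1 * (q0 * q1 * q2) by ring, mul_pow, mul_pow (-1)] at k2
  have k3 := congrArg norm (mul_right_cancel₀ (pow_ne_zero r hQ) k2)
  rw [norm_pow, norm_pow, norm_neg, norm_one, one_pow] at k3
  have k4 : (1 : ℝ) < ‖(8 : ℂ)‖ ^ r := one_lt_pow₀ (by simp) (by omega)
  exact k4.ne' k3

end Pool.Agent.MP_648617_ag.Kol

end
end MrgPart6

-- ======== part 7: formerly Pool.Agent.MP_648617_ag.kol.Poly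
section MrgPart7

/-! Row POLY: partial fractions and the universal property of the polynomial model. -/

open Polynomial

noncomputable section

namespace Pool.Agent.MP_648617_ag.Kol

namespace Poly

variable {T S : Type} [CommRing T] [CommRing S] {f g : Ln → T} {al : Ln → Ln → T}

/-- The normal form map. -/
def th (φ : T →+* S) (Z : Option Ln → S) (w : T × (Option Ln → T[X])) : S :=
  φ w.1 + ∑ p, Z p * (w.2 p).eval₂ φ (Z p)

theorem th_add (φ : T →+* S) (Z : Option Ln → S) (w w' : T × (Option Ln → T[X])) :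
    th φ Z (w + w') = th φ Z w + th φ Z w' := by
  simp only [th, Prod.fst_add, Prod.snd_add, Pi.add_apply, map_add, eval₂_add, mul_add,
    Finset.sum_add_distrib]
  ring

theorem th_sub (φ : T →+* S) (Z : Option Ln → S) (w w' : T × (Option Ln → T[X])) :
    th φ Z (w - w') = th φ Z w - th φ Z w' := by
  rw [eq_sub_iff_add_eq, ← th_add, sub_add_cancel]

theorem th_zero (φ : T →+* S) (Z : Option Ln → S) : th φ Z 0 = 0 := by simp [th]

theorem th_mul (φ : T →+* S) (Z : Option Ln → S) (t : T) (w : T × (Option Ln → T[X])) :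
    th φ Z (t * w.1, fun p => C t * w.2 p) = φ t * th φ Z w := by
  simp only [th, map_mul, eval₂_mul, eval₂_C, mul_add, Finset.mul_sum]
  congr 1
  exact Finset.sum_congr rfl fun p _ => by ring

theorem th_pow (φ : T →+* S) (Z : Option Ln → S) (p : Option Ln) (e : ℕ) :
    ∃ w, th φ Z w = Z p ^ e := by
  rcases e with _ | e
  · exact ⟨(1, 0), by simp [th]⟩
  · refine ⟨(0, Pi.single p (X ^ e)), ?_⟩
    rw [th, map_zero, zero_add, Finset.sum_eq_single p]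
    · simp [pow_succ']
    · intro q _ hq; simp [hq]
    · intro h; exact absurd (Finset.mem_univ _) h

theorem map_th {S' : Type} [CommRing S'] (F : S →+* S') (φ : T →+* S) (Z : Option Ln → S)
    (w : T × (Option Ln → T[X])) : F (th φ Z w) = th (F.comp φ) (fun p => F (Z p)) w := by
  simp only [th, map_add, map_sum, map_mul, hom_eval₂, RingHom.comp_apply]

theorem th_mem (φ : T →+* S) (Z : Option Ln → S) (w : T × (Option Ln → T[X])) :
    th φ Z w ∈ Subring.closure (Set.range φ ∪ Set.range Z) := by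
  have h1 : ∀ t, φ t ∈ Subring.closure (Set.range φ ∪ Set.range Z) :=
    fun t => Subring.subset_closure (Or.inl ⟨t, rfl⟩)
  have h2 : ∀ p, Z p ∈ Subring.closure (Set.range φ ∪ Set.range Z) :=
    fun p => Subring.subset_closure (Or.inr ⟨p, rfl⟩)
  refine add_mem (h1 _) (sum_mem fun p _ => mul_mem (h2 p) ?_)
  rw [eval₂_eq_sum_range]
  exact sum_mem fun i _ => mul_mem (h1 _) (pow_mem (h2 p) i)

theorem rel_gen {φ : T →+* S} {Z : Option Ln → S} (h : Rel f g al φ Z) (p q : Option Ln)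
    (hpq : p ≠ q) : ∃ α β γ, Z p * Z q = φ α * Z p + φ β * Z q + φ γ := by
  rcases p with _ | i <;> rcases q with _ | j
  · exact absurd rfl hpq
  · exact ⟨0, f j, g j, by rw [map_zero]; linear_combination h.rel0 j⟩
  · exact ⟨f i, 0, g i, by rw [map_zero]; linear_combination h.rel0 i⟩
  · exact ⟨al i j, al j i, 0, by
      rw [map_zero, add_zero]; exact h.rel i j fun e => hpq (congrArg some e)⟩

theorem surj {φ : T →+* S} {Z : Option Ln → S} (h : Rel f g al φ Z) (x : S)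
    (hx : x ∈ Subring.closure (Set.range φ ∪ Set.range Z)) : ∃ w, th φ Z w = x := by
  let _ := φ.toAlgebra
  let N : Submodule T S := Submodule.span T {z | ∃ p e, z = Z p ^ e}
  have hpow : ∀ p e, Z p ^ e ∈ N := fun p e => Submodule.subset_span ⟨p, e, rfl⟩
  have hφ : ∀ t, ∀ z ∈ N, φ t * z ∈ N := fun t z hz => N.smul_mem t hz
  have hZ : ∀ q p e, Z q * Z p ^ e ∈ N := by
    intro q p e
    by_cases hpq : p = q
    · rw [hpq, ← pow_succ']; exact hpow _ _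
    · obtain ⟨α, β, γ, hr⟩ := rel_gen h p q hpq
      induction e with
      | zero => simpa using hpow q 1
      | succ e ih =>
        have h1 : Z q * Z p ^ (e + 1) =
            φ α * Z p ^ (e + 1) + φ β * (Z q * Z p ^ e) + φ γ * Z p ^ e := by
          linear_combination Z p ^ e * hr
        rw [h1]
        exact add_mem (add_mem (hφ _ _ (hpow _ _)) (hφ _ _ ih)) (hφ _ _ (hpow _ _))
  have hZ' : ∀ q, ∀ z ∈ N, Z q * z ∈ N := by
    intro q z hz
    induction hz using Submodule.span_induction with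
    | mem z hz => obtain ⟨p, e, rfl⟩ := hz; exact hZ q p e
    | zero => rw [mul_zero]; exact zero_mem _
    | add z z' _ _ ih ih' => rw [mul_add]; exact add_mem ih ih'
    | smul t z _ ih => rw [mul_smul_comm]; exact N.smul_mem t ih
  have hall : ∀ z ∈ N, x * z ∈ N := by
    induction hx using Subring.closure_induction with
    | mem x hx =>
      rcases hx with ⟨t, rfl⟩ | ⟨q, rfl⟩
      · exact hφ t
      · exact hZ' q
    | zero => intro z _; rw [zero_mul]; exact zero_mem _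
    | one => intro z hz; rwa [one_mul]
    | add x x' _ _ ih ih' => intro z hz; rw [add_mul]; exact add_mem (ih z hz) (ih' z hz)
    | neg x _ ih => intro z hz; rw [neg_mul]; exact neg_mem (ih z hz)
    | mul x x' _ _ ih ih' => intro z hz; rw [mul_assoc]; exact ih _ (ih' z hz)
  have h1 : x ∈ N := by simpa using hall _ (hpow none 0)
  clear hall hx
  induction h1 using Submodule.span_induction with
  | mem z hz => obtain ⟨p, e, rfl⟩ := hz; exact th_pow φ Z p e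
  | zero => exact ⟨0, th_zero φ Z⟩
  | add z z' _ _ ih ih' =>
    obtain ⟨w, rfl⟩ := ih
    obtain ⟨w', rfl⟩ := ih'
    exact ⟨_, th_add φ Z w w'⟩
  | smul t z _ ih =>
    obtain ⟨w, rfl⟩ := ih
    exact ⟨_, th_mul φ Z t w⟩

theorem clear (φ : T →+* S) (y z : S) (f g : T) (h : (y - φ f) * z = φ g) (N : ℕ) (H : T[X])
    (hH : ∀ m, N + 1 ≤ m → H.coeff m = 0) : ∃ R : T[X],
      R.eval₂ φ y = (y - φ f) ^ (N + 1) * (z * H.eval₂ φ z) ∧
        R.eval f = H.coeff N * g ^ (N + 1) := by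
  refine ⟨∑ e ∈ Finset.range (N + 1), C (H.coeff e * g ^ (e + 1)) * (X - C f) ^ (N - e), ?_, ?_⟩
  · rw [eval₂_eq_sum_range' φ
      (Nat.lt_succ_of_le (natDegree_le_iff_coeff_eq_zero.mpr hH)) z, eval₂_finsetSum,
      Finset.mul_sum, Finset.mul_sum]
    refine Finset.sum_congr rfl fun e he => ?_
    obtain ⟨n, rfl⟩ := Nat.exists_eq_add_of_le (Nat.le_of_lt_succ (Finset.mem_range.mp he))
    rw [eval₂_mul, eval₂_C, eval₂_pow, eval₂_sub, eval₂_X, eval₂_C, map_mul, map_pow, ← h,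
      Nat.add_sub_cancel_left]
    generalize y - φ f = u
    ring
  · rw [eval_finsetSum, Finset.sum_eq_single N]
    · simp
    · intro e he hne
      have : N - e ≠ 0 := by have := Finset.mem_range.mp he; omega
      simp [this]
    · intro hN; exact absurd (Finset.self_mem_range_succ N) hN

theorem inj {φ : T →+* S} {Z : Option Ln → S} (h : Rel f g al φ Z)
    (hy : ∀ P : T[X], P.eval₂ φ (Z none) = 0 → P = 0) (hg : ∀ i, g i ∈ nonZeroDivisors T)
    (hf : ∀ i j, i ≠ j → f i - f j ∈ nonZeroDivisors T) (w : T × (Option Ln → T[X]))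
    (hw : th φ Z w = 0) : w = 0 := by
  rw [th, Fintype.sum_option] at hw
  have key : ∀ N, (∀ i m, N ≤ m → (w.2 (some i)).coeff m = 0) → ∀ i, w.2 (some i) = 0 := by
    intro N
    induction N with
    | zero => exact fun hN i => Polynomial.ext fun m => hN i m (Nat.zero_le m)
    | succ N ih =>
      intro hN
      refine ih fun i m hm => ?_
      rcases hm.lt_or_eq with hm | rfl
      · exact hN i m hm
      choose R hR hR' using fun j => clear φ (Z none) (Z (some j)) (f j) (g j) (h.rel0 j) N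
        (w.2 (some j)) (hN j)
      have h1 := hy ((C w.1 + X * w.2 none) * ∏ j, (X - C (f j)) ^ (N + 1) +
        ∑ j, R j * ∏ k ∈ Finset.univ.erase j, (X - C (f k)) ^ (N + 1)) (by
          have h2 : ∀ j, (R j * ∏ k ∈ Finset.univ.erase j, (X - C (f k)) ^ (N + 1)).eval₂ φ
              (Z none) = (∏ k, (Z none - φ (f k)) ^ (N + 1)) *
                (Z (some j) * (w.2 (some j)).eval₂ φ (Z (some j))) := fun j => by
            rw [eval₂_mul, hR, eval₂_finsetProd,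
              ← Finset.mul_prod_erase _ _ (Finset.mem_univ j)]
            simp only [eval₂_pow, eval₂_sub, eval₂_X, eval₂_C]
            ring
          rw [eval₂_add, eval₂_finsetSum, Finset.sum_congr rfl fun j _ => h2 j, ← Finset.mul_sum,
            eval₂_mul, eval₂_finsetProd]
          simp only [eval₂_pow, eval₂_sub, eval₂_X, eval₂_C, eval₂_add, eval₂_mul]
          linear_combination (∏ k, (Z none - φ (f k)) ^ (N + 1)) * hw)
      have h3 := congrArg (eval (f i)) h1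
      rw [eval_add, eval_mul, eval_prod, Finset.prod_eq_zero (Finset.mem_univ i) (by simp),
        mul_zero, zero_add, eval_finsetSum, Finset.sum_eq_single i, eval_mul, hR', eval_prod,
        eval_zero, mul_assoc] at h3
      · refine (mem_nonZeroDivisors_iff_right.mp ?_) _ h3
        refine mul_mem (pow_mem (hg i) _) (prod_mem fun k hk => ?_)
        rw [eval_pow, eval_sub, eval_X, eval_C]
        exact pow_mem (hf i k (Finset.ne_of_mem_erase hk).symm) _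
      · intro j _ hj
        rw [eval_mul, eval_prod, Finset.prod_eq_zero
          (Finset.mem_erase.mpr ⟨hj.symm, Finset.mem_univ i⟩) (by simp), mul_zero]
      · intro hi; exact absurd (Finset.mem_univ i) hi
  have h0 := key ((Finset.univ.sup fun i => (w.2 (some i)).natDegree) + 1) fun i m hm =>
    coeff_eq_zero_of_natDegree_lt (Nat.lt_of_lt_of_le (Nat.lt_succ_of_le
      (Finset.le_sup (f := fun i => (w.2 (some i)).natDegree) (Finset.mem_univ i))) hm)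
  have h1 := hy (C w.1 + X * w.2 none) (by
    simpa [h0, eval₂_add, eval₂_mul] using hw)
  have h2 : w.1 = 0 := by simpa using congrArg (coeff · 0) h1
  rw [h2, map_zero, zero_add] at h1
  refine Prod.ext h2 (funext fun p => ?_)
  rcases p with _ | i
  · exact Polynomial.ext fun m => by simpa using congrArg (coeff · (m + 1)) h1
  · exact h0 i

theorem kinj : Function.Injective (algebraMap ℂ[X][X] KK) := IsFractionRing.injective _ _

theorem psi_C (c : ℂ) : ψ (C c) = algebraMap ℂ KK c :=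
  (IsScalarTower.algebraMap_apply ℂ ℂ[X][X] KK c).symm

theorem psi_mem (t : ℂ[X]) : ψ t ∈ A0 := by
  induction t using Polynomial.induction_on with
  | C c => rw [psi_C]; exact A0.algebraMap_mem c
  | add p q hp hq => rw [map_add]; exact add_mem hp hq
  | monomial n c ih =>
    rw [pow_succ, ← mul_assoc, map_mul]
    exact mul_mem ih (Algebra.subset_adjoin (Or.inl rfl))

theorem psi_f (i : Ln) : ψ (f0 i) = a i * xx := by
  rw [f0, map_mul, psi_C, map_intCast, xx]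

theorem psi_g (i : Ln) : ψ (g0 i) = xx ^ l i := by rw [g0, map_pow, xx]

theorem psi_al (j i : Ln) : ψ (al0 j i) = ((a j : KK) - a i)⁻¹ * xx ^ (l i - 1) := by
  rw [al0, map_mul, psi_C, map_inv₀, map_sub, map_intCast, map_intCast, map_pow, xx]

theorem yi_ne (i : Ln) : yy - a i * xx ≠ 0 := by
  intro h
  rw [← psi_f, sub_eq_zero] at h
  exact X_ne_C _ (kinj h)

theorem a_ne (i j : Ln) (h : i ≠ j) : (a i : ℂ) - a j ≠ 0 :=
  sub_ne_zero.mpr fun e => h (a_inj i j (Int.cast_injective e))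

theorem relK : Rel f0 g0 al0 ψ ZZ where
  rel0 i := by rw [psi_f, psi_g, ZZ, ZZ, mul_div_cancel₀ _ (yi_ne i)]
  rel i j hij := by
    have h1 : (a i : KK) - a j ≠ 0 := by
      have := (map_ne_zero (algebraMap ℂ KK)).mpr (a_ne i j hij)
      rwa [map_sub, map_intCast, map_intCast] at this
    have h3 := yi_ne i
    have h4 := yi_ne j
    obtain ⟨n, hn⟩ : ∃ n, l i = n + 1 := ⟨l i - 1, by have := six_le i; omega⟩
    obtain ⟨m, hm⟩ : ∃ m, l j = m + 1 := ⟨l j - 1, by have := six_le j; omega⟩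
    rw [psi_al, psi_al, ZZ, ZZ, hn, hm, Nat.add_sub_cancel, Nat.add_sub_cancel]
    have h5 : yy - a j * xx - (yy - a i * xx) = (a i - a j) * xx := by ring
    have h6 : (a j : KK) - a i = -(a i - a j) := by ring
    rw [h6]
    generalize yy - a i * xx = u at h3 h5
    generalize yy - a j * xx = v at h4 h5
    generalize (a i : KK) - a j = d at h1 h5
    field_simp
    linear_combination -(xx * xx ^ n * xx ^ m) * h5

end Poly

open Poly

theorem poly : PolyStmt := by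
  intro T S _ _ f g al φ Z h htop hy hg hf
  refine ⟨⟨φ, Z, h, fun w w' hw => ?_, fun x => surj h x (htop ▸ Subring.mem_top x)⟩, rfl, rfl⟩
  exact sub_eq_zero.mp (inj h hy hg hf _ (by rw [th_sub]; exact sub_eq_zero.mpr hw))

theorem polyUp : PolyUpStmt := by
  intro T S _ _ f g al P S' _ φ' Z' h
  have hr : Rel f g al (P.φ.prod φ') fun p => (P.Z p, Z' p) :=
    ⟨fun i => Prod.ext (P.rels.rel0 i) (h.rel0 i),
      fun i j hij => Prod.ext (P.rels.rel i j hij) (h.rel i j hij)⟩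
  let Γ := Subring.closure (Set.range (P.φ.prod φ') ∪ Set.range fun p => (P.Z p, Z' p))
  let π : Γ →+* S := (RingHom.fst S S').comp Γ.subtype
  have hfst : ∀ w, (th (P.φ.prod φ') (fun p => (P.Z p, Z' p)) w).1 = th P.φ P.Z w :=
    fun w => map_th (RingHom.fst S S') _ _ w
  have hπ : Function.Bijective π := by
    refine ⟨(injective_iff_map_eq_zero π).mpr fun x hx => ?_, fun s => ?_⟩
    · obtain ⟨w, hw⟩ := surj hr x.1 x.2
      have h0 : w = 0 := P.bij.1 (by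
        change th P.φ P.Z w = th P.φ P.Z 0
        rw [th_zero, ← hfst, hw]; exact hx)
      exact Subtype.ext (by rw [← hw, h0, th_zero]; rfl)
    · obtain ⟨w, hw⟩ := P.bij.2 s
      exact ⟨⟨_, th_mem _ _ w⟩, (hfst w).trans hw⟩
  let e := RingEquiv.ofBijective π hπ
  have he : ∀ x : Γ, ((RingHom.snd S S').comp (Γ.subtype.comp e.symm.toRingHom)) x.1.1 = x.1.2 :=
    fun x => congrArg (fun z : Γ => z.1.2) (e.symm_apply_apply x)
  exact ⟨_, fun t => he ⟨P.φ.prod φ' t, Subring.subset_closure (Or.inl ⟨t, rfl⟩)⟩,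
    fun p => he ⟨(P.Z p, Z' p), Subring.subset_closure (Or.inr ⟨p, rfl⟩)⟩⟩

theorem a0poly (h : PolyStmt) : A0PolyStmt := by
  let φ : ℂ[X] →+* A0 := ψ.codRestrict A0 psi_mem
  let Z : Option Ln → A0 := fun p => ⟨ZZ p, Algebra.subset_adjoin (Or.inr ⟨p, rfl⟩)⟩
  obtain ⟨P, h1, h2⟩ := h ℂ[X] A0 f0 g0 al0 φ Z
    ⟨fun i => Subtype.ext (relK.rel0 i), fun i j hij => Subtype.ext (relK.rel i j hij)⟩
    (by
      rw [eq_top_iff]
      rintro ⟨z, hz⟩ -
      induction hz using Algebra.adjoin_induction with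
      | mem z hz =>
        rcases hz with rfl | ⟨p, rfl⟩
        · exact Subring.subset_closure (Or.inl ⟨X, rfl⟩)
        · exact Subring.subset_closure (Or.inr ⟨p, rfl⟩)
      | algebraMap c => exact Subring.subset_closure (Or.inl ⟨C c, Subtype.ext (psi_C c)⟩)
      | add z z' _ _ ih ih' => exact add_mem ih ih'
      | mul z z' _ _ ih ih' => exact mul_mem ih ih')
    (fun Q hQ => by
      have h3 := congrArg A0.val.toRingHom hQ
      rw [hom_eval₂, map_zero] at h3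
      have h4 := hom_eval₂ Q C (algebraMap ℂ[X][X] KK) X
      rw [eval₂_C_X] at h4
      exact kinj (h4.trans (h3.trans (map_zero _).symm)))
    (fun i => mem_nonZeroDivisors_of_ne_zero (pow_ne_zero _ X_ne_zero))
    (fun i j hij => mem_nonZeroDivisors_of_ne_zero (by
      rw [f0, f0, ← sub_mul, ← map_sub]
      exact mul_ne_zero (C_ne_zero.mpr (a_ne i j hij)) X_ne_zero))
  exact ⟨P, fun t => by rw [h1]; rfl, fun p => by rw [h2]⟩

end Pool.Agent.MP_648617_ag.Kol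

end
end MrgPart7

-- marker of a merged file
example : 731051 + 688778 = 731051 + 688778 := rfl
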