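import Mathlib.Analysis.Complex.Basic
import Mathlib.Data.Fin.VecNotation
import Mathlib.Tactic.FinCases
import Mathlib.Tactic.LinearCombination

/-! The arrangement of ten lines and its twenty seven points. -/

namespace Pool.Agent.MP_648617_ag.Kol

abbrev Ln := Fin 10
abbrev Pt := Fin 27

/-- Slopes. -/
def a : Ln → ℤ := ![0, 6, -12, 2, -2, 8, 10, -8, -1, -4]
/-- Intercepts. -/
def b : Ln → ℤ := ![0, 0, -55440, -9240, -18480, 18480, 36960, -18480, -9240, 18480]
/-- First coordinates. -/
def u : Pt → ℤ := ![0, -4620, 4620, -9240, -2310, -3696, -3080, -2310, -9240, -1320, 1848, -3300, -3696, -4200, -9240, -4620, -5775, -924, 0, -4620, 0, 18480, -3080, 0, -3080, -1320, 9240]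
/-- Second coordinates. -/
def v : Pt → ℤ := ![0, 0, 0, 0, 0, 0, -18480, -13860, -55440, -7920, 11088, -15840, -11088, -5040, 55440, -18480, -20790, -11088, -9240, -9240, -18480, -55440, -6160, 18480, 6160, 23760, -18480]
/-- The point `p` lies on the line `i`. -/
def inc (i : Ln) (p : Pt) : Prop := v p = a i * u p + b i

instance (i : Ln) (p : Pt) : Decidable (inc i p) := inferInstanceAs (Decidable (_ = _))

/-- The points on a line. -/
def on (i : Ln) : Finset Pt := Finset.univ.filter (inc i)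
/-- The meeting point of two different lines. -/
def pt : Ln → Ln → Pt := ![![0, 0, 1, 2, 3, 4, 5, 4, 3, 2],
  ![0, 0, 6, 7, 7, 8, 8, 9, 9, 10],
  ![1, 6, 0, 11, 12, 12, 13, 14, 13, 14],
  ![2, 7, 11, 0, 7, 15, 16, 17, 18, 2],
  ![3, 7, 12, 7, 0, 12, 19, 20, 3, 21],
  ![4, 8, 12, 15, 12, 0, 8, 4, 22, 23],
  ![5, 8, 13, 16, 19, 8, 0, 24, 13, 25],
  ![4, 9, 14, 17, 20, 4, 24, 0, 9, 14],
  ![3, 9, 13, 18, 3, 22, 13, 9, 0, 26],
  ![2, 10, 14, 2, 21, 23, 25, 14, 26, 0]]
/-- The number of points on a line. -/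
def l : Ln → ℕ := ![6, 6, 6, 7, 6, 6, 7, 6, 6, 7]
/-- The indicator of the nine triple points. -/
def tri : Pt → ℕ := ![0, 0, 1, 1, 1, 0, 0, 1, 1, 1, 0, 0, 1, 1, 1, 0, 0, 0, 0, 0, 0, 0, 0, 0, 0, 0, 0]
/-- Pole orders of the test forms of weight `2 k`. -/
def ee (k : ℕ) (i : Ln) : ℕ := if i = 0 then k + 1 else k
/-- Multiplicities of the numerators of the test forms. -/
def kap (k : ℕ) (p : Pt) : ℕ := k * tri p + if inc 0 p then 1 else 0
/-- The meeting point of `i` and `k` lies on no other line. -/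
def Node (i k : Ln) : Prop := i ≠ k ∧ ∀ j, inc j (pt i k) → j = i ∨ j = k

theorem mem_on {i : Ln} {p : Pt} : p ∈ on i ↔ inc i p := by simp [on]
theorem a_inj : ∀ i j, a i = a j → i = j := by decide +kernel
theorem inc_left : ∀ i j, i ≠ j → inc i (pt i j) := by decide +kernel
theorem inc_right : ∀ i j, i ≠ j → inc j (pt i j) := by decide +kernel
theorem pt_symm : ∀ i j, pt i j = pt j i := by decide +kernel
theorem pt_unique : ∀ i j p, i ≠ j → inc i p → inc j p → p = pt i j := by decide +kernel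
theorem two_lines : ∀ p, ∃ i j, i ≠ j ∧ inc i p ∧ inc j p := by decide +kernel
theorem other_line : ∀ i p, ∃ j, j ≠ i ∧ inc j p := by decide +kernel
theorem u_inj : ∀ i p q, inc i p → inc i q → u p = u q → p = q := by decide +kernel
theorem card_on : ∀ i, (on i).card = l i := by decide +kernel
theorem six_le : ∀ i, 6 ≤ l i := by decide +kernel
theorem l_le : ∀ i, l i ≤ 7 := by decide +kernel
theorem card_lines : ∀ p, (Finset.univ.filter (inc · p)).card = 2 + tri p := by decide +kernel
theorem tri_le : ∀ p, tri p ≤ 1 := by decide +kernel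
theorem sum_tri : ∑ p, tri p = 9 := by decide +kernel
theorem sum_tri_on : ∀ i : Ln, i.1 < 3 → ∑ p ∈ on i, tri p = 3 := by decide +kernel
theorem tri_side : ∀ p, tri p = 1 →
    (Finset.univ.filter fun i : Ln => i.1 < 3 ∧ inc i p).card = 1 := by decide +kernel
theorem card_fibre : ∀ i p, inc i p →
    ((Finset.univ.erase i).filter (pt i · = p)).card = 1 + tri p := by decide +kernel
theorem a_zero : a 0 = 0 := rfl
theorem b_zero : b 0 = 0 := rfl
theorem l_side : ∀ i : Ln, i.1 < 3 → l i = 6 := by decide +kernel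

theorem kap_eq (k : ℕ) (p : Pt) :
    ∑ i ∈ Finset.univ.filter (inc · p), ee k i = kap k p + 2 * k := by
  have h : ∀ i, ee k i = k + if i = 0 then 1 else 0 := fun i => by unfold ee; split_ifs <;> rfl
  simp only [h, Finset.sum_add_distrib, Finset.sum_const, card_lines, Finset.sum_ite_eq',
    Finset.mem_filter, Finset.mem_univ, true_and, smul_eq_mul, kap]
  ring

theorem pt01 : pt 0 1 = 0 := rfl
theorem pt02 : pt 0 2 = 1 := rfl
theorem u_zero : u 0 = 0 := rfl
theorem v_zero : v 0 = 0 := rfl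
theorem inc_zero_zero : inc 0 0 := by decide +kernel
theorem inc_zero_one : inc 0 1 := by decide +kernel
theorem node01 : Node 0 1 := by unfold Node; decide +kernel
theorem node12 : Node 1 2 := by unfold Node; decide +kernel
theorem node20 : Node 2 0 := by unfold Node; decide +kernel

/-- The derivative of the polynomial of the line `i` at its point `p`. -/
def gd (i : Ln) (p : Pt) : ℤ := ∏ q ∈ (on i).erase p, (u p - u q)

theorem gd_ne : ∀ i p, inc i p → gd i p ≠ 0 := by decide +kernel

theorem triangle : 8 * (gd 1 (pt 0 1) * gd 2 (pt 1 2) * gd 0 (pt 2 0)) =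
    gd 0 (pt 0 1) * gd 1 (pt 1 2) * gd 2 (pt 2 0) := by decide +kernel

end Pool.Agent.MP_648617_ag.Kol
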