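import Mathlib.Algebra.Polynomial.Laurent
import Mathlib.RingTheory.AdicCompletion.Algebra
import Mathlib.RingTheory.Ideal.Height
import Mathlib.RingTheory.MvPolynomial.Basic
import Mathlib.RingTheory.PowerSeries.Derivative
import Mathlib.RingTheory.Valuation.ValuationSubring
import Pool.Agent.MP_648617_ag.amp.Ample
import Pool.Agent.MP_648617_ag.kol.Data
import Mathlib.RingTheory.PowerSeries.WeierstrassPreparation
import Pool.Agent.MP_648617_ag.vers.Norm
import Pool.Agent.MP_55d974_ag.coh.Basic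
import Mathlib.Algebra.Polynomial.Reverse
import Mathlib.RingTheory.Polynomial.Basic

-- ======== part 0: formerly Pool.Agent.MP_648617_ag.kol.Spec
section MrgPart0

/-! PROJECT KOL: internal definitions and the statements of the rows. -/

open AlgebraicGeometry CategoryTheory IsLocalRing PowerSeries

noncomputable section

namespace Pool.Agent.MP_648617_ag.Kol

/-- The formal disc. -/
abbrev B : Type := ℂ⟦X⟧

/-- The constant coefficient. -/
abbrev cc {R : Type} [Semiring R] : R⟦X⟧ →+* R := PowerSeries.constantCoeff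

/-! ### Rim algebras -/

/-- `O` is a deformation over `T` of the coordinate axes: it has the topological basis
`1, Z_p ^ e`. -/
structure Axes (T O : Type) [CommRing T] [CommRing O] [IsLocalRing T] [IsLocalRing O] where
  φ : T →+* O
  loc : ∀ t ∈ maximalIdeal T, φ t ∈ maximalIdeal O
  E : Option Ln → T⟦X⟧ →+* O
  E_C : ∀ p t, E p (C t) = φ t
  mem : ∀ p, E p X ∈ maximalIdeal O
  bij : Function.Bijective fun w : T × (Option Ln → T⟦X⟧) => φ w.1 + ∑ p, E p (X * w.2 p)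

/-- The generators. -/
def Axes.Z {T O : Type} [CommRing T] [CommRing O] [IsLocalRing T] [IsLocalRing O] (𝒜 : Axes T O)
    (p : Option Ln) : O := 𝒜.E p X

/-- The relations of the standard form, for elements `Z` and a ring map `φ`. -/
structure Rel {T O : Type} [CommRing T] [CommRing O] (f g : Ln → T) (al : Ln → Ln → T)
    (φ : T →+* O) (Z : Option Ln → O) : Prop where
  rel0 : ∀ i, (Z none - φ (f i)) * Z (some i) = φ (g i)
  rel : ∀ i j, i ≠ j →
    Z (some i) * Z (some j) = φ (al i j) * Z (some i) + φ (al j i) * Z (some j)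

/-- The standard form. -/
structure Rim (T O : Type) [CommRing T] [CommRing O] [IsLocalRing T] [IsLocalRing O]
    extends Axes T O where
  f : Ln → T
  g : Ln → T
  al : Ln → Ln → T
  f_mem : ∀ i, f i ∈ maximalIdeal T
  g_mem : ∀ i, g i ∈ maximalIdeal T
  al_mem : ∀ i j, i ≠ j → al i j ∈ maximalIdeal T
  rels : Rel f g al φ toAxes.Z
  div : ∀ i j, i ≠ j → g i = (f j - f i) * al j i

/-- Row UP: the universal property. -/
def UpStmt : Prop :=
  ∀ (T O : Type) [CommRing T] [Algebra ℂ T] [IsGerm T] [CommRing O] [Algebra ℂ O] [IsGerm O]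
    (𝓡 : Rim T O) (T' : Type) [CommRing T'] (I : Ideal T') [IsAdicComplete I T'] (φ' : T →+* T')
    (Z' : Option Ln → T'), (∀ p, Z' p ∈ I) → Rel 𝓡.f 𝓡.g 𝓡.al φ' Z' →
    ∃ Φ : O →+* T', (∀ t, Φ (𝓡.φ t) = φ' t) ∧ ∀ p, Φ (𝓡.Z p) = Z' p

section Deformations

variable {A : Type} [CommRing A] [Algebra ℂ A] [IsLocalRing A]
  {R : Type} [CommRing R] [Algebra ℂ R] [IsGerm R]

/-- The axes structure `𝒜'` on a deformation lies over the axes structure `𝒜` on `A`. -/
structure AxLifts (D : Defo A R) (𝒜 : Axes ℂ⟦X⟧ A) (𝒜' : Axes R⟦X⟧ D.O) : Prop where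
  base : ∀ r, 𝒜'.φ (C r) = algebraMap R D.O r
  red : ∀ (ρ : R →ₐ[ℂ] ℂ) (F : R⟦X⟧), D.π (𝒜'.φ F) = 𝒜.φ (PowerSeries.map ρ.toRingHom F)
  gen : ∀ p, D.π (𝒜'.Z p) = 𝒜.Z p

/-- The standard form `𝓡'` on a deformation lies over the standard form `𝓡` on `A`. -/
structure Lifts (D : Defo A R) (𝓡 : Rim ℂ⟦X⟧ A) (𝓡' : Rim R⟦X⟧ D.O) : Prop where
  ax : AxLifts D 𝓡.toAxes 𝓡'.toAxes
  f : ∀ (ρ : R →ₐ[ℂ] ℂ) i, PowerSeries.map ρ.toRingHom (𝓡'.f i) = 𝓡.f i
  g : ∀ (ρ : R →ₐ[ℂ] ℂ) i, PowerSeries.map ρ.toRingHom (𝓡'.g i) = 𝓡.g i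
  al : ∀ (ρ : R →ₐ[ℂ] ℂ) i j, i ≠ j → PowerSeries.map ρ.toRingHom (𝓡'.al i j) = 𝓡.al i j

/-- The standard form of the singularity. -/
structure IsStd (𝓡 : Rim ℂ⟦X⟧ A) : Prop where
  base : ∀ c, 𝓡.φ (C c) = algebraMap ℂ A c
  f : ∀ i, 𝓡.f i = C (a i : ℂ) * X
  g : ∀ i, 𝓡.g i = X ^ l i
  al : ∀ i j, i ≠ j → 𝓡.al j i = C ((a j : ℂ) - a i)⁻¹ * X ^ (l i - 1)

end Deformations

/-- Row STD: every deformation has a standard form. -/
def StdStmt : Prop :=
  ∀ (A : Type) [CommRing A] [Algebra ℂ A] [IsGerm A] (R : Type) [CommRing R] [Algebra ℂ R]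
    [IsGerm R] (D : Defo A R) (𝓡 : Rim ℂ⟦X⟧ A), (∀ c, 𝓡.φ (C c) = algebraMap ℂ A c) →
    ∃ 𝓡' : Rim R⟦X⟧ D.O, Lifts D 𝓡 𝓡'

/-- Row STD: the standard form is carried along morphisms. -/
def PushStmt : Prop :=
  ∀ (A : Type) [CommRing A] [Algebra ℂ A] [IsGerm A] (R : Type) [CommRing R] [Algebra ℂ R]
    [IsGerm R] (S : Type) [CommRing S] [Algebra ℂ S] [IsGerm S] (D : Defo A R) (E : Defo A S)
    (γ : D.Hom E) (𝓡 : Rim ℂ⟦X⟧ A) (𝓡' : Rim R⟦X⟧ D.O), (∀ c, 𝓡.φ (C c) = algebraMap ℂ A c) →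
    Lifts D 𝓡 𝓡' → ∃ 𝓡'' : Rim S⟦X⟧ E.O, Lifts E 𝓡 𝓡'' ∧
      (∀ i, 𝓡''.f i = PowerSeries.map γ.base.toRingHom (𝓡'.f i)) ∧
      (∀ i, 𝓡''.g i = PowerSeries.map γ.base.toRingHom (𝓡'.g i)) ∧
      ∀ i j, 𝓡''.al i j = PowerSeries.map γ.base.toRingHom (𝓡'.al i j)

/-! ### The polynomial model and its completion -/

/-- A ring with the basis `1, Z_p ^ e` over `T` and the relations of the standard form. -/
structure PolyRim (T S : Type) [CommRing T] [CommRing S] (f g : Ln → T) (al : Ln → Ln → T) where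
  φ : T →+* S
  Z : Option Ln → S
  rels : Rel f g al φ Z
  bij : Function.Bijective fun w : T × (Option Ln → Polynomial T) =>
    φ w.1 + ∑ p, Z p * (w.2 p).eval₂ φ (Z p)

/-- Row POLY: partial fractions. -/
def PolyStmt : Prop :=
  ∀ (T S : Type) [CommRing T] [CommRing S] (f g : Ln → T) (al : Ln → Ln → T) (φ : T →+* S)
    (Z : Option Ln → S), Rel f g al φ Z → Subring.closure (Set.range φ ∪ Set.range Z) = ⊤ →
    (∀ P : Polynomial T, P.eval₂ φ (Z none) = 0 → P = 0) → (∀ i, g i ∈ nonZeroDivisors T) →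
    (∀ i j, i ≠ j → f i - f j ∈ nonZeroDivisors T) →
    ∃ P : PolyRim T S f g al, P.φ = φ ∧ P.Z = Z

/-- Row POLY: the universal property of the polynomial model. -/
def PolyUpStmt : Prop :=
  ∀ (T S : Type) [CommRing T] [CommRing S] (f g : Ln → T) (al : Ln → Ln → T)
    (P : PolyRim T S f g al) (S' : Type) [CommRing S'] (φ' : T →+* S') (Z' : Option Ln → S'),
    Rel f g al φ' Z' → ∃ Φ : S →+* S', (∀ t, Φ (P.φ t) = φ' t) ∧ ∀ p, Φ (P.Z p) = Z' p

/-- Row DEFO: the deformation with given equations. -/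
def DefoStmt : Prop :=
  ∀ (A : Type) [CommRing A] [Algebra ℂ A] [IsGerm A] (𝓡 : Rim ℂ⟦X⟧ A), IsStd 𝓡 →
    ∀ (R : Type) [CommRing R] [Algebra ℂ R] [IsGerm R] (f g : Ln → R⟦X⟧) (al : Ln → Ln → R⟦X⟧),
    (∀ i j, i ≠ j → g i = (f j - f i) * al j i) →
    (∀ (ρ : R →ₐ[ℂ] ℂ) i, PowerSeries.map ρ.toRingHom (f i) = 𝓡.f i) →
    (∀ (ρ : R →ₐ[ℂ] ℂ) i, PowerSeries.map ρ.toRingHom (g i) = 𝓡.g i) →
    (∀ (ρ : R →ₐ[ℂ] ℂ) i j, i ≠ j → PowerSeries.map ρ.toRingHom (al i j) = 𝓡.al i j) →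
    ∃ (D : Defo A R) (𝓡' : Rim R⟦X⟧ D.O), Lifts D 𝓡 𝓡' ∧ 𝓡'.f = f ∧ 𝓡'.g = g ∧ 𝓡'.al = al

/-- Row VERS: a versal deformation exists. -/
def VersStmt : Prop :=
  ∀ (A : Type) [CommRing A] [Algebra ℂ A] [IsGerm A] (𝓡 : Rim ℂ⟦X⟧ A), IsStd 𝓡 →
    ∃ (R : Type) (_ : CommRing R) (_ : Algebra ℂ R) (_ : IsGerm R) (D : Defo A R), D.IsVersal

/-- The field of rational functions in `x, y`. -/
abbrev KK : Type := FractionRing (Polynomial (Polynomial ℂ))

/-- Polynomials in `x`. -/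
def ψ : Polynomial ℂ →+* KK := (algebraMap (Polynomial (Polynomial ℂ)) KK).comp Polynomial.C

/-- The coordinates. -/
def xx : KK := ψ Polynomial.X
def yy : KK := algebraMap (Polynomial (Polynomial ℂ)) KK Polynomial.X

/-- The data of the singularity. -/
def f0 (i : Ln) : Polynomial ℂ := Polynomial.C (a i : ℂ) * Polynomial.X
def g0 (i : Ln) : Polynomial ℂ := Polynomial.X ^ l i
def al0 (j i : Ln) : Polynomial ℂ := Polynomial.C ((a j : ℂ) - a i)⁻¹ * Polynomial.X ^ (l i - 1)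

/-- The generators `y` and `z_i = x ^ (l i) / (y - a_i x)`. -/
def ZZ : Option Ln → KK
  | none => yy
  | some i => xx ^ l i / (yy - a i * xx)

/-- The affine surface. -/
def A0 : Subalgebra ℂ KK := Algebra.adjoin ℂ (insert xx (Set.range ZZ))

/-- Row POLY: the affine surface is a polynomial model. -/
def A0PolyStmt : Prop :=
  ∃ P : PolyRim (Polynomial ℂ) A0 f0 g0 al0, (∀ t, (P.φ t : KK) = ψ t) ∧ ∀ p, (P.Z p : KK) = ZZ p

/-- Row AHAT: the singularity has the standard form. -/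
def AhatStmt : Prop :=
  ∃ m : Ideal A0, m.IsMaximal ∧ ∃ (_ : IsGerm (AdicCompletion m A0))
    (𝓡 : Rim ℂ⟦X⟧ (AdicCompletion m A0)), IsStd 𝓡

/-- Row RAD: a system of parameters. -/
def RadStmt : Prop :=
  ∀ (A : Type) [CommRing A] [Algebra ℂ A] [IsGerm A], Nonempty (Rim ℂ⟦X⟧ A) →
    ∃ x t : A, x ≠ 0 ∧ ∀ a, ¬IsUnit a ↔ a ∈ (Ideal.span {x, t}).radical

/-- The data of the smoothing. -/
def f1 (i : Ln) : Polynomial B :=
  Polynomial.C (C (a i : ℂ)) * Polynomial.X + Polynomial.C (C (b i : ℂ) * X)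
def g1 (i : Ln) : Polynomial B := ∏ p ∈ on i, (Polynomial.X - Polynomial.C (C (u p : ℂ) * X))
def al1 (j i : Ln) : Polynomial B := Polynomial.C (C ((a j : ℂ) - a i)⁻¹) *
  ∏ p ∈ (on i).erase (pt i j), (Polynomial.X - Polynomial.C (C (u p : ℂ) * X))

/-- The standard form of the explicit smoothing. -/
structure IsExpl {O : Type} [CommRing O] [IsLocalRing O] (𝓡 : Rim B⟦X⟧ O) : Prop where
  f : ∀ i, 𝓡.f i = f1 i
  g : ∀ i, 𝓡.g i = g1 i
  al : ∀ i j, i ≠ j → 𝓡.al i j = al1 i j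

/-- Row E0: the explicit smoothing exists and every versal deformation maps to it. -/
def E0Stmt : Prop :=
  ∀ (A : Type) [CommRing A] [Algebra ℂ A] [IsGerm A] (𝓡 : Rim ℂ⟦X⟧ A), IsStd 𝓡 →
    ∃ (E : Defo A B) (𝓡' : Rim B⟦X⟧ E.O), Lifts E 𝓡 𝓡' ∧ IsExpl 𝓡' ∧
      ∀ (R : Type) [CommRing R] [Algebra ℂ R] [IsGerm R] (D : Defo A R), D.IsVersal →
        Nonempty (D.Hom E)

/-- Row FIRST: the first order term of any standard form of the explicit smoothing. -/
def FirstStmt : Prop :=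
  ∀ (A : Type) [CommRing A] [Algebra ℂ A] [IsGerm A] (𝓡 : Rim ℂ⟦X⟧ A), IsStd 𝓡 →
    ∀ (E : Defo A B) (𝓡' 𝓡'' : Rim B⟦X⟧ E.O), Lifts E 𝓡 𝓡' → IsExpl 𝓡' → Lifts E 𝓡 𝓡'' →
      ∃ α β : ℂ, ∀ i, coeff 1 (cc (𝓡''.f i)) = b i + β - a i * α

/-- The picture of an arc. -/
structure Pic (f g : Ln → B⟦X⟧) where
  ξ : Pt → B
  η : Pt → B
  U : Ln → B⟦X⟧
  fh : Ln → Pt → B⟦X⟧
  ξ0 : ∀ p, cc (ξ p) = 0
  η0 : ∀ p, cc (η p) = 0
  hg : ∀ i, g i = U i * ∏ p ∈ on i, (X - C (ξ p))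
  hU : ∀ i, cc (cc (U i)) = 1
  hf : ∀ i p, inc i p → f i = C (η p) + (X - C (ξ p)) * fh i p
  fh0 : ∀ i p, inc i p → cc (cc (fh i p)) = a i

/-- Row PAT: the picture is constant on a component. -/
def PatStmt : Prop :=
  ∀ (R : Type) [CommRing R] [Algebra ℂ R] [IsGerm R] (f g : Ln → R⟦X⟧) (al : Ln → Ln → R⟦X⟧),
    (∀ i j, i ≠ j → g i = (f j - f i) * al j i) →
    (∀ (ρ : R →ₐ[ℂ] ℂ) i, PowerSeries.map ρ.toRingHom (f i) = C (a i : ℂ) * X) →
    (∀ (ρ : R →ₐ[ℂ] ℂ) i, PowerSeries.map ρ.toRingHom (g i) = X ^ l i) →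
    ∀ (γ₀ : R →ₐ[ℂ] B) (α β : ℂ), (∀ i, coeff 1 (γ₀ (cc (f i))) = b i + β - a i * α) →
    ∃ q ∈ minimalPrimes R, ∃ δ ∉ q, ∀ γ : R →ₐ[ℂ] B, (∀ r ∈ q, γ r = 0) → γ δ ≠ 0 →
      ∃ P : Pic (fun i => PowerSeries.map γ.toRingHom (f i))
        (fun i => PowerSeries.map γ.toRingHom (g i)), P.ξ 0 ≠ P.ξ 1

/-- Row ARC: the arrangement is determined by its slopes up to translation and homothety. -/
def RigidStmt : Prop :=
  ∀ (u' v' : Pt → ℂ) (b' : Ln → ℂ), (∀ i p, inc i p → v' p = a i * u' p + b' i) → u' 0 = 0 →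
    v' 0 = 0 → ∃ c : ℂ, ∀ p, u' p = c * u p ∧ v' p = c * v p

/-- The total space of an arc in the component. -/
structure Core (O : Type) [CommRing O] [IsLocalRing O] extends Rim B⟦X⟧ O, Pic f g where
  w : ℕ
  w_pos : 0 < w
  ϖ : B
  ϖu : B
  hϖ : ϖ = X ^ w * ϖu
  ϖu0 : cc ϖu ≠ 0
  ut : Pt → B
  vt : Pt → B
  hξ : ∀ p, ξ p = ξ 0 + ϖ * ut p
  hη : ∀ p, η p = η 0 + ϖ * vt p
  ut0 : ∀ p, cc (ut p) = u p
  vt0 : ∀ p, cc (vt p) = v p
  off : ∀ j p, ¬inc j p → ∃ (c : B) (r : B⟦X⟧), cc c ≠ 0 ∧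
    f j = C (η p + ϖ * c) + (X - C (ξ p)) * r
  hal : ∀ i j, i ≠ j → al j i * (fh j (pt i j) - fh i (pt i j)) =
    U i * ∏ q ∈ (on i).erase (pt i j), (X - C (ξ q))

/-- Row ARC. -/
def ArcStmt : Prop :=
  ∀ (O : Type) [CommRing O] [IsLocalRing O] (𝓡 : Rim B⟦X⟧ O) (P : Pic 𝓡.f 𝓡.g), P.ξ 0 ≠ P.ξ 1 →
    ∃ 𝒞 : Core O, 𝒞.toRim = 𝓡

/-- Vanishing to order `k` at the point `(p, q)`. -/
def Van {R : Type} [CommRing R] (p q : R) (k : ℕ) (N : MvPolynomial (Fin 2) R) : Prop :=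
  N ∈ Ideal.span {MvPolynomial.X 0 - MvPolynomial.C p, MvPolynomial.X 1 - MvPolynomial.C q} ^ k

/-- The homogenised polynomial `ϖ ^ d N (x / ϖ, y / ϖ)`. -/
def sharp {S : Type} [CommRing S] (β : B →+* S) (ϖ : B) (x y : S) (d : ℕ)
    (N : MvPolynomial (Fin 2) B) : S :=
  ∑ m ∈ N.support, β (N.coeff m * ϖ ^ (d - m 0 - m 1)) * (x ^ m 0 * y ^ m 1)

/-- Row SHARP. -/
def SharpStmt : Prop :=
  ∀ (S : Type) [CommRing S] (β : B →+* S) (ϖ p q : B) (x y : S) (d k : ℕ)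
    (N : MvPolynomial (Fin 2) B), N.totalDegree ≤ d → Van p q k N →
    sharp β ϖ x y d N ∈ Ideal.span {x - β (ϖ * p), y - β (ϖ * q)} ^ k

section CoreDefs

variable {O : Type} [CommRing O] [IsLocalRing O] (𝒞 : Core O)

/-- The structure map from the disc. -/
def Core.β : B →+* O := 𝒞.φ.comp C
def Core.x : O := 𝒞.φ X
def Core.y : O := 𝒞.Z none
def Core.z (i : Ln) : O := 𝒞.Z (some i)
def Core.yy (i : Ln) : O := 𝒞.y - 𝒞.φ (𝒞.f i)
def Core.δ (i : Ln) : O := 𝒞.z i * ∏ j ∈ Finset.univ.erase i, (𝒞.z i - 𝒞.φ (𝒞.al j i))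
def Core.γ (i k : Ln) : O := ∏ j ∈ (Finset.univ.erase i).erase k, 𝒞.yy j

/-- The homogenised polynomial `ϖ ^ d N ((x - ξ₀) / ϖ, (y - η₀) / ϖ)`. -/
def Core.sharp (d : ℕ) (N : MvPolynomial (Fin 2) B) : O :=
  Kol.sharp 𝒞.β 𝒞.ϖ (𝒞.x - 𝒞.β (𝒞.ξ 0)) (𝒞.y - 𝒞.β (𝒞.η 0)) d N

variable {K : Type} [Field K] (ι : O →+* K)

/-- The Jacobian of `x, y` on two vector fields. -/
def Core.jac (D E : Derivation ℤ K K) : K :=
  D (ι 𝒞.x) * E (ι 𝒞.y) - D (ι 𝒞.y) * E (ι 𝒞.x)

/-- The form `e` is `h (dx ∧ dy) ^ n`. -/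
def Core.Rep (e : Form K) (h : K) : Prop :=
  ∀ D E, IsField 𝒞.β ι D → IsField 𝒞.β ι E → e.val D E = h * 𝒞.jac ι D E ^ e.n

end CoreDefs

/-- `K` is the fraction field of `O` through `ι`. -/
def IsFrac {O K : Type} [CommRing O] [Field K] (ι : O →+* K) : Prop :=
  Function.Injective ι ∧ ∀ φ : K, ∃ a b, b ≠ 0 ∧ φ * ι b = ι a

/-- A family of valuation rings that detects regularity on `Spec O`. -/
structure Zs {O K : Type} [CommRing O] [Field K] (ι : O →+* K) (s x : O)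
    (𝒵 : Set (ValuationSubring K)) : Prop where
  le : ∀ W ∈ 𝒵, ∀ o, ι o ∈ W
  cen : ∀ W ∈ 𝒵, ι s ∈ W.nonunits → ι x ∉ W.nonunits
  loc : ∀ W ∈ 𝒵, ∀ φ ∈ W, ∃ a b, ι b ∉ W.nonunits ∧ φ * ι b = ι a
  hart : ∀ (φ : K) (δ : O), (∀ W ∈ 𝒵, ι δ ∉ W.nonunits → φ ∈ W) → ∃ M, ι δ ^ M * φ ∈ ι.range

/-- The algebraic shadow of a model with semiample canonical divisor. -/
def HasModel {O K : Type} [CommRing O] [Field K] (β : B →+* O) (ι : O →+* K) (x : O) : Prop :=
  ∃ 𝒵, Zs ι (β X) x 𝒵 ∧ ∀ V : ValuationSubring K, (∀ o, ι o ∈ V) → ι (β X) ∈ V.nonunits →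
    ∃ (e : Form K) (Y : Set (ValuationSubring K)), 0 < e.n ∧
      (∀ W ∈ 𝒵, e.RegularAt β ι W.toSubring) ∧
      (∀ W ∈ Y, (∀ o, ι o ∈ W) ∧ (ι (β X) ∈ W.nonunits → ι x ∉ W.nonunits) ∧
        e.GeneratesAt β ι W.toSubring) ∧
      ∀ φ, (∀ W ∈ Y, φ ∈ W) → φ ∈ V

/-- The coordinate vector fields. -/
structure Fields {O K : Type} [CommRing O] [IsLocalRing O] [Field K] (𝒞 : Core O) (ι : O →+* K)
    (dx dy : Derivation ℤ K K) : Prop where
  fx : IsField 𝒞.β ι dx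
  fy : IsField 𝒞.β ι dy
  xx : dx (ι 𝒞.x) = 1
  xy : dx (ι 𝒞.y) = 0
  yx : dy (ι 𝒞.x) = 0
  yy : dy (ι 𝒞.y) = 1
  comb : ∀ c c' : K, IsField 𝒞.β ι (c • dx + c' • dy)
  span : ∀ D, IsField 𝒞.β ι D → D = D (ι 𝒞.x) • dx + D (ι 𝒞.y) • dy
  chain : ∀ D, IsField 𝒞.β ι D → ∀ F : B⟦X⟧,
    D (ι (𝒞.φ F)) = ι (𝒞.φ (derivative B F)) * D (ι 𝒞.x)
  tan : ∀ D, IsField 𝒞.β ι D → ∀ W : ValuationSubring K, (∀ o, ι o ∈ W) →
    (∀ φ ∈ W, ∃ a b, ι b ∉ W.nonunits ∧ φ * ι b = ι a) → D (ι 𝒞.x) ∈ W → D (ι 𝒞.y) ∈ W →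
    (∀ i, D (ι (𝒞.z i)) ∈ W) → Tangent 𝒞.β ι W.toSubring D
  rep : ∀ e : Form K, ∃ h, 𝒞.Rep ι e h

/-- Row DER. -/
def DerStmt : Prop :=
  ∀ (O : Type) [CommRing O] [Algebra ℂ O] [IsGerm O] (𝒞 : Core O) (K : Type) [Field K]
    (ι : O →+* K), IsFrac ι → ∃ dx dy, Fields 𝒞 ι dx dy

/-- Row REG: denominators of a regular form. -/
def RegStmt : Prop :=
  ∀ (O : Type) [CommRing O] [Algebra ℂ O] [IsGerm O] (𝒞 : Core O) (K : Type) [Field K]
    (ι : O →+* K), IsFrac ι → ∀ dx dy, Fields 𝒞 ι dx dy →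
    ∀ 𝒵, Zs ι (𝒞.β X) 𝒞.x 𝒵 → ∀ (e : Form K) (h : K), 𝒞.Rep ι e h →
    (∀ W ∈ 𝒵, e.RegularAt 𝒞.β ι W.toSubring) → ∀ i,
      (∃ M H, e.n ≤ M ∧ ι H = h * ι (𝒞.yy i ^ e.n * 𝒞.δ i ^ M)) ∧
      ∀ k, ∃ M H, ι H = h * ι (𝒞.yy i ^ e.n * 𝒞.γ i k ^ M)

/-! ### The exceptional surfaces -/

/-- Power series over Laurent polynomials. -/
abbrev TT : Type := (LaurentPolynomial ℂ)⟦X⟧

/-- The constants. -/
def jB : B →+* TT := PowerSeries.map LaurentPolynomial.C

/-- The monomial `ω ^ j`. -/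
def om (j : ℤ) : TT := C (LaurentPolynomial.T j)

/-- The coefficient of `ω ^ j`. -/
def dd (F : TT) (j : ℤ) : B := PowerSeries.mk fun n => (coeff n F).coeff j

/-- Restriction to the `z_i`-axis. -/
structure IsAx {O : Type} [CommRing O] [IsLocalRing O] (𝒞 : Core O) (i : Ln)
    (ax : O →+* ℂ⟦X⟧) : Prop where
  base : ∀ F, ax (𝒞.φ F) = C (cc (cc F))
  self : ax (𝒞.z i) = X
  other : ∀ p, p ≠ some i → ax (𝒞.Z p) = 0

/-- Restriction to the exceptional surface over the double point of the lines `i`, `k`. -/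
structure Psi {O : Type} [CommRing O] [IsLocalRing O] (𝒞 : Core O) (i k : Ln) where
  Ψ : O →+* TT
  α : B
  α' : B
  hα : cc α = ((a k : ℂ) - a i)⁻¹ * gd i (pt i k)
  hα' : cc α' = ((a i : ℂ) - a k)⁻¹ * gd k (pt i k)
  base : ∀ c, Ψ (𝒞.β c) = jB c
  x : Ψ 𝒞.x = jB (𝒞.ξ (pt i k))
  y : Ψ 𝒞.y = jB (𝒞.η (pt i k))
  al : Ψ (𝒞.φ (𝒞.al k i)) = jB (𝒞.ϖ ^ (l i - 1) * α)
  al' : Ψ (𝒞.φ (𝒞.al i k)) = jB (𝒞.ϖ ^ (l k - 1) * α')
  zi : Ψ (𝒞.z i) = jB (𝒞.ϖ ^ (l i - 1) * α) * (1 - om 1)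
  zk : Ψ (𝒞.z k) = jB (𝒞.ϖ ^ (l k - 1) * α') * (1 - om (-1))
  zj : ∀ j, j ≠ i → j ≠ k → ∃ c : B, cc c = 0 ∧ Ψ (𝒞.z j) = jB c
  alj : ∀ j, j ≠ i → j ≠ k → Ψ (𝒞.φ (𝒞.al j i)) = 0 ∧ Ψ (𝒞.φ (𝒞.al j k)) = 0
  yj : ∀ j, j ≠ i → j ≠ k → ∃ c : B, cc c ≠ 0 ∧ Ψ (𝒞.yy j) = jB (𝒞.ϖ * c)

/-- Row PSI: existence of the restriction maps. -/
def PsiStmt : Prop :=
  ∀ (O : Type) [CommRing O] [Algebra ℂ O] [IsGerm O] (𝒞 : Core O),
    (∀ i, ∃ ax, IsAx 𝒞 i ax) ∧ ∀ i k, Node i k → Nonempty (Psi 𝒞 i k)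

/-- The coefficients of `F` on the side `ε = ± 1` are divisible by the powers of `-α`, with the
residues given by `ρ`. -/
def Side (F : TT) (ε : ℤ) (α : B) (ρ : ℂ⟦X⟧) : Prop :=
  ∀ j : ℕ, ∃ P : B, dd F (ε * j) = (-α) ^ j * P ∧ cc P = coeff j ρ

/-- Row NF: normal form on the exceptional surface. -/
def NfStmt : Prop :=
  ∀ (O : Type) [CommRing O] [Algebra ℂ O] [IsGerm O] (𝒞 : Core O) (i k : Ln), i ≠ k →
    ∀ (P : Psi 𝒞 i k) (ax ax' : O →+* ℂ⟦X⟧), IsAx 𝒞 i ax → IsAx 𝒞 k ax' → ∀ H : O,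
      Side (P.Ψ H) 1 (𝒞.ϖ ^ (l i - 1) * P.α) (ax H) ∧
      Side (P.Ψ H) (-1) (𝒞.ϖ ^ (l k - 1) * P.α') (ax' H)

/-- Row SEQ: the two circle lemma. -/
def SeqStmt : Prop :=
  ∀ (N g n M M' : ℕ) (α α' γ : B) (G H H' : TT) (ρ ρ' σ σ' : ℂ⟦X⟧), 0 < N → n ≤ M → n ≤ M' →
    cc α ≠ 0 → cc α' ≠ 0 → cc γ ≠ 0 →
    Side G 1 (X ^ N * α) σ → Side G (-1) (X ^ N * α') σ' →
    Side H 1 (X ^ N * α) ρ → Side H' (-1) (X ^ N * α') ρ' →
    H * jB (X ^ g * γ) = G * ((jB (X ^ N * α) * (1 - om 1)) ^ 9 * (-jB (X ^ N * α) * om 1)) ^ M →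
    H' * jB (X ^ g * γ) = G * om n *
      ((jB (X ^ N * α') * (1 - om (-1))) ^ 9 * (-jB (X ^ N * α') * om (-1))) ^ M' →
    (∀ t, 2 * t + n < 20 * M → coeff t ρ = 0) ∧
    ∀ r, n = 2 * r → coeff (10 * M' - r) ρ' * cc α ^ r = coeff (10 * M - r) ρ * cc α' ^ r

/-- Row LB: the lower bound on the `z_0`-axis. -/
def LbStmt : Prop :=
  ∀ (O : Type) [CommRing O] [Algebra ℂ O] [IsGerm O] (𝒞 : Core O) (K : Type) [Field K]
    (ι : O →+* K), IsFrac ι → ∀ (n : ℕ) (h : K), 0 < n →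
    (∀ i, (∃ M H, n ≤ M ∧ ι H = h * ι (𝒞.yy i ^ n * 𝒞.δ i ^ M)) ∧
      ∀ k, ∃ M H, ι H = h * ι (𝒞.yy i ^ n * 𝒞.γ i k ^ M)) →
    ∀ ax, IsAx 𝒞 0 ax → ∃ (M V : ℕ) (H : O), ι H = h * ι (𝒞.yy 0 ^ n * 𝒞.δ 0 ^ M) ∧
      20 * M + 1 ≤ 2 * V + n ∧ X ^ V ∣ ax H

/-- Row UB: the test forms are regular. -/
def UbStmt : Prop :=
  ∀ (O : Type) [CommRing O] [Algebra ℂ O] [IsGerm O] (𝒞 : Core O) (K : Type) [Field K]
    (ι : O →+* K), IsFrac ι → ∀ dx dy, Fields 𝒞 ι dx dy →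
    ∀ (e : Ln → ℕ) (κ : Pt → ℕ) (m d : ℕ) (N : MvPolynomial (Fin 2) B), N.totalDegree ≤ d →
    (∀ p, Van (𝒞.ut p) (𝒞.vt p) (κ p) N) →
    (∀ p, ∑ i ∈ Finset.univ.filter (inc · p), e i ≤ κ p + m) →
    ∀ W : ValuationSubring K, (∀ o, ι o ∈ W) → (ι (𝒞.β X) ∈ W.nonunits → ι 𝒞.x ∉ W.nonunits) →
    ∀ D E, Tangent 𝒞.β ι W.toSubring D → Tangent 𝒞.β ι W.toSubring E →
      ι (𝒞.sharp d N) / ι (∏ j, 𝒞.yy j ^ e j) * 𝒞.jac ι D E ^ m ∈ W

/-- Row AXV: the order of a test form on the `z_0`-axis. -/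
def AxvStmt : Prop :=
  ∀ (O : Type) [CommRing O] [Algebra ℂ O] [IsGerm O] [IsDomain O] (𝒞 : Core O)
    (ax : O →+* ℂ⟦X⟧), IsAx 𝒞 0 ax → ∀ (k : ℕ) (N : MvPolynomial (Fin 2) B), 0 < k → N.totalDegree ≤ 3 * k + 6 →
    (∀ p, Van (𝒞.ut p) (𝒞.vt p) (kap k p) N) →
    cc (N.coeff (Finsupp.single 0 (3 * k + 6))) ≠ 0 →
    ∃ (c d : O) (t : ℕ),
      c * ∏ j, 𝒞.yy j ^ ee k j = 𝒞.sharp (3 * k + 6) N * 𝒞.yy 0 ^ (2 * k) * d ∧
      X ^ (t + k) ∣ ax d ∧ ¬X ^ (t + 2) ∣ ax c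

/-! ### The dimension count -/

/-- Row UPPER. -/
def UpperStmt : Prop :=
  ∀ (k : ℕ) (W : Submodule ℂ (MvPolynomial (Fin 2) ℂ)),
    (∀ N ∈ W, N.totalDegree ≤ 3 * k + 6 ∧ (∀ p, Van (u p : ℂ) (v p : ℂ) (kap k p) N) ∧
      N.coeff (Finsupp.single 0 (3 * k + 6)) = 0) → Module.finrank ℂ W ≤ 15 * k + 21

/-- Row COUNT. -/
def RankStmt : Prop :=
  ∀ (ut vt : Pt → B) (d : ℕ) (k : Pt → ℕ), ∃ W : Submodule ℂ (MvPolynomial (Fin 2) ℂ),
    (d + 1) * (d + 2) ≤ 2 * Module.finrank ℂ W + ∑ p, k p * (k p + 1) ∧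
    ∀ N₀ ∈ W, ∃ N : MvPolynomial (Fin 2) B, N.totalDegree ≤ d ∧
      (∀ p, Van (ut p) (vt p) (k p) N) ∧ MvPolynomial.map cc N = N₀

/-- Row COUNT. -/
def CountStmt : Prop :=
  ∀ ut vt : Pt → B, (∀ p, cc (ut p) = u p) → (∀ p, cc (vt p) = v p) → ∀ k : ℕ,
    ∃ N : MvPolynomial (Fin 2) B, N.totalDegree ≤ 3 * k + 6 ∧
      (∀ p, Van (ut p) (vt p) (kap k p) N) ∧ cc (N.coeff (Finsupp.single 0 (3 * k + 6))) ≠ 0

/-- Row VAL: a valuation ring along an arc. -/
def ValStmt : Prop :=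
  ∀ (O K : Type) [CommRing O] [Field K] (ι : O →+* K), IsFrac ι → ∀ Φ : O →+* ℂ⟦X⟧,
    ∃ V : ValuationSubring K, (∀ o, ι o ∈ V) ∧ (∀ o, X ∣ Φ o → ι o ∈ V.nonunits) ∧
      ∀ (a b : O) (φ : K) (n : ℕ), φ ∈ V → φ * ι b = ι a → b ≠ 0 → X ^ n ∣ Φ b → X ^ n ∣ Φ a

/-- Row CORE. -/
def CoreStmt : Prop :=
  ∀ (O : Type) [CommRing O] [Algebra ℂ O] [IsGerm O] (𝒞 : Core O) (K : Type) [Field K]
    (ι : O →+* K), IsFrac ι → ¬HasModel 𝒞.β ι 𝒞.x

/-- Row MODEL: from the scheme to its shadow. -/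
def ModelStmt : Prop :=
  ∀ (A : Type) [CommRing A] [Algebra ℂ A] (E : Defo A B) (U : Scheme.{0}) [IsIntegral U]
    (f : U ⟶ Spec (.of A)) (W : Scheme.{0}) [IsIntegral W] (F : W ⟶ Spec (.of E.O)) (j : U ⟶ W),
    IsPullback j f F (Spec.map (CommRingCat.ofHom E.π.toRingHom)) → IsIso f.appTop →
    IsModification F → IsIso F.appTop → (∀ y : W, IsIntegrallyClosed (W.presheaf.stalk y)) →
    SemiAmple (algebraMap B E.O) F → ∀ x : E.O, E.π x ≠ 0 →
    HasModel (algebraMap B E.O) (toField F) x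

/-! ### Rationality -/

/-- Row CECH. -/
def CechStmt : Prop :=
  ∀ (Y : Scheme.{0}) [IsIntegral Y] (J : Type) (V : J → Y.Opens),
    (∀ c, IsAffineOpen (V c)) → (∀ y, ∃ c, y ∈ V c) →
    (∀ g : J → Y.functionField, (∀ c c' y, y ∈ V c → y ∈ V c' → g c - g c' ∈ localRing y) →
      ∃ χ, ∀ c, ∀ y ∈ V c, χ - g c ∈ localRing y) → H1Zero Y

/-- The charts `Bc` glue to the blow up of the fractional ideal generated by the `t c`. -/
structure Charts {L J : Type} [Field L] [Algebra ℂ L] (A : Subalgebra ℂ L)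
    (Bc : J → Subalgebra ℂ L) (t : J → L) : Prop where
  ne : ∀ c, t c ≠ 0
  base : ∀ c, A ≤ Bc c
  ratio : ∀ c c', t c / t c' ∈ Bc c'
  comp : ∀ c c', ∀ φ ∈ Bc c, ∃ N : ℕ, (t c / t c') ^ N * φ ∈ Bc c'
  proper : ∀ V : ValuationSubring L, (∀ φ ∈ A, φ ∈ V) → ∃ c, ∀ φ ∈ Bc c, φ ∈ V

/-- The Cousin problem for the charts. -/
def Cou {L J : Type} [Field L] [Algebra ℂ L] (Bc : J → Subalgebra ℂ L) : Prop :=
  ∀ g : J → L, (∀ c c', g c - g c' ∈ Bc c ⊔ Bc c') → ∃ χ, ∀ c, χ - g c ∈ Bc c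

/-- Row BLOW. -/
def BlowStmt : Prop :=
  ∀ (L J : Type) [Field L] [Algebra ℂ L] [Finite J] (A : Subalgebra ℂ L)
    (Bc : J → Subalgebra ℂ L) (t : J → L), A.FG → (∀ φ : L, ∃ b ∈ A, b ≠ 0 ∧ b * φ ∈ A) →
    Charts A Bc t → (∀ c, Algebra.Smooth ℂ (Bc c)) → Cou Bc →
    ∃ (Y : Scheme.{0}) (f : Y ⟶ Spec (.of A)), IsModification f ∧
      Smooth (f ≫ Spec.map (CommRingCat.ofHom (algebraMap ℂ A))) ∧ H1Zero Y

/-- The slope coordinate `v_i = y / x - a_i`. -/
def vv (i : Ln) : KK := yy / xx - a i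

/-- The charts: the point at infinity of the central curve and the nodes of the arms, with the
coordinates `p = v_i / x ^ k`, `q = x ^ (k + 1) / v_i`, `k ≤ l i - 2`. -/
def ch : Option ((i : Ln) × Fin (l i - 1)) → Subalgebra ℂ KK
  | none => Algebra.adjoin ℂ ({yy, xx / yy} ∪ Set.range fun j : Ln => (1 - a j * (xx / yy))⁻¹)
  | some ⟨i, k⟩ => Algebra.adjoin ℂ ({vv i / xx ^ k.1, xx ^ (k.1 + 1) / vv i} ∪
      {φ | ∃ j : Ln, j ≠ i ∧ φ = (vv j)⁻¹})

/-- The local generators of the ample sheaf. -/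
def tt : Option ((i : Ln) × Fin (l i - 1)) → KK
  | none => 1
  | some ⟨i, k⟩ => ∏ m ∈ Finset.range (k.1 + 1), xx ^ m / vv i

/-- Row CHART. -/
def ChartStmt : Prop := Charts A0 ch tt

/-- Row SMOOTH. -/
def SmoothStmt : Prop := ∀ c, Algebra.Smooth ℂ (ch c)

/-- Row COU. -/
def CouStmt : Prop := Cou ch

/-- Row A0. -/
def A0Stmt : Prop :=
  A0.FG ∧ (∀ φ : KK, ∃ b ∈ A0, b ≠ 0 ∧ b * φ ∈ A0) ∧ IsIntegrallyClosed A0 ∧ ringKrullDim A0 = 2

end Pool.Agent.MP_648617_ag.Kol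

end
end MrgPart0

-- ======== part 1: formerly Pool.Agent.MP_648617_ag.kol.Defo
section MrgPart1

/-! Row DEFO: the deformation with given equations, and the explicit smoothing. -/

open IsLocalRing PowerSeries

noncomputable section

namespace Pool.Agent.MP_648617_ag.Kol

open Vers

namespace Dfo

section Tables

variable {T : Type} [CommRing T]

/-- The linear coefficients of the relations. -/
def AL (f : Ln → T) (al : Ln → Ln → T) : Option Ln → Option Ln → T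
  | none, _ => 0
  | some i, none => f i
  | some i, some j => if i = j then 0 else al i j

/-- The constant coefficients of the relations. -/
def RR (g : Ln → T) : Option Ln → Option Ln → T
  | none, none => 0
  | none, some i => g i
  | some i, none => g i
  | some _, some _ => 0

theorem rimEq {f g : Ln → T} {al : Ln → Ln → T} (hdiv : ∀ i j, i ≠ j → g i = (f j - f i) * al j i)
    (hnz : ∀ i j, i ≠ j → ∀ q, (f i - f j) * q = 0 → q = 0) : RimEq (AL f al) (RR g) where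
  symm := by rintro (_ | i) (_ | j) - <;> rfl
  eq := by
    rintro (_ | i) (_ | j) (_ | k) h1 h2 h3
    · exact absurd rfl h1
    · exact absurd rfl h1
    · exact absurd rfl h2
    · have hk : k ≠ j := fun h => h3 (by rw [h])
      simp only [AL, RR, if_neg hk, hdiv j k hk.symm]; ring
    · exact absurd rfl h3
    · have hk : k ≠ i := fun h => h2 (by rw [h])
      simp only [AL, RR, if_neg hk, hdiv i k hk.symm]; ring
    · simp only [AL, RR]; ring
    · have hij : i ≠ j := fun h => h1 (by rw [h])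
      have hki : k ≠ i := fun h => h2 (by rw [h])
      have hkj : k ≠ j := fun h => h3 (by rw [h])
      simp only [AL, RR, if_neg hij, if_neg hij.symm, if_neg hki, if_neg hkj]
      rw [← sub_eq_zero]
      refine hnz k i hki _ (hnz k j hkj _ ?_)
      have e1 := (hdiv i j hij).symm.trans (hdiv i k hki.symm)
      have e2 := (hdiv j i hij.symm).symm.trans (hdiv j k hkj.symm)
      linear_combination ((f k - f j) * (al k j - al i j)) * e1 - ((f k - f j) * al j i) * e2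

variable {O : Type} [CommRing O] [Algebra T O] {f g : Ln → T} {al : Ln → Ln → T}
  {Z : Option Ln → O}

theorem rel_of_err (h : ∀ p q, p ≠ q → err Z (AL f al) (RR g) p q = 0) :
    Rel f g al (algebraMap T O) Z where
  rel0 i := by
    have := h none (some i) (by simp)
    simp only [err, AL, RR, map_zero] at this
    linear_combination this
  rel i j hij := by
    have := h (some i) (some j) (by simpa using hij)
    simp only [err, AL, RR, map_zero, if_neg hij, if_neg hij.symm] at this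
    linear_combination this

theorem err_of_rel {T' : Type} [CommRing T'] (τ : T' →+* T) {f' g' : Ln → T'}
    {al' : Ln → Ln → T'} (hf : ∀ i, τ (f' i) = f i) (hg : ∀ i, τ (g' i) = g i)
    (hal : ∀ i j, i ≠ j → τ (al' i j) = al i j) (h : Rel f g al (algebraMap T O) Z) :
    ∀ p q, p ≠ q →
      err Z (fun p q => τ (AL f' al' p q)) (fun p q => τ (RR g' p q)) p q = 0 := by
  rintro (_ | i) (_ | j) h1
  · exact absurd rfl h1
  · simp only [err, AL, RR, map_zero, hf, hg]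
    linear_combination h.rel0 j
  · simp only [err, AL, RR, map_zero, hf, hg]
    linear_combination h.rel0 i
  · have hij : i ≠ j := fun h => h1 (by rw [h])
    simp only [err, AL, RR, map_zero, if_neg hij, if_neg hij.symm, hal i j hij, hal j i hij.symm]
    linear_combination h.rel i j hij

theorem AL_mem {I : Ideal T} (hf : ∀ i, f i ∈ I) (hal : ∀ i j, i ≠ j → al i j ∈ I) :
    ∀ p q, AL f al p q ∈ I := by
  rintro (_ | i) (_ | j)
  · exact I.zero_mem
  · exact I.zero_mem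
  · exact hf i
  · simp only [AL]
    split_ifs with h
    · exact I.zero_mem
    · exact hal i j h

theorem RR_mem {I : Ideal T} (hg : ∀ i, g i ∈ I) : ∀ p q, RR g p q ∈ I := by
  rintro (_ | i) (_ | j)
  · exact I.zero_mem
  · exact hg j
  · exact hg i
  · exact I.zero_mem

end Tables

section Germs

variable {R : Type} [CommRing R] [Algebra ℂ R] [IsGerm R]

theorem eq_res (ρ : R →ₐ[ℂ] ℂ) : ρ = res R := by
  ext r
  by_contra hne
  have hu : IsUnit (r - algebraMap ℂ R (ρ r)) := by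
    by_contra hn
    have h1 : r - algebraMap ℂ R (ρ r) ∈ maximalIdeal R := hn
    have h2 := res_eq_zero.2 h1
    rw [map_sub, AlgHom.commutes] at h2
    exact hne (sub_eq_zero.1 h2).symm
  have := hu.map ρ
  simp at this

theorem nzd {F : R⟦X⟧} (hF : PowerSeries.map (res R).toRingHom F ≠ 0) (q : R⟦X⟧)
    (h : F * q = 0) : q = 0 := by
  have h1 : F.map (residue R) ≠ 0 := fun h0 => hF (by
    ext n
    have := congrArg (coeff n) h0
    rw [coeff_map, map_zero, residue_eq_zero_iff] at this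
    simpa using res_eq_zero.2 this)
  exact ((IsWeierstrassDivisor.of_map_ne_zero h1).eq_zero_of_mul_eq (r := 0)
    (by simp) (by simpa using h)).1

theorem mem_of_map {S S' : Type} [CommRing S] [CommRing S'] [IsLocalRing S] [IsLocalRing S']
    (τ : S →+* S') {s : S} (h : τ s ∈ maximalIdeal S') : s ∈ maximalIdeal S :=
  fun hu => h (hu.map τ)

theorem axes_beta {T O : Type} [CommRing T] [IsLocalRing T] [CommRing O] [Algebra ℂ O] [IsGerm O]
    [Algebra T O] (𝒜 : Axes T O) (h : ∀ t, algebraMap T O t = 𝒜.φ t) :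
    Function.Bijective (beta T 𝒜.Z) := by
  have h1 : ∀ p G, ev T (𝒜.Z p) G = 𝒜.E p G := fun p G =>
    RingHom.congr_fun (ps_ext (ev T (𝒜.Z p)).toRingHom (𝒜.E p)
      (fun r => (ev_C _ r).trans ((h r).trans (𝒜.E_C p r).symm)) (ev_X (𝒜.mem p))
      ((ev_X (T := T) (𝒜.mem p)).symm ▸ 𝒜.mem p)) G
  convert 𝒜.bij using 1
  funext w
  simp only [beta_apply, h, h1, map_mul]
  rfl

/-- Evaluation as a ring map. -/
def evR (T : Type) {O : Type} [CommRing T] [CommRing O] [Algebra ℂ O] [IsGerm O] [Algebra T O]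
    (z : O) : T⟦X⟧ →+* O := (ev T z).toRingHom

theorem evR_C {T O : Type} [CommRing T] [CommRing O] [Algebra ℂ O] [IsGerm O] [Algebra T O]
    (z : O) (t : T) : evR T z (C t) = algebraMap T O t := ev_C z t

theorem evR_X {T O : Type} [CommRing T] [CommRing O] [Algebra ℂ O] [IsGerm O] [Algebra T O]
    {z : O} (hz : z ∈ maximalIdeal O) : evR T z X = z := ev_X hz

theorem evR_bij {T O : Type} [CommRing T] [CommRing O] [Algebra ℂ O] [IsGerm O] [Algebra T O]
    {Z : Option Ln → O} (hZ : ∀ p, Z p ∈ maximalIdeal O) (h : Function.Bijective (beta T Z)) :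
    Function.Bijective fun w : T × (Option Ln → T⟦X⟧) =>
      algebraMap T O w.1 + ∑ p, evR T (Z p) (X * w.2 p) := by
  convert h using 1
  funext w
  simp only [beta_apply, map_mul, evR_X (hZ _)]
  rfl

theorem germC : IsGerm ℂ where
  complete := by rw [maximalIdeal_eq_bot]; infer_instance
  res r := ⟨r, by simp⟩

end Germs

end Dfo

open Dfo

theorem defo (h : UpStmt) : DefoStmt := by
  intro A _ _ _ 𝓡 hstd R _ _ _ f g al hdiv hf hg hal
  let τ : R⟦X⟧ →ₐ[ℂ] ℂ⟦X⟧ := PowerSeries.mapAlgHom (res R)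
  have hτ : ∀ t, τ t = PowerSeries.map (res R).toRingHom t := fun t => mapAlgHom_apply _ t
  have hfm : ∀ i, f i ∈ maximalIdeal R⟦X⟧ := fun i =>
    mem_of_map (PowerSeries.map (res R).toRingHom) (hf _ i ▸ 𝓡.f_mem i)
  have hgm : ∀ i, g i ∈ maximalIdeal R⟦X⟧ := fun i =>
    mem_of_map (PowerSeries.map (res R).toRingHom) (hg _ i ▸ 𝓡.g_mem i)
  have ham : ∀ i j, i ≠ j → al i j ∈ maximalIdeal R⟦X⟧ := fun i j hij =>
    mem_of_map (PowerSeries.map (res R).toRingHom) (hal _ i j hij ▸ 𝓡.al_mem i j hij)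
  have H : RimEq (AL f al) (RR g) := rimEq hdiv fun i j hij => nzd (by
    rw [map_sub, hf, hf, hstd.f, hstd.f, ← sub_mul, ← map_sub]
    refine mul_ne_zero (fun h0 => hij (a_inj i j ?_)) X_ne_zero
    have h1 : (a i : ℂ) - a j = 0 := by simpa using congrArg constantCoeff h0
    exact_mod_cast sub_eq_zero.1 h1)
  have hG : IsGerm (Mod (AL f al) (RR g)) := germ_mod (RR_mem hgm)
  have hF : Module.Flat R⟦X⟧ (Mod (AL f al) (RR g)) := flat_mod H
  have hF1 : Module.Flat R R⟦X⟧ := flat_pi (I := Unit →₀ ℕ)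
  have hF2 : Module.Flat R (Mod (AL f al) (RR g)) := Module.Flat.trans R R⟦X⟧ _
  let _ : Algebra ℂ⟦X⟧ A := 𝓡.φ.toAlgebra
  have : IsScalarTower ℂ ℂ⟦X⟧ A := IsScalarTower.of_algebraMap_eq fun c => (hstd.base c).symm
  obtain ⟨π, hπ, hπZ⟩ := mod_lift (al := AL f al) (r := RR g) τ 𝓡.Z 𝓡.mem
    (err_of_rel τ.toRingHom (fun i => (hτ _).trans (hf _ i)) (fun i => (hτ _).trans (hg _ i))
      (fun i j hij => (hτ _).trans (hal _ i j hij)) 𝓡.rels)
  have hA : Function.Bijective (beta ℂ⟦X⟧ 𝓡.Z) := axes_beta 𝓡.toAxes fun _ => rfl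
  have hm : ∀ v, π (beta R⟦X⟧ (mz (AL f al) (RR g)) v) = beta ℂ⟦X⟧ 𝓡.Z
      (PowerSeries.map (res R).toRingHom v.1,
        fun p => PowerSeries.map (PowerSeries.map (res R).toRingHom) (v.2 p)) := fun v => by
    have := map_beta (PowerSeries.map (res R).toRingHom) π (fun t => (hπ t).trans (by rw [hτ]))
      mz_mem v
    simpa only [hπZ] using this
  have hs := mod_surj (al := AL f al) (r := RR g) (AL_mem hfm ham) (RR_mem hgm)
  have hk : ∀ v, π (beta R⟦X⟧ (mz (AL f al) (RR g)) v) = 0 →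
      v ∈ (maximalIdeal R • ⊤ : Submodule R (R⟦X⟧ × (Option Ln → R⟦X⟧⟦X⟧))) := fun v hv => by
    rw [hm, (injective_iff_map_eq_zero' _).1 hA.1, Prod.ext_iff] at hv
    exact red_mem v hv.1 fun p => congrFun hv.2 p
  have hi := inj_of_flat (maximalIdeal R) ((beta R⟦X⟧ (mz (AL f al) (RR g))).restrictScalars R) hs
    (fun v hv => hk v ((congrArg π hv).trans (map_zero π))) sep_M
  have hb : ∀ r, algebraMap R⟦X⟧ (Mod (AL f al) (RR g)) (C r) = algebraMap R _ r := fun r =>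
    (IsScalarTower.algebraMap_apply R R⟦X⟧ _ r).symm
  have hX : ∀ p, evR R⟦X⟧ (mz (AL f al) (RR g) p) X = mz (AL f al) (RR g) p := fun p =>
    evR_X (mz_mem p)
  let D : Defo A R :=
    { O := Mod (AL f al) (RR g)
      π := π
      surj := fun x => by
        obtain ⟨w, rfl⟩ := hA.2 x
        have hr : Function.Surjective (res R).toRingHom := fun c => ⟨algebraMap _ _ c, by simp⟩
        have h1 := PowerSeries.map_surjective _ hr
        obtain ⟨c, hc⟩ := h1 w.1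
        choose G hG using fun p => PowerSeries.map_surjective _ h1 (w.2 p)
        exact ⟨_, (hm (c, G)).trans (by simp only [hc, hG])⟩
      ker := by
        refine le_antisymm (fun o ho => ?_) (Ideal.map_le_iff_le_comap.2 fun r hr => ?_)
        · obtain ⟨v, rfl⟩ := hs o
          have := map_mem_smul ((beta R⟦X⟧ (mz (AL f al) (RR g))).restrictScalars R) (hk v ho)
          rw [Ideal.smul_top_eq_map] at this
          exact this
        · rw [Ideal.mem_comap, RingHom.mem_ker, ← hb, hπ, hτ, map_C]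
          simp [res_eq_zero.2 hr] }
  let 𝓡' : Rim R⟦X⟧ (Mod (AL f al) (RR g)) :=
    { φ := algebraMap _ _
      loc := fun t ht => map_max_le (Ideal.mem_map_of_mem _ ht)
      E := fun p => evR R⟦X⟧ (mz (AL f al) (RR g) p)
      E_C := fun p t => evR_C _ t
      mem := fun p => by rw [hX]; exact mz_mem p
      bij := evR_bij mz_mem ⟨hi, hs⟩
      f := f
      g := g
      al := al
      f_mem := hfm
      g_mem := hgm
      al_mem := ham
      rels := by
        have h2 := rel_of_err fun p q hpq => err_mz (AL f al) (RR g) (p := p) (q := q) hpq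
        rw [← funext hX] at h2
        exact h2
      div := hdiv }
  refine ⟨D, 𝓡', ⟨⟨hb, fun ρ F => ?_, fun p => ?_⟩, hf, hg, hal⟩, rfl, rfl, rfl⟩
  · rw [eq_res ρ, ← hτ]
    exact hπ F
  · exact (congrArg π (hX p)).trans (hπZ p)

namespace Dfo

theorem div1 (i j : Ln) (h : i ≠ j) : g1 i = (f1 j - f1 i) * al1 j i := by
  have h1 : (a j : ℂ) - a i ≠ 0 := fun h0 =>
    h (a_inj j i (by exact_mod_cast sub_eq_zero.1 h0)).symm
  have h2 : (b j : ℂ) = b i - (a j - a i) * u (pt i j) := by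
    have e1 : v (pt i j) = _ := inc_left i j h
    have e2 : v (pt i j) = _ := inc_right i j h
    have e3 : b j = b i - (a j - a i) * u (pt i j) := by linear_combination e1 - e2
    exact_mod_cast e3
  have h3 : (Polynomial.C (C ((a j : ℂ) - a i)) : Polynomial B) *
      Polynomial.C (C ((a j : ℂ) - a i)⁻¹) = 1 := by
    rw [← map_mul, ← map_mul, mul_inv_cancel₀ h1, map_one, map_one]
  rw [g1, ← Finset.mul_prod_erase _ _ (mem_on.2 (inc_left i j h)), al1, f1, f1, h2]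
  simp only [map_sub, map_mul] at h3 ⊢
  linear_combination (-(Polynomial.X - Polynomial.C (C (u (pt i j) : ℂ)) * Polynomial.C X) *
    ∏ p ∈ (on i).erase (pt i j), (Polynomial.X - Polynomial.C (C (u p : ℂ)) * Polynomial.C X)) * h3

theorem red1 (ρ : B →ₐ[ℂ] ℂ) (P : Polynomial B) :
    PowerSeries.map ρ.toRingHom (P : B⟦X⟧) = (P.map cc : Polynomial ℂ) := by
  have h1 : ∀ σ : B →ₐ[ℂ] ℂ, σ = ρ := fun σ => (eq_res σ).trans (eq_res ρ).symm
  have h2 : ρ.toRingHom = cc := by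
    rw [← h1 { toRingHom := cc, commutes' := fun c => by simp }]
  rw [h2, Polynomial.polynomial_map_coe]

/-- The trivial deformation. -/
def triv (A : Type) [CommRing A] [Algebra ℂ A] [IsGerm A] [IsGerm ℂ] : Defo A ℂ where
  O := A
  π := AlgHom.id ℂ A
  surj := Function.surjective_id
  ker := by
    rw [maximalIdeal_eq_bot, Ideal.map_bot]
    exact (RingHom.injective_iff_ker_eq_bot _).1 Function.injective_id

/-- The restriction to the closed point. -/
def toTriv {A : Type} [CommRing A] [Algebra ℂ A] [IsGerm A] [IsGerm ℂ] {R : Type} [CommRing R]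
    [Algebra ℂ R] [IsGerm R] (D : Defo A R) : D.Hom (triv A) where
  base := res R
  tot := D.π
  comm := pi_base D
  red _ := rfl

end Dfo

theorem e0 (h : DefoStmt) : E0Stmt := by
  intro A _ _ _ 𝓡 hstd
  obtain ⟨E, 𝓡', hL, h1, h2, h3⟩ := h A 𝓡 hstd B (fun i => f1 i) (fun i => g1 i)
    (fun i j => al1 i j) (fun i j hij => by rw [div1 i j hij]; simp)
    (fun ρ i => by
      rw [red1, hstd.f, f1]
      simp [-map_intCast, -eq_intCast])
    (fun ρ i => by rw [red1, hstd.g, g1, Polynomial.map_prod]; simp [card_on])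
    (fun ρ i j hij => by
      rw [red1, hstd.al j i hij.symm, al1, Polynomial.map_mul, Polynomial.map_prod]
      simp [Finset.card_erase_of_mem (mem_on.2 (inc_left j i hij.symm)), card_on])
  refine ⟨E, 𝓡', hL, ⟨fun i => by rw [h1], fun i => by rw [h2], fun i j _ => by rw [h3]⟩,
    fun R _ _ _ D hD => ?_⟩
  have := germC
  obtain ⟨γ, -⟩ := hD B ℂ E (triv A) (toTriv E) (toTriv D) fun c =>
    ⟨algebraMap _ _ c, (res B).commutes c⟩
  exact ⟨γ⟩

end Pool.Agent.MP_648617_ag.Kol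

end
end MrgPart1

-- ======== part 2: formerly Pool.Agent.MP_648617_ag.kol.Cech
section MrgPart2

/-! PROJECT KOL, row CECH: the Cousin problem and the first cohomology group. -/

open AlgebraicGeometry CategoryTheory TopologicalSpace Opposite Limits Filter

noncomputable section

namespace Pool.Agent.MP_648617_ag.Kol

namespace Cech

open Pool.Agent.KEW.Coh Pool.Agent.MP_648617_ag.Amp

variable {Y : Scheme.{0}} [IsIntegral Y]

theorem ext_pow {V : Y.Opens} (hV : IsAffineOpen V) (hη : genericPoint Y ∈ V) (f : Γ(Y, V))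
    (hf : genericPoint Y ∈ Y.basicOpen f) {r : Y.functionField}
    (hr : ∀ w ∈ Y.basicOpen f, r ∈ loc w) :
    ∀ᶠ M in atTop, ∀ w ∈ V, Y.presheaf.germ V _ hη f ^ M * r ∈ loc w := by
  obtain ⟨t, rfl⟩ := exists_section hf hr
  obtain ⟨n, y, e⟩ := exists_eq_pow_mul_of_isAffineOpen Y V hV f t
  have e' : Y.presheaf.germ V _ hη y =
      Y.presheaf.germ V _ hη f ^ n * Y.presheaf.germ _ _ hf t := by
    have := congrArg (Y.presheaf.germ _ _ hf) e
    rw [map_mul, map_pow] at this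
    exact (Y.presheaf.germ_res_apply _ _ _ _).symm.trans
      (this.trans (congrArg (· ^ n * _) (Y.presheaf.germ_res_apply _ _ _ _)))
  filter_upwards [eventually_ge_atTop n] with m hm w hw
  obtain ⟨j, rfl⟩ := Nat.exists_eq_add_of_le' hm
  rw [pow_add, mul_assoc, ← e']
  exact mul_mem (pow_mem (germ_mem_loc hw f) j) (germ_mem_loc hw y)

/-- The Cousin problem on an affine open set. -/
theorem affine {V : Y.Opens} (hV : IsAffineOpen V) (U : Y → Y.Opens) (hU : ∀ z, z ∈ U z)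
    (φ : Y → Y.functionField) (hφ : ∀ z z', ∀ w ∈ U z, w ∈ U z' → φ z - φ z' ∈ loc w) :
    ∃ χ, ∀ w ∈ V, χ - φ w ∈ loc w := by
  by_cases hη : genericPoint Y ∈ V
  swap
  · exact ⟨0, fun w hw => (hη (gen_mem hw)).elim⟩
  choose f hf hf' using fun u : V => hV.exists_basicOpen_le (V := U u) ⟨u, hU u⟩ u.2
  obtain ⟨S, hS, hsp⟩ := (Ideal.span_eq_top_iff_finite _).1
    ((hV.self_le_iSup_basicOpen_iff (s := Set.range f)).1 fun u hu =>
      Opens.mem_iSup.2 ⟨⟨_, ⟨u, hu⟩, rfl⟩, hf' ⟨u, hu⟩⟩)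
  choose v hv using fun i : S => hS i.2
  have key : ∀ i j : S, ∀ᶠ M in atTop, ∀ w ∈ V,
      Y.presheaf.germ V _ hη (i * j) ^ M * (φ (v j) - φ (v i)) ∈ loc w := fun i j => by
    refine ext_pow hV hη _ ?_ fun w hw => ?_
    · rw [Scheme.basicOpen_mul, ← hv i, ← hv j]
      exact ⟨gen_mem (hf' _), gen_mem (hf' _)⟩
    · rw [Scheme.basicOpen_mul, ← hv i, ← hv j] at hw
      exact hφ _ _ w (hf _ hw.2) (hf _ hw.1)
  obtain ⟨M, hM⟩ := (eventually_all.2 fun i => eventually_all.2 (key i)).exists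
  have h5 := (Ideal.eq_top_iff_one _).1 (Ideal.span_pow_eq_top _ hsp M)
  rw [Set.image_eq_range] at h5
  obtain ⟨β, hβ⟩ := Ideal.mem_span_range_iff_exists_fun.1 h5
  let g : Γ(Y, V) →+* Y.functionField := (Y.presheaf.germ V _ hη).hom
  have hβ' : ∑ j : S, g (β j) * g j ^ M = 1 := by
    have := congrArg g hβ
    simp only [map_sum, map_mul, map_pow, map_one] at this
    exact this
  refine ⟨∑ j : S, g (β j) * g j ^ M * φ (v j), fun u hu => ?_⟩
  obtain ⟨i, hi⟩ := Opens.mem_iSup.1 ((hV.self_le_iSup_basicOpen_iff (s := S)).2 hsp hu)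
  obtain ⟨a, ha, e⟩ := (mem_basicOpen_iff hu i.1).1 hi
  have e1 : ∑ j : S, g (β j) * g j ^ M * φ (v j) - φ u =
      ∑ j : S, g (β j) * (a ^ M * (g (i * j) ^ M * (φ (v j) - φ (v i)))) + (φ (v i) - φ u) := by
    have e2 : ∀ j : S, g (β j) * (a ^ M * (g (i * j) ^ M * (φ (v j) - φ (v i)))) =
        g (β j) * g j ^ M * (φ (v j) - φ (v i)) := fun j => by
      have e3 : (g i * a) ^ M = 1 := by rw [show g i * a = 1 from e, one_pow]
      rw [map_mul]
      linear_combination g (β j) * g j ^ M * (φ (v j) - φ (v i)) * e3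
    rw [Finset.sum_congr rfl fun j _ => e2 j]
    simp only [mul_sub, Finset.sum_sub_distrib, ← Finset.sum_mul, hβ']
    ring
  rw [e1]
  refine add_mem (sum_mem fun j _ => mul_mem (germ_mem_loc hu _)
    (mul_mem (pow_mem ha M) (hM i j u hu))) (hφ _ _ u (hf _ ?_) (hU u))
  rwa [hv]

variable (Y) in
/-- The sheaf of rational functions. -/
def KS : Sh Y := full fun x : Y => PLift (x = genericPoint Y) → Y.functionField

/-- The value of a section. -/
def val {U : Y.Opens} (h : genericPoint Y ∈ U) : (KS Y).obj.obj (op U) →+ Y.functionField where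
  toFun s := s ⟨_, h⟩ ⟨rfl⟩
  map_zero' := rfl
  map_add' _ _ := rfl

theorem val_ext {U : Y.Opens} (h : genericPoint Y ∈ U) {s t : (KS Y).obj.obj (op U)}
    (e : val h s = val h t) : s = t :=
  funext fun ⟨x, _⟩ => funext fun hx => by
    obtain rfl : x = genericPoint Y := hx.down
    exact e

theorem acy : Acy (KS Y) := by
  classical
  exact acy_of_flasque _ (flasque_of fun U V le t =>
    ⟨fun x => if h : x.1 ∈ V then t ⟨x, h⟩ else 0, funext fun x => dif_pos x.2⟩)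

variable (Y) in
/-- The inclusion of the regular functions. -/
def inc : addSheaf Y ⟶ KS Y :=
  ⟨{ app := fun U => AddCommGrpCat.ofHom
      { toFun := fun s x _ => Y.presheaf.germ U.unop _ (gen_mem x.2) s
        map_zero' := funext fun _ => funext fun _ => map_zero _
        map_add' := fun _ _ => funext fun _ => funext fun _ => map_add _ _ _ }
     naturality := fun _ _ i => AddCommGrpCat.hom_ext (AddMonoidHom.ext fun s =>
        funext fun _ => funext fun _ => Y.presheaf.germ_res_apply i.unop _ _ s) }⟩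

theorem val_inc {U : Y.Opens} (h : genericPoint Y ∈ U) (s : Γ(Y, U)) :
    val h (ap (inc Y) U s) = Y.presheaf.germ U _ h s := rfl

instance : Mono (inc Y) := (mono_iff _).2 fun U s h => eq_zero_of_loc _ s fun _ hz =>
  ⟨U, hz, le_rfl, (rs_refl _ s).trans (germ_injective_of_isIntegral Y _ (gen_mem hz)
    (((val_inc _ s).symm.trans (congrArg _ h)).trans ((map_zero _).trans (map_zero _).symm)))⟩

end Cech

open Pool.Agent.KEW.Coh Pool.Agent.MP_648617_ag.Amp Cech in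
theorem cech : CechStmt := by
  intro Y _ J V hV hc H
  have hS : (ShortComplex.mk _ _ (cokernel.condition (Cech.inc Y))).ShortExact :=
    ShortComplex.ShortExact.mk' (ShortComplex.exact_cokernel _) inferInstance inferInstance
  have sur : ∀ t, ∃ s, ap (cokernel.π (Cech.inc Y)) ⊤ s = t := fun t => by
    choose U hU le s hs using fun z => (epi_iff _).1 hS.epi_g z ⊤ trivial t
    have hφ : ∀ z z', ∀ w ∈ U z, w ∈ U z' →
        val (gen_mem (hU z)) (s z) - val (gen_mem (hU z')) (s z') ∈ loc w := fun z z' w h h' => by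
      obtain ⟨u, hu⟩ := sec_exact hS (U z ⊓ U z') (rs _ inf_le_left (s z) - rs _ inf_le_right (s z'))
        (by rw [map_sub, ap_rs, ap_rs, hs, hs, rs_rs, rs_rs, sub_self])
      have hw : w ∈ U z ⊓ U z' := ⟨h, h'⟩
      have := germ_mem_loc hw u
      rwa [← val_inc, show ap (Cech.inc Y) _ u = _ from hu, map_sub] at this
    choose g hg using fun c => affine (hV c) U hU _ hφ
    obtain ⟨χ, hχ⟩ := H g fun c c' y h h' => by
      have := sub_mem (hg c y h) (hg c' y h')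
      rwa [sub_sub_sub_cancel_right] at this
    refine ⟨fun _ _ => χ, sub_eq_zero.1 (eq_zero_of_loc _ _ fun z _ => ⟨U z, hU z, le z, ?_⟩)⟩
    obtain ⟨u, hu⟩ := exists_section (gen_mem (hU z)) (r := χ - val (gen_mem (hU z)) (s z))
      fun w hw => by
        obtain ⟨c, h⟩ := hc w
        have := add_mem (add_mem (show _ ∈ loc w from hχ c w h) (hg c w h)) (hφ w z w (hU w) hw)
        rwa [sub_add_sub_cancel, sub_add_sub_cancel] at this
    rw [map_sub, ← ap_rs, ← hs, ← map_sub]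
    refine (congrArg _ (val_ext (gen_mem (hU z)) ?_)).trans (ap_zero (cokernel.condition _) _ u)
    exact hu.symm
  refine ⟨fun x y => ?_⟩
  have : ∀ x : Hc (addSheaf Y) 1, x = 0 := fun x => by
    obtain ⟨y, rfl⟩ := ex1 hS x (acy _ _)
    obtain ⟨z, rfl⟩ := sur0 _ sur y
    exact dl_map hS z
  exact (this x).trans (this y).symm

end Pool.Agent.MP_648617_ag.Kol

end
end MrgPart2

-- ======== part 3: formerly Pool.Agent.MP_648617_ag.kol.Sharp
section MrgPart3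

/-! PROJECT KOL, row UB: the homogenised polynomial vanishes to the same order. -/

noncomputable section

namespace Pool.Agent.MP_648617_ag.Kol

namespace Sharp

open Polynomial

variable {S : Type} [CommRing S]

theorem deg_lin (c a : S) : (C c + C a * X).natDegree ≤ 1 := by
  rw [add_comm]
  exact natDegree_linear_le

theorem ev_pow (w c a : S) (n : ℕ) :
    (reflect n ((C c + C a * X) ^ n)).eval w = (c * w + a) ^ n := by
  induction n with
  | zero => simp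
  | succ n ih =>
    have h1 : reflect 1 (C c + C a * X) = C c * X + C a := by
      rw [reflect_add, reflect_C_mul, reflect_one_X, reflect_C, pow_one, mul_one]
    rw [pow_succ, reflect_mul _ _ (natDegree_pow_le_of_le n (deg_lin c a) |>.trans (by simp))
      (deg_lin c a), eval_mul, ih, h1, pow_succ]
    simp

theorem ev_mon (w c a c' a' t : S) (i j d : ℕ) (h : i + j ≤ d) :
    (reflect d (C t * ((C c + C a * X) ^ i * (C c' + C a' * X) ^ j))).eval w =
      t * w ^ (d - i - j) * ((c * w + a) ^ i * (c' * w + a') ^ j) := by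
  obtain ⟨r, rfl⟩ := Nat.exists_eq_add_of_le h
  have h1 : ((C c + C a * X) ^ i).natDegree ≤ i :=
    (natDegree_pow_le_of_le i (deg_lin c a)).trans (by simp)
  have h2 : ((C c' + C a' * X) ^ j).natDegree ≤ j :=
    (natDegree_pow_le_of_le j (deg_lin c' a')).trans (by simp)
  rw [reflect_C_mul, ← mul_one (_ * _ ^ j),
    reflect_mul _ _ (natDegree_mul_le.trans (add_le_add h1 h2)) (by simp : natDegree 1 ≤ r),
    reflect_mul _ _ h1 h2, reflect_one, eval_mul, eval_mul, eval_mul, ev_pow, ev_pow,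
    show i + j + r - i - j = r by omega]
  simp only [eval_C, eval_pow, eval_X]
  ring

theorem reflect_sum {ι : Type} (s : Finset ι) (f : ι → S[X]) (d : ℕ) :
    reflect d (∑ m ∈ s, f m) = ∑ m ∈ s, reflect d (f m) := by
  classical
  induction s using Finset.induction_on with
  | empty => simp
  | insert m s hm ih => rw [Finset.sum_insert hm, Finset.sum_insert hm, reflect_add, ih]

end Sharp

open Polynomial in
theorem sharpStmt : SharpStmt := by
  intro S _ β ϖ p q x y d k N hd hN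
  set a := x - β (ϖ * p) with ha
  set b := y - β (ϖ * q) with hb
  let Ψ : MvPolynomial (Fin 2) B →+* S[X] :=
    MvPolynomial.eval₂Hom (C.comp β) ![C (β p) + C a * X, C (β q) + C b * X]
  have h1 : Ψ N ∈ Ideal.map (C : S →+* S[X]) (Ideal.span {a, b} ^ k) := by
    rw [Ideal.map_pow]
    refine Ideal.pow_right_mono ?_ k (Ideal.map_pow Ψ _ k ▸ Ideal.mem_map_of_mem Ψ hN)
    rw [Ideal.map_span, Ideal.span_le]
    rintro _ ⟨z, rfl | rfl, rfl⟩
    · have : Ψ (MvPolynomial.X 0 - MvPolynomial.C p) = C a * X := by simp [Ψ]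
      rw [this]
      exact Ideal.mul_mem_right _ _ (Ideal.mem_map_of_mem _ (Ideal.subset_span (by simp)))
    · have : Ψ (MvPolynomial.X 1 - MvPolynomial.C q) = C b * X := by simp [Ψ]
      rw [this]
      exact Ideal.mul_mem_right _ _ (Ideal.mem_map_of_mem _ (Ideal.subset_span (by simp)))
  have h2 : sharp β ϖ x y d N = (reflect d (Ψ N)).eval (β ϖ) := by
    conv_rhs => rw [N.as_sum, map_sum, Sharp.reflect_sum, eval_finsetSum]
    refine Finset.sum_congr rfl fun m hm => ?_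
    have h3 : m 0 + m 1 ≤ d := by
      have := (MvPolynomial.le_totalDegree hm).trans hd
      rwa [Finsupp.sum_fintype _ _ (fun _ => rfl), Fin.sum_univ_two] at this
    have h4 : Ψ (MvPolynomial.monomial m (N.coeff m)) =
        C (β (N.coeff m)) * ((C (β p) + C a * X) ^ m 0 * (C (β q) + C b * X) ^ m 1) := by
      simp only [Ψ, MvPolynomial.eval₂Hom_monomial]
      rw [Finsupp.prod_fintype _ _ (fun _ => pow_zero _), Fin.prod_univ_two]
      rfl
    rw [h4, Sharp.ev_mon _ _ _ _ _ _ _ _ _ h3, map_mul, map_pow,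
      show β p * β ϖ + a = x by rw [ha, map_mul]; ring,
      show β q * β ϖ + b = y by rw [hb, map_mul]; ring]
  rw [h2, eval_eq_sum_range]
  refine Ideal.sum_mem _ fun j _ => Ideal.mul_mem_right _ _ ?_
  rw [coeff_reflect]
  exact Ideal.mem_map_C_iff.1 h1 _

end Pool.Agent.MP_648617_ag.Kol

end
end MrgPart3

-- ======== part 4: formerly Pool.Agent.MP_648617_ag.kol.Std
section MrgPart4

/-! Row STD: every deformation has a standard form, and it is carried along morphisms. -/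

open IsLocalRing PowerSeries

noncomputable section

namespace Pool.Agent.MP_648617_ag.Kol

open Vers Dfo

namespace Stf

variable {A : Type} [CommRing A] [Algebra ℂ A] [IsGerm A] {R : Type} [CommRing R] [Algebra ℂ R]
  [IsGerm R]

theorem X_mem {T : Type} [CommRing T] [IsLocalRing T] : (X : T⟦X⟧) ∈ maximalIdeal T⟦X⟧ :=
  fun h => by simpa using isUnit_iff_constantCoeff.1 h

theorem exists_axes (D : Defo A R) (𝒜 : Axes ℂ⟦X⟧ A) (h0 : ∀ c, 𝒜.φ (C c) = algebraMap ℂ A c)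
    (φ : R⟦X⟧ →+* D.O) (hC : ∀ r, φ (C r) = algebraMap R D.O r) (hX : D.π (φ X) = 𝒜.φ X)
    (Z : Option Ln → D.O) (hZ : ∀ p, D.π (Z p) = 𝒜.Z p) :
    ∃ 𝒜' : Axes R⟦X⟧ D.O, AxLifts D 𝒜 𝒜' ∧ 𝒜'.φ = φ ∧ 𝒜'.Z = Z := by
  let _ : Algebra ℂ⟦X⟧ A := 𝒜.φ.toAlgebra
  have : IsScalarTower ℂ ℂ⟦X⟧ A := IsScalarTower.of_algebraMap_eq fun c => (h0 c).symm
  let _ : Algebra R⟦X⟧ D.O := φ.toAlgebra
  have : IsScalarTower R R⟦X⟧ D.O := IsScalarTower.of_algebraMap_eq fun r => (hC r).symm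
  have : IsScalarTower ℂ R⟦X⟧ D.O := IsScalarTower.of_algebraMap_eq fun c => by
    rw [IsScalarTower.algebraMap_apply ℂ R D.O, IsScalarTower.algebraMap_apply ℂ R R⟦X⟧,
      ← IsScalarTower.algebraMap_apply R R⟦X⟧ D.O]
  have hm : ∀ p, Z p ∈ maximalIdeal D.O := fun p =>
    mem_of_map D.π.toRingHom ((hZ p).symm ▸ 𝒜.mem p : D.π (Z p) ∈ maximalIdeal A)
  have hA : Function.Bijective (beta ℂ⟦X⟧ fun p => D.π (Z p)) := by
    rw [funext hZ]
    exact axes_beta 𝒜 fun _ => rfl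
  have hE : ∀ p, evR R⟦X⟧ (Z p) X = Z p := fun p => evR_X (hm p)
  refine ⟨{ φ := φ
            loc := fun t ht => map_max_le (Ideal.mem_map_of_mem (algebraMap R⟦X⟧ D.O) ht)
            E := fun p => evR R⟦X⟧ (Z p)
            E_C := fun p t => evR_C _ t
            mem := fun p => by rw [hE]; exact hm p
            bij := evR_bij hm (axes D hX Z hm hA) }, ⟨hC, fun ρ F => ?_, fun p => ?_⟩, rfl,
    funext hE⟩
  · rw [eq_res ρ]
    exact pi_T D hX F
  · exact (congrArg D.π (hE p)).trans (hZ p)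

theorem map_J (ρ : R →ₐ[ℂ] ℂ) {t : R⟦X⟧}
    (h : t ∈ (maximalIdeal R).map (algebraMap R R⟦X⟧)) : PowerSeries.map ρ.toRingHom t = 0 := by
  rw [eq_res ρ, ← RingHom.mem_ker]
  refine Ideal.map_le_iff_le_comap.2 (fun r hr => ?_) h
  rw [Ideal.mem_comap, RingHom.mem_ker]
  change PowerSeries.map _ (C r) = 0
  rw [map_C]
  simp [res_eq_zero.2 hr]

omit [IsGerm R] in
theorem map_map' {S : Type} [CommRing S] [Algebra ℂ S] (γ : R →ₐ[ℂ] S) (ρ : S →ₐ[ℂ] ℂ)
    (t : R⟦X⟧) : PowerSeries.map ρ.toRingHom (PowerSeries.map γ.toRingHom t) =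
      PowerSeries.map (ρ.comp γ).toRingHom t := by
  ext n
  simp

end Stf

open Stf

theorem std : StdStmt := by
  intro A _ _ _ R _ _ _ D 𝓡 h0
  obtain ⟨x, hx⟩ := D.surj (𝓡.φ X)
  have hxm : x ∈ maximalIdeal D.O :=
    mem_of_map D.π.toRingHom (by simpa [hx] using 𝓡.loc X X_mem)
  let φ : R⟦X⟧ →+* D.O := evR R x
  have hC : ∀ r, φ (C r) = algebraMap R D.O r := evR_C x
  have hX : D.π (φ X) = 𝓡.φ X := (congrArg D.π (evR_X hxm)).trans hx
  choose Z hZ using fun p => D.surj (𝓡.Z p)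
  let τ : R⟦X⟧ →+* ℂ⟦X⟧ := PowerSeries.map (res R).toRingHom
  have hτ : Function.Surjective τ :=
    PowerSeries.map_surjective _ fun c => ⟨algebraMap _ _ c, by simp⟩
  choose f hf using fun i => hτ (𝓡.f i)
  choose g hg using fun i => hτ (𝓡.g i)
  choose al hal using fun i j => hτ (𝓡.al i j)
  let _ : Algebra ℂ⟦X⟧ A := 𝓡.φ.toAlgebra
  let _ : Algebra R⟦X⟧ D.O := φ.toAlgebra
  have : IsScalarTower R R⟦X⟧ D.O := IsScalarTower.of_algebraMap_eq fun r => (hC r).symm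
  have : IsScalarTower ℂ R⟦X⟧ D.O := IsScalarTower.of_algebraMap_eq fun c => by
    rw [IsScalarTower.algebraMap_apply ℂ R D.O, IsScalarTower.algebraMap_apply ℂ R R⟦X⟧,
      ← IsScalarTower.algebraMap_apply R R⟦X⟧ D.O]
  let J : Ideal R⟦X⟧ := (maximalIdeal R).map (algebraMap R R⟦X⟧)
  have hJ : J.map (algebraMap R⟦X⟧ D.O) = RingHom.ker D.π := by
    rw [D.ker, Ideal.map_map, ← IsScalarTower.algebraMap_eq]
  have hJm : J ≤ maximalIdeal R⟦X⟧ := map_max_le
  have hlift : ∀ Z' : Option Ln → D.O, (∀ p, Z' p - Z p ∈ J.map (algebraMap R⟦X⟧ D.O)) →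
      ∀ p, D.π (Z' p) = 𝓡.Z p := fun Z' h p => by
    have := h p
    rw [hJ, RingHom.mem_ker, map_sub, sub_eq_zero] at this
    exact this.trans (hZ p)
  have hb : ∀ Z' : Option Ln → D.O, (∀ p, Z' p - Z p ∈ J.map (algebraMap R⟦X⟧ D.O)) →
      Function.Bijective (beta R⟦X⟧ Z') := fun Z' h => by
    obtain ⟨𝒜', -, h1, h2⟩ := exists_axes D 𝓡.toAxes h0 φ hC hX Z' (hlift Z' h)
    rw [← h2]
    exact axes_beta 𝒜' fun t => by rw [h1]; rfl
  obtain ⟨𝒜0, hL0, h1, -⟩ := exists_axes D 𝓡.toAxes h0 φ hC hX Z hZ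
  have hred : ∀ t, D.π (algebraMap R⟦X⟧ D.O t) = algebraMap ℂ⟦X⟧ A (τ t) := fun t => by
    have := hL0.red (res R) t
    rw [h1] at this
    exact this
  have hfm : ∀ i, f i ∈ maximalIdeal R⟦X⟧ := fun i => mem_of_map τ (hf i ▸ 𝓡.f_mem i)
  have hgm : ∀ i, g i ∈ maximalIdeal R⟦X⟧ := fun i => mem_of_map τ (hg i ▸ 𝓡.g_mem i)
  have ham : ∀ i j, i ≠ j → al i j ∈ maximalIdeal R⟦X⟧ := fun i j h =>
    mem_of_map τ (hal i j ▸ 𝓡.al_mem i j h)
  obtain ⟨Z', α, r, k1, k2, k3, k4⟩ := rim J hJm Z (AL f al) (RR g)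
    (fun p => mem_of_map D.π.toRingHom ((hZ p).symm ▸ 𝓡.mem p : D.π (Z p) ∈ maximalIdeal A))
    (AL_mem hfm ham)
    (RR_mem hgm) hb fun p q hpq => by
      have := err_of_rel τ hf hg (fun i j _ => hal i j) 𝓡.rels p q hpq
      rw [hJ, RingHom.mem_ker]
      simp only [err, map_sub, map_mul, hred, hZ] at this ⊢
      exact this
  have a0 : ∀ i, α none (some i) ∈ J := fun i => by simpa [AL] using k2 none (some i)
  have a1 : ∀ i, α (some i) none - f i ∈ J := fun i => k2 (some i) none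
  have a2 : ∀ i j, i ≠ j → α (some i) (some j) - α none (some j) - al i j ∈ J := fun i j h => by
    have := J.sub_mem (k2 (some i) (some j)) (a0 j)
    simp only [AL, if_neg h] at this
    convert this using 1
    ring
  have a3 : ∀ i, r none (some i) + α none (some i) * α (some i) none - g i ∈ J := fun i => by
    have := J.add_mem (k3 none (some i)) (J.mul_mem_right (α (some i) none) (a0 i))
    simp only [RR] at this
    convert this using 1
    ring
  let Z'' : Option Ln → D.O := fun p => match p with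
    | none => Z' none
    | some i => Z' (some i) - φ (α none (some i))
  have hZ'' : ∀ p, Z'' p - Z p ∈ J.map (algebraMap R⟦X⟧ D.O) := by
    rintro (_ | i)
    · exact k1 none
    · have := Ideal.sub_mem _ (k1 (some i)) (Ideal.mem_map_of_mem (algebraMap R⟦X⟧ D.O) (a0 i))
      convert this using 1
      change Z' (some i) - algebraMap R⟦X⟧ D.O _ - _ = _
      ring
  obtain ⟨𝒜', hL, h2, h3⟩ := exists_axes D 𝓡.toAxes h0 φ hC hX Z'' (hlift Z'' hZ'')
  have hi := (hb Z' k1).1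
  have lift : ∀ (ρ : R →ₐ[ℂ] ℂ) {s t : R⟦X⟧}, s - t ∈ J →
      PowerSeries.map ρ.toRingHom s = τ t := fun ρ s t h => by
    have := map_J ρ h
    rw [map_sub, sub_eq_zero] at this
    rw [this, eq_res ρ]
  refine ⟨{ toAxes := 𝒜'
            f := fun i => α (some i) none
            g := fun i => r none (some i) + α none (some i) * α (some i) none
            al := fun i j => α (some i) (some j) - α none (some j)
            f_mem := fun i => by simpa using add_mem (hJm (a1 i)) (hfm i)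
            g_mem := fun i => by simpa using add_mem (hJm (a3 i)) (hgm i)
            al_mem := fun i j h => by simpa using add_mem (hJm (a2 i j h)) (ham i j h)
            rels := ?_
            div := fun i j h => rim_eq hi k4 (p := none) (q := some i) (s := some j) (by simp)
              (by simp) (by simpa using h.symm) },
    hL, fun ρ i => (lift ρ (a1 i)).trans (hf i), fun ρ i => (lift ρ (a3 i)).trans (hg i),
    fun ρ i j h => (lift ρ (a2 i j h)).trans (hal i j)⟩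
  rw [h2, h3]
  have hφ : ∀ t, algebraMap R⟦X⟧ D.O t = φ t := fun _ => rfl
  refine ⟨fun i => ?_, fun i j h => ?_⟩
  · have := k4 none (some i) (by simp)
    simp only [err, hφ, Z'', map_add, map_mul] at this ⊢
    linear_combination this
  · have e1 := k4 (some i) (some j) (by simpa using h)
    have e2 := congrArg φ (rim_eq hi k4 (p := some i) (q := some j) (s := none) (by simpa using h)
      (by simp) (by simp))
    simp only [err, hφ, Z'', map_add, map_mul, map_sub] at e1 e2 ⊢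
    linear_combination e1 + e2

theorem push : PushStmt := by
  intro A _ _ _ R _ _ _ S _ _ _ D E γ 𝓡 𝓡' h0 hL
  have hxm : γ.tot (𝓡'.φ X) ∈ maximalIdeal E.O := map_max γ.tot (𝓡'.loc X X_mem)
  let φ : S⟦X⟧ →+* E.O := evR S (γ.tot (𝓡'.φ X))
  have hC : ∀ r, φ (C r) = algebraMap S E.O r := evR_C _
  have hX0 : φ X = γ.tot (𝓡'.φ X) := evR_X hxm
  have hX : E.π (φ X) = 𝓡.φ X := by
    rw [hX0, γ.red, hL.ax.red (res R), map_X]
  obtain ⟨𝒜, hA, h1, h2⟩ := exists_axes E 𝓡.toAxes h0 φ hC hX (fun p => γ.tot (𝓡'.Z p))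
    fun p => (γ.red _).trans (hL.ax.gen p)
  have key : ∀ F, γ.tot (𝓡'.φ F) = φ (PowerSeries.map γ.base.toRingHom F) := fun F =>
    RingHom.congr_fun (ps_ext (γ.tot.toRingHom.comp 𝓡'.φ)
      (φ.comp (PowerSeries.map γ.base.toRingHom))
      (fun r => by simp [hL.ax.base, hC, γ.comm]) (by simp [hX0]) hxm) F
  have hf : ∀ (ρ : S →ₐ[ℂ] ℂ) i, PowerSeries.map ρ.toRingHom
      (PowerSeries.map γ.base.toRingHom (𝓡'.f i)) = 𝓡.f i := fun ρ i => by
    rw [map_map', hL.f]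
  have hg : ∀ (ρ : S →ₐ[ℂ] ℂ) i, PowerSeries.map ρ.toRingHom
      (PowerSeries.map γ.base.toRingHom (𝓡'.g i)) = 𝓡.g i := fun ρ i => by
    rw [map_map', hL.g]
  have hal : ∀ (ρ : S →ₐ[ℂ] ℂ) i j, i ≠ j → PowerSeries.map ρ.toRingHom
      (PowerSeries.map γ.base.toRingHom (𝓡'.al i j)) = 𝓡.al i j := fun ρ i j h => by
    rw [map_map', hL.al _ i j h]
  refine ⟨{ toAxes := 𝒜
            f := fun i => PowerSeries.map γ.base.toRingHom (𝓡'.f i)
            g := fun i => PowerSeries.map γ.base.toRingHom (𝓡'.g i)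
            al := fun i j => PowerSeries.map γ.base.toRingHom (𝓡'.al i j)
            f_mem := fun i => mem_of_map _ (hf (res S) i ▸ 𝓡.f_mem i)
            g_mem := fun i => mem_of_map _ (hg (res S) i ▸ 𝓡.g_mem i)
            al_mem := fun i j h => mem_of_map _ (hal (res S) i j h ▸ 𝓡.al_mem i j h)
            rels := ?_
            div := fun i j h => by rw [𝓡'.div i j h, map_mul, map_sub] },
    ⟨hA, hf, hg, hal⟩, fun _ => rfl, fun _ => rfl, fun _ _ => rfl⟩
  rw [h1, h2]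
  refine ⟨fun i => ?_, fun i j h => ?_⟩
  · simpa only [map_mul, map_sub, key] using congrArg γ.tot (𝓡'.rels.rel0 i)
  · simpa only [map_mul, map_add, key] using congrArg γ.tot (𝓡'.rels.rel i j h)

end Pool.Agent.MP_648617_ag.Kol

end
end MrgPart4

-- ======== part 5: formerly Pool.Agent.MP_648617_ag.kol.Up
section MrgPart5

/-! PROJECT KOL, row UP: the universal property of the standard form. -/

open IsLocalRing

noncomputable section

namespace Pool.Agent.MP_648617_ag.Kol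

namespace Up

open Vers

section Eval

open MvPowerSeries

variable {σ R O : Type} [Finite σ] [CommRing R] [CommRing O] [Algebra R O]

omit [Finite σ] in
theorem aeval_memI (I : Ideal O) (e : σ → O) (he : ∀ k, e k ∈ I) (n : ℕ) {p : MvPolynomial σ R}
    (hp : p ∈ MvPolynomial.idealOfVars σ R ^ n) : MvPolynomial.aeval e p ∈ I ^ n := by
  have h : (MvPolynomial.idealOfVars σ R).map (MvPolynomial.aeval (R := R) e) ≤ I := by
    rw [Ideal.map_span, Ideal.span_le]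
    rintro _ ⟨_, ⟨k, rfl⟩, rfl⟩
    simpa using he k
  have h2 := Ideal.mem_map_of_mem (MvPolynomial.aeval (R := R) e) hp
  rw [Ideal.map_pow] at h2
  exact Ideal.pow_right_mono h n h2

/-- Evaluation of power series in an adically complete ring. -/
theorem exists_evI (I : Ideal O) [IsAdicComplete I O] (e : σ → O) (he : ∀ k, e k ∈ I) :
    ∃ φ : MvPowerSeries σ R →ₐ[R] O, ∀ k, φ (X k) = e k := by
  let g : ∀ n : ℕ, (MvPolynomial σ R ⧸ MvPolynomial.idealOfVars σ R ^ n) →ₐ[R]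
      O ⧸ I ^ n := fun n =>
    Ideal.Quotient.liftₐ _ ((Ideal.Quotient.mkₐ R _).comp (MvPolynomial.aeval e)) fun p hp =>
      Ideal.Quotient.eq_zero_iff_mem.2 (aeval_memI I e he n hp)
  let f : ∀ n : ℕ, MvPowerSeries σ R →ₐ[R] O ⧸ I ^ n := fun n =>
    (g n).comp ((truncTotalAlgHom σ R n).restrictScalars R)
  have hf : ∀ n p, f n p = Ideal.Quotient.mk _ (MvPolynomial.aeval e (truncTotal n p)) :=
    fun n p => rfl
  have hc : ∀ {m n : ℕ} (hle : m ≤ n),
      (Ideal.Quotient.factorₐ R (Ideal.pow_le_pow_right hle)).comp (f n) = f m := by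
    intro m n hle
    ext p
    rw [AlgHom.comp_apply, hf, hf]
    change Ideal.Quotient.mk _ _ = _
    rw [Ideal.Quotient.eq, ← map_sub]
    exact aeval_memI I e he m (truncTotal_sub_truncTotal_mem_pow_idealOfVars hle le_rfl p)
  refine ⟨IsAdicComplete.liftAlgHom I f hc, fun k => ?_⟩
  rw [← sub_eq_zero]
  refine IsHausdorff.haus' (I := I) _ fun n => ?_
  rw [SModEq.zero, smul_eq_mul, Ideal.mul_top]
  rw [← Ideal.Quotient.eq, IsAdicComplete.mk_liftAlgHom, ← MvPolynomial.coe_X]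
  have := (truncTotalAlgHom σ R n).commutes (MvPolynomial.X k)
  change g n (truncTotalAlgHom σ R n (algebraMap _ _ (MvPolynomial.X k : MvPolynomial σ R))) = _
  rw [this]
  change Ideal.Quotient.mk _ (MvPolynomial.aeval e (MvPolynomial.X k : MvPolynomial σ R)) = _
  rw [MvPolynomial.aeval_X]

end Eval

variable {T : Type} [CommRing T]

/-- The linear coefficients of the standard form. -/
def lin (f : Ln → T) (al : Ln → Ln → T) : Option Ln → Option Ln → T
  | none, _ => 0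
  | some i, none => f i
  | some i, some j => if i = j then 0 else al i j

/-- The constant coefficients of the standard form. -/
def con (g : Ln → T) : Option Ln → Option Ln → T
  | none, none => 0
  | none, some i => g i
  | some i, none => g i
  | some _, some _ => 0

theorem err_eq {S : Type} [CommRing S] [Algebra T S] {f g : Ln → T} {al : Ln → Ln → T}
    {Z : Option Ln → S} (h : Rel f g al (algebraMap T S) Z) (p q : Option Ln) (hpq : p ≠ q) :
    err Z (lin f al) (con g) p q = 0 := by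
  rcases p with _ | i <;> rcases q with _ | j
  · exact absurd rfl hpq
  · simp only [err, lin, con, map_zero]
    linear_combination h.rel0 j
  · simp only [err, lin, con, map_zero]
    linear_combination h.rel0 i
  · have hij : i ≠ j := fun e => hpq (congrArg some e)
    simp only [err, lin, con, map_zero, if_neg hij, if_neg hij.symm]
    linear_combination h.rel i j hij

/-- The map out of the model. -/
theorem lift {f g : Ln → T} {al : Ln → Ln → T} {S : Type} [CommRing S] (I : Ideal S)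
    [IsAdicComplete I S] (φ : T →+* S) (Z : Option Ln → S) (hZ : ∀ p, Z p ∈ I)
    (h : Rel f g al φ Z) : ∃ Θ : Mod (lin f al) (con g) →+* S,
      (∀ t, Θ (algebraMap T _ t) = φ t) ∧ ∀ p, Θ (mz (lin f al) (con g) p) = Z p := by
  let _ : Algebra T S := φ.toAlgebra
  obtain ⟨ψ, hψ⟩ := exists_evI (R := T) I Z hZ
  have h1 : (relI (lin f al) (con g)).map
      (algebraMap (MvPolynomial (Option Ln) T) (MvPowerSeries (Option Ln) T)) ≤
      RingHom.ker ψ.toRingHom := rel_le _ _ fun p q hpq => by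
    rw [RingHom.mem_ker, map_err (T' := T) id ψ.toRingHom fun t => ψ.commutes t]
    have := err_eq (S := S) h p q hpq
    simpa [hψ] using this
  exact ⟨Ideal.Quotient.lift _ ψ.toRingHom fun a ha => h1 ha, fun t => ψ.commutes t,
    fun p => hψ p⟩

/-- A map from a germ spanned by the axes onto an axes structure is bijective. -/
theorem bij_of {M O : Type} [IsLocalRing T] [CommRing M] [Algebra ℂ M] [IsGerm M] [Algebra T M]
    [CommRing O] [Algebra ℂ O] [IsGerm O] (𝒜 : Axes T O) (z : Option Ln → M)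
    (hz : ∀ p, z p ∈ maximalIdeal M) (hs : Function.Surjective (beta T z)) (Θ : M →+* O)
    (hΘ : ∀ t, Θ (algebraMap T M t) = 𝒜.φ t) (hΘZ : ∀ p, Θ (z p) = 𝒜.Z p) :
    Function.Bijective Θ := by
  have hE : ∀ p F, Θ (ev T (z p) F) = 𝒜.E p F := fun p F => by
    have h1 : Θ (ev T (z p) PowerSeries.X) = 𝒜.E p PowerSeries.X := by
      rw [ev_X (hz p), hΘZ]; rfl
    have := ps_ext (Θ.comp (ev T (z p)).toRingHom) (𝒜.E p)
      (fun t => ((congrArg Θ (ev_C _ t)).trans (hΘ t)).trans (𝒜.E_C p t).symm) h1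
      (by
        change Θ (ev T (z p) PowerSeries.X) ∈ _
        rw [h1]
        exact 𝒜.mem p)
    exact RingHom.congr_fun this F
  have hb : ∀ v, Θ (beta T z v) = 𝒜.φ v.1 + ∑ p, 𝒜.E p (PowerSeries.X * v.2 p) := fun v => by
    simp only [beta_apply, map_add, map_sum, map_mul, hΘ, hΘZ, hE]
    rfl
  refine ⟨fun x y hxy => ?_, fun o => ?_⟩
  · obtain ⟨v, rfl⟩ := hs x
    obtain ⟨w, rfl⟩ := hs y
    rw [hb, hb] at hxy
    rw [𝒜.bij.1 hxy]
  · obtain ⟨v, hv⟩ := 𝒜.bij.2 o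
    exact ⟨_, (hb v).trans hv⟩

end Up

open Vers Up in
theorem up : UpStmt := by
  intro T O _ _ _ _ _ _ 𝓡 T' _ I _ φ' Z' hZ' hrel
  have hal : ∀ p q, lin 𝓡.f 𝓡.al p q ∈ maximalIdeal T := by
    rintro (_ | i) (_ | j)
    · exact zero_mem _
    · exact zero_mem _
    · exact 𝓡.f_mem i
    · simp only [lin]
      split_ifs with h
      · exact zero_mem _
      · exact 𝓡.al_mem i j h
  have hr : ∀ p q, con 𝓡.g p q ∈ maximalIdeal T := by
    rintro (_ | i) (_ | j)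
    · exact zero_mem _
    · exact 𝓡.g_mem j
    · exact 𝓡.g_mem i
    · exact zero_mem _
  have := germ_mod (al := lin 𝓡.f 𝓡.al) hr
  have hs := mod_surj hal hr
  obtain ⟨Θ, hΘ, hΘZ⟩ := lift (maximalIdeal O) 𝓡.φ 𝓡.Z 𝓡.mem 𝓡.rels
  obtain ⟨Θ', hΘ', hΘZ'⟩ := lift I φ' Z' hZ' hrel
  have hbij := bij_of 𝓡.toAxes _ mz_mem hs Θ hΘ hΘZ
  refine ⟨Θ'.comp (RingEquiv.ofBijective Θ hbij).symm.toRingHom, fun t => ?_, fun p => ?_⟩
  · rw [← hΘ, ← hΘ']
    exact congrArg Θ' ((RingEquiv.ofBijective Θ hbij).symm_apply_apply _)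
  · rw [← hΘZ, ← hΘZ']
    exact congrArg Θ' ((RingEquiv.ofBijective Θ hbij).symm_apply_apply _)

end Pool.Agent.MP_648617_ag.Kol

end
end MrgPart5

-- ======== part 6: formerly Pool.Agent.MP_648617_ag.vers.Base
section MrgPart6

/-! The base of the versal family and the family over it. -/

open IsLocalRing PowerSeries

noncomputable section

namespace Pool.Agent.MP_648617_ag.Vers

instance germC : IsGerm ℂ where
  complete := by rw [maximalIdeal_eq_bot]; infer_instance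
  res r := ⟨r, by simp⟩

theorem res_C (c : ℂ) : res ℂ c = c := (res ℂ).commutes c

section Par

variable {ι : Type} (a : ι → ℂ) {l : ι → ℕ}

/-- The parameters. -/
abbrev Par (l : ι → ℕ) : Type := Bool × Σ i, Fin (l i)

variable {S S' : Type} [CommRing S] [Algebra ℂ S] [CommRing S'] [Algebra ℂ S']

/-- The branches. -/
def fP (c : Par l → S) (i : ι) : S⟦X⟧ :=
  C (algebraMap ℂ S (a i)) * X + pol fun j => c (true, ⟨i, j⟩)

/-- The marked points. -/
def gP {S : Type} [CommRing S] (c : Par l → S) (i : ι) : S⟦X⟧ :=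
  X ^ l i + pol fun j => c (false, ⟨i, j⟩)

theorem map_fP (φ : S →ₐ[ℂ] S') (c : Par l → S) (i : ι) :
    PowerSeries.map φ.toRingHom (fP a c i) = fP a (fun k => φ (c k)) i := by
  simp [fP, map_pol]

theorem map_gP (φ : S →ₐ[ℂ] S') (c : Par l → S) (i : ι) :
    PowerSeries.map φ.toRingHom (gP c i) = gP (fun k => φ (c k)) i := by
  simp [gP, map_pol]

variable [IsGerm S] {c : Par l → S}

theorem res_fP (hc : ∀ k, c k ∈ maximalIdeal S) (i : ι) :
    PowerSeries.map (res S).toRingHom (fP a c i) = C (a i) * X := by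
  rw [map_fP]
  simp [fP, res_eq_zero.2 (hc _), pol_zero]

theorem res_gP (hc : ∀ k, c k ∈ maximalIdeal S) (i : ι) :
    PowerSeries.map (res S).toRingHom (gP c i) = X ^ l i := by
  rw [map_gP]
  simp [gP, res_eq_zero.2 (hc _), pol_zero]

theorem ord_g (hc : ∀ k, c k ∈ maximalIdeal S) (i : ι) : Ord (gP c i) (l i) :=
  ⟨1, one_ne_zero, by simp [res_gP hc, -AlgHom.toRingHom_eq_coe]⟩

theorem ord_f (ha : Function.Injective a) (hc : ∀ k, c k ∈ maximalIdeal S) {i j : ι} (h : i ≠ j) :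
    Ord (fP a c j - fP a c i) 1 :=
  ⟨a j - a i, sub_ne_zero.2 (ha.ne h.symm), by
    rw [map_sub, res_fP a hc, res_fP a hc, map_sub]; ring⟩

theorem mem_of_res {t : S⟦X⟧} (h : PowerSeries.map (res S).toRingHom t ∈ maximalIdeal ℂ⟦X⟧) :
    t ∈ maximalIdeal S⟦X⟧ := max_of_map (PowerSeries.mapAlgHom (res S)) h

theorem X_mem : (X : S⟦X⟧) ∈ maximalIdeal S⟦X⟧ := by
  simp [PowerSeries.isUnit_iff_constantCoeff]

theorem fP_mem (hc : ∀ k, c k ∈ maximalIdeal S) (i : ι) : fP a c i ∈ maximalIdeal S⟦X⟧ :=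
  mem_of_res (res_fP a hc i ▸ Ideal.mul_mem_left _ _ X_mem)

theorem gP_mem (hl : ∀ i, l i ≠ 0) (hc : ∀ k, c k ∈ maximalIdeal S) (i : ι) :
    gP c i ∈ maximalIdeal S⟦X⟧ :=
  mem_of_res (res_gP hc i ▸ Ideal.pow_mem_of_mem _ X_mem _ (Nat.pos_of_ne_zero (hl i)))

theorem nf_triv (hc : ∀ k, c k ∈ maximalIdeal S) {c' : Par l → S} {u q : ι → S⟦X⟧}
    (h1 : ∀ i, gP c i * u i = gP c' i) (h2 : ∀ i, fP a c i = gP c' i * q i + fP a c' i) :
    c' = c ∧ (∀ i, u i = 1) ∧ ∀ i, q i = 0 := by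
  have e1 := fun i => (ord_g hc i).uniq (q := u i) (q' := 1) (c := fun j => c (false, ⟨i, j⟩))
    (c' := fun j => c' (false, ⟨i, j⟩)) (by rw [h1, gP, gP]; ring)
  have e2 := fun i => (ord_g hc i).uniq (q := q i) (q' := 0) (c := fun j => c' (true, ⟨i, j⟩))
    (c' := fun j => c (true, ⟨i, j⟩)) (by
      have := h2 i
      rw [← h1, (e1 i).1, fP, fP] at this
      linear_combination -this)
  refine ⟨funext ?_, fun i => (e1 i).1, fun i => (e2 i).1⟩
  rintro ⟨_ | _, i, j⟩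
  · exact (congrFun (e1 i).2 j).symm
  · exact congrFun (e2 i).2 j

theorem nf_ex {F G : ι → S⟦X⟧} (hG : ∀ i, PowerSeries.map (res S).toRingHom (G i) = X ^ l i) :
    ∃ (c : Par l → S) (u q : ι → S⟦X⟧), (∀ i, G i * u i = gP c i) ∧
      ∀ i, F i = gP c i * q i + fP a c i := by
  have h1 : ∀ i, Ord (G i) (l i) := fun i => ⟨1, one_ne_zero, by rw [hG]; simp⟩
  choose u ρ h2 using fun i => (h1 i).ex (X ^ l i)
  have h3 : ∀ i, Ord (X ^ l i + pol fun j => -ρ i j) (l i) := fun i => by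
    have h4 := congrArg (PowerSeries.map (res S).toRingHom) (h2 i)
    rw [map_add, map_mul, hG, map_pol, map_pow, PowerSeries.map_X] at h4
    have h5 : Ord (X ^ l i : ℂ⟦X⟧) (l i) := ⟨1, one_ne_zero, by rw [map_pow]; simp⟩
    have h6 := (h5.uniq (q := 1) (c := fun _ => 0)
      ((by rw [pol_zero, mul_one, add_zero] : _ = _).trans h4)).2
    refine ⟨1, one_ne_zero, ?_⟩
    rw [pol_neg, map_add, map_neg, map_pol, ← h6]
    simp [pol_zero]
  choose q σ h4 using fun i => (h3 i).ex (F i - C (algebraMap ℂ S (a i)) * X)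
  refine ⟨fun k => if k.1 then σ k.2.1 k.2.2 else -ρ k.2.1 k.2.2, u, q, fun i => ?_, fun i => ?_⟩
  · simp only [gP, Bool.false_eq_true, if_false, pol_neg]
    linear_combination -h2 i
  · simp only [gP, fP, Bool.false_eq_true, if_false, if_true]
    linear_combination h4 i

theorem exists_base [Finite ι] (ha : Function.Injective a) (b : ι → ι → ℂ⟦X⟧)
    (gf : ∀ i j, i ≠ j → X ^ l i = (C (a j) * X - C (a i) * X) * b j i) :
    ∃ (R : Type) (_ : CommRing R) (_ : Algebra ℂ R) (_ : IsGerm R) (c : Par l → R)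
      (Q : ι → ι → R⟦X⟧), (∀ k, c k ∈ maximalIdeal R) ∧
      (∀ i j, i ≠ j → gP c i = (fP a c j - fP a c i) * Q j i) ∧
      (∀ i j, PowerSeries.map (res R).toRingHom (Q i j) = b i j) ∧
      (∀ (S : Type) [CommRing S] [Algebra ℂ S] [IsGerm S] (c' : Par l → S),
        (∀ k, c' k ∈ maximalIdeal S) → (∀ i j, i ≠ j → fP a c' j - fP a c' i ∣ gP c' i) →
        ∃ φ : R →ₐ[ℂ] S, ∀ k, φ (c k) = c' k) ∧
      ∀ (S : Type) [CommRing S] [Algebra ℂ S] [IsGerm S] (φ ψ : R →ₐ[ℂ] S),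
        (∀ k, φ (c k) = ψ (c k)) → φ = ψ := by
  let R0 := MvPowerSeries (Par l) ℂ
  let c0 : Par l → R0 := MvPowerSeries.X
  have hc0 : ∀ k, c0 k ∈ maximalIdeal R0 := fun k => mem_max_mv.2 (by simp [c0])
  have h1 : ∀ j i, ∃ (Q : R0⟦X⟧) (ρ : Fin 1 → R0),
      (i ≠ j → gP c0 i = (fP a c0 j - fP a c0 i) * Q + pol ρ) ∧
      PowerSeries.map (res R0).toRingHom Q = b j i ∧ ∀ k, ρ k ∈ maximalIdeal R0 := fun j i => by
    by_cases h : i = j
    · obtain ⟨Q, hQ⟩ := PowerSeries.map_surjective (res R0).toRingHom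
        (fun c => ⟨algebraMap _ _ c, by simp⟩) (b j i)
      exact ⟨Q, 0, fun h' => absurd h h', hQ, fun _ => zero_mem _⟩
    obtain ⟨Q, ρ, e⟩ := (ord_f a ha hc0 h).ex (gP c0 i)
    have e1 := congrArg (PowerSeries.map (res R0).toRingHom) e
    rw [map_add, map_mul, map_sub, res_gP hc0, res_fP a hc0, res_fP a hc0, map_pol, gf i j h] at e1
    have h5 : Ord (C (a j) * X - C (a i) * X : ℂ⟦X⟧) 1 := ⟨a j - a i, sub_ne_zero.2 (ha.ne (Ne.symm h)),
      by simp [sub_mul, res_C]⟩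
    have h6 := h5.uniq (c := fun _ => 0) ((by rw [pol_zero, add_zero] : _ = _).trans e1)
    exact ⟨Q, ρ, fun _ => e, h6.1.symm, fun k => res_eq_zero.1 (congrFun h6.2 k).symm⟩
  choose Q ρ hQ hQ' hρ using h1
  let I : Ideal R0 := Ideal.span {x | ∃ i j k, i ≠ j ∧ x = ρ j i k}
  have hI : I ≤ maximalIdeal R0 := Ideal.span_le.2 (by rintro _ ⟨i, j, k, -, rfl⟩; exact hρ j i k)
  have : Nontrivial (R0 ⧸ I) := Ideal.Quotient.nontrivial_iff.2 fun h1 =>
    (maximalIdeal.isMaximal _).ne_top (top_le_iff.1 (h1 ▸ hI))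
  let π : R0 →ₐ[ℂ] R0 ⧸ I := Ideal.Quotient.mkₐ ℂ I
  have hπ : Function.Surjective π := Ideal.Quotient.mk_surjective
  have := germ_of_surj π hπ
  have key : ∀ (S : Type) [CommRing S] [Algebra ℂ S] (φ : R0 →ₐ[ℂ] S) (i j : ι), i ≠ j →
      gP (fun k => φ (c0 k)) i = (fP a (fun k => φ (c0 k)) j - fP a (fun k => φ (c0 k)) i) *
        PowerSeries.map φ.toRingHom (Q j i) + pol fun k => φ (ρ j i k) := fun S _ _ φ i j h => by
    have := congrArg (PowerSeries.map φ.toRingHom) (hQ j i h)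
    rwa [map_add, map_mul, map_sub, map_gP, map_fP, map_fP, map_pol] at this
  refine ⟨R0 ⧸ I, inferInstance, inferInstance, this, fun k => π (c0 k),
    fun i j => PowerSeries.map π.toRingHom (Q i j), fun k => map_max π (hc0 k), fun i j h => ?_,
    fun i j => ?_, fun S _ _ _ c' hc' hd => ?_, fun S _ _ _ φ ψ h => ?_⟩
  · have h2 : ∀ k, π (ρ j i k) = 0 := fun k =>
      Ideal.Quotient.eq_zero_iff_mem.2 (Ideal.subset_span ⟨i, j, k, h, rfl⟩)
    rw [key _ π i j h]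
    simp only [h2, pol_zero, add_zero]
  · rw [← hQ' i j]
    ext n
    exact res_map π _
  · obtain ⟨φ, hφ⟩ := exists_ev (R := ℂ) c' hc'
    have h2 : (fun k => φ (c0 k)) = c' := funext hφ
    refine ⟨Ideal.Quotient.liftₐ I φ fun x hx => ?_, hφ⟩
    refine (show I ≤ RingHom.ker φ from Ideal.span_le.2 ?_) hx
    rintro _ ⟨i, j, k, h, rfl⟩
    obtain ⟨w, hw⟩ := hd i j h
    have h3 := key S φ i j h
    rw [h2, hw] at h3
    exact (congrFun ((ord_f a ha hc' h).uniq (c := fun _ => 0)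
      ((by rw [pol_zero, add_zero] : _ = _).trans h3)).2 k).symm
  · have h2 := hom_ext (φ.comp π).toRingHom (ψ.comp π).toRingHom
      (fun r => ((φ.comp π).commutes r).trans ((ψ.comp π).commutes r).symm) h
      fun k => map_max (φ.comp π) (hc0 k)
    ext x
    obtain ⟨y, rfl⟩ := hπ x
    exact RingHom.congr_fun h2 y

end Par

section Model

variable {A : Type} [CommRing A] [Algebra ℂ A] [IsGerm A] [Algebra ℂ⟦X⟧ A]
  [IsScalarTower ℂ ℂ⟦X⟧ A] {R : Type} [CommRing R] [Algebra ℂ R] [IsGerm R]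
  {κ : Type} [Fintype κ] [DecidableEq κ] [Nonempty κ]

theorem tower_C {O : Type} [CommRing O] [Algebra ℂ O] [Algebra R O] [IsScalarTower ℂ R O]
    [Algebra R⟦X⟧ O] [IsScalarTower R R⟦X⟧ O] : IsScalarTower ℂ R⟦X⟧ O :=
  IsScalarTower.of_algebraMap_eq fun c => by
    rw [IsScalarTower.algebraMap_apply ℂ R O, IsScalarTower.algebraMap_apply ℂ R R⟦X⟧,
      ← IsScalarTower.algebraMap_apply R R⟦X⟧ O]

theorem ker_of_beta {O : Type} [CommRing O] [Algebra ℂ O] [IsGerm O] [Algebra R O]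
    [IsScalarTower ℂ R O] [Algebra R⟦X⟧ O] [IsScalarTower R R⟦X⟧ O] {Z : κ → O}
    (hZ : ∀ p, Z p ∈ maximalIdeal O) (hs : Function.Surjective (beta R⟦X⟧ Z)) (π : O →ₐ[ℂ] A)
    (h : ∀ t, π (algebraMap R⟦X⟧ O t) = algebraMap ℂ⟦X⟧ A (PowerSeries.map (res R).toRingHom t))
    (hA : Function.Bijective (beta ℂ⟦X⟧ fun p => π (Z p))) :
    Function.Surjective π ∧ RingHom.ker π = (maximalIdeal R).map (algebraMap R O) := by
  have hm := map_beta _ π h hZ
  refine ⟨fun x => ?_, le_antisymm (fun o ho => ?_) (Ideal.map_le_iff_le_comap.2 fun r hr => ?_)⟩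
  · obtain ⟨w, rfl⟩ := hA.2 x
    have hr : Function.Surjective (res R).toRingHom := fun c => ⟨algebraMap _ _ c, by simp⟩
    have h1 := PowerSeries.map_surjective _ hr
    obtain ⟨c, hc⟩ := h1 w.1
    choose H hH using fun p => PowerSeries.map_surjective _ h1 (w.2 p)
    exact ⟨beta R⟦X⟧ Z (c, H), by rw [hm]; simp only [hc, hH]⟩
  · obtain ⟨v, rfl⟩ := hs o
    rw [RingHom.mem_ker, hm, (injective_iff_map_eq_zero' _).1 hA.1, Prod.ext_iff] at ho
    have h1 := map_mem_smul ((beta R⟦X⟧ Z).restrictScalars R)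
      (red_mem v ho.1 fun p => congrFun ho.2 p)
    rwa [Ideal.smul_top_eq_map] at h1
  · rw [Ideal.mem_comap, RingHom.mem_ker, IsScalarTower.algebraMap_apply R R⟦X⟧ O, h]
    change algebraMap ℂ⟦X⟧ A (PowerSeries.map _ (C r)) = 0
    rw [PowerSeries.map_C]
    change algebraMap ℂ⟦X⟧ A (C (res R r)) = 0
    rw [res_eq_zero.2 hr, map_zero, map_zero]

theorem exists_model {al r : κ → κ → R⟦X⟧} (H : RimEq al r)
    (hal : ∀ p q, al p q ∈ maximalIdeal R⟦X⟧) (hr : ∀ p q, r p q ∈ maximalIdeal R⟦X⟧) (W : κ → A)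
    (hW : ∀ p, W p ∈ maximalIdeal A) (hA : Function.Bijective (beta ℂ⟦X⟧ W))
    (he : ∀ p q, p ≠ q → err W (fun p q => PowerSeries.map (res R).toRingHom (al p q))
      (fun p q => PowerSeries.map (res R).toRingHom (r p q)) p q = 0) :
    ∃ (D : Defo A R) (_ : Algebra R⟦X⟧ D.O) (_ : IsScalarTower R R⟦X⟧ D.O) (Z : κ → D.O),
      D.π (algebraMap R⟦X⟧ D.O X) = algebraMap ℂ⟦X⟧ A X ∧ (∀ p, D.π (Z p) = W p) ∧
      (∀ p q, p ≠ q → err Z al r p q = 0) ∧
      (∀ (O : Type) [CommRing O] [Algebra ℂ O] [IsGerm O] (φ ψ : D.O →ₐ[ℂ] O),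
        (∀ t, φ (algebraMap R⟦X⟧ D.O t) = ψ (algebraMap R⟦X⟧ D.O t)) → (∀ p, φ (Z p) = ψ (Z p)) →
        φ = ψ) ∧
      ∀ (S : Type) [CommRing S] [Algebra ℂ S] [IsGerm S] (E : Defo A S) [Algebra S⟦X⟧ E.O]
        [IsScalarTower S S⟦X⟧ E.O] (φ : R →ₐ[ℂ] S) (Z' : κ → E.O),
        E.π (algebraMap S⟦X⟧ E.O X) = algebraMap ℂ⟦X⟧ A X → (∀ p, E.π (Z' p) = W p) →
        (∀ p q, p ≠ q → err Z' (fun p q => PowerSeries.map φ.toRingHom (al p q))
          (fun p q => PowerSeries.map φ.toRingHom (r p q)) p q = 0) →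
        ∃ g : D.Hom E, g.base = φ ∧ (∀ t, g.tot (algebraMap R⟦X⟧ D.O t) =
          algebraMap S⟦X⟧ E.O (PowerSeries.map φ.toRingHom t)) ∧ ∀ p, g.tot (Z p) = Z' p := by
  have := germ_mod (al := al) hr
  obtain ⟨π, h1, h2⟩ := mod_lift (al := al) (r := r) (PowerSeries.mapAlgHom (res R)) W hW he
  have h3 := flat_mod H
  have h4 : Module.Flat R R⟦X⟧ := flat_pi (I := Unit →₀ ℕ)
  have t1 := IsScalarTower.of_algebraMap_eq (R := R) (S := R⟦X⟧) (A := Mod al r) fun x =>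
    congrArg (Ideal.Quotient.mk _) (IsScalarTower.algebraMap_apply R R⟦X⟧ (MvPowerSeries κ R⟦X⟧) x)
  have t2 := IsScalarTower.of_algebraMap_eq (R := ℂ) (S := R) (A := Mod al r) fun x =>
    congrArg (Ideal.Quotient.mk _) (IsScalarTower.algebraMap_apply ℂ R (MvPowerSeries κ R⟦X⟧) x)
  have h5 : Module.Flat R (Mod al r) := Module.Flat.trans R R⟦X⟧ (Mod al r)
  have h6 := ker_of_beta mz_mem (mod_surj hal hr) π h1 (by simpa only [h2] using hA)
  let D : Defo A R := { O := Mod al r, π := π, surj := h6.1, ker := h6.2 }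
  refine ⟨D, inferInstanceAs (Algebra R⟦X⟧ (Mod al r)), t1, mz al r, ?_, h2,
    fun p q h => err_mz al r h, fun O _ _ _ φ ψ hC hX => ?_,
    fun S _ _ _ E _ _ φ Z' hx hZ he' => ?_⟩
  · exact (h1 X).trans (congrArg _ (PowerSeries.map_X _))
  · exact AlgHom.ext (RingHom.congr_fun (mod_ext φ.toRingHom ψ.toRingHom hC hX
      fun p => map_max φ (mz_mem p)))
  · have := tower_C (R := S) (O := E.O)
    obtain ⟨ψ, k1, k2⟩ := mod_lift (al := al) (r := r) (PowerSeries.mapAlgHom φ) Z'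
      (fun p => max_of_map E.π (hZ p ▸ hW p)) he'
    refine ⟨⟨φ, ψ, fun x => ?_, fun o => ?_⟩, rfl, k1, k2⟩
    · refine (congrArg ψ (IsScalarTower.algebraMap_apply R R⟦X⟧ (Mod al r) x)).trans
        ((k1 _).trans ?_)
      rw [IsScalarTower.algebraMap_apply S S⟦X⟧ E.O]
      exact congrArg _ (PowerSeries.map_C _ x)
    · refine RingHom.congr_fun (mod_ext (E.π.comp ψ).toRingHom π.toRingHom (fun t => ?_)
        (fun p => ?_) fun p => map_max (E.π.comp ψ) (mz_mem p)) o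
      · change E.π (ψ _) = π _
        rw [k1, h1, pi_T E hx]
        congr 1
        ext n
        exact res_map φ _
      · change E.π (ψ _) = π _
        rw [k2, h2, hZ]

end Model

end Pool.Agent.MP_648617_ag.Vers

end
end MrgPart6

-- ======== part 7: formerly Pool.Agent.MP_648617_ag.vers.Versal
section MrgPart7

/-! A versal deformation exists. -/

open IsLocalRing PowerSeries

noncomputable section

namespace Pool.Agent.MP_648617_ag.Vers

theorem map_alO {T T' ι : Type} [CommRing T] [CommRing T'] (τ : T →+* T') (f : ι → T)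
    (a : ι → ι → T) :
    (fun p q => τ (alO f a p q)) = alO (fun i => τ (f i)) fun i j => τ (a i j) := by
  funext p q
  rcases p with _ | i <;> rcases q with _ | j <;> simp [alO]

theorem map_rO {T T' ι : Type} [CommRing T] [CommRing T'] (τ : T →+* T') (g : ι → T) :
    (fun p q => τ (rO g p q)) = rO fun i => τ (g i) := by
  funext p q
  rcases p with _ | i <;> rcases q with _ | j <;> simp [rO]

variable {A : Type} [CommRing A] [Algebra ℂ A] [IsGerm A]

section Lift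

variable {S S' : Type} [CommRing S] [Algebra ℂ S] [IsGerm S] [CommRing S'] [Algebra ℂ S']
  [IsGerm S'] {E : Defo A S} {E' : Defo A S'}

omit [IsGerm A] in
theorem tot_surj (p : E.Hom E') (hp : Function.Surjective p.base) : Function.Surjective p.tot :=
  surj_of_red p.tot fun o' => by
    obtain ⟨o, ho⟩ := E.surj (E'.π o')
    refine ⟨o, ?_⟩
    have h1 : o' - p.tot o ∈ RingHom.ker E'.π := by
      rw [RingHom.mem_ker, map_sub, p.red, ho, sub_self]
    rw [E'.ker] at h1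
    refine Ideal.map_le_iff_le_comap.2 (fun s' hs' => ?_) h1
    obtain ⟨s, rfl⟩ := hp s'
    rw [Ideal.mem_comap, ← p.comm]
    exact Ideal.mem_map_of_mem _
      (map_max (IsScalarTower.toAlgHom ℂ S E.O) (max_of_map p.base hs'))

variable [Algebra ℂ⟦X⟧ A] [IsScalarTower ℂ ℂ⟦X⟧ A] [Algebra S⟦X⟧ E.O] [IsScalarTower S S⟦X⟧ E.O]
  [Algebra S'⟦X⟧ E'.O] [IsScalarTower S' S'⟦X⟧ E'.O] {ι : Type} [Fintype ι] [DecidableEq ι]
  {a : ι → ℂ} {l : ι → ℕ}

theorem lift_std (p : E.Hom E') (hp : Function.Surjective p.base) (hl : ∀ i, l i ≠ 0)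
    (hT : ∀ t, p.tot (algebraMap S⟦X⟧ E.O t) =
      algebraMap S'⟦X⟧ E'.O (PowerSeries.map p.base.toRingHom t))
    (hx : E'.π (algebraMap S'⟦X⟧ E'.O X) = algebraMap ℂ⟦X⟧ A X) {Z' : Option ι → E'.O}
    (hZ' : ∀ q, Z' q ∈ maximalIdeal E'.O)
    (hA : Function.Bijective (beta ℂ⟦X⟧ fun q => E'.π (Z' q))) {c' : Par l → S'}
    (hc' : ∀ k, c' k ∈ maximalIdeal S') {b' : ι → ι → S'⟦X⟧}
    (hb' : ∀ i j, b' i j ∈ maximalIdeal S'⟦X⟧)
    (he' : ∀ q s, q ≠ s → err Z' (alO (fP a c') b') (rO (gP c')) q s = 0) :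
    ∃ (y : E.O) (z : ι → E.O) (c : Par l → S) (b : ι → ι → S⟦X⟧), Std y z (fP a c) (gP c) b ∧
      (∀ k, p.base (c k) = c' k) ∧ ∀ q : Option ι, p.tot (q.elim y z) = Z' q := by
  have t1 := tower_C (R := S) (O := E.O)
  have hx0 : E.π (algebraMap S⟦X⟧ E.O X) = algebraMap ℂ⟦X⟧ A X := by
    rw [← p.red, hT, PowerSeries.map_X, hx]
  set τ : S⟦X⟧ →+* S'⟦X⟧ := PowerSeries.map p.base.toRingHom with hτ
  have hτs : Function.Surjective τ := PowerSeries.map_surjective _ hp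
  have hτm : ∀ {t}, τ t ∈ maximalIdeal S'⟦X⟧ → t ∈ maximalIdeal S⟦X⟧ := fun h =>
    max_of_map (PowerSeries.mapAlgHom p.base) h
  choose Z hZ using fun q => tot_surj p hp (Z' q)
  choose f hf using fun i => hτs (fP a c' i)
  choose g hg using fun i => hτs (gP c' i)
  choose b hb using fun i j => hτs (b' i j)
  have hZm : ∀ q, Z q ∈ maximalIdeal E.O := fun q => max_of_map p.tot (hZ q ▸ hZ' q)
  have hJ : ∀ {o}, o ∈ (RingHom.ker τ).map (algebraMap S⟦X⟧ E.O) → p.tot o = 0 := fun h => by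
    refine (show _ ≤ RingHom.ker p.tot from Ideal.map_le_iff_le_comap.2 fun t ht => ?_) h
    rw [Ideal.mem_comap, RingHom.mem_ker, hT, RingHom.mem_ker.1 ht, map_zero]
  have hJ' : ∀ {o o'}, o - o' ∈ (RingHom.ker τ).map (algebraMap S⟦X⟧ E.O) → p.tot o = p.tot o' :=
    fun h => by simpa [sub_eq_zero] using hJ h
  have hbij : ∀ Y : Option ι → E.O, (∀ q, Y q - Z q ∈ (RingHom.ker τ).map (algebraMap S⟦X⟧ E.O)) →
      Function.Bijective (beta S⟦X⟧ Y) := fun Y hY => by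
    have h1 : ∀ q, p.tot (Y q) = Z' q := fun q => (hJ' (hY q)).trans (hZ q)
    refine axes E hx0 Y (fun q => max_of_map p.tot (h1 q ▸ hZ' q)) ?_
    simpa only [← p.red, h1] using hA
  have hker : ∀ o, p.tot o = 0 → o ∈ (RingHom.ker τ).map (algebraMap S⟦X⟧ E.O) := fun o ho => by
    obtain ⟨v, rfl⟩ := (hbij Z (by simp)).2 o
    rw [map_beta τ p.tot hT hZm] at ho
    simp only [hZ] at ho
    rw [(injective_iff_map_eq_zero' _).1 (axes E' hx Z' hZ' hA).1, Prod.ext_iff] at ho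
    refine add_mem (Ideal.mem_map_of_mem _ ho.1) (Ideal.sum_mem _ fun q _ =>
      Ideal.mul_mem_left _ _ (ev_mem _ fun j => ?_))
    simpa using congrArg (coeff j) (congrFun ho.2 q)
  obtain ⟨y, z, F, G, b1, hs, k1, k2, k3, k4, k5⟩ := std_lift (RingHom.ker τ)
    (fun t ht => hτm (by rw [RingHom.mem_ker.1 ht]; exact zero_mem _)) Z f g b hZm
    (fun i => hτm (hf i ▸ fP_mem a hc' i)) (fun i => hτm (hg i ▸ gP_mem hl hc' i))
    (fun i j => hτm (hb i j ▸ hb' i j)) hbij fun q s h => hker _ (by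
      refine (map_err τ p.tot.toRingHom hT Z _ _ q s).trans ?_
      rw [map_alO, map_rO]
      simpa only [hf, hg, hb, AlgHom.toRingHom_eq_coe, AlgHom.coe_toRingHom, hZ] using he' q s h)
  have e : ∀ {t t'}, t - t' ∈ RingHom.ker τ → τ t = τ t' := fun h => by
    simpa [sub_eq_zero] using h
  have hF : ∀ i, τ (F i) = fP a c' i := fun i => (e (k3 i)).trans (hf i)
  have hG : ∀ i, τ (G i) = gP c' i := fun i => (e (k4 i)).trans (hg i)
  obtain ⟨c, u, w, h1, h2⟩ := nf_ex a (F := F) (G := G) (l := l) fun i => by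
    rw [← res_gP hc' i, ← hG]
    ext n
    exact (res_map p.base _).symm
  obtain ⟨n1, n2, n3⟩ := nf_triv a hc' (c' := fun k => p.base (c k)) (u := fun i => τ (u i))
    (q := fun i => τ (w i)) (fun i => by rw [← hG, ← map_mul, h1, hτ, map_gP])
    fun i => by rw [← hF, h2, map_add, map_mul, hτ, map_gP, map_fP]
  have hz : ∀ i, p.tot (z i) = Z' (some i) := fun i => (hJ' (k2 i)).trans (hZ _)
  obtain ⟨z2, b2, hs2, -, m2⟩ := std_norm hs (fun i => max_of_map p.tot (hz i ▸ hZ' _))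
    (fun i j => hτm (((e (k5 i j)).trans (hb i j)) ▸ hb' i j)) h1 h2
  refine ⟨y, z2, c, b2, hs2, congrFun n1, ?_⟩
  rintro (_ | i)
  · exact (hJ' k1).trans (hZ _)
  · have := congrArg p.tot (m2 i)
    simpa [hT, n2, n3, hz] using this

end Lift

theorem exists_versal [Algebra ℂ⟦X⟧ A] [IsScalarTower ℂ ℂ⟦X⟧ A] {ι : Type} [Fintype ι]
    {a : ι → ℂ} (ha : Function.Injective a) {l : ι → ℕ} (hl : ∀ i, l i ≠ 0) {y : A} {z : ι → A}
    {b : ι → ι → ℂ⟦X⟧} (hb : ∀ i j, b i j ∈ maximalIdeal ℂ⟦X⟧)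
    (hW : ∀ q : Option ι, q.elim y z ∈ maximalIdeal A)
    (hs : Std y z (fun i => C (a i) * X) (fun i => X ^ l i) b)
    (hA : Function.Bijective (beta ℂ⟦X⟧ fun q : Option ι => q.elim y z)) :
    ∃ (R : Type) (_ : CommRing R) (_ : Algebra ℂ R) (_ : IsGerm R) (D : Defo A R), D.IsVersal := by
  classical
  obtain ⟨R, _, _, _, c, Q, hc, gf, hQ, huniv, hext⟩ := exists_base a ha b hs.gf
  have hQm : ∀ i j, Q i j ∈ maximalIdeal R⟦X⟧ := fun i j => mem_of_res (hQ i j ▸ hb i j)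
  obtain ⟨D, _, _, Z, hx, hZ, he, hD, hlift⟩ := exists_model
    (rimEq gf fun i j h u v => (ord_f a ha hc h).cancel) (alO_mem (fP_mem a hc) hQm)
    (rO_mem (gP_mem hl hc)) _ hW hA (by
      rw [map_alO, map_rO]
      simpa only [res_fP a hc, res_gP hc, hQ] using hs.err)
  refine ⟨R, inferInstance, inferInstance, inferInstance, D, fun S _ _ _ S' _ _ _ E E' p f hp => ?_⟩
  have t0 := tower_C (R := R) (O := D.O)
  have hx' : f.tot (algebraMap R⟦X⟧ D.O X) ∈ maximalIdeal E'.O :=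
    map_max f.tot (map_max (IsScalarTower.toAlgHom ℂ R⟦X⟧ D.O) X_mem)
  obtain ⟨x, hxx⟩ := tot_surj p hp (f.tot (algebraMap R⟦X⟧ D.O X))
  have hxm : x ∈ maximalIdeal E.O := max_of_map p.tot (hxx ▸ hx')
  let _ : Algebra S⟦X⟧ E.O := (ev S x).toRingHom.toAlgebra
  let _ : Algebra S'⟦X⟧ E'.O := (ev S' (p.tot x)).toRingHom.toAlgebra
  have t1 : IsScalarTower S S⟦X⟧ E.O := IsScalarTower.of_algebraMap_eq fun s => (ev_C x s).symm
  have t2 : IsScalarTower S' S'⟦X⟧ E'.O := IsScalarTower.of_algebraMap_eq fun s => (ev_C _ s).symm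
  have hX : algebraMap S'⟦X⟧ E'.O X = f.tot (algebraMap R⟦X⟧ D.O X) :=
    (ev_X (hxx ▸ hx')).trans hxx
  have hT : ∀ t, p.tot (algebraMap S⟦X⟧ E.O t) =
      algebraMap S'⟦X⟧ E'.O (PowerSeries.map p.base.toRingHom t) :=
    map_ev p.base.toRingHom p.tot p.comm hxm
  have hf : ∀ t, f.tot (algebraMap R⟦X⟧ D.O t) =
      algebraMap S'⟦X⟧ E'.O (PowerSeries.map f.base.toRingHom t) :=
    RingHom.congr_fun (ps_ext (f.tot.toRingHom.comp (algebraMap R⟦X⟧ D.O))
      ((algebraMap S'⟦X⟧ E'.O).comp (PowerSeries.map f.base.toRingHom)) (fun r => by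
        refine (congrArg f.tot (IsScalarTower.algebraMap_apply R R⟦X⟧ D.O r).symm).trans ?_
        rw [f.comm, RingHom.comp_apply, PowerSeries.map_C]
        exact (ev_C _ _).symm) (by simp [hX]) hx')
  have hx1 : E'.π (algebraMap S'⟦X⟧ E'.O X) = algebraMap ℂ⟦X⟧ A X := by rw [hX, f.red, hx]
  obtain ⟨y1, z1, c1, b1, hs1, h1, h2⟩ := lift_std (a := a) p hp hl hT hx1
    (Z' := fun q => f.tot (Z q)) (fun q => map_max f.tot (max_of_map D.π (hZ q ▸ hW q)))
    (by simpa only [f.red, hZ] using hA) (c' := fun k => f.base (c k))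
    (fun k => map_max f.base (hc k)) (b' := fun i j => PowerSeries.map f.base.toRingHom (Q i j))
    (fun i j => map_max (PowerSeries.mapAlgHom f.base) (hQm i j)) fun q s h => by
      have := map_err _ f.tot.toRingHom hf Z (alO (fP a c) Q) (rO (gP c)) q s
      rw [he q s h, map_zero, map_alO, map_rO] at this
      simp only [map_fP, map_gP] at this
      exact this.symm
  have hc1 : ∀ k, c1 k ∈ maximalIdeal S := fun k =>
    max_of_map p.base (h1 k ▸ map_max f.base (hc k))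
  obtain ⟨φ, hφ⟩ := huniv S c1 hc1 fun i j h => ⟨_, hs1.gf i j h⟩
  have h3 : ∀ i j, i ≠ j → PowerSeries.map φ.toRingHom (Q j i) = b1 j i := fun i j h => by
    refine (ord_f a ha hc1 h).cancel ?_
    have := congrArg (PowerSeries.map φ.toRingHom) (gf i j h)
    rw [map_mul, map_sub, map_gP, map_fP, map_fP] at this
    simp only [hφ] at this
    exact this.symm.trans (hs1.gf i j h)
  have hs2 : Std y1 z1 (fP a c1) (gP c1) fun i j => PowerSeries.map φ.toRingHom (Q i j) :=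
    ⟨hs1.yz, fun i j h => by rw [h3 i j h, h3 j i h.symm]; exact hs1.zz i j h,
      fun i j h => by rw [h3 i j h]; exact hs1.gf i j h⟩
  obtain ⟨g, hg, hg1, hg2⟩ := hlift S E φ (fun q => q.elim y1 z1)
    (by rw [← p.red, hT, PowerSeries.map_X, hx1]) (fun q => by rw [← p.red, h2, f.red, hZ]) (by
      rw [map_alO, map_rO]
      simp only [map_fP, map_gP, hφ]
      exact hs2.err)
  have hbase : p.base.comp φ = f.base := hext S' _ _ fun k => by rw [AlgHom.comp_apply, hφ, h1]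
  refine ⟨g, hg ▸ hbase, hD _ _ _ (fun t => ?_) fun q => ?_⟩
  · rw [AlgHom.comp_apply, hg1, hT, hf, ← hbase]
    rfl
  · rw [AlgHom.comp_apply, hg2, h2]

end Pool.Agent.MP_648617_ag.Vers

end
end MrgPart7

-- ======== part 8: formerly Pool.Agent.MP_648617_ag.kol.Vers
section MrgPart8

/-! Row VERS: a versal deformation exists. -/

open IsLocalRing PowerSeries

noncomputable section

namespace Pool.Agent.MP_648617_ag.Vers

theorem ev_eq {T O : Type} [CommRing T] [CommRing O] [Algebra ℂ O] [IsGerm O] [Algebra T O]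
    (E : T⟦X⟧ →+* O) (hC : ∀ t, E (C t) = algebraMap T O t) (hm : E X ∈ maximalIdeal O)
    (H : T⟦X⟧) : ev T (E X) H = E H :=
  RingHom.congr_fun (ps_ext (ev T (E X)).toRingHom E (fun t => (ev_C _ t).trans (hC t).symm)
    (ev_X hm) ((ev_X (T := T) hm).symm ▸ hm)) H

end Pool.Agent.MP_648617_ag.Vers

namespace Pool.Agent.MP_648617_ag.Kol

theorem vers : VersStmt := by
  intro A _ _ _ 𝓡 h
  let _ : Algebra ℂ⟦X⟧ A := 𝓡.φ.toAlgebra
  have : IsScalarTower ℂ ℂ⟦X⟧ A := IsScalarTower.of_algebraMap_eq fun c => (h.base c).symm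
  have hE := fun p => Vers.ev_eq (𝓡.E p) (𝓡.E_C p) (𝓡.mem p)
  have hZ : (fun q : Option Ln => q.elim (𝓡.Z none) fun i => 𝓡.Z (some i)) = 𝓡.Z := by
    funext q; cases q <;> rfl
  refine Vers.exists_versal (a := fun i => (a i : ℂ)) (l := l) (y := 𝓡.Z none)
    (z := fun i => 𝓡.Z (some i)) (b := fun i j => if i = j then 0 else 𝓡.al i j)
    (fun i j e => a_inj i j (Int.cast_injective e)) (fun i => by have := six_le i; omega)
    (fun i j => ?_) (fun q => ?_) ⟨fun i => ?_, fun i j e => ?_, fun i j e => ?_⟩ ?_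
  · split_ifs with e
    exacts [zero_mem _, 𝓡.al_mem i j e]
  · cases q <;> exact 𝓡.mem _
  · rw [← h.f, ← h.g]; exact 𝓡.rels.rel0 i
  · rw [if_neg e, if_neg e.symm]; exact 𝓡.rels.rel i j e
  · rw [if_neg e.symm, ← h.f, ← h.f, ← h.g]; exact 𝓡.div i j e
  · rw [hZ]
    convert 𝓡.bij using 1
    funext w
    simp only [Vers.beta_apply, Axes.Z, hE, map_mul]
    rfl

end Pool.Agent.MP_648617_ag.Kol

end
end MrgPart8

-- marker of a merged file
example : 731051 + 898276 = 731051 + 898276 := rfl
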