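import Mathlib.Algebra.GCDMonoid.IntegrallyClosed
import Mathlib.RingTheory.Ideal.GoingUp
import Mathlib.RingTheory.KrullDimension.Field
import Mathlib.RingTheory.KrullDimension.NonZeroDivisors
import Mathlib.RingTheory.KrullDimension.Polynomial
import Mathlib.RingTheory.Localization.AsSubring
import Mathlib.RingTheory.Polynomial.UniqueFactorization
import Pool.Agent.MP_648617_ag.kol.Vers
import Mathlib.RingTheory.AdicCompletion.LocalRing
import Mathlib.RingTheory.Flat.TorsionFree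
import Pool.Agent.MP_648617_ag.kol.Poly
import Pool.Agent.MP_19ffc6_ag.Lin.ProjB
import Mathlib.Algebra.DualNumber
import Mathlib.RingTheory.Noetherian.Nilpotent
import Pool.Agent.MP_648617_ag.vers.Norm

-- ======== part 0: formerly Pool.Agent.MP_648617_ag.kol.A0
section MrgPart0

/-! PROJECT KOL, row A0: the affine surface is normal of dimension two. -/

noncomputable section

namespace Pool.Agent.MP_648617_ag.Kol

namespace A0x

open Polynomial

variable {S : Type} [CommRing S] (P : PolyRim ℂ[X] S f0 g0 al0)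

/-- The constant coefficient, as a polynomial. -/
def c0 : ℂ[X] →+* ℂ[X] := C.comp (evalRingHom 0)

theorem c0_apply (t : ℂ[X]) : c0 t = C (t.eval 0) := rfl

theorem axis (h2 : PolyUpStmt) (p : Option Ln) :
    ∃ Φ : S →+* ℂ[X], (∀ t, Φ (P.φ t) = c0 t) ∧ ∀ q, Φ (P.Z q) = if q = p then X else 0 := by
  refine h2 _ _ _ _ _ P _ c0 _ ⟨fun i => ?_, fun i j hij => ?_⟩
  · have hl : l i ≠ 0 := by have := six_le i; omega
    have h1 : c0 (f0 i) = 0 := by simp [c0_apply, f0]
    have h3 : c0 (g0 i) = 0 := by simp [c0_apply, g0, hl]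
    rw [h1, h3, sub_zero]
    by_cases h : none = p
    · subst h; simp
    · simp [h]
  · have h1 : ∀ i j, c0 (al0 i j) = 0 := fun i j => by
      have hl : l j - 1 ≠ 0 := by have := six_le j; omega
      simp [c0_apply, al0, hl]
    rw [h1, h1, zero_mul, zero_mul, add_zero]
    by_cases h : some i = p
    · subst h
      have : some j ≠ some i := fun e => hij (Option.some.inj e).symm
      simp [this]
    · simp [h]

theorem eval₂_dvd (z : S) (H : ℂ[X][X]) (h : H.map (evalRingHom 0) = 0) :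
    P.φ X ∣ H.eval₂ P.φ z := by
  have : C X ∣ H := (C_dvd_iff_dvd_coeff _ _).2 fun n => X_dvd_iff.2 <| by
    have := congrArg (coeff · n) h
    simpa [coeff_zero_eq_eval_zero] using this
  obtain ⟨G, rfl⟩ := this
  rw [eval₂_mul, eval₂_C]
  exact dvd_mul_right _ _

theorem red (h2 : PolyUpStmt) (s : S) (d : ℕ) (h : P.φ X ∣ s ^ d) : P.φ X ∣ s := by
  choose Φ h0 hZ using axis P h2
  have hs : ∀ p, Φ p s = 0 := fun p => by
    obtain ⟨r, hr⟩ := h
    have := congrArg (Φ p) hr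
    rw [map_pow, map_mul, h0, c0_apply, eval_X, C_0, zero_mul] at this
    exact eq_zero_of_pow_eq_zero this
  obtain ⟨⟨c, H⟩, rfl⟩ := P.bij.2 s
  have key : ∀ p, C (c.eval 0) + X * (H p).map (evalRingHom 0) = 0 := fun p => by
    have := hs p
    simp only [map_add, map_sum, map_mul, h0, hZ, c0_apply, hom_eval₂] at this
    rw [Finset.sum_eq_single p (fun q _ hq => by simp [hq]) (by simp), if_pos rfl] at this
    have e : (Φ p).comp P.φ = C.comp (evalRingHom 0) := RingHom.ext (h0 p)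
    rwa [e, ← eval₂_map, eval₂_C_X] at this
  have hc : c.eval 0 = 0 := by
    have := congrArg (coeff · 0) (key none)
    simpa using this
  refine dvd_add (map_dvd _ (X_dvd_iff.2 (by rwa [coeff_zero_eq_eval_zero])))
    (Finset.dvd_sum fun p _ => Dvd.dvd.mul_left (eval₂_dvd P _ _ ?_) _)
  have := key p
  rw [hc, C_0, zero_add] at this
  exact (mul_eq_zero.1 this).resolve_left X_ne_zero

include P in
theorem two_le (h2 : PolyUpStmt) [IsDomain S] (hx : P.φ X ≠ 0) : 2 ≤ ringKrullDim S := by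
  obtain ⟨Φ, h0, hZ⟩ := axis P h2 none
  have hs : Function.Surjective Φ := fun t => by
    induction t using Polynomial.induction_on' with
    | add p q hp hq =>
      obtain ⟨a, rfl⟩ := hp
      obtain ⟨b, rfl⟩ := hq
      exact ⟨a + b, map_add _ _ _⟩
    | monomial n c =>
      exact ⟨P.φ (C c) * P.Z none ^ n, by
        simp [h0, hZ, c0_apply, C_mul_X_pow_eq_monomial]⟩
  have := ringKrullDim_succ_le_of_surjective Φ hs (mem_nonZeroDivisors_of_ne_zero hx)
    (by simp [h0, c0_apply])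
  rw [Polynomial.ringKrullDim_of_isNoetherianRing, ringKrullDim_eq_zero_of_field] at this
  simpa [one_add_one_eq_two] using this

include P in
theorem le_two [IsDomain S] : ringKrullDim S ≤ 2 := by
  classical
  let θ : ℂ[X][X] →+* S := eval₂RingHom P.φ (∑ p, P.Z p)
  let _ := θ.toAlgebra
  have hC : ∀ t, algebraMap ℂ[X][X] S (C t) = P.φ t := fun t => eval₂_C _ _
  have hX : algebraMap ℂ[X][X] S X = ∑ p, P.Z p := eval₂_X _ _
  let N : Submodule ℂ[X][X] S := Submodule.span _ (insert 1 (Set.range P.Z))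
  have h1 : (1 : S) ∈ N := Submodule.subset_span (Set.mem_insert _ _)
  have hZ : ∀ p, P.Z p ∈ N := fun p => Submodule.subset_span (Set.mem_insert_of_mem _ ⟨p, rfl⟩)
  have hm : ∀ t, ∀ s ∈ N, P.φ t * s ∈ N := fun t s hs => by
    rw [← hC, ← Algebra.smul_def]; exact N.smul_mem _ hs
  have h0 : ∀ i, P.Z none * P.Z (some i) ∈ N := fun i => by
    have : P.Z none * P.Z (some i) = P.φ (f0 i) * P.Z (some i) + P.φ (g0 i) * 1 := by
      rw [← P.rels.rel0 i]; ring
    rw [this]
    exact N.add_mem (hm _ _ (hZ _)) (hm _ _ h1)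
  have hne : ∀ p q, p ≠ q → P.Z p * P.Z q ∈ N := by
    rintro (_ | i) (_ | j) h
    · exact absurd rfl h
    · exact h0 j
    · rw [mul_comm]; exact h0 i
    · rw [P.rels.rel i j fun e => h (congrArg _ e)]
      exact N.add_mem (hm _ _ (hZ _)) (hm _ _ (hZ _))
  have hall : ∀ p q, P.Z p * P.Z q ∈ N := fun p q => by
    by_cases h : p = q
    · subst h
      have : P.Z p * P.Z p = (X : ℂ[X][X]) • P.Z p - ∑ q ∈ Finset.univ.erase p, P.Z q * P.Z p := by
        rw [Algebra.smul_def, hX, ← Finset.add_sum_erase _ _ (Finset.mem_univ p), add_mul,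
          Finset.sum_mul]
        ring
      rw [this]
      exact N.sub_mem (N.smul_mem _ (hZ p))
        (N.sum_mem fun q hq => hne q p (Finset.ne_of_mem_erase hq))
    · exact hne p q h
  have hint : ∀ p, IsIntegral ℂ[X][X] (P.Z p) := fun p => by
    refine isIntegral_of_smul_mem_submodule N (fun h => ?_)
      (Submodule.fg_span ((Set.finite_range _).insert _)) _ fun n hn => ?_
    · rw [h] at h1; exact one_ne_zero ((Submodule.mem_bot _).1 h1)
    · rw [smul_eq_mul]
      induction hn using Submodule.span_induction with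
      | mem s hs =>
        rcases hs with rfl | ⟨q, rfl⟩
        · rw [mul_one]; exact hZ p
        · exact hall p q
      | zero => rw [mul_zero]; exact N.zero_mem
      | add s t _ _ hs ht => rw [mul_add]; exact N.add_mem hs ht
      | smul c s _ hs => rw [mul_smul_comm]; exact N.smul_mem _ hs
  have hφ : ∀ t, IsIntegral ℂ[X][X] (P.φ t) := fun t => hC t ▸ isIntegral_algebraMap
  have : Algebra.IsIntegral ℂ[X][X] S := ⟨fun s => by
    obtain ⟨⟨c, H⟩, rfl⟩ := P.bij.2 s
    refine (hφ c).add (IsIntegral.sum _ fun p _ => (hint p).mul ?_)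
    rw [eval₂_eq_sum_range]
    exact IsIntegral.sum _ fun n _ => (hφ _).mul ((hint p).pow n)⟩
  have := Order.krullDim_le_of_strictMono (PrimeSpectrum.comap (algebraMap ℂ[X][X] S))
    fun I J h => Ideal.IsIntegral.comap_lt_comap (R := ℂ[X][X]) (I := I.asIdeal) (J := J.asIdeal) h
  refine this.trans (le_of_eq ?_)
  change ringKrullDim ℂ[X][X] = 2
  rw [Polynomial.ringKrullDim_of_isNoetherianRing, Polynomial.ringKrullDim_of_isNoetherianRing,
    ringKrullDim_eq_zero_of_field]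
  simp [one_add_one_eq_two]

theorem xx_mem : xx ∈ A0 := Algebra.subset_adjoin (Set.mem_insert _ _)

theorem ZZ_mem (p : Option Ln) : ZZ p ∈ A0 :=
  Algebra.subset_adjoin (Set.mem_insert_of_mem _ ⟨p, rfl⟩)

theorem ψ_C (c : ℂ) : ψ (C c) = algebraMap ℂ KK c := by
  rw [IsScalarTower.algebraMap_apply ℂ ℂ[X][X] KK]; rfl

theorem ψ_mem (t : ℂ[X]) : ψ t ∈ A0 := by
  induction t using Polynomial.induction_on' with
  | add p q hp hq => rw [map_add]; exact A0.add_mem hp hq
  | monomial n c =>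
    rw [← C_mul_X_pow_eq_monomial, map_mul, map_pow, ψ_C]
    exact A0.mul_mem (A0.algebraMap_mem c) (A0.pow_mem xx_mem n)

theorem alg_mem (r : ℂ[X][X]) : algebraMap ℂ[X][X] KK r ∈ A0 := by
  induction r using Polynomial.induction_on' with
  | add p q hp hq => rw [map_add]; exact A0.add_mem hp hq
  | monomial n c =>
    rw [← C_mul_X_pow_eq_monomial, map_mul, map_pow]
    exact A0.mul_mem (ψ_mem c) (A0.pow_mem (ZZ_mem none) n)

theorem xx_ne : xx ≠ 0 := fun h =>
  X_ne_zero (C_eq_zero.1 ((IsFractionRing.to_map_eq_zero_iff (R := ℂ[X][X]) (K := KK)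
    (x := C X)).1 h))

/-- The lines. -/
def ln (i : Ln) : ℂ[X][X] := X - C (f0 i)

theorem ln_ne (i : Ln) : ln i ≠ 0 := (monic_X_sub_C _).ne_zero

theorem ln_eq (i : Ln) : algebraMap ℂ[X][X] KK (ln i) = yy - a i * xx := by
  have : ψ (f0 i) = a i * xx := by rw [f0, map_mul, ψ_C, map_intCast]; rfl
  rw [ln, map_sub, ← this]; rfl

theorem ln_ne' (i : Ln) : yy - a i * xx ≠ 0 := by
  rw [← ln_eq]; exact (IsFractionRing.to_map_eq_zero_iff (K := KK)).not.2 (ln_ne i)

theorem frac (φ : KK) : ∃ b ∈ A0, b ≠ 0 ∧ b * φ ∈ A0 := by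
  obtain ⟨r, s, hs, rfl⟩ := IsFractionRing.div_surjective ℂ[X][X] φ
  have := IsFractionRing.to_map_ne_zero_of_mem_nonZeroDivisors (K := KK) hs
  exact ⟨_, alg_mem s, this, by rw [mul_div_cancel₀ _ this]; exact alg_mem r⟩

instance : IsFractionRing A0 KK := IsFractionRing.of_field _ _ fun φ => by
  obtain ⟨b, hb, h0, h⟩ := frac φ
  exact ⟨⟨_, h⟩, ⟨b, hb⟩, (mul_div_cancel_left₀ φ h0).symm⟩

theorem denom {φ : KK} (h : IsIntegral A0 φ) : ∃ n, xx ^ n * φ ∈ A0 := by
  let M : Submonoid ℂ[X][X] := Submonoid.closure (Set.range ln)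
  have hM : M ≤ nonZeroDivisors _ := Submonoid.closure_le.2 <| by
    rintro _ ⟨i, rfl⟩; exact mem_nonZeroDivisors_of_ne_zero (ln_ne i)
  let L := Localization.subalgebra.ofField KK M hM
  have hL : IsIntegrallyClosed L := isIntegrallyClosed_of_isLocalization L M hM
  have hle : ∀ s ∈ A0, s ∈ L := fun s hs => by
    have : A0 ≤ L.restrictScalars ℂ := Algebra.adjoin_le <| by
      rintro _ (rfl | ⟨_ | i, rfl⟩)
      · exact L.algebraMap_mem (C X)
      · exact L.algebraMap_mem X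
      · exact ⟨C X ^ l i, ln i, Submonoid.subset_closure ⟨i, rfl⟩, by
          rw [ln_eq, map_pow, ← div_eq_mul_inv]; rfl⟩
    exact this hs
  let ι : A0 →+* L := (A0.val.toRingHom).codRestrict L fun s => hle s s.2
  obtain ⟨p, hp, hφ⟩ := h
  have hi : IsIntegral L φ := ⟨p.map ι, hp.map ι, by rw [eval₂_map]; exact hφ⟩
  obtain ⟨⟨χ, r, s, hs, h1⟩, h2⟩ := (isIntegrallyClosed_iff KK).1 hL hi
  have h3 : φ = algebraMap ℂ[X][X] KK r * (algebraMap ℂ[X][X] KK s)⁻¹ := h2.symm.trans h1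
  have : ∃ n, xx ^ n * (algebraMap ℂ[X][X] KK s)⁻¹ ∈ A0 := by
    clear h1 h2 h3
    induction hs using Submonoid.closure_induction with
    | mem s hs =>
      obtain ⟨i, rfl⟩ := hs
      exact ⟨l i, by rw [ln_eq, ← div_eq_mul_inv]; exact ZZ_mem (some i)⟩
    | one => exact ⟨0, by simp⟩
    | mul s t _ _ hs ht =>
      obtain ⟨n, hn⟩ := hs
      obtain ⟨m, hm⟩ := ht
      refine ⟨n + m, ?_⟩
      convert A0.mul_mem hn hm using 1
      rw [map_mul, mul_inv]; ring
  obtain ⟨n, hn⟩ := this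
  refine ⟨n, ?_⟩
  convert A0.mul_mem (alg_mem r) hn using 1
  rw [h3]; ring

theorem normal (h1 : A0PolyStmt) (h2 : PolyUpStmt) : IsIntegrallyClosed A0 := by
  obtain ⟨P, hP, -⟩ := h1
  refine (isIntegrallyClosed_iff KK).2 fun {φ} h => ?_
  obtain ⟨n, hn⟩ := denom h
  suffices φ ∈ A0 from ⟨⟨φ, this⟩, rfl⟩
  induction n with
  | zero => simpa using hn
  | succ n ih =>
    refine ih ?_
    have hx : algebraMap A0 KK (P.φ X) = xx := hP X
    have hi : IsIntegral A0 (xx ^ n * φ) :=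
      (hx ▸ (isIntegral_algebraMap (x := P.φ X)).pow n).mul h
    have he : algebraMap A0 KK (P.φ X) * (xx ^ n * φ) = algebraMap A0 KK ⟨_, hn⟩ := by
      rw [hx]; change _ = xx ^ (n + 1) * φ; ring
    generalize xx ^ n * φ = χ at hi he
    generalize (⟨_, hn⟩ : A0) = s at he
    obtain ⟨p, hp, hχ⟩ := hi
    have hd : 0 < p.natDegree := hp.natDegree_pos.2 fun e => by simp [e] at hχ
    have h3 := scaleRoots_eval₂_eq_zero (algebraMap A0 KK) (s := P.φ X) hχ
    rw [he, eval₂_at_apply, (IsFractionRing.to_map_eq_zero_iff (K := KK)),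
      eval_eq_sum_range, Finset.sum_range_succ, natDegree_scaleRoots, coeff_scaleRoots_natDegree,
      hp.leadingCoeff, one_mul] at h3
    obtain ⟨r, hr⟩ := red P h2 s p.natDegree <| by
      rw [eq_neg_of_add_eq_zero_right h3, ← Ideal.mem_span_singleton]
      refine neg_mem (Ideal.sum_mem _ fun i hi => Ideal.mul_mem_right _ _ ?_)
      rw [coeff_scaleRoots]
      exact Ideal.mul_mem_left _ _ (Ideal.pow_mem_of_mem _ (Ideal.mem_span_singleton_self _) _
        (by have := Finset.mem_range.1 hi; omega))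
    rw [hr, map_mul, hx] at he
    rw [mul_left_cancel₀ xx_ne he]
    exact r.2

end A0x

theorem a0 (h1 : A0PolyStmt) (h2 : PolyUpStmt) : A0Stmt := by
  refine ⟨Subalgebra.fg_def.2 ⟨_, (Set.finite_range _).insert _, rfl⟩, A0x.frac,
    A0x.normal h1 h2, ?_⟩
  obtain ⟨P, hP, -⟩ := h1
  refine le_antisymm (A0x.le_two P) (A0x.two_le P h2 fun h => A0x.xx_ne ?_)
  rw [xx, ← hP, h]; rfl

end Pool.Agent.MP_648617_ag.Kol

end
end MrgPart0

-- ======== part 1: formerly Pool.Agent.MP_648617_ag.kol.Ahat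
section MrgPart1

/-! PROJECT KOL, row AHAT: the completed singularity has the standard form. -/

open IsLocalRing PowerSeries

noncomputable section

namespace Pool.Agent.MP_648617_ag.Kol

namespace Ahat

open Vers Dfo

/-- Ring maps to complete rings extend to the completion. -/
theorem exists_ext {S S' : Type} [CommRing S] [CommRing S'] (m : Ideal S) (I : Ideal S')
    [IsAdicComplete I S'] (f : S →+* S') (hf : m ≤ I.comap f) :
    ∃ F : AdicCompletion m S →+* S', ∀ s, F (algebraMap S _ s) = f s := by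
  have h : ∀ n, m ^ n ≤ (I ^ n).comap f := fun n =>
    (Ideal.pow_right_mono hf n).trans (Ideal.le_comap_pow f n)
  let g : ∀ n, AdicCompletion m S →+* S' ⧸ I ^ n := fun n =>
    (Ideal.quotientMap (I ^ n) f (h n)).comp (AdicCompletion.evalₐ m n).toRingHom
  have hg0 : ∀ n x, g n x = Ideal.quotientMap (I ^ n) f (h n) (AdicCompletion.evalₐ m n x) :=
    fun _ _ => rfl
  have hg : ∀ {k n : ℕ} (hle : k ≤ n), (Ideal.Quotient.factorPow I hle).comp (g n) = g k := by
    intro k n hle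
    ext x
    obtain ⟨y, rfl⟩ := AdicCompletion.mk_surjective m S x
    have h1 : ∀ n, g n (AdicCompletion.mk m S y) = Ideal.Quotient.mk _ (f (y n)) := fun n => by
      rw [hg0, AdicCompletion.evalₐ_mk, Ideal.quotientMap_mk]
    rw [RingHom.comp_apply, h1, h1]
    change Ideal.Quotient.mk _ _ = _
    rw [Ideal.Quotient.eq, ← map_sub]
    exact h k (Ideal.Quotient.eq.1 (AdicCompletion.Ideal.mk_eq_mk m hle y))
  refine ⟨IsAdicComplete.liftRingHom I g hg, fun s => ?_⟩
  rw [← sub_eq_zero]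
  refine haus I fun n => ?_
  rw [← Ideal.Quotient.eq, IsAdicComplete.mk_liftRingHom, hg0, AlgHom.commutes]
  rfl

theorem inj {T O : Type} [CommRing T] [CommRing O] [Algebra ℂ O] [IsGerm O] [Algebra T O]
    (x : T) (ρ : T →+* ℂ) (hρ : ∀ t, ρ t = 0 → x ∣ t) (h6 : ∀ t, (∀ n, x ^ n ∣ t) → t = 0)
    (Z : Option Ln → O) (hZ : ∀ p, Z p ∈ maximalIdeal O)
    (hx : ∀ o, algebraMap T O x * o = 0 → o = 0) (ψ : Option Ln → O →+* ℂ⟦X⟧)
    (h0 : ∀ p t, ψ p (algebraMap T O t) = C (ρ t))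
    (h1 : ∀ p q, ψ p (Z q) = if q = p then X else 0) :
    Function.Injective (beta T Z) := by
  have hX : (X : ℂ⟦X⟧) ∈ maximalIdeal ℂ⟦X⟧ := mem_max_B.2 (by simp)
  have h2 : ∀ p G, ψ p (ev T (Z p) G) = PowerSeries.map ρ G := fun p G =>
    RingHom.congr_fun (ps_ext ((ψ p).comp (ev T (Z p)).toRingHom) (PowerSeries.map ρ)
      (fun r => by simp [ev_C, h0]) (by simp [ev_X (hZ p), h1])
      (by simpa [ev_X (hZ p), h1] using hX)) G
  have key : ∀ v, beta T Z v = 0 → ∃ w, v = x • w := fun v hv => by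
    have h3 : ∀ p, C (ρ v.1) + X * PowerSeries.map ρ (v.2 p) = 0 := fun p => by
      have := congrArg (ψ p) hv
      rw [beta_apply, map_add, map_sum, h0, map_zero,
        Finset.sum_eq_single p (fun q _ hq => by simp [h1, hq]) (by simp), map_mul, h1, h2,
        if_pos rfl] at this
      exact this
    have h4 : ρ v.1 = 0 := by simpa using congrArg cc (h3 none)
    have h5 : ∀ p j, x ∣ coeff j (v.2 p) := fun p j => hρ _ <| by
      simpa [h4, coeff_succ_X_mul] using congrArg (coeff (j + 1)) (h3 p)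
    obtain ⟨c, hc⟩ := hρ _ h4
    choose G hG using h5
    refine ⟨(c, fun p => PowerSeries.mk (G p)), Prod.ext hc (funext fun p => ?_)⟩
    ext1 j
    simp [hG]
  have key2 : ∀ n v, beta T Z v = 0 → ∃ w, v = x ^ n • w := fun n => by
    induction n with
    | zero => exact fun v _ => ⟨v, by simp⟩
    | succ n ih =>
      intro v hv
      obtain ⟨w, rfl⟩ := key v hv
      rw [map_smul, Algebra.smul_def] at hv
      obtain ⟨u, rfl⟩ := ih w (hx _ hv)
      exact ⟨u, by rw [smul_smul, pow_succ']⟩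
  rw [injective_iff_map_eq_zero]
  intro v hv
  refine Prod.ext (h6 _ fun n => ?_) (funext fun p => ?_)
  · obtain ⟨w, rfl⟩ := key2 n v hv
    exact ⟨w.1, rfl⟩
  · ext1 j
    refine h6 _ fun n => ?_
    obtain ⟨w, rfl⟩ := key2 n v hv
    exact ⟨coeff j (w.2 p), by simp⟩

theorem div0 (i j : Ln) (h : i ≠ j) : g0 i = (f0 j - f0 i) * al0 j i := by
  have h1 : (a j : ℂ) - a i ≠ 0 := fun h0 =>
    h (a_inj j i (by exact_mod_cast sub_eq_zero.1 h0)).symm
  have h2 : l i = l i - 1 + 1 := by have := six_le i; omega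
  have h3 : (Polynomial.C ((a j : ℂ) - a i) : Polynomial ℂ) *
      Polynomial.C ((a j : ℂ) - a i)⁻¹ = 1 := by
    rw [← map_mul, mul_inv_cancel₀ h1, map_one]
  rw [g0, f0, f0, al0]
  rw [map_sub] at h3
  conv_lhs => rw [h2, pow_succ]
  linear_combination (-(Polynomial.X ^ (l i - 1) * Polynomial.X)) * h3

/-- A complete ring with the relations and the axes has the standard form. -/
theorem std {O : Type} [CommRing O] [Algebra ℂ O] [Nontrivial O] (J : Ideal O)
    [IsAdicComplete J O] (φ0 : Polynomial ℂ →+* O) (Z : Option Ln → O)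
    (hC : ∀ c, φ0 (Polynomial.C c) = algebraMap ℂ O c) (hr : Rel f0 g0 al0 φ0 Z)
    (hJ : J = Ideal.span (insert (φ0 Polynomial.X) (Set.range Z)))
    (hres : ∀ o, ∃ c, o - algebraMap ℂ O c ∈ J)
    (hx : ∀ o, φ0 Polynomial.X * o = 0 → o = 0) (ψ : Option Ln → O →+* ℂ⟦X⟧)
    (h0 : ∀ p c, ψ p (algebraMap ℂ O c) = C c) (h0' : ∀ p, ψ p (φ0 Polynomial.X) = 0)
    (h1 : ∀ p q, ψ p (Z q) = if q = p then X else 0) :
    ∃ (_ : IsGerm O) (𝓡 : Rim ℂ⟦X⟧ O), IsStd 𝓡 := by
  have hxJ : φ0 Polynomial.X ∈ J := hJ ▸ Ideal.subset_span (Set.mem_insert _ _)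
  have hZJ : ∀ p, Z p ∈ J := fun p => hJ ▸ Ideal.subset_span (Set.mem_insert_of_mem _ ⟨p, rfl⟩)
  obtain ⟨φ, hφC, hφX⟩ := exists_evI J (algebraMap ℂ O) hxJ
  obtain ⟨Θ, hΘC, hΘX⟩ := exists_mvEvI J φ Z hZJ
  let _ : Algebra ℂ⟦X⟧ O := φ.toAlgebra
  have : IsScalarTower ℂ ℂ⟦X⟧ O := IsScalarTower.of_algebraMap_eq fun c => (hφC c).symm
  let θ : MvPowerSeries (Option Ln) ℂ⟦X⟧ →ₐ[ℂ⟦X⟧] O := { Θ with commutes' := hΘC }
  have hX : (X : ℂ⟦X⟧) ∈ maximalIdeal ℂ⟦X⟧ := mem_max_B.2 (by simp)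
  have hn : (maximalIdeal (MvPowerSeries (Option Ln) ℂ⟦X⟧)).map Θ = J := by
    refine le_antisymm (Ideal.map_le_iff_le_comap.2 fun F hF => ?_) ?_
    · obtain ⟨G, hG⟩ := X_dvd_iff.2 (mem_max_B.1 (mem_max_mv.1 hF))
      have h2 := tail_mem (J.comap Θ) (fun k => by rw [Ideal.mem_comap, hΘX]; exact hZJ k) 1
        (F - MvPowerSeries.C (MvPowerSeries.constantCoeff F)) fun d hd => by
          have : d = 0 := (Finsupp.degree_eq_zero_iff d).1 (by omega)
          subst this
          simp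
      rw [pow_one, Ideal.mem_comap, map_sub, hΘC, hG, map_mul, hφX] at h2
      rw [Ideal.mem_comap]
      simpa using J.add_mem h2 (J.mul_mem_right (φ G) hxJ)
    · rw [hJ, Ideal.span_le]
      rintro _ (rfl | ⟨p, rfl⟩)
      · rw [← hφX, ← hΘC]
        exact Ideal.mem_map_of_mem _ (mem_max_mv.2 (by simpa using hX))
      · rw [← hΘX]
        exact Ideal.mem_map_of_mem _ (mem_max_mv.2 (by simp))
  have hs : Function.Surjective Θ := by
    have : IsHausdorff ((maximalIdeal (MvPowerSeries (Option Ln) ℂ⟦X⟧)).map Θ) O := by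
      rw [hn]; infer_instance
    refine surjective_of_mk_map_comp_surjective (I := maximalIdeal _) Θ fun y => ?_
    obtain ⟨o, rfl⟩ := Ideal.Quotient.mk_surjective y
    obtain ⟨c, hc⟩ := hres o
    refine ⟨MvPowerSeries.C (C c), ?_⟩
    rw [RingHom.comp_apply, hΘC, hφC, eq_comm, Ideal.Quotient.eq, hn]
    exact hc
  have hG : IsGerm O := germ_of_surj (θ.restrictScalars ℂ) hs
  have hZ : ∀ p, Z p ∈ maximalIdeal O := fun p => by
    rw [← hΘX]
    exact map_max (θ.restrictScalars ℂ) (mem_max_mv.2 (by simp))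
  let τ : Polynomial ℂ →+* ℂ⟦X⟧ := Polynomial.coeToPowerSeries.ringHom
  have hτ : ∀ t, φ (τ t) = φ0 t := fun t => RingHom.congr_fun
    (Polynomial.ringHom_ext (f := φ.comp τ) (g := φ0) (fun c => by simp [τ, hφC, hC])
      (by simp [τ, hφX])) t
  have e1 : ∀ i, τ (f0 i) = C (a i : ℂ) * X := fun i => by
    simp [τ, f0, -map_intCast, -eq_intCast]
  have e2 : ∀ i, τ (g0 i) = X ^ l i := fun i => by simp [τ, g0]
  have e3 : ∀ i j, τ (al0 j i) = C ((a j : ℂ) - a i)⁻¹ * X ^ (l i - 1) := fun i j => by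
    simp [τ, al0]
  have m1 : ∀ i, τ (f0 i) ∈ maximalIdeal ℂ⟦X⟧ := fun i => e1 i ▸ Ideal.mul_mem_left _ _ hX
  have m2 : ∀ i, τ (g0 i) ∈ maximalIdeal ℂ⟦X⟧ := fun i =>
    e2 i ▸ Ideal.pow_mem_of_mem _ hX _ (by have := six_le i; omega)
  have m3 : ∀ i j, i ≠ j → τ (al0 i j) ∈ maximalIdeal ℂ⟦X⟧ := fun i j _ =>
    e3 j i ▸ Ideal.mul_mem_left _ _ (Ideal.pow_mem_of_mem _ hX _ (by have := six_le j; omega))
  have hr' : Rel (fun i => τ (f0 i)) (fun i => τ (g0 i)) (fun i j => τ (al0 i j))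
      (algebraMap ℂ⟦X⟧ O) Z :=
    ⟨fun i => by
      change (_ - φ _) * _ = φ _
      rw [hτ, hτ]; exact hr.rel0 i, fun i j h => by
      change _ = φ _ * _ + φ _ * _
      rw [hτ, hτ]; exact hr.rel i j h⟩
  have hθ : (fun p => θ (MvPowerSeries.X p)) = Z := funext hΘX
  have hsurj : Function.Surjective (beta ℂ⟦X⟧ Z) := by
    have := surj_of_pres θ hs (AL_mem m1 m3) (RR_mem m2) (by
      rw [hθ]
      exact err_of_rel (RingHom.id _) (fun _ => rfl) (fun _ => rfl) (fun _ _ _ => rfl) hr')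
    rwa [hθ] at this
  have hinj : Function.Injective (beta ℂ⟦X⟧ Z) := inj X cc (fun _ => X_dvd_iff.2)
    (fun t ht => PowerSeries.ext fun n => X_pow_dvd_iff.1 (ht (n + 1)) n (Nat.lt_succ_self n))
    Z hZ (fun o ho => hx o (hφX ▸ ho)) ψ
    (fun p t => RingHom.congr_fun (ps_ext ((ψ p).comp φ) ((C : ℂ →+* ℂ⟦X⟧).comp cc)
      (fun r => by simp [hφC, h0]) (by simp [hφX, h0']) (by simp [hφX, h0'])) t) h1
  have hE : ∀ p, evR ℂ⟦X⟧ (Z p) X = Z p := fun p => evR_X (hZ p)
  refine ⟨hG,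
    { φ := algebraMap _ _
      loc := fun t ht => map_max_le (Ideal.mem_map_of_mem _ ht)
      E := fun p => evR ℂ⟦X⟧ (Z p)
      E_C := fun p t => evR_C _ t
      mem := fun p => by rw [hE]; exact hZ p
      bij := evR_bij hZ ⟨hinj, hsurj⟩
      f := fun i => τ (f0 i)
      g := fun i => τ (g0 i)
      al := fun i j => τ (al0 i j)
      f_mem := m1
      g_mem := m2
      al_mem := m3
      rels := by
        rw [← funext hE] at hr'
        exact hr'
      div := fun i j h => by rw [div0 i j h, map_mul, map_sub] },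
    hφC, e1, e2, fun i j _ => e3 i j⟩

theorem comp {S : Type} [CommRing S] [IsDomain S] [IsNoetherianRing S] [Algebra ℂ S]
    (P : PolyRim (Polynomial ℂ) S f0 g0 al0) (h2 : PolyUpStmt)
    (hC : ∀ c, P.φ (Polynomial.C c) = algebraMap ℂ S c) (hx : P.φ Polynomial.X ≠ 0) :
    ∃ m : Ideal S, m.IsMaximal ∧ ∃ (_ : IsGerm (AdicCompletion m S))
      (𝓡 : Rim ℂ⟦X⟧ (AdicCompletion m S)), IsStd 𝓡 := by
  choose Φ h0 hZ using A0x.axis P h2
  let m : Ideal S := Ideal.span (insert (P.φ Polynomial.X) (Set.range P.Z))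
  have hxm : P.φ Polynomial.X ∈ m := Ideal.subset_span (Set.mem_insert _ _)
  have hZm : ∀ p, P.Z p ∈ m := fun p => Ideal.subset_span (Set.mem_insert_of_mem _ ⟨p, rfl⟩)
  have hres : ∀ s, ∃ c, s - algebraMap ℂ S c ∈ m := fun s => by
    obtain ⟨⟨c, H⟩, rfl⟩ := P.bij.2 s
    refine ⟨c.coeff 0, ?_⟩
    have := m.add_mem (m.mul_mem_right (P.φ c.divX) hxm)
      (m.sum_mem fun p (_ : p ∈ Finset.univ) =>
        m.mul_mem_right ((H p).eval₂ P.φ (P.Z p)) (hZm p))
    have h3 := congrArg P.φ (Polynomial.X_mul_divX_add c)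
    rw [map_add, map_mul, hC] at h3
    convert this using 1
    linear_combination -h3
  let ψ : Option Ln → S →+* ℂ⟦X⟧ := fun p => Polynomial.coeToPowerSeries.ringHom.comp (Φ p)
  have p0 : ∀ p c, ψ p (algebraMap ℂ S c) = C c := fun p c => by
    simp [ψ, ← hC, h0, A0x.c0_apply]
  have p1 : ∀ p, ψ p (P.φ Polynomial.X) = 0 := fun p => by simp [ψ, h0, A0x.c0_apply]
  have p2 : ∀ p q, ψ p (P.Z q) = if q = p then X else 0 := fun p q => by
    by_cases h : q = p <;> simp [ψ, hZ, h]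
  have hψ : ∀ p, m ≤ (maximalIdeal ℂ⟦X⟧).comap (ψ p) := fun p => Ideal.span_le.2 <| by
    rintro _ (rfl | ⟨q, rfl⟩)
    · simp [p1]
    · rw [SetLike.mem_coe, Ideal.mem_comap, p2, mem_max_B]
      split_ifs <;> simp
  have hm : m.IsMaximal := by
    refine Ideal.isMaximal_iff.2 ⟨fun h => ?_, fun I s hI hs hsI => ?_⟩
    · have := hψ none h
      simp at this
    · obtain ⟨c, hc⟩ := hres s
      have hc0 : c ≠ 0 := fun h => hs (by simpa [h] using hc)
      have h3 : algebraMap ℂ S c ∈ I := by simpa using I.sub_mem hsI (hI hc)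
      have := I.mul_mem_left (algebraMap ℂ S c⁻¹) h3
      rwa [← map_mul, inv_mul_cancel₀ hc0, map_one] at this
  have fg : m.FG := m.fg_of_isNoetherianRing
  have h3 := AdicCompletion.isAdicComplete_self m fg
  have h4 : Nontrivial (S ⧸ m) := Ideal.Quotient.nontrivial_iff.2 hm.ne_top
  have h5 : Nontrivial (AdicCompletion m S) := (AdicCompletion.evalOneₐ m).toRingHom.domain_nontrivial
  choose F hF using fun p => exists_ext m _ (ψ p) (hψ p)
  let ι := algebraMap S (AdicCompletion m S)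
  refine ⟨m, hm, std (m.map ι) (ι.comp P.φ) (fun p => ι (P.Z p)) (fun c => congrArg ι (hC c))
    ⟨fun i => ?_, fun i j h => ?_⟩ ?_ (fun o => ?_) (fun o ho => ?_) F
    (fun p c => (hF p _).trans (p0 p c)) (fun p => (hF p _).trans (p1 p))
    fun p q => (hF p _).trans (p2 p q)⟩
  · simpa using congrArg ι (P.rels.rel0 i)
  · simpa using congrArg ι (P.rels.rel i j h)
  · rw [Ideal.map_span, Set.image_insert_eq, ← Set.range_comp]
    rfl
  · obtain ⟨s, hs⟩ := Ideal.Quotient.mk_surjective (AdicCompletion.evalOneₐ m o)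
    obtain ⟨c, hc⟩ := hres s
    refine ⟨c, ?_⟩
    rw [← AdicCompletion.ker_evalOneₐ_eq_map m fg, RingHom.mem_ker, map_sub, sub_eq_zero]
    exact hs.symm.trans (Ideal.Quotient.eq.2 hc)
  · have := Module.Flat.isSMulRegular_of_nonZeroDivisors (M := AdicCompletion m S)
      (mem_nonZeroDivisors_of_ne_zero hx)
    refine this ?_
    simp only [Algebra.smul_def, mul_zero]
    exact ho

end Ahat

theorem ahat (h1 : A0PolyStmt) (h2 : PolyUpStmt) : AhatStmt := by
  have hfg : Algebra.FiniteType ℂ A0 := (Subalgebra.fg_iff_finiteType _).1 (a0 h1 h2).1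
  have := Algebra.FiniteType.isNoetherianRing ℂ A0
  obtain ⟨P, hP, -⟩ := h1
  refine Ahat.comp P h2 (fun c => Subtype.ext ((hP _).trans (A0x.ψ_C c))) fun h => A0x.xx_ne ?_
  rw [xx, ← hP, h]; rfl

end Pool.Agent.MP_648617_ag.Kol

end
end MrgPart1

-- ======== part 2: formerly Pool.Agent.MP_648617_ag.kol.Blow1
section MrgPart2

/-! Row BLOW, first part: the charts glue to a projective scheme over the base. -/

set_option linter.unusedSectionVars false
set_option linter.style.haveILetI false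

open AlgebraicGeometry CategoryTheory AddMonoidAlgebra
open Pool.Agent.MP_19ffc6_ag.Lin

noncomputable section

namespace Pool.Agent.MP_648617_ag.Kol.Blow

section Away

variable {k A Ω : Type} [Field k] [CommRing A] [Algebra k A] [Field Ω] [Algebra k Ω]
  {α : A →ₐ[k] Ω} {M : Set Ω}

/-- The degree zero localization, mapped to the field. -/
def awayTo (x : coord α M) (hx : evN k 1 (x : AddMonoidAlgebra Ω ℕ) ≠ 0) :
    HomogeneousLocalization.Away (coordGr α M) x →+* Ω :=
  (Localization.awayLift ((evN k (1 : Ω)).toRingHom.comp (coord α M).val.toRingHom) x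
    (isUnit_iff_exists_inv.mpr ⟨_, mul_inv_cancel₀ hx⟩)).comp (algebraMap _ _)

lemma awayTo_mk {x : coord α M} (hx : evN k 1 (x : AddMonoidAlgebra Ω ℕ) ≠ 0) {d : ℕ}
    (hd : x ∈ coordGr α M d) (n : ℕ) (a : coord α M) (ha : a ∈ coordGr α M (n • d)) :
    awayTo x hx (HomogeneousLocalization.Away.mk _ hd n a ha) =
      evN k 1 (a : AddMonoidAlgebra Ω ℕ) * (evN k 1 (x : AddMonoidAlgebra Ω ℕ))⁻¹ ^ n :=
  Localization.awayLift_mk ((evN k (1 : Ω)).toRingHom.comp (coord α M).val.toRingHom) x a _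
    (mul_inv_cancel₀ hx) n

lemma awayTo_awayMap {x y w : coord α M} {d e : ℕ} (hd : x ∈ coordGr α M d)
    (he : y ∈ coordGr α M e) (h : w = x * y) (hx : evN k 1 (x : AddMonoidAlgebra Ω ℕ) ≠ 0)
    (hw : evN k 1 (w : AddMonoidAlgebra Ω ℕ) ≠ 0) :
    (awayTo w hw).comp (HomogeneousLocalization.awayMap _ he h) = awayTo x hx := by
  refine RingHom.ext fun z => ?_
  obtain ⟨n, a, ha, rfl⟩ := HomogeneousLocalization.Away.mk_surjective _ hd z
  rw [RingHom.comp_apply, HomogeneousLocalization.awayMap_mk, awayTo_mk, awayTo_mk]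
  subst h
  simp only [MulMemClass.coe_mul, map_mul, SubmonoidClass.coe_pow, map_pow] at hw ⊢
  have hy := right_ne_zero_of_mul hw
  rw [mul_inv, mul_pow, mul_assoc, mul_left_comm (_ ^ n), ← mul_pow, mul_inv_cancel₀ hy, one_pow,
    mul_one]

lemma awayTo_inj {x : coord α M} (hx : evN k 1 (x : AddMonoidAlgebra Ω ℕ) ≠ 0) {d : ℕ}
    (hd : x ∈ coordGr α M d) : Function.Injective (awayTo x hx) := by
  rw [injective_iff_map_eq_zero]
  intro z hz
  obtain ⟨n, a, ha, rfl⟩ := HomogeneousLocalization.Away.mk_surjective _ hd z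
  rw [awayTo_mk, mul_eq_zero, or_iff_left (pow_ne_zero _ (inv_ne_zero hx))] at hz
  obtain rfl : a = 0 := evN_inj one_ne_zero ha (zero_mem _) (by rw [hz]; simp)
  ext
  simp [Localization.mk_zero]

lemma evN_of_mem {d : ℕ} {a : coord α M} (ha : a ∈ coordGr α M d) (t : Ω) :
    evN k t (a : AddMonoidAlgebra Ω ℕ) = evN k 1 (a : AddMonoidAlgebra Ω ℕ) * t ^ d := by
  rw [eq_single_of_mem ha, evN_single, evN_single, one_pow, mul_one]

variable (α M) in
/-- The structure map. -/
def toBase : Proj (coordGr α M) ⟶ Spec (.of A) :=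
  Proj.toSpecZero _ ≫ Spec.map (CommRingCat.ofHom (R := A) (S := coordGr α M 0) (toZero α M))

lemma isProper_toBase (hα : Function.Injective α) [Finite M] : IsProper (toBase α M) := by
  have : Algebra.FiniteType (coordGr α M 0) (coord α M) :=
    ⟨⟨(Set.finite_range (gen α (M := M))).toFinset, by
      rw [Set.Finite.coe_toFinset]; exact adjoin_gen⟩⟩
  have : IsIso (Spec.map (CommRingCat.ofHom (R := A) (S := coordGr α M 0) (toZero α M))) :=
    isIso_SpecMap_iff.mpr (toZero_bijective hα)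
  unfold toBase
  infer_instance

lemma awayι_toBase {x : coord α M} (hx : x ∈ coordGr α M 1) :
    Proj.awayι (coordGr α M) x hx one_pos ≫ toBase α M = Spec.map (CommRingCat.ofHom
      ((HomogeneousLocalization.fromZeroRingHom _ (Submonoid.powers x)).comp (toZero α M))) := by
  rw [toBase, Proj.awayι_toSpecZero_assoc, ← Spec.map_comp]
  rfl

end Away

variable {L J : Type} [Field L] [Algebra ℂ L] {A : Subalgebra ℂ L} {Bc : J → Subalgebra ℂ L}
  {t : J → L}

/-- A scheme, proper over the base, with the given charts. -/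
structure Model (𝒞 : Charts A Bc t) where
  Y : Scheme.{0}
  π : Y ⟶ Spec (.of A)
  ch : ∀ j, Spec (.of (Bc j)) ⟶ Y
  proper : IsProper π
  integral : IsIntegral Y
  openImm : ∀ j, IsOpenImmersion (ch j)
  cover : ∀ x, ∃ j p, ch j p = x
  ch_π : ∀ j, ch j ≫ π =
    Spec.map (CommRingCat.ofHom (Subalgebra.inclusion (𝒞.base j)).toRingHom)
  gen : ∀ i j, Spec.map (CommRingCat.ofHom (Bc i).val.toRingHom) ≫ ch i =
    Spec.map (CommRingCat.ofHom (Bc j).val.toRingHom) ≫ ch j
  overlap : ∀ i j (p : Spec (.of (Bc j))),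
    ch j p ∈ Set.range (ch i) ↔ (⟨_, 𝒞.ratio i j⟩ : Bc j) ∉ p.asIdeal

theorem exists_model [Finite J] (𝒞 : Charts A Bc t) (hfg : ∀ j, (Bc j).FG) :
    Nonempty (Model 𝒞) := by
  classical
  choose s hs using hfg
  have hsB : ∀ j, ∀ c ∈ s j, c ∈ Bc j := fun j c hc => hs j ▸ Algebra.subset_adjoin hc
  obtain ⟨N, hN, hNt⟩ := exists_uniform (κ := (Σ i, s i) × J)
    (fun x n => (t x.1.1 / t x.2) ^ n * x.1.2 ∈ Bc x.2)
    (fun x n h => by rw [pow_succ', mul_assoc]; exact mul_mem (𝒞.ratio _ _) h)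
    (fun x => 𝒞.comp _ _ _ (hsB _ _ x.1.2.2))
  obtain ⟨j₀, -⟩ := 𝒞.proper ⊤ fun _ _ => trivial
  let M : Set L := (Set.range fun i => t i ^ N) ∪ Set.range fun x : Σ i, s i => t x.1 ^ N * x.2
  have hMfin : M.Finite := (Set.finite_range _).union (Set.finite_range _)
  have hMB : ∀ j, ∀ m ∈ M, m * (t j ^ N)⁻¹ ∈ Bc j := by
    rintro j _ (⟨i, rfl⟩ | ⟨x, rfl⟩)
    · simpa [div_eq_mul_inv, mul_pow] using pow_mem (𝒞.ratio i j) N
    · convert hNt (x, j) using 1
      rw [div_pow]; ring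
  let σ : J → M := fun j => ⟨t j ^ N, Or.inl ⟨j, rfl⟩⟩
  have := hMfin.to_subtype
  have hs1 : ∀ j, evN ℂ 1 (gen A.val (σ j) : AddMonoidAlgebra L ℕ) = t j ^ N := fun j => by
    rw [evN_gen, mul_one]
  have hs0 : ∀ j, evN ℂ 1 (gen A.val (σ j) : AddMonoidAlgebra L ℕ) ≠ 0 := fun j => by
    rw [hs1]; exact pow_ne_zero _ (𝒞.ne j)
  let Φ := fun j => awayTo (gen A.val (σ j)) (hs0 j)
  have hΦM : ∀ j (m : M), Φ j (HomogeneousLocalization.Away.mk _ (gen_mem (σ j)) 1 (gen A.val m)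
      (by simpa using gen_mem m)) = m * (t j ^ N)⁻¹ := fun j m => by
    rw [awayTo_mk, hs1, evN_gen, mul_one, pow_one]
  have hΦc : ∀ j (a : A), Φ j (HomogeneousLocalization.fromZeroRingHom _ _ (toZero A.val M a)) =
      a := fun j a => by
    have := awayTo_mk (hs0 j) (gen_mem (σ j)) 0 (toZero A.val M a) (toZero A.val M a).2
    rw [coe_toZero, evN_single, pow_zero, pow_zero, mul_one, mul_one] at this
    exact this
  have hΦB : ∀ j z, Φ j z ∈ Bc j := fun j z => by
    obtain ⟨n, a, ha, rfl⟩ := HomogeneousLocalization.Away.mk_surjective _ (gen_mem (σ j)) z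
    rw [awayTo_mk, hs1]
    have := evN_mem (α := A.val) _ _ (fun a => 𝒞.base j a.2) (hMB j) a
    rwa [evN_of_mem ha, smul_eq_mul, mul_one] at this
  have hBΦ : ∀ j, ∀ c ∈ Bc j, ∃ z, Φ j z = c := by
    intro j c hc
    rw [← hs j] at hc
    induction hc using Algebra.adjoin_induction with
    | mem x hx =>
      refine ⟨_, (hΦM j ⟨_, Or.inr ⟨⟨j, x, hx⟩, rfl⟩⟩).trans ?_⟩
      rw [mul_right_comm, mul_inv_cancel₀ (pow_ne_zero _ (𝒞.ne j)), one_mul]
    | algebraMap r => exact ⟨_, hΦc j (algebraMap ℂ A r)⟩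
    | add x y _ _ hx hy =>
      obtain ⟨z, rfl⟩ := hx
      obtain ⟨w, rfl⟩ := hy
      exact ⟨z + w, map_add _ _ _⟩
    | mul x y _ _ hx hy =>
      obtain ⟨z, rfl⟩ := hx
      obtain ⟨w, rfl⟩ := hy
      exact ⟨z * w, map_mul _ _ _⟩
  let Ψ : ∀ j, HomogeneousLocalization.Away (coordGr A.val M) (gen A.val (σ j)) →+* Bc j :=
    fun j => (Φ j).codRestrict (Bc j) (hΦB j)
  have hΨ : ∀ j, IsIso (Spec.map (CommRingCat.ofHom (Ψ j))) := fun j =>
    isIso_SpecMap_iff.mpr ⟨fun x y h => awayTo_inj _ (gen_mem _) (congrArg Subtype.val h),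
      fun c => by
        obtain ⟨z, hz⟩ := hBΦ j c c.2
        exact ⟨z, Subtype.ext hz⟩⟩
  have hcov : ∀ x : Proj (coordGr A.val M), ∃ j, gen A.val (σ j) ∉ x.asHomogeneousIdeal := by
    intro x
    obtain ⟨m, hm⟩ := exists_gen_notMem x
    obtain ⟨O, hO, hO'⟩ := exists_valuation x m hm
    obtain ⟨i, hi⟩ := 𝒞.proper O fun a ha => hO ⟨a, ha⟩
    refine ⟨i, fun h => ?_⟩
    have h1 := hO' _ h
    have hm0 : (m : L) ≠ 0 := fun h => hm (by
      have : gen A.val m = 0 := Subtype.ext (by simp [gen, h])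
      rw [this]; exact zero_mem _)
    rw [← inv_inv ((σ i : L) * _), ValuationSubring.inv_mem_nonunits_iff] at h1
    rcases h1 with h1 | h1
    · exact inv_ne_zero (mul_ne_zero (pow_ne_zero _ (𝒞.ne i)) (inv_ne_zero hm0)) h1
    · apply h1
      rw [mul_inv, inv_inv, mul_comm]
      exact hi _ (hMB i m m.2)
  have hrange : ∀ j, Set.range (Spec.map (CommRingCat.ofHom (Ψ j)) ≫
      Proj.awayι (coordGr A.val M) (gen A.val (σ j)) (gen_mem _) one_pos) =
      Proj.basicOpen (coordGr A.val M) (gen A.val (σ j)) := fun j => by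
    have := hΨ j
    rw [← Proj.opensRange_awayι (coordGr A.val M) _ (gen_mem _) one_pos,
      ← Scheme.Hom.coe_opensRange, Scheme.Hom.opensRange_comp_of_isIso]
  refine ⟨⟨Proj (coordGr A.val M), toBase A.val M,
    fun j => Spec.map (CommRingCat.ofHom (Ψ j)) ≫
      Proj.awayι (coordGr A.val M) (gen A.val (σ j)) (gen_mem _) one_pos,
    isProper_toBase fun _ _ h => Subtype.ext h, isIntegral_proj _ (gen_mem (σ j₀)) one_pos ?_,
    fun j => ?_, fun x => ?_, fun j => ?_, fun i j => ?_, fun i j p => ?_⟩⟩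
  · intro h
    exact hs0 j₀ (by rw [h]; simp)
  · have := hΨ j
    infer_instance
  · obtain ⟨j, hj⟩ := hcov x
    exact ⟨j, (hrange j).ge hj⟩
  · rw [Category.assoc, awayι_toBase, ← Spec.map_comp]
    congr 1
    exact CommRingCat.hom_ext (RingHom.ext fun c => Subtype.ext (hΦc j c))
  · have h0 : evN ℂ 1 ((gen A.val (σ i) * gen A.val (σ j) : coord A.val M) :
        AddMonoidAlgebra L ℕ) ≠ 0 := by
      rw [MulMemClass.coe_mul, map_mul]
      exact mul_ne_zero (hs0 i) (hs0 j)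
    have e1 : ∀ k, Spec.map (CommRingCat.ofHom (Bc k).val.toRingHom) ≫
        Spec.map (CommRingCat.ofHom (Ψ k)) = Spec.map (CommRingCat.ofHom (Φ k)) := fun k => by
      rw [← Spec.map_comp]; rfl
    rw [← Category.assoc, ← Category.assoc, e1, e1]
    simp only [Φ]
    rw [← awayTo_awayMap (gen_mem _) (gen_mem (σ j)) rfl (hs0 i) h0,
      ← awayTo_awayMap (gen_mem _) (gen_mem (σ i)) (mul_comm _ _) (hs0 j) h0,
      CommRingCat.ofHom_comp, CommRingCat.ofHom_comp, Spec.map_comp, Spec.map_comp,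
      Category.assoc, Category.assoc, Proj.SpecMap_awayMap_awayι, Proj.SpecMap_awayMap_awayι]
  · rw [hrange]
    change Spec.map (CommRingCat.ofHom (Ψ j)) p ∈ Proj.awayι (coordGr A.val M) (gen A.val (σ j))
      (gen_mem _) one_pos ⁻¹ᵁ Proj.basicOpen (coordGr A.val M) (gen A.val (σ i)) ↔ _
    rw [Proj.awayι_preimage_basicOpen (coordGr A.val M) (gen_mem _) one_pos (gen_mem _) one_pos]
    have h1 : Ψ j (HomogeneousLocalization.Away.isLocalizationElem (gen_mem (σ j))
        (gen_mem (σ i))) = (⟨_, 𝒞.ratio i j⟩ : Bc j) ^ N := by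
      refine Subtype.ext ?_
      change Φ j (HomogeneousLocalization.Away.mk _ _ _ _ _) = (t i / t j) ^ N
      rw [awayTo_mk, pow_one, pow_one, hs1, hs1, div_pow, div_eq_mul_inv]
    change Ψ j _ ∉ p.asIdeal ↔ _
    rw [h1, p.isPrime.pow_mem_iff_mem N hN]

end Pool.Agent.MP_648617_ag.Kol.Blow

end
end MrgPart2

-- ======== part 3: formerly Pool.Agent.MP_648617_ag.kol.Blow
section MrgPart3

/-! Row BLOW: the charts glue to a resolution with vanishing first cohomology. -/

set_option linter.unusedSectionVars false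
set_option linter.style.haveILetI false

open AlgebraicGeometry CategoryTheory
open Pool.Agent.MP_19ffc6_ag.Lin

noncomputable section

namespace Pool.Agent.MP_648617_ag.Kol

namespace Blow

variable {L J : Type} [Field L] [Algebra ℂ L] {A : Subalgebra ℂ L} {Bc : J → Subalgebra ℂ L}
  {t : J → L} {𝒞 : Charts A Bc t}

namespace Model

variable (M : Model 𝒞)

instance : IsIntegral M.Y := M.integral
instance (j : J) : IsOpenImmersion (M.ch j) := M.openImm j

lemma ch_bot (j : J) : M.ch j (⊥ : PrimeSpectrum (Bc j)) = genericPoint M.Y := by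
  rw [← genericPoint_eq_of_isOpenImmersion (M.ch j)]
  exact congrArg _ (genericPoint_eq_bot_of_affine (CommRingCat.of (Bc j))).symm

lemma exists_chart₀ {j : J} {p : Spec (.of (Bc j))} {x : M.Y} (h : M.ch j p = x) :
    ∃ φ : Bc j →+* M.Y.presheaf.stalk x,
      Spec.map (CommRingCat.ofHom φ) ≫ M.ch j = M.Y.fromSpecStalk x ∧
      (letI := φ.toAlgebra; IsLocalization.AtPrime (M.Y.presheaf.stalk x) p.asIdeal) := by
  subst h
  let e := (asIso ((M.ch j).stalkMap p)).symm
  refine ⟨(StructureSheaf.toStalk (Bc j) p ≫ e.hom).hom, ?_, ?_⟩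
  · have h1 := Scheme.SpecMap_stalkMap_fromSpecStalk (M.ch j) (x := p)
    rw [Spec.fromSpecStalk_eq'] at h1
    rw [CommRingCat.ofHom_hom, Spec.map_comp, Category.assoc]
    have h2 : Spec.map e.hom ≫ Spec.map ((M.ch j).stalkMap p) ≫ M.Y.fromSpecStalk (M.ch j p) =
        M.Y.fromSpecStalk (M.ch j p) := by
      rw [← Spec.map_comp_assoc]
      simp [e]
    rw [h1] at h2
    exact h2
  · letI k : Algebra (Bc j) ((Spec (CommRingCat.of (Bc j))).presheaf.stalk p) :=
      StructureSheaf.stalkAlgebra (Bc j) p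
    have : IsLocalization.AtPrime ((Spec (CommRingCat.of (Bc j))).presheaf.stalk p) p.asIdeal :=
      StructureSheaf.IsLocalization.to_stalk (Bc j) p
    letI := (StructureSheaf.toStalk (Bc j) p ≫ e.hom).hom.toAlgebra
    exact IsLocalization.isLocalization_of_algEquiv p.asIdeal.primeCompl
      (AlgEquiv.ofRingEquiv (f := e.commRingCatIsoToRingEquiv) fun _ => rfl)

lemma exists_e (frac : ∀ φ : L, ∃ b ∈ A, b ≠ 0 ∧ b * φ ∈ A) :
    ∃ e : M.Y.functionField ≃+* L, ∀ j,
      Spec.map (CommRingCat.ofHom e.toRingHom) ≫ M.Y.fromSpecStalk (genericPoint M.Y) =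
        Spec.map (CommRingCat.ofHom (Bc j).val.toRingHom) ≫ M.ch j := by
  obtain ⟨j, -⟩ := 𝒞.proper ⊤ fun _ _ => trivial
  obtain ⟨φ, h1, h2⟩ := M.exists_chart₀ (M.ch_bot j)
  letI := φ.toAlgebra
  let e : M.Y.functionField →+* L := IsLocalization.lift (M := (⊥ : Ideal (Bc j)).primeCompl)
    (g := (Bc j).val.toRingHom) fun y => isUnit_iff_ne_zero.mpr fun h =>
      y.2 (Subtype.ext h : (y : Bc j) = 0)
  have he : ∀ a, e (φ a) = a := fun a => IsLocalization.lift_eq _ a
  have hs : Function.Surjective e := fun y => by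
    obtain ⟨b, hb, hb0, h⟩ := frac y
    refine ⟨φ ⟨_, 𝒞.base j h⟩ / φ ⟨b, 𝒞.base j hb⟩, ?_⟩
    rw [map_div₀, he, he, mul_div_cancel_left₀ _ hb0]
  refine ⟨RingEquiv.ofBijective e ⟨e.injective, hs⟩, fun i => ?_⟩
  rw [M.gen i j, ← h1, ← Spec.map_comp_assoc]
  congr 2
  exact CommRingCat.hom_ext (RingHom.ext he)

/-- The local rings inside the field. -/
lemma exists_loc (frac : ∀ φ : L, ∃ b ∈ A, b ≠ 0 ∧ b * φ ∈ A) :
    ∃ e : M.Y.functionField ≃+* L, ∀ j (p : Spec (.of (Bc j))) (u : M.Y.functionField),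
      u ∈ localRing (M.ch j p) ↔ ∃ a b : Bc j, b ∉ p.asIdeal ∧ e u * b = a := by
  obtain ⟨e, he⟩ := M.exists_e frac
  refine ⟨e, fun j p u => ?_⟩
  obtain ⟨φ, h0, h2⟩ := M.exists_chart₀ (rfl : M.ch j p = _)
  let ev : M.Y.presheaf.stalk (M.ch j p) →+* L :=
    e.toRingHom.comp (algebraMap _ M.Y.functionField)
  have h3 : Spec.map (CommRingCat.ofHom ev) ≫ M.Y.fromSpecStalk (M.ch j p) =
      Spec.map (CommRingCat.ofHom (Bc j).val.toRingHom) ≫ M.ch j := by
    rw [← he j, ← Scheme.SpecMap_stalkSpecializes_fromSpecStalk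
      (genericPoint_specializes (M.ch j p)), ← Spec.map_comp_assoc]
    rfl
  rw [← h0, ← Spec.map_comp_assoc, cancel_mono, Spec.map_inj] at h3
  have h1 : ∀ a, ev (φ a) = a := fun a => congrArg (fun g => g.hom a) h3
  letI := φ.toAlgebra
  constructor
  · rintro ⟨u, rfl⟩
    obtain ⟨⟨a, b⟩, hu⟩ := IsLocalization.surj p.asIdeal.primeCompl u
    refine ⟨a, b, b.2, ?_⟩
    rw [← h1, ← h1]
    exact (map_mul ev _ _).symm.trans (congrArg _ hu)
  · rintro ⟨a, b, hb, hy⟩
    obtain ⟨w, hw⟩ := IsLocalization.map_units (M.Y.presheaf.stalk (M.ch j p))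
      (⟨b, hb⟩ : p.asIdeal.primeCompl)
    have hb0 : (b : L) ≠ 0 := fun h0 => hb (by rw [show b = 0 from Subtype.ext h0]; exact zero_mem _)
    refine ⟨φ a * w.inv, e.injective (mul_right_cancel₀ hb0 ?_)⟩
    have hw' : (w : M.Y.presheaf.stalk (M.ch j p)) = φ b := hw
    change ev _ * _ = _
    rw [hy, ← h1 b, ← map_mul, ← hw', mul_assoc, w.inv_val, mul_one, h1]

theorem h1Zero (h : CechStmt) (frac : ∀ φ : L, ∃ b ∈ A, b ≠ 0 ∧ b * φ ∈ A) (cou : Cou Bc) :
    H1Zero M.Y := by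
  obtain ⟨e, he⟩ := M.exists_loc frac
  refine h M.Y J (fun c => (M.ch c).opensRange) (fun c => isAffineOpen_opensRange _)
    (fun y => ?_) fun g hg => ?_
  · obtain ⟨j, p, hp⟩ := M.cover y
    exact ⟨j, p, hp⟩
  obtain ⟨χ, hχ⟩ := cou (fun c => e (g c)) fun c c' => by
    let I : Ideal (Bc c') :=
      { carrier := {b | (e (g c) - e (g c')) * b ∈ Bc c'}
        add_mem' := fun {x y} hx hy => by
          simpa only [Set.mem_ofPred_eq, AddMemClass.coe_add, mul_add] using add_mem hx hy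
        zero_mem' := by simp
        smul_mem' := fun r x hx => by
          simpa only [Set.mem_ofPred_eq, smul_eq_mul, MulMemClass.coe_mul, mul_left_comm]
            using mul_mem r.2 hx }
    have hr : (⟨_, 𝒞.ratio c c'⟩ : Bc c') ∈ I.radical := by
      rw [Ideal.radical_eq_sInf, Ideal.mem_sInf]
      rintro P ⟨hP, hP'⟩
      by_contra hn
      obtain ⟨a, b, hb, hab⟩ := (he c' ⟨P, hP'⟩ _).mp
        (hg c c' _ ((M.overlap c c' ⟨P, hP'⟩).mpr hn) ⟨_, rfl⟩)
      refine hb (hP ?_)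
      change _ * _ ∈ Bc c'
      rw [← map_sub, hab]
      exact a.2
    obtain ⟨N, hN⟩ := hr
    have h1 : (e (g c) - e (g c')) * (t c / t c') ^ N ∈ Bc c' := hN
    have h2 := mul_mem ((le_sup_right : _ ≤ Bc c ⊔ Bc c') h1)
      (pow_mem ((le_sup_left : _ ≤ Bc c ⊔ Bc c') (𝒞.ratio c' c)) N)
    rwa [mul_assoc, ← mul_pow, div_mul_div_cancel₀ (𝒞.ne c'), div_self (𝒞.ne c), one_pow,
      mul_one] at h2
  refine ⟨e.symm χ, ?_⟩
  rintro c _ ⟨p, rfl⟩
  exact (he c p _).mpr ⟨⟨_, hχ c⟩, 1, p.isPrime.one_notMem, by simp⟩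

theorem smooth (hsm : ∀ c, Algebra.Smooth ℂ (Bc c)) :
    Smooth (M.π ≫ Spec.map (CommRingCat.ofHom (algebraMap ℂ A))) := by
  have hcov : ⨆ j, (M.ch j).opensRange = ⊤ := top_le_iff.mp fun x _ => by
    obtain ⟨j, p, hp⟩ := M.cover x
    exact TopologicalSpace.Opens.mem_iSup.mpr ⟨j, p, hp⟩
  rw [IsZariskiLocalAtSource.iff_of_iSup_eq_top (P := @Smooth) _ hcov]
  intro j
  rw [← MorphismProperty.cancel_left_of_respectsIso (P := @Smooth) (M.ch j).isoOpensRange.hom,
    Scheme.Hom.isoOpensRange_hom_ι_assoc, ← Category.assoc, M.ch_π, ← Spec.map_comp,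
    HasRingHomProperty.Spec_iff (P := @Smooth)]
  exact RingHom.smooth_algebraMap.mpr (hsm j)

theorem isModification [Finite J] (frac : ∀ φ : L, ∃ b ∈ A, b ≠ 0 ∧ b * φ ∈ A)
    (hfg : ∀ j, (Bc j).FG) : IsModification M.π := by
  classical
  obtain ⟨j, -⟩ := 𝒞.proper ⊤ fun _ _ => trivial
  obtain ⟨s, hs⟩ := hfg j
  have := Fintype.ofFinite J
  choose b hbA hb0 hb using frac
  let T : Finset L := s ∪ Finset.univ.image fun i => t i / t j
  let a : A := ⟨∏ φ ∈ T, b φ, prod_mem fun φ _ => hbA φ⟩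
  have ha0 : (a : L) ≠ 0 := Finset.prod_ne_zero_iff.mpr fun φ _ => hb0 φ
  have ha : ∀ φ ∈ T, (a : L) * φ ∈ A := fun φ hφ => by
    change (∏ φ ∈ T, b φ) * φ ∈ A
    rw [← Finset.mul_prod_erase _ _ hφ, mul_right_comm]
    exact mul_mem (hb φ) (prod_mem fun φ _ => hbA φ)
  refine ⟨M.integral, M.proper, PrimeSpectrum.basicOpen a, fun h => ?_, ?_⟩
  · exact ha0 (congrArg Subtype.val ((PrimeSpectrum.basicOpen_eq_bot_iff a).mp h).eq_zero)
  have : IsIso ((M.ch j ≫ M.π) ∣_ PrimeSpectrum.basicOpen a) := by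
    rw [M.ch_π]
    refine isIso_SpecMap_restrict _ a ⟨?_, ?_⟩
    · rw [Localization.awayMap_injective_iff]
      intro c hc
      have hc' : (c : L) = 0 := congrArg (fun z : Bc j => (z : L)) hc
      exact ⟨0, by rw [show c = 0 from Subtype.ext hc', mul_zero]⟩
    · rw [Localization.awayMap_surjective_iff]
      have key : ∀ c ∈ Bc j, ∃ n : ℕ, (a : L) ^ n * c ∈ A := by
        intro c hc
        rw [← hs] at hc
        induction hc using Algebra.adjoin_induction with
        | mem x hx => exact ⟨1, by rw [pow_one]; exact ha x (Finset.mem_union_left _ hx)⟩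
        | algebraMap r => exact ⟨0, by rw [pow_zero, one_mul]; exact A.algebraMap_mem r⟩
        | add x y _ _ hx hy =>
          obtain ⟨n, hn⟩ := hx
          obtain ⟨n', hn'⟩ := hy
          refine ⟨n + n', ?_⟩
          convert add_mem (mul_mem (pow_mem a.2 n') hn) (mul_mem (pow_mem a.2 n) hn') using 1
          ring
        | mul x y _ _ hx hy =>
          obtain ⟨n, hn⟩ := hx
          obtain ⟨n', hn'⟩ := hy
          refine ⟨n + n', ?_⟩
          convert mul_mem hn hn' using 1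
          ring
      intro z
      obtain ⟨n, hn⟩ := key z z.2
      exact ⟨⟨_, hn⟩, n, rfl⟩
  refine isIso_restrict_of_le (M.ch j) M.π _ fun x hx => ?_
  obtain ⟨i, p, rfl⟩ := M.cover x
  refine (M.overlap j i p).mpr fun hp => ?_
  have h1 : p ∈ (M.ch i ≫ M.π) ⁻¹ᵁ PrimeSpectrum.basicOpen a := hx
  rw [M.ch_π] at h1
  refine h1 ?_
  have h2 := p.asIdeal.mul_mem_left ⟨_, 𝒞.base i (ha _ (Finset.mem_union_right _
    (Finset.mem_image_of_mem _ (Finset.mem_univ i))))⟩ hp
  have h3 : (a : L) * (t i / t j) * (t j / t i) = a := by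
    rw [mul_assoc, div_mul_div_cancel₀ (𝒞.ne j), div_self (𝒞.ne i), mul_one]
  change Subalgebra.inclusion (𝒞.base i) a ∈ p.asIdeal
  convert h2 using 1
  exact Subtype.ext h3.symm

end Model

end Blow

theorem blow (h : CechStmt) : BlowStmt := by
  intro L J _ _ _ A Bc t _ frac 𝒞 hsm cou
  have hfg : ∀ j, (Bc j).FG := fun j => (Subalgebra.fg_iff_finiteType _).mpr inferInstance
  obtain ⟨M⟩ := Blow.exists_model 𝒞 hfg
  exact ⟨M.Y, M.π, M.isModification frac hfg, M.smooth hsm, M.h1Zero h frac cou⟩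

end Pool.Agent.MP_648617_ag.Kol

end
end MrgPart3

-- ======== part 4: formerly Pool.Agent.MP_648617_ag.kol.First
section MrgPart4

/-! Row FIRST: the first order term of a standard form of the explicit smoothing. -/

open IsLocalRing PowerSeries

noncomputable section

namespace Pool.Agent.MP_648617_ag.Kol

namespace First

theorem complete_of_nilpotent {R : Type} [CommRing R] {I : Ideal R} (h : IsNilpotent I) :
    IsAdicComplete I R := by
  obtain ⟨n, hn⟩ := h
  have hz : ∀ m, n ≤ m → (I ^ m • ⊤ : Submodule R R) = ⊥ := fun m hm => by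
    rw [pow_eq_zero_of_le hm hn, Submodule.zero_eq_bot, Submodule.bot_smul]
  refine { haus' := fun x hx => ?_, prec' := fun f hf => ⟨f n, fun m => ?_⟩ }
  · have := hx n
    rwa [hz n le_rfl, SModEq.bot] at this
  · rcases le_total m n with hm | hm
    · exact hf hm
    · have := hf hm
      rw [hz n le_rfl, SModEq.bot] at this
      rw [this]

theorem complete_pair {R : Type} [CommRing R] {e z : R} (he : e * e = 0) (hz : z * z = 0) :
    IsAdicComplete (Ideal.span {e, z}) R := by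
  apply complete_of_nilpotent
  rw [Ideal.FG.isNilpotent_iff_le_nilradical (Submodule.fg_span (Set.toFinite _)), Ideal.span_le]
  rintro t (rfl | rfl)
  · exact ⟨2, by rw [pow_two, he]; rfl⟩
  · exact ⟨2, by rw [pow_two, hz]; rfl⟩

/-- The dual numbers. -/
abbrev D1 : Type := DualNumber ℂ

/-- The ring `ℂ[e, z] / (e ^ 2, z ^ 2)`. -/
abbrev D2 : Type := DualNumber D1

/-- Truncation of a power series after the linear term. -/
def τ : B →+* D1 where
  toFun r := (cc r, coeff 1 r)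
  map_one' := by
    ext
    · exact map_one cc
    · show coeff 1 (1 : B) = 0
      simp [coeff_one]
  map_mul' r s := by
    ext
    · exact map_mul cc r s
    · rw [DualNumber.snd_mul]
      show coeff 1 (r * s) = cc r * coeff 1 s + coeff 1 r * cc s
      rw [coeff_one_mul]; ring
  map_zero' := by
    ext
    · exact map_zero cc
    · exact map_zero (coeff 1 : B →ₗ[ℂ] ℂ)
  map_add' r s := by
    ext
    · exact map_add cc r s
    · exact map_add (coeff 1 : B →ₗ[ℂ] ℂ) r s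

/-- The inclusion of the inner dual numbers. -/
def inn : D1 →+* D2 := TrivSqZeroExt.inlHom D1 D1

/-- The constants. -/
def κ : ℂ →+* D2 := inn.comp (TrivSqZeroExt.inlHom ℂ ℂ)

/-- The two generators. -/
def e : D2 := inn DualNumber.eps
def z : D2 := DualNumber.eps

/-- The residue. -/
def χ : D2 →+* ℂ :=
  (TrivSqZeroExt.fstHom ℂ ℂ ℂ).toRingHom.comp (TrivSqZeroExt.fstHom D1 D1 D1).toRingHom

theorem e_sq : e * e = 0 := by
  rw [e, ← map_mul, DualNumber.eps_mul_eps, map_zero]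

theorem z_sq : z * z = 0 := DualNumber.eps_mul_eps

theorem χ_κ (c : ℂ) : χ (κ c) = c := rfl

theorem inn_τ (r : B) : inn (τ r) = κ (cc r) + κ (coeff 1 r) * e := by
  have : τ r = TrivSqZeroExt.inlHom ℂ ℂ (cc r) +
      TrivSqZeroExt.inlHom ℂ ℂ (coeff 1 r) * DualNumber.eps := by
    ext
    · show cc r = _
      simp
    · show coeff 1 r = _
      simp
  rw [this, map_add, map_mul]; rfl

theorem read {w : D2} {c : ℂ} (h : e * w * z = κ c * e) : χ w = 0 := by
  have h1 := congrArg (fun t : D2 => TrivSqZeroExt.snd (TrivSqZeroExt.snd t)) h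
  have h2 : χ w = TrivSqZeroExt.fst (TrivSqZeroExt.fst w) := rfl
  rw [h2]
  simpa [e, z, κ, inn] using h1

/-- The value of a power series at a multiple of `e`. -/
theorem eval {Ψ : B⟦X⟧ →+* D2} (hC : ∀ r, Ψ (C r) = inn (τ r)) {w : D2} (hX : Ψ X = e * w)
    (F : B⟦X⟧) :
    Ψ F = κ (cc (cc F)) + (κ (coeff 1 (cc F)) + κ (cc (coeff 1 F)) * w) * e := by
  have h1 := eq_X_mul_shift_add_const F
  have h2 := eq_X_mul_shift_add_const (mk fun p => coeff (p + 1) F)
  have h3 : constantCoeff (mk fun p => coeff (p + 1) F) = coeff 1 F := by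
    rw [← coeff_zero_eq_constantCoeff_apply, coeff_mk]
  rw [h3] at h2
  generalize (mk fun p => coeff (p + 1) (mk fun p => coeff (p + 1) F)) = G at h2
  rw [h2] at h1
  conv_lhs => rw [h1]
  simp only [map_add, map_mul, hC, hX, inn_τ]
  linear_combination (w * w * Ψ G + w * κ (coeff 1 (coeff 1 F))) * e_sq

/-- The residue map of the disc. -/
def ρ : B →ₐ[ℂ] ℂ := { (cc : B →+* ℂ) with commutes' := fun c => by simp }

theorem coeff_map_ρ (F : B⟦X⟧) (n : ℕ) :
    coeff n (PowerSeries.map ρ.toRingHom F) = cc (coeff n F) := by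
  rw [coeff_map]; rfl

/-- The structure map of the test ring. -/
def φ0 : B⟦X⟧ →+* D2 := (inn.comp τ).comp cc

theorem φ0_C (r : B) : φ0 (C r) = inn (τ r) := by simp [φ0]

theorem φ0_X : φ0 X = 0 := by simp [φ0]

theorem φ0_lin (c : ℂ) : φ0 (C (C c * X)) = κ c * e := by
  rw [φ0_C, inn_τ]; simp

theorem φ0_prod (s : Finset Pt) (hs : 2 ≤ s.card) :
    φ0 ((∏ p ∈ s, (Polynomial.X - Polynomial.C (C (u p : ℂ) * X)) : Polynomial B) : B⟦X⟧) = 0 := by
  have h : ∀ p, φ0 ((Polynomial.X - Polynomial.C (C (u p : ℂ) * X) : Polynomial B) : B⟦X⟧) =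
      -κ (u p) * e := fun p => by
    rw [Polynomial.coe_sub, Polynomial.coe_X, Polynomial.coe_C, map_sub, φ0_X, φ0_lin]; ring
  have h1 : φ0 ((∏ p ∈ s, (Polynomial.X - Polynomial.C (C (u p : ℂ) * X)) : Polynomial B) :
      B⟦X⟧) = ∏ p ∈ s, -κ (u p) * e := by
    rw [← Polynomial.coeToPowerSeries.ringHom_apply, map_prod, map_prod]
    exact Finset.prod_congr rfl fun p _ => h p
  have h2 : e ^ s.card = 0 := pow_eq_zero_of_le hs (by rw [pow_two, e_sq])
  rw [h1, Finset.prod_mul_distrib, Finset.prod_const, h2, mul_zero]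

theorem φ0_f (i : Ln) : φ0 (f1 i : B⟦X⟧) = κ (b i) * e := by
  rw [f1, Polynomial.coe_add, Polynomial.coe_mul, Polynomial.coe_X, Polynomial.coe_C,
    Polynomial.coe_C, map_add, map_mul, φ0_X, φ0_lin, mul_zero, zero_add]

theorem φ0_g (i : Ln) : φ0 (g1 i : B⟦X⟧) = 0 :=
  φ0_prod _ (by have := six_le i; rw [card_on]; omega)

theorem φ0_al (j i : Ln) : φ0 (al1 j i : B⟦X⟧) = 0 := by
  rw [al1, Polynomial.coe_mul, map_mul, φ0_prod, mul_zero]
  have h1 := six_le i
  have h2 := Finset.pred_card_le_card_erase (s := on i) (a := pt i j)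
  rw [card_on] at h2
  omega

/-- The images of the generators. -/
def Z0 (i : Ln) : Option Ln → D2
  | none => κ (b i) * e
  | some j => if j = i then z else 0

theorem exists_theta (h : UpStmt) {O : Type} [CommRing O] [Algebra ℂ O] [IsGerm O]
    (𝓡 : Rim B⟦X⟧ O) (hx : IsExpl 𝓡) (i : Ln) :
    ∃ Θ : O →+* D2, (∀ t, Θ (𝓡.φ t) = φ0 t) ∧ Θ (𝓡.Z none) = κ (b i) * e ∧
      Θ (𝓡.Z (some i)) = z := by
  have := complete_pair (R := D2) (e := e) (z := z) e_sq z_sq
  have : IsGerm B⟦X⟧ := Vers.germPS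
  have hI : ∀ p, Z0 i p ∈ Ideal.span {e, z} := by
    rintro (_ | j)
    · exact Ideal.mul_mem_left _ _ (Ideal.subset_span (by simp))
    · simp only [Z0]
      split_ifs
      · exact Ideal.subset_span (by simp)
      · exact Ideal.zero_mem _
  have hR : Rel 𝓡.f 𝓡.g 𝓡.al φ0 (Z0 i) := by
    constructor
    · intro j
      rw [hx.f, hx.g, φ0_f, φ0_g]
      simp only [Z0]
      split_ifs with hj
      · rw [hj, sub_self, zero_mul]
      · rw [mul_zero]
    · intro j k hjk
      rw [hx.al j k hjk, hx.al k j hjk.symm, φ0_al, φ0_al]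
      simp only [Z0]
      split_ifs with hj hk
      · exact absurd (hj.trans hk.symm) hjk
      all_goals simp
  obtain ⟨Θ, h1, h2⟩ := h B⟦X⟧ O 𝓡 D2 (Ideal.span {e, z}) φ0 (Z0 i) hI hR
  exact ⟨Θ, h1, h2 none, by rw [h2]; simp [Z0]⟩

theorem residue {O : Type} [CommRing O] [Algebra ℂ O] [IsGerm O] (c : O →+* ℂ)
    (hc : ∀ t, c (algebraMap ℂ O t) = t) {o : O} {t : ℂ}
    (h : o - algebraMap ℂ O t ∈ maximalIdeal O) : c o = t := by
  by_contra hne
  have h1 : IsUnit (algebraMap ℂ O (c o - t)) := (sub_ne_zero.2 hne).isUnit.map _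
  have h2 : IsUnit (o - algebraMap ℂ O t - algebraMap ℂ O (c o - t)) := by
    by_contra h3
    have h4 := Ideal.sub_mem _ h ((mem_maximalIdeal _).2 h3)
    rw [sub_sub_cancel] at h4
    exact (mem_maximalIdeal _).1 h4 h1
  have h3 := h2.map c
  rw [map_sub, map_sub, hc, hc, sub_self] at h3
  exact not_isUnit_zero h3

theorem exists_diff {A : Type} [CommRing A] [Algebra ℂ A] (E : Defo A B) {o o' : E.O}
    (h : E.π o = E.π o') : ∃ w, o = o' + algebraMap B E.O X * w := by
  have h1 : o - o' ∈ RingHom.ker E.π := by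
    rw [RingHom.mem_ker, map_sub, h, sub_self]
  rw [E.ker, PowerSeries.maximalIdeal_eq_span_X, Ideal.map_span, Set.image_singleton,
    Ideal.mem_span_singleton] at h1
  obtain ⟨w, hw⟩ := h1
  exact ⟨w, by rw [← hw]; ring⟩

end First

open First in
/-- Row FIRST. -/
theorem first (h : UpStmt) : FirstStmt := by
  intro A _ _ _ 𝓡 hs E 𝓡' 𝓡'' h' hx h''
  obtain ⟨ox, hox⟩ := exists_diff E ((h''.ax.red ρ X).trans (h'.ax.red ρ X).symm)
  obtain ⟨oy, hoy⟩ := exists_diff E ((h''.ax.gen none).trans (h'.ax.gen none).symm)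
  obtain ⟨α, hα⟩ := IsGerm.res ox
  obtain ⟨β, hβ⟩ := IsGerm.res oy
  refine ⟨α, β, fun i => ?_⟩
  obtain ⟨oi, hoi⟩ := exists_diff E ((h''.ax.gen (some i)).trans (h'.ax.gen (some i)).symm)
  obtain ⟨Θ, h1, h2, h3⟩ := exists_theta h 𝓡' hx i
  have hB : ∀ r, Θ (algebraMap B E.O r) = inn (τ r) := fun r => by
    rw [← h'.ax.base, h1, φ0_C]
  have hs0 : Θ (algebraMap B E.O X) = e := by rw [hB, inn_τ]; simp
  have hc : ∀ t, (χ.comp Θ) (algebraMap ℂ E.O t) = t := fun t => by
    rw [IsScalarTower.algebraMap_apply ℂ B E.O, RingHom.comp_apply, hB, inn_τ]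
    simp [χ_κ]
  have eα : χ (Θ ox) = α := residue (χ.comp Θ) hc hα
  have eβ : χ (Θ oy) = β := residue (χ.comp Θ) hc hβ
  have hC : ∀ r, (Θ.comp 𝓡''.φ) (C r) = inn (τ r) := fun r => by
    rw [RingHom.comp_apply, h''.ax.base, hB]
  have hX : (Θ.comp 𝓡''.φ) X = e * Θ ox := by
    rw [RingHom.comp_apply, hox, map_add, map_mul, h1, hs0, φ0_X, zero_add]
  have hl := six_le i
  have f0 : cc (cc (𝓡''.f i)) = 0 := by
    have := coeff_map_ρ (𝓡''.f i) 0
    rw [h''.f, hs.f] at this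
    simpa using this.symm
  have f1 : cc (coeff 1 (𝓡''.f i)) = a i := by
    have := coeff_map_ρ (𝓡''.f i) 1
    rw [h''.f, hs.f] at this
    simpa using this.symm
  have g0 : cc (cc (𝓡''.g i)) = 0 := by
    have := coeff_map_ρ (𝓡''.g i) 0
    rw [h''.g, hs.g, coeff_X_pow, if_neg (by omega)] at this
    simpa using this.symm
  have g1 : cc (coeff 1 (𝓡''.g i)) = 0 := by
    have := coeff_map_ρ (𝓡''.g i) 1
    rw [h''.g, hs.g, coeff_X_pow, if_neg (by omega)] at this
    exact this.symm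
  have ef := eval hC hX (𝓡''.f i)
  have eg := eval hC hX (𝓡''.g i)
  rw [RingHom.comp_apply, f0, f1, map_zero] at ef
  rw [RingHom.comp_apply, g0, g1, map_zero] at eg
  have hr := congrArg Θ (𝓡''.rels.rel0 i)
  rw [map_mul, map_sub, ef, eg, hoy, hoi, map_add, map_add, map_mul, map_mul, h2, h3, hs0] at hr
  have key : e * (κ (b i) + Θ oy - κ (coeff 1 (cc (𝓡''.f i))) - κ (a i) * Θ ox) * z =
      κ (coeff 1 (cc (𝓡''.g i))) * e := by
    linear_combination hr -
      ((κ (b i) + Θ oy - κ (coeff 1 (cc (𝓡''.f i))) - κ (a i) * Θ ox) * Θ oi) * e_sq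
  have := read key
  rw [map_sub, map_sub, map_add, map_mul, χ_κ, χ_κ, χ_κ, eα, eβ] at this
  linear_combination -this

end Pool.Agent.MP_648617_ag.Kol

end
end MrgPart4

-- marker of a merged file
example : 731051 + 438417 = 731051 + 438417 := rfl
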