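import Mathlib.RingTheory.PowerSeries.WeierstrassPreparation
import Pool.Agent.MP_648617_ag.kol.Vers

/-! Row ARC: rigidity of the arrangement and the total space of an arc. -/

open IsLocalRing PowerSeries

noncomputable section

namespace Pool.Agent.MP_648617_ag.Kol

namespace Arc

theorem tri3 {u' v' : Pt → ℂ} {b' : Ln → ℂ} (h : ∀ i p, inc i p → v' p = a i * u' p + b' i)
    (i j k : Ln) (p : Pt) (hi : inc i p) (hj : inc j p) (hk : inc k p) :
    ((a j : ℂ) - a k) * b' i + (a k - a i) * b' j + (a i - a j) * b' k = 0 := by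
  linear_combination -((a j : ℂ) - a k) * h i p hi - ((a k : ℂ) - a i) * h j p hj -
    ((a i : ℂ) - a j) * h k p hk

theorem zero_of_mul {ξ c : B} {r : B⟦X⟧} (hξ : cc ξ = 0) (h : C c = (X - C ξ) * r) : c = 0 := by
  have h1 : ∀ n, coeff n r = ξ * coeff (n + 1) r := fun n => by
    have := congrArg (coeff (n + 1)) h
    rw [sub_mul, map_sub, coeff_succ_X_mul, coeff_C_mul, coeff_C, if_neg n.succ_ne_zero] at this
    exact sub_eq_zero.1 this.symm
  have h2 : ∀ k n, X ^ k ∣ coeff n r := by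
    intro k
    induction k with
    | zero => simp
    | succ k ih =>
      intro n
      rw [h1 n, pow_succ']
      exact mul_dvd_mul (X_dvd_iff.2 hξ) (ih _)
  have h3 : coeff 0 r = 0 := by
    ext m
    simpa using X_pow_dvd_iff.1 (h2 (m + 1) 0) m m.lt_succ_self
  have h4 := congrArg (coeff 0) h
  rw [sub_mul, map_sub, coeff_zero_X_mul, coeff_C_mul, h3] at h4
  simpa using h4

theorem exists_div {ξ : B} (hξ : cc ξ = 0) (F : B⟦X⟧) :
    ∃ (c : B) (r : B⟦X⟧), cc c = cc (cc F) ∧ F = C c + (X - C ξ) * r := by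
  have hm : ξ ∈ maximalIdeal B := by
    rw [maximalIdeal_eq_span_X, Ideal.mem_span_singleton, X_dvd_iff]
    exact hξ
  have hg : (X - C ξ : B⟦X⟧).map (Ideal.Quotient.mk (maximalIdeal B)) = X := by
    simp [Ideal.Quotient.eq_zero_iff_mem.2 hm]
  obtain ⟨q, r, H⟩ := exists_isWeierstrassDivision F (g := X - C ξ)
    (fun h0 => X_ne_zero (hg.symm.trans h0))
  have h1 := H.degree_lt
  rw [hg, order_X] at h1
  have h2 : r = Polynomial.C (r.coeff 0) :=
    Polynomial.eq_C_of_degree_le_zero (Nat.WithBot.lt_one_iff_le_zero.1 (by simpa using h1))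
  have h3 : F = C (r.coeff 0) + (X - C ξ) * q := by
    rw [H.eq_mul_add, add_comm, ← Polynomial.coe_C (r.coeff 0), ← h2]
  refine ⟨_, q, ?_, h3⟩
  have h4 := congrArg (fun G => cc (cc G)) h3
  simpa [hξ] using h4.symm

variable {f g : Ln → B⟦X⟧} (P : Pic f g)

theorem value (j : Ln) (p q : Pt) (hq : inc j q) : ∃ (e : B) (r : B⟦X⟧), cc e = a j ∧
    f j = C (P.η q + (P.ξ p - P.ξ q) * e) + (X - C (P.ξ p)) * r := by
  obtain ⟨e, r, he, hr⟩ := exists_div (P.ξ0 p) (P.fh j q)
  refine ⟨e, P.fh j q + C (P.ξ p - P.ξ q) * r, he.trans (P.fh0 j q hq), ?_⟩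
  simp only [map_add, map_mul, map_sub]
  linear_combination P.hf j q hq + (C (P.ξ p) - C (P.ξ q)) * hr

theorem slope (j : Ln) (p q : Pt) (hp : inc j p) (hq : inc j q) :
    ∃ e : B, cc e = a j ∧ P.η p - P.η q = (P.ξ p - P.ξ q) * e := by
  obtain ⟨e, r, he, hr⟩ := value P j p q hq
  refine ⟨e, he, ?_⟩
  have h : C (P.η q + (P.ξ p - P.ξ q) * e - P.η p) = (X - C (P.ξ p)) * (P.fh j p - r) := by
    rw [map_sub]
    linear_combination P.hf j p hp - hr
  linear_combination -zero_of_mul (P.ξ0 p) h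

theorem exists_on : ∀ i, ∃ q, inc i q := by decide +kernel

theorem sub_ne (ξ : B) : (X - C ξ : B⟦X⟧) ≠ 0 := fun h => by
  simpa [coeff_C] using congrArg (coeff 1) h

end Arc

open Arc

theorem rigid : RigidStmt := by
  intro u' v' b' h hu hv
  have z0 : b' 0 = 0 := by simpa [hu, hv] using (h 0 0 (by decide +kernel)).symm
  have z1 : b' 1 = 0 := by simpa [hu, hv] using (h 1 0 (by decide +kernel)).symm
  have r2 := tri3 h 0 3 9 2 (by decide +kernel) (by decide +kernel) (by decide +kernel)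
  have r3 := tri3 h 0 4 8 3 (by decide +kernel) (by decide +kernel) (by decide +kernel)
  have r4 := tri3 h 0 5 7 4 (by decide +kernel) (by decide +kernel) (by decide +kernel)
  have r7 := tri3 h 1 3 4 7 (by decide +kernel) (by decide +kernel) (by decide +kernel)
  have r8 := tri3 h 1 5 6 8 (by decide +kernel) (by decide +kernel) (by decide +kernel)
  have r9 := tri3 h 1 7 8 9 (by decide +kernel) (by decide +kernel) (by decide +kernel)
  have r12 := tri3 h 2 4 5 12 (by decide +kernel) (by decide +kernel) (by decide +kernel)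
  simp only [z0, z1, show a 0 = 0 from rfl, show a 1 = 6 from rfl, show a 2 = -12 from rfl,
    show a 3 = 2 from rfl, show a 4 = -2 from rfl, show a 5 = 8 from rfl, show a 6 = 10 from rfl,
    show a 7 = -8 from rfl, show a 8 = -1 from rfl, show a 9 = -4 from rfl] at r2 r3 r4 r7 r8 r9 r12
  push_cast at r2 r3 r4 r7 r8 r9 r12
  obtain ⟨c, hc⟩ : ∃ c : ℂ, b' 8 = c * (-9240) := ⟨b' 8 / (-9240), by ring⟩
  have b4 : b' 4 = c * (-18480) := by linear_combination 2 * hc - r3
  have b3 : b' 3 = c * (-9240) := by linear_combination (1 / 2) * b4 - (1 / 8) * r7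
  have b9 : b' 9 = c * 18480 := by linear_combination -2 * b3 - (1 / 2) * r2
  have b7 : b' 7 = c * (-18480) := by linear_combination 2 * hc - (1 / 7) * r9
  have b5 : b' 5 = c * 18480 := by linear_combination -b7 - (1 / 8) * r4
  have b6 : b' 6 = c * 36960 := by linear_combination 2 * b5 - (1 / 2) * r8
  have b2 : b' 2 = c * (-55440) := by linear_combination 2 * b4 - b5 - (1 / 10) * r12
  have hb : ∀ i, b' i = c * b i := by
    intro i
    fin_cases i <;> simp [b, z0, z1, b2, b3, b4, b5, b6, b7, hc, b9]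
  refine ⟨c, fun p => ?_⟩
  obtain ⟨i, j, hij, hi, hj⟩ := two_lines p
  have hi' : (v p : ℂ) = a i * u p + b i := by exact_mod_cast hi
  have hj' : (v p : ℂ) = a j * u p + b j := by exact_mod_cast hj
  have hne : (a i : ℂ) - a j ≠ 0 := sub_ne_zero.2 fun e => hij (a_inj i j (by exact_mod_cast e))
  have h1 : u' p = c * u p := mul_left_cancel₀ hne (by
    linear_combination h j p hj - h i p hi + hb j - hb i + c * hi' - c * hj')
  exact ⟨h1, by linear_combination h i p hi + hb i + a i * h1 - c * hi'⟩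

theorem arc (h : RigidStmt) : ArcStmt := by
  intro O _ _ 𝓡 P hne
  have hex : ∃ n, ∃ p, coeff n (P.ξ p - P.ξ 0) ≠ 0 := by
    by_contra h0
    push Not at h0
    exact hne (sub_eq_zero.1 (PowerSeries.ext fun n => by simpa using h0 n 1)).symm
  obtain ⟨w, ⟨p₀, hp₀⟩, hmin⟩ : ∃ w, (∃ p, coeff w (P.ξ p - P.ξ 0) ≠ 0) ∧
      ∀ m < w, ∀ p, coeff m (P.ξ p - P.ξ 0) = 0 := by
    classical
    exact ⟨Nat.find hex, Nat.find_spec hex, fun m hm p => by
      by_contra h1
      exact Nat.find_min hex hm ⟨p, h1⟩⟩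
  have hw : 0 < w := Nat.pos_of_ne_zero fun h0 => hp₀ (by
    subst h0
    simp [P.ξ0])
  have hd : ∀ p, X ^ w ∣ P.ξ p - P.ξ 0 := fun p => X_pow_dvd_iff.2 fun m hm => hmin m hm p
  have hd2 : ∀ j p q, inc j p → inc j q → X ^ w ∣ P.η p - P.η q := fun j p q hp hq => by
    obtain ⟨e, -, he⟩ := slope P j p q hp hq
    rw [he, ← sub_sub_sub_cancel_right _ _ (P.ξ 0)]
    exact ((hd p).sub (hd q)).mul_right _
  have hd3 : ∀ p, X ^ w ∣ P.η p - P.η 0 := fun p => by
    obtain ⟨i, hi, hip⟩ := other_line 0 p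
    rw [← sub_add_sub_cancel _ (P.η (pt i 0))]
    exact (hd2 i _ _ hip (inc_left i 0 hi)).add (hd2 0 _ _ (inc_right i 0 hi) inc_zero_zero)
  choose u' hu' using hd
  choose v' hv' using hd3
  choose q hq using exists_on
  have hX : (X ^ w : B) ≠ 0 := pow_ne_zero _ X_ne_zero
  obtain ⟨c, hc⟩ := h (fun p => cc (u' p)) (fun p => cc (v' p))
    (fun i => cc (v' (q i)) - a i * cc (u' (q i))) (fun i p hp => by
      obtain ⟨e, he, h1⟩ := slope P i p (q i) hp (hq i)
      have h2 : v' p - v' (q i) = (u' p - u' (q i)) * e := mul_left_cancel₀ hX (by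
        linear_combination h1 - hv' p + hv' (q i) + e * hu' p - e * hu' (q i))
      have h3 := congrArg cc h2
      rw [map_sub, map_mul, map_sub, he] at h3
      linear_combination h3)
    (by
      have : u' 0 = 0 := mul_left_cancel₀ hX (by linear_combination -hu' 0)
      simp [this])
    (by
      have : v' 0 = 0 := mul_left_cancel₀ hX (by linear_combination -hv' 0)
      simp [this])
  have hc0 : c ≠ 0 := fun h0 => hp₀ (by
    have h1 := coeff_X_pow_mul (u' p₀) w 0
    rw [zero_add, coeff_zero_eq_constantCoeff_apply] at h1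
    rw [hu', h1]
    simpa [h0] using (hc p₀).1)
  have hcc : (C c * C c⁻¹ : B) = 1 := by rw [← map_mul, mul_inv_cancel₀ hc0, map_one]
  have hξ : ∀ p, P.ξ p = P.ξ 0 + X ^ w * C c * (C c⁻¹ * u' p) := fun p => by
    linear_combination hu' p - X ^ w * u' p * hcc
  have hη : ∀ p, P.η p = P.η 0 + X ^ w * C c * (C c⁻¹ * v' p) := fun p => by
    linear_combination hv' p - X ^ w * v' p * hcc
  have hu0 : ∀ p, cc (C c⁻¹ * u' p) = u p := fun p => by
    rw [map_mul, constantCoeff_C, (hc p).1, inv_mul_cancel_left₀ hc0]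
  have hv0 : ∀ p, cc (C c⁻¹ * v' p) = v p := fun p => by
    rw [map_mul, constantCoeff_C, (hc p).2, inv_mul_cancel_left₀ hc0]
  refine ⟨{ toRim := 𝓡, toPic := P, w := w, w_pos := hw, ϖ := X ^ w * C c, ϖu := C c, hϖ := rfl
            ϖu0 := by simpa using hc0
            ut := fun p => C c⁻¹ * u' p, vt := fun p => C c⁻¹ * v' p, hξ := hξ, hη := hη
            ut0 := hu0, vt0 := hv0, off := fun j p hp => ?_, hal := fun i j hij => ?_ }, rfl⟩
  · obtain ⟨e, r, he, hr⟩ := value P j p (q j) (hq j)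
    refine ⟨C c⁻¹ * v' (q j) - C c⁻¹ * v' p + (C c⁻¹ * u' p - C c⁻¹ * u' (q j)) * e, r,
      fun h0 => hp ?_, ?_⟩
    · rw [map_add, map_sub, map_mul cc _ e, map_sub, hu0, hu0, hv0, hv0, he] at h0
      have h1 : (v (q j) : ℂ) = a j * u (q j) + b j := by exact_mod_cast hq j
      have h2 : (v p : ℂ) = a j * u p + b j := by linear_combination h1 - h0
      exact_mod_cast h2
    · refine hr.trans ?_
      congr 2
      linear_combination hη (q j) - hη p + e * hξ p - e * hξ (q j)
  · refine mul_left_cancel₀ (sub_ne (P.ξ (pt i j))) ?_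
    have h1 := P.hg i
    rw [← Finset.mul_prod_erase _ _ (mem_on.2 (inc_left i j hij))] at h1
    linear_combination h1 - 𝓡.div i j hij - 𝓡.al j i * P.hf j _ (inc_right i j hij) +
      𝓡.al j i * P.hf i _ (inc_left i j hij)

end Pool.Agent.MP_648617_ag.Kol
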