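import Pool.Agent.MP_648617_ag.kol.Vers
import Mathlib.Tactic.FieldSimp
import Pool.Agent.MP_648617_ag.kol.Poly
import Pool.Agent.MP_648617_ag.amp.Ample
import Mathlib.RingTheory.DiscreteValuationRing.TFAE
import Mathlib.RingTheory.Localization.FractionRing
import Mathlib.RingTheory.PowerSeries.NoZeroDivisors
import Mathlib.RingTheory.Ideal.MinimalPrime.Basic
import Mathlib.RingTheory.PowerSeries.WeierstrassPreparation
import Mathlib.RingTheory.Valuation.LocalSubring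
import Mathlib.RingTheory.AlgebraicIndependent.TranscendenceBasis
import Mathlib.RingTheory.Smooth.Basic

-- ======== part 0: formerly Pool.Agent.MP_648617_ag.kol.Cou
section MrgPart0

/-! Row COU: the Cousin problem for the charts. -/

noncomputable section

namespace Pool.Agent.MP_648617_ag.Kol

namespace Cou'

theorem of_tree {L J : Type} [Field L] [Algebra ℂ L] [Finite J] (Bc : J → Subalgebra ℂ L)
    (r : J → ℕ) (h : ∀ c, (∀ c', r c' ≤ r c → c' = c) ∨ ∃ c₀, r c₀ < r c ∧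
      ∀ φ ∈ Bc c ⊔ Bc c₀, ∃ e, φ - e ∈ Bc c ∧ ∀ c', c' ≠ c → r c' ≤ r c → e ∈ Bc c') :
    Cou Bc := by
  classical
  intro g hg
  have := Fintype.ofFinite J
  have key : ∀ S : Finset J, (∀ c ∈ S, ∀ c', r c' < r c → c' ∈ S) →
      ∃ χ, ∀ c ∈ S, χ - g c ∈ Bc c := by
    intro S
    induction S using Finset.induction_on_max_value r with
    | empty => exact fun _ => ⟨0, fun c hc => absurd hc (Finset.notMem_empty c)⟩
    | insert c S hc hmax ih =>
      intro hS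
      have hS' : ∀ c₁ ∈ S, ∀ c', r c' < r c₁ → c' ∈ S := fun c₁ h₁ c' h' =>
        (Finset.mem_insert.mp (hS c₁ (Finset.mem_insert_of_mem h₁) c' h')).resolve_left
          fun e => by have := hmax c₁ h₁; rw [e] at h'; omega
      obtain ⟨χ, hχ⟩ := ih hS'
      rcases h c with h1 | ⟨c₀, h0, h1⟩
      · refine ⟨g c, fun c' hc' => ?_⟩
        rcases Finset.mem_insert.mp hc' with rfl | hc'
        · rw [sub_self]; exact zero_mem _
        · exact absurd (h1 c' (hmax c' hc') ▸ hc') hc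
      · have hc₀ : c₀ ∈ S := (Finset.mem_insert.mp
          (hS c (Finset.mem_insert_self _ _) c₀ h0)).resolve_left
            fun e => by rw [e] at h0; omega
        have h2 : χ - g c ∈ Bc c ⊔ Bc c₀ := by
          have h3 : χ - g c = (χ - g c₀) - (g c - g c₀) := by ring
          rw [h3]
          exact sub_mem ((le_sup_right : Bc c₀ ≤ _) (hχ c₀ hc₀)) (hg c c₀)
        obtain ⟨e, he, he'⟩ := h1 _ h2
        refine ⟨χ - e, fun c' hc' => ?_⟩
        rw [sub_right_comm]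
        rcases Finset.mem_insert.mp hc' with rfl | hc'
        · exact he
        · exact sub_mem (hχ c' hc') (he' c' (fun e => hc (e ▸ hc')) (hmax c' hc'))
  obtain ⟨χ, hχ⟩ := key Finset.univ fun _ _ _ _ => Finset.mem_univ _
  exact ⟨χ, fun c => hχ c (Finset.mem_univ c)⟩

/-- Principal parts along `p = 0`. -/
theorem split {L : Type} [Field L] [Algebra ℂ L] (G : Set L) (E B₀ : Subalgebra ℂ L) (p : L)
    (hp : p ≠ 0) (hpB : p ∈ Algebra.adjoin ℂ G) (hu : p⁻¹ ∈ E)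
    (hG : ∀ z ∈ G, ∃ s ∈ E, s ∈ Algebra.adjoin ℂ G ∧ ∃ b ∈ Algebra.adjoin ℂ G, z = s + p * b)
    (h₀ : B₀ ≤ Algebra.adjoin ℂ G ⊔ Algebra.adjoin ℂ {p⁻¹}) :
    ∀ φ ∈ Algebra.adjoin ℂ G ⊔ B₀, ∃ e ∈ E, φ - e ∈ Algebra.adjoin ℂ G := by
  set Bc := Algebra.adjoin ℂ G with hBc
  have h1 : ∀ z ∈ Bc, ∃ s ∈ E, s ∈ Bc ∧ ∃ b ∈ Bc, z = s + p * b := by
    intro z hz
    induction hz using Algebra.adjoin_induction with
    | mem z hz => exact hG z hz
    | algebraMap c =>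
      exact ⟨_, E.algebraMap_mem c, Bc.algebraMap_mem c, 0, zero_mem _, by ring⟩
    | add z z' _ _ ih ih' =>
      obtain ⟨s, hs, hs', b, hb, rfl⟩ := ih
      obtain ⟨t, ht, ht', d, hd, rfl⟩ := ih'
      exact ⟨s + t, add_mem hs ht, add_mem hs' ht', b + d, add_mem hb hd, by ring⟩
    | mul z z' _ _ ih ih' =>
      obtain ⟨s, hs, hs', b, hb, rfl⟩ := ih
      obtain ⟨t, ht, ht', d, hd, rfl⟩ := ih'
      exact ⟨s * t, mul_mem hs ht, mul_mem hs' ht', b * t + s * d + p * b * d,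
        add_mem (add_mem (mul_mem hb ht') (mul_mem hs' hd)) (mul_mem (mul_mem hpB hb) hd), by ring⟩
  have h2 : ∀ (N : ℕ), ∀ z ∈ Bc, ∃ e ∈ E, p⁻¹ ^ N * z - e ∈ Bc := by
    intro N
    induction N with
    | zero => exact fun z hz => ⟨0, zero_mem _, by simpa using hz⟩
    | succ N ih =>
      intro z hz
      obtain ⟨s, hs, -, b, hb, rfl⟩ := h1 z hz
      obtain ⟨e, he, he'⟩ := ih b hb
      refine ⟨p⁻¹ ^ (N + 1) * s + e, add_mem (mul_mem (pow_mem hu _) hs) he, ?_⟩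
      convert he' using 1
      simp only [inv_pow]
      field_simp
      ring
  have h3 : ∀ φ ∈ Bc ⊔ Algebra.adjoin ℂ {p⁻¹}, ∃ N : ℕ, ∃ z ∈ Bc, φ = p⁻¹ ^ N * z := by
    intro φ hφ
    rw [hBc, ← Algebra.adjoin_union] at hφ
    induction hφ using Algebra.adjoin_induction with
    | mem z hz =>
      rcases hz with hz | rfl
      · exact ⟨0, z, Algebra.subset_adjoin hz, by ring⟩
      · exact ⟨1, 1, one_mem _, by ring⟩
    | algebraMap c => exact ⟨0, _, Bc.algebraMap_mem c, by ring⟩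
    | add z z' _ _ ih ih' =>
      obtain ⟨N, b, hb, rfl⟩ := ih
      obtain ⟨M, d, hd, rfl⟩ := ih'
      refine ⟨N + M, p ^ M * b + p ^ N * d,
        add_mem (mul_mem (pow_mem hpB _) hb) (mul_mem (pow_mem hpB _) hd), ?_⟩
      simp only [inv_pow]
      field_simp
      ring
    | mul z z' _ _ ih ih' =>
      obtain ⟨N, b, hb, rfl⟩ := ih
      obtain ⟨M, d, hd, rfl⟩ := ih'
      exact ⟨N + M, b * d, mul_mem hb hd, by ring⟩
  intro φ hφ
  obtain ⟨N, z, hz, rfl⟩ := h3 φ (sup_le le_sup_left h₀ hφ)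
  exact h2 N z hz

theorem inj : Function.Injective (algebraMap (Polynomial (Polynomial ℂ)) KK) :=
  IsFractionRing.injective _ _

theorem xx_ne : xx ≠ 0 := by
  intro h
  have h1 : (Polynomial.C Polynomial.X : Polynomial (Polynomial ℂ)) = 0 :=
    inj (h.trans (map_zero _).symm)
  exact Polynomial.X_ne_zero (Polynomial.C_eq_zero.mp h1)

theorem vv_ne (i : Ln) : vv i ≠ 0 := by
  intro h
  have h1 : yy = a i * xx := by
    rw [vv, sub_eq_zero, div_eq_iff xx_ne] at h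
    exact h
  have h2 : (Polynomial.X : Polynomial (Polynomial ℂ)) =
      Polynomial.C ((a i : Polynomial ℂ) * Polynomial.X) := by
    apply inj
    rw [map_mul, map_mul, map_intCast, map_intCast]
    exact h1
  exact Polynomial.X_ne_C _ h2

theorem yy_eq (i : Ln) : yy = xx * (vv i + a i) := by
  rw [vv, sub_add_cancel, mul_div_cancel₀ _ xx_ne]

theorem vv_zero : vv 0 = yy / xx := by rw [vv, a_zero, Int.cast_zero, sub_zero]

theorem yy_ne : yy ≠ 0 := fun h => vv_ne 0 (by rw [vv_zero, h, zero_div])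

theorem vv_eq (i j : Ln) : vv j = vv i + (a i - a j : ℤ) := by
  rw [vv, vv]; push_cast; ring

theorem w_eq : xx / yy = (vv 0)⁻¹ := by rw [vv_zero, inv_div]

theorem loc_eq (j : Ln) : (1 - a j * (xx / yy))⁻¹ = vv 0 * (vv j)⁻¹ := by
  have h : 1 - a j * (xx / yy) = vv j / vv 0 := by
    have h1 := xx_ne
    have h2 := yy_ne
    rw [vv_zero, vv]
    field_simp
  rw [h, inv_div, div_eq_mul_inv]

theorem p_mem (i : Ln) (k : Fin (l i - 1)) : vv i / xx ^ k.1 ∈ ch (some ⟨i, k⟩) :=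
  Algebra.subset_adjoin (Or.inl (Or.inl rfl))

theorem q_mem (i : Ln) (k : Fin (l i - 1)) : xx ^ (k.1 + 1) / vv i ∈ ch (some ⟨i, k⟩) :=
  Algebra.subset_adjoin (Or.inl (Or.inr rfl))

theorem inv_mem' (i : Ln) (k : Fin (l i - 1)) (j : Ln) (h : j ≠ i) :
    (vv j)⁻¹ ∈ ch (some ⟨i, k⟩) :=
  Algebra.subset_adjoin (Or.inr ⟨j, h, rfl⟩)

theorem xx_mem : ∀ c, xx ∈ ch c
  | none => by
    have h : xx = yy * (xx / yy) := (mul_div_cancel₀ _ yy_ne).symm
    rw [h]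
    exact mul_mem (Algebra.subset_adjoin (Or.inl (Or.inl rfl)))
      (Algebra.subset_adjoin (Or.inl (Or.inr rfl)))
  | some ⟨i, k⟩ => by
    have h : vv i / xx ^ k.1 * (xx ^ (k.1 + 1) / vv i) = xx := by
      have h1 := xx_ne
      have h2 := vv_ne i
      field_simp
      ring
    exact h ▸ mul_mem (p_mem i k) (q_mem i k)

theorem vv_mem (i : Ln) (k : Fin (l i - 1)) (j : Ln) : vv j ∈ ch (some ⟨i, k⟩) := by
  have h : vv i = vv i / xx ^ k.1 * xx ^ k.1 := (div_mul_cancel₀ _ (pow_ne_zero _ xx_ne)).symm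
  rw [vv_eq i j, h]
  exact add_mem (mul_mem (p_mem i k) (pow_mem (xx_mem _) _)) (intCast_mem _ _)

theorem inv_none (i : Ln) : (vv i)⁻¹ ∈ ch none := by
  have h : (vv i)⁻¹ = xx / yy * (1 - a i * (xx / yy))⁻¹ := by
    rw [loc_eq, w_eq, ← mul_assoc, inv_mul_cancel₀ (vv_ne 0), one_mul]
  rw [h]
  exact mul_mem (Algebra.subset_adjoin (Or.inl (Or.inr rfl)))
    (Algebra.subset_adjoin (Or.inr ⟨i, rfl⟩))

/-- The depth of a chart. -/
def rk : Option ((i : Ln) × Fin (l i - 1)) → ℕ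
  | none => 0
  | some ⟨_, k⟩ => k.1 + 1

theorem u_mem (i : Ln) (k : Fin (l i - 1)) :
    ∀ c, c ≠ some ⟨i, k⟩ → rk c ≤ k.1 + 1 → (vv i / xx ^ k.1)⁻¹ ∈ ch c
  | none => fun _ _ => by
    rw [inv_div, div_eq_mul_inv]
    exact mul_mem (pow_mem (xx_mem _) _) (inv_none i)
  | some ⟨j, m⟩ => fun h1 h2 => by
    by_cases hj : i = j
    · subst hj
      have h3 : m.1 ≠ k.1 := fun e => h1 (by rw [Fin.ext e])
      have h4 : m.1 + 1 ≤ k.1 := by
        have : m.1 + 1 ≤ k.1 + 1 := h2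
        omega
      obtain ⟨n, hn⟩ := Nat.exists_eq_add_of_le h4
      rw [inv_div, hn, pow_add, mul_div_right_comm]
      exact mul_mem (q_mem i m) (pow_mem (xx_mem _) _)
    · rw [inv_div, div_eq_mul_inv]
      exact mul_mem (pow_mem (xx_mem _) _) (inv_mem' j m i hj)

theorem step (i : Ln) (k : Fin (l i - 1)) (B₀ : Subalgebra ℂ KK)
    (h₀ : B₀ ≤ ch (some ⟨i, k⟩) ⊔ Algebra.adjoin ℂ {(vv i / xx ^ k.1)⁻¹}) :
    ∀ φ ∈ ch (some ⟨i, k⟩) ⊔ B₀, ∃ e, φ - e ∈ ch (some ⟨i, k⟩) ∧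
      ∀ c, c ≠ some ⟨i, k⟩ → rk c ≤ rk (some ⟨i, k⟩) → e ∈ ch c := by
  intro φ hφ
  have hx : xx ∈ Algebra.adjoin ℂ {xx, (vv i / xx ^ k.1)⁻¹} := Algebra.subset_adjoin (Or.inl rfl)
  have hu : (vv i / xx ^ k.1)⁻¹ ∈ Algebra.adjoin ℂ {xx, (vv i / xx ^ k.1)⁻¹} :=
    Algebra.subset_adjoin (Or.inr rfl)
  refine (split _ _ B₀ (vv i / xx ^ k.1) (div_ne_zero (vv_ne i) (pow_ne_zero _ xx_ne))
    (p_mem i k) hu ?_ h₀ φ hφ).imp fun e he => ⟨he.2, fun c h1 h2 => ?_⟩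
  swap
  · refine (Algebra.adjoin_le ?_ : _ ≤ ch c) he.1
    rintro _ (rfl | rfl)
    · exact xx_mem c
    · exact u_mem i k c h1 h2
  · rintro _ ((rfl | rfl) | ⟨j, hj, rfl⟩)
    · exact ⟨0, zero_mem _, zero_mem _, 1, one_mem _, by ring⟩
    · refine ⟨_, ?_, q_mem i k, 0, zero_mem _, by ring⟩
      rw [pow_succ, mul_div_right_comm, ← inv_div (vv i)]
      exact mul_mem hu hx
    · have hd : ((a i - a j : ℤ) : ℂ) ≠ 0 :=
        Int.cast_ne_zero.mpr (sub_ne_zero.mpr fun e => hj (a_inj _ _ e).symm)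
      refine ⟨algebraMap ℂ KK ((a i - a j : ℤ) : ℂ)⁻¹, Subalgebra.algebraMap_mem _ _,
        Subalgebra.algebraMap_mem _ _,
        -(algebraMap ℂ KK ((a i - a j : ℤ) : ℂ)⁻¹ * xx ^ k.1 * (vv j)⁻¹),
        neg_mem (mul_mem (mul_mem (Subalgebra.algebraMap_mem _ _)
          (pow_mem (xx_mem (some ⟨i, k⟩)) _)) (inv_mem' i k j hj)), ?_⟩
      have hd' : ((a i - a j : ℤ) : KK) ≠ 0 := by
        rw [← map_intCast (algebraMap ℂ KK)]
        exact (map_ne_zero _).mpr hd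
      have h1 := xx_ne
      have h2 := vv_ne j
      have h3 := vv_eq i j
      rw [map_inv₀, map_intCast]
      generalize ((a i - a j : ℤ) : KK) = d at hd' h3
      field_simp
      linear_combination -h3

end Cou'

open Cou' in
theorem cou : CouStmt := by
  refine of_tree ch rk fun c => ?_
  rcases c with _ | ⟨i, k, hk⟩
  · refine Or.inl fun c' h => ?_
    rcases c' with _ | ⟨j, m⟩
    · rfl
    · exact absurd h (Nat.not_succ_le_zero _)
  · have hl : ∀ z ∈ ch (some ⟨i, k, hk⟩), z ∈ ch (some ⟨i, k, hk⟩) ⊔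
        Algebra.adjoin ℂ {(vv i / xx ^ k)⁻¹} := fun z hz => (le_sup_left : ch _ ≤ _) hz
    have hu : (vv i / xx ^ k)⁻¹ ∈ ch (some ⟨i, k, hk⟩) ⊔ Algebra.adjoin ℂ {(vv i / xx ^ k)⁻¹} :=
      (le_sup_right : Algebra.adjoin ℂ _ ≤ _) (Algebra.subset_adjoin rfl)
    rcases k with _ | k
    · refine Or.inr ⟨none, Nat.zero_lt_one, step i _ _ (Algebra.adjoin_le ?_)⟩
      have hv : ∀ j, (vv j)⁻¹ ∈ ch (some ⟨i, 0, hk⟩) ⊔ Algebra.adjoin ℂ {(vv i / xx ^ 0)⁻¹} := by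
        intro j
        by_cases hj : j = i
        · have h : (vv j)⁻¹ = (vv i / xx ^ 0)⁻¹ := by rw [hj, pow_zero, div_one]
          rw [h]; exact hu
        · exact hl _ (inv_mem' i _ j hj)
      rintro _ ((rfl | rfl) | ⟨j, rfl⟩)
      · refine hl _ ?_
        rw [yy_eq i]
        exact mul_mem (xx_mem _) (add_mem (vv_mem i _ i) (intCast_mem _ _))
      · rw [w_eq]; exact hv 0
      · change (1 - a j * (xx / yy))⁻¹ ∈ _
        rw [loc_eq]
        exact mul_mem (hl _ (vv_mem i _ 0)) (hv j)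
    · refine Or.inr ⟨some ⟨i, k, by omega⟩, Nat.lt_succ_self _,
        step i _ _ (Algebra.adjoin_le ?_)⟩
      rintro _ ((rfl | rfl) | ⟨j, hj, rfl⟩)
      · refine hl _ ?_
        have h : vv i / xx ^ k = vv i / xx ^ (k + 1) * xx := by
          have h1 := xx_ne
          field_simp
          ring
        change vv i / xx ^ k ∈ _
        rw [h]
        exact mul_mem (p_mem i ⟨k + 1, hk⟩) (xx_mem _)
      · change xx ^ (k + 1) / vv i ∈ _
        rw [← inv_div (vv i)]; exact hu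
      · exact hl _ (inv_mem' i _ j hj)

end Pool.Agent.MP_648617_ag.Kol

end
end MrgPart0

-- ======== part 1: formerly Pool.Agent.MP_648617_ag.kol.Main
section MrgPart1

/-! PROJECT KOL: assembly. -/

open AlgebraicGeometry CategoryTheory IsLocalRing PowerSeries

noncomputable section

namespace Pool.Agent.MP_648617_ag.Kol

/-- Row MINI: a miniversal deformation exists as soon as a versal one does. -/
def MiniStmt : Prop :=
  ∀ (A : Type) [CommRing A] [Algebra ℂ A] (R : Type) [CommRing R] [Algebra ℂ R] [IsGerm R]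
    (D : Defo A R), D.IsVersal →
    ∃ (R' : Type) (_ : CommRing R') (_ : Algebra ℂ R') (_ : IsGerm R') (D' : Defo A R'),
      D'.IsMiniversal

/-- The negative answer, for every versal deformation. -/
def MainStmt : Prop :=
  ∃ (A₀ : Type) (_ : CommRing A₀) (_ : Algebra ℂ A₀) (m : Ideal A₀),
    IsRationalSurface A₀ ∧ m.IsMaximal ∧
    (∃ (R : Type) (_ : CommRing R) (_ : Algebra ℂ R) (_ : IsGerm R)
      (D : Defo (AdicCompletion m A₀) R), D.IsVersal) ∧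
    ∀ (R : Type) [CommRing R] [Algebra ℂ R] [IsGerm R] (D : Defo (AdicCompletion m A₀) R),
      D.IsVersal → ∃ q ∈ minimalPrimes R, ∀ (U : Scheme.{0}) [IsIntegral U]
        (f : U ⟶ Spec (.of (AdicCompletion m A₀))), IsPModification f → ¬Parametrizes f D q

theorem rational (hA : A0Stmt) (hB : BlowStmt) (hC : ChartStmt) (hS : SmoothStmt) (hU : CouStmt) :
    IsRationalSurface A0 :=
  ⟨(Subalgebra.fg_iff_finiteType _).1 hA.1, inferInstance, hA.2.2.1, hA.2.2.2,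
    hB KK _ A0 ch tt hA.1 hA.2.1 hC hS hU⟩

theorem twoFields {O K : Type} [CommRing O] [IsLocalRing O] [Field K] {𝒞 : Core O} {ι : O →+* K}
    {dx dy : Derivation ℤ K K} (h : Fields 𝒞 ι dx dy) : TwoFields 𝒞.β ι :=
  ⟨_, _, dx, dy, h.fx, h.fy, h.xx, h.xy, h.yx, h.yy, fun D hD k => by
    conv_lhs => rw [h.span D hD]
    simp⟩

/-- No arc with a non-degenerate picture is the blow-down of a `ℚ`-Gorenstein smoothing. -/
theorem no_smoothing (hAmp : AmpAPI) (hRad : RadStmt) (hArc : ArcStmt) (hDer : DerStmt)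
    (hMod : ModelStmt) (hCore : CoreStmt) {A : Type} [CommRing A] [Algebra ℂ A] [IsGerm A]
    (𝓡 : Rim ℂ⟦X⟧ A) (E : Defo A B) (𝓡' : Rim B⟦X⟧ E.O) (hL : Lifts E 𝓡 𝓡')
    (P : Pic 𝓡'.f 𝓡'.g) (hP : P.ξ 0 ≠ P.ξ 1) {U : Scheme.{0}} [IsIntegral U]
    (f : U ⟶ Spec (.of A)) (hf : IsModification f) (hΓ : IsIso f.appTop) :
    ¬IsQGSmoothing f E := by
  rintro ⟨W, _, F, j, pb, hF, hΓ', -, hn, -, hq, ha⟩
  obtain ⟨𝒞, rfl⟩ := hArc E.O 𝓡' P hP
  have hβ : 𝒞.β = algebraMap B E.O := RingHom.ext hL.ax.base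
  have : IsDomain A := Amp.isDomain_base f
  have : IsDomain E.O := Amp.isDomain_base F
  obtain ⟨V, hV, hiso⟩ := hF.2.2
  have hfr : IsFrac (toField F) := Amp.frac F V hV
  obtain ⟨dx, dy, hd⟩ := hDer E.O 𝒞 _ _ hfr
  have hs := hAmp A (hRad A ⟨𝓡⟩) E U f hf hΓ W F j pb hF hΓ' hn hq ha (hβ ▸ twoFields hd)
  refine hCore E.O 𝒞 _ _ hfr (hβ ▸ hMod A E U f W F j pb hΓ hF hΓ' hn hs 𝒞.x fun h => ?_)
  rw [Core.x, hL.ax.red (Vers.res B), map_X] at h
  exact X_ne_zero (𝓡.toAxes.φ_inj (h.trans (map_zero _).symm))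

theorem main (hA : A0Stmt) (hB : BlowStmt) (hC : ChartStmt) (hS : SmoothStmt) (hU : CouStmt)
    (hHat : AhatStmt) (hVers : VersStmt) (hE0 : E0Stmt) (hStd : StdStmt) (hPush : PushStmt)
    (hFirst : FirstStmt) (hPat : PatStmt) (hAmp : AmpAPI) (hRad : RadStmt) (hArc : ArcStmt)
    (hDer : DerStmt) (hMod : ModelStmt) (hCore : CoreStmt) : MainStmt := by
  obtain ⟨m, hm, _, 𝓡, h𝓡⟩ := hHat
  refine ⟨A0, inferInstance, inferInstance, m, rational hA hB hC hS hU, hm, hVers _ 𝓡 h𝓡,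
    fun R _ _ _ D hD => ?_⟩
  obtain ⟨E₀, 𝓡₀, hL₀, hX, hv⟩ := hE0 _ 𝓡 h𝓡
  obtain ⟨γ₀⟩ := hv R D hD
  obtain ⟨𝓓, hL⟩ := hStd _ R D 𝓡 h𝓡.base
  obtain ⟨𝓡₁, hL₁, hf₁, -, -⟩ := hPush _ R B D E₀ γ₀ 𝓡 𝓓 h𝓡.base hL
  obtain ⟨α, β, h1⟩ := hFirst _ 𝓡 h𝓡 E₀ 𝓡₀ 𝓡₁ hL₀ hX hL₁
  obtain ⟨q, hq, δ, hδ, H⟩ := hPat R 𝓓.f 𝓓.g 𝓓.al 𝓓.div (fun ρ i => (hL.f ρ i).trans (h𝓡.f i))
    (fun ρ i => (hL.g ρ i).trans (h𝓡.g i)) γ₀.base α β fun i => by
      rw [← h1 i, hf₁, ← coeff_zero_eq_constantCoeff_apply (PowerSeries.map _ _), coeff_map,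
        coeff_zero_eq_constantCoeff_apply]
      rfl
  refine ⟨q, hq, fun U _ f hf hpar => ?_⟩
  obtain ⟨E, γ, hE, hγ, hγδ⟩ := hpar δ hδ
  obtain ⟨𝓡₂, hL₂, hf₂, hg₂, -⟩ := hPush _ R B D E γ 𝓡 𝓓 h𝓡.base hL
  have := H γ.base hγ hγδ
  rw [← funext hf₂, ← funext hg₂] at this
  obtain ⟨P, hP⟩ := this
  exact no_smoothing hAmp hRad hArc hDer hMod hCore 𝓡 E 𝓡₂ hL₂ P hP f hf.1 hf.2.1 hE

end Pool.Agent.MP_648617_ag.Kol

end
end MrgPart1

-- ======== part 2: formerly Pool.Agent.MP_648617_ag.kol.Model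
section MrgPart2

/-! PROJECT KOL, row MODEL: from the scheme to its family of valuation rings. -/

open AlgebraicGeometry CategoryTheory IsLocalRing PowerSeries

noncomputable section

namespace Pool.Agent.MP_648617_ag.Kol

namespace Model

open Amp

theorem valRing (R : Type) [CommRing R] [IsDomain R] [IsNoetherianRing R] [IsLocalRing R]
    [IsIntegrallyClosed R] (h : ringKrullDim R = 1) : ValuationRing R := by
  have : Ring.KrullDimLE 1 R := Ring.krullDimLE_iff.2 (by rw [h]; rfl)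
  exact ((tfae_of_isNoetherianRing_of_isLocalRing_of_isDomain R).out 3 1).1
    (⟨inferInstance, fun P h0 hP => eq_maximalIdeal (hP.isMaximal_of_ne_bot h0)⟩ :
      IsIntegrallyClosed R ∧ ∀ P : Ideal R, P ≠ ⊥ → P.IsPrime → P = maximalIdeal R)

/-- Hartogs lemma off a hypersurface. -/
theorem hart_away {O : Type} [CommRing O] [IsDomain O] [IsNoetherianRing O] [IsIntegrallyClosed O]
    (a b δ : O) (hb : b ≠ 0)
    (H : ∀ p : Ideal O, p.IsPrime → p.height = 1 → δ ∉ p → ∃ t ∉ p, b ∣ t * a) :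
    ∃ M : ℕ, b ∣ δ ^ M * a := by
  by_cases h0 : δ = 0
  · exact ⟨1, by simp [h0]⟩
  have hle := powers_le_nonZeroDivisors_of_noZeroDivisors h0
  let R := Localization.Away δ
  have : IsDomain R := IsLocalization.isDomain_localization hle
  have : IsIntegrallyClosed R := isIntegrallyClosed_of_isLocalization R (Submonoid.powers δ) hle
  have hi : Function.Injective (algebraMap O R) := IsLocalization.injective R hle
  obtain ⟨c, hc⟩ := hartAPI R (algebraMap O R a) (algebraMap O R b)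
    (fun e => hb (hi (e.trans (map_zero _).symm))) fun p hp h1 => by
      obtain ⟨t, ht, e⟩ := H (p.under O) inferInstance
        ((IsLocalization.height_under (Submonoid.powers δ) p).trans h1) fun h =>
          hp.ne_top (p.eq_top_of_isUnit_mem h (IsLocalization.Away.algebraMap_isUnit δ))
      exact ⟨algebraMap O R t, ht, by rw [← map_mul]; exact map_dvd _ e⟩
  obtain ⟨M, c', e⟩ := IsLocalization.Away.surj δ c
  refine ⟨M, c', hi ?_⟩
  rw [map_mul, map_mul, map_pow, hc, ← e]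
  ring

theorem total {O : Type} [CommRing O] [IsDomain O] [IsNoetherianRing O] [IsIntegrallyClosed O]
    (p : Ideal O) [p.IsPrime] (h : p.height = 1) (a b : O) :
    ∃ c t, t ∉ p ∧ (a * c = b * t ∨ b * c = a * t) := by
  let R := Localization.AtPrime p
  have hle := Ideal.primeCompl_le_nonZeroDivisors p
  have : IsIntegrallyClosed R := isIntegrallyClosed_of_isLocalization R p.primeCompl hle
  have hi : Function.Injective (algebraMap O R) := IsLocalization.injective R hle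
  have := valRing R (by rw [IsLocalization.AtPrime.ringKrullDim_eq_height p, h]; rfl)
  obtain ⟨c, hc⟩ := ValuationRing.cond (algebraMap O R a) (algebraMap O R b)
  obtain ⟨⟨c', t⟩, e⟩ := IsLocalization.surj p.primeCompl c
  refine ⟨c', t, t.2, hc.imp (fun h => hi ?_) fun h => hi ?_⟩ <;>
    rw [map_mul, map_mul, ← e, ← h, mul_assoc]

/-- The valuation ring of a prime of height one. -/
theorem exists_val {O K : Type} [CommRing O] [IsDomain O] [IsNoetherianRing O]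
    [IsIntegrallyClosed O] [Field K] {ι : O →+* K} (hι : IsFrac ι) (p : Ideal O) [hp : p.IsPrime]
    (h : p.height = 1) :
    ∃ V : ValuationSubring K, ∀ φ, φ ∈ V ↔ ∃ a b, b ∉ p ∧ φ * ι b = ι a := by
  have h1 : (1 : O) ∉ p := (Ideal.ne_top_iff_one p).1 hp.ne_top
  have hm : ∀ {b b' : O}, b ∉ p → b' ∉ p → b * b' ∉ p := fun h h' e =>
    (hp.mem_or_mem e).elim h h'
  refine ⟨⟨{ carrier := {φ | ∃ a b, b ∉ p ∧ φ * ι b = ι a}
             mul_mem' := ?_
             one_mem' := ⟨1, 1, h1, one_mul _⟩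
             add_mem' := ?_
             zero_mem' := ⟨0, 1, h1, by simp⟩
             neg_mem' := ?_ }, fun φ => ?_⟩, fun _ => Iff.rfl⟩
  · rintro _ _ ⟨a, b, hb, e⟩ ⟨a', b', hb', e'⟩
    exact ⟨a * a', b * b', hm hb hb', by rw [map_mul, map_mul, ← e, ← e']; ring⟩
  · rintro _ _ ⟨a, b, hb, e⟩ ⟨a', b', hb', e'⟩
    exact ⟨a * b' + a' * b, b * b', hm hb hb', by
      rw [map_add, map_mul, map_mul, map_mul, ← e, ← e']; ring⟩
  · rintro _ ⟨a, b, hb, e⟩
    exact ⟨-a, b, hb, by rw [map_neg, ← e, neg_mul]⟩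
  · obtain ⟨a, b, hb, e⟩ := hι.2 φ
    have hbK : ι b ≠ 0 := fun e => hb (hι.1 (e.trans (map_zero _).symm))
    obtain ⟨c, t, ht, e'⟩ := total p h a b
    by_cases h0 : φ = 0
    · exact .inl ⟨0, 1, h1, by simp [h0]⟩
    rcases e' with e' | e'
    · refine .inr ⟨c, t, ht, ?_⟩
      have e2 := congrArg ι e'
      rw [map_mul, map_mul, ← e] at e2
      rw [inv_mul_eq_iff_eq_mul₀ h0]
      exact mul_left_cancel₀ hbK (by linear_combination -e2)
    · refine .inl ⟨c, t, ht, ?_⟩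
      have e2 := congrArg ι e'
      rw [map_mul, map_mul, ← e] at e2
      exact mul_left_cancel₀ hbK (by linear_combination -e2)

variable {W : Scheme.{0}} [IsIntegral W]

theorem loc_gen (φ : W.functionField) : φ ∈ localRing (genericPoint W) :=
  ⟨φ, congrArg (fun g : W.functionField ⟶ W.functionField => g.hom φ)
    (W.presheaf.stalkSpecializes_refl _)⟩

/-- The valuation ring of a point of codimension one. -/
theorem exists_val_pt [IsLocallyNoetherian W] (z : W) [IsIntegrallyClosed (W.presheaf.stalk z)]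
    (h : Order.coheight z = 1) :
    ∃ V : ValuationSubring W.functionField, V.toSubring = localRing z := by
  have := valRing (W.presheaf.stalk z) (by rw [ringKrullDim_stalk_eq_coheight, h]; rfl)
  exact ⟨⟨localRing z, ValuationRing.isInteger_or_isInteger (W.presheaf.stalk z)⟩, rfl⟩

variable {O : Type} [CommRing O] (F : W ⟶ Spec (.of O))

theorem isFrac (hF : IsModification F) [IsIso F.appTop] : IsFrac (toField F) := by
  obtain ⟨-, -, V, hV, hi⟩ := hF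
  have := isDomain_base F
  exact frac F V hV

theorem normal (hι : IsFrac (toField F)) [IsIso F.appTop] [IsDomain O]
    (hW : ∀ y : W, IsIntegrallyClosed (W.presheaf.stalk y)) : IsIntegrallyClosed O := by
  let : Algebra O W.functionField := (toField F).toAlgebra
  have : FaithfulSMul O W.functionField := (faithfulSMul_iff_algebraMap_injective _ _).2 hι.1
  have : IsFractionRing O W.functionField := .of_field _ _ fun φ => by
    obtain ⟨a, b, hb, e⟩ := hι.2 φ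
    exact ⟨a, b, eq_div_of_mul_eq (fun e => hb (hι.1 (e.trans (map_zero _).symm))) e⟩
  refine (isIntegrallyClosed_iff W.functionField).2 fun {φ} hφ => global F fun y => ?_
  let : Algebra O (W.presheaf.stalk y) := (toSt F y).toAlgebra
  have : IsScalarTower O (W.presheaf.stalk y) W.functionField :=
    .of_algebraMap_eq fun o => (alg_toSt F y o).symm
  exact IsIntegrallyClosed.isIntegral_iff.1 (hφ.tower_top (A := W.presheaf.stalk y))

/-- A prime of height one has a centre of codimension one. -/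
theorem exists_pt [UniversallyClosed F] (hι : IsFrac (toField F)) (p : Ideal O) [hp : p.IsPrime]
    (h : p.height = 1) (V : ValuationSubring W.functionField)
    (hV : ∀ φ, φ ∈ V ↔ ∃ a b, b ∉ p ∧ φ * toField F b = toField F a) :
    ∃ z : W, Order.coheight z = 1 ∧ V.toSubring = localRing z := by
  have h1 : (1 : O) ∉ p := (Ideal.ne_top_iff_one p).1 hp.ne_top
  obtain ⟨z, hz, hd⟩ := centre F V fun a => (hV _).2 ⟨a, 1, h1, by rw [map_one, mul_one]; rfl⟩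
  have hne : ∀ b ∉ p, toField F b ≠ 0 := fun b hb e =>
    hb (hι.1 (e.trans (map_zero _).symm) ▸ p.zero_mem)
  have hu : ∀ b ∉ p, (toField F b)⁻¹ ∈ loc z := fun b hb =>
    hd _ (toK_mem_loc F b z) (hne b hb)
      ((hV _).2 ⟨1, b, hb, by rw [map_one]; exact inv_mul_cancel₀ (hne b hb)⟩)
  refine ⟨z, ?_, le_antisymm (fun φ hφ => ?_) hz⟩
  · let : Algebra O (W.presheaf.stalk z) := (toSt F z).toAlgebra
    have e : ∀ o, algebraMap _ W.functionField (algebraMap O (W.presheaf.stalk z) o) =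
        toField F o := alg_toSt F z
    have : IsLocalization.AtPrime (W.presheaf.stalk z) p := by
      refine (isLocalization_iff _ _).2 ⟨fun b => ?_, fun u => ?_, fun {a b} hab => ⟨1, ?_⟩⟩
      · exact (isUnit_iff z _).2 ⟨_, hu b b.2, by rw [e]; exact mul_inv_cancel₀ (hne b b.2)⟩
      · obtain ⟨a, b, hb, e'⟩ := (hV _).1 (hz ⟨u, rfl⟩)
        exact ⟨(a, ⟨b, hb⟩), alg_inj z (by rw [map_mul, e, e]; exact e')⟩
      · rw [hι.1 ((e a).symm.trans ((congrArg _ hab).trans (e b)))]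
    have e' := ringKrullDim_stalk_eq_coheight z
    rw [IsLocalization.AtPrime.ringKrullDim_eq_height p, h] at e'
    exact_mod_cast e'.symm
  · obtain ⟨a, b, hb, e⟩ := (hV φ).1 hφ
    rw [(eq_mul_inv_iff_mul_eq₀ (hne b hb)).2 e]
    exact mul_mem (toK_mem_loc F a z) (hu b hb)

end Model

open Model Amp in
theorem model : ModelStmt := by
  intro A _ _ E U _ f W _ F j pb hf hF hF' hW hS x hx
  let 𝒯 : Total E f := ⟨W, F, j, pb, hF, hF', hW⟩
  obtain ⟨ρ⟩ := 𝒯.red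
  have : IsLocallyNoetherian W := locNoeth 𝒯
  have := hF.2.1
  have hι := isFrac F hF
  have := isDomain_base F
  have := normal F hι hW
  have cen : ∀ (z : W) (V : ValuationSubring W.functionField), Order.coheight z = 1 →
      V.toSubring = localRing z → toField F (algebraMap B E.O X) ∈ V.nonunits →
      toField F x ∉ V.nonunits := fun z V hz hV hs => by
    have hm : ∀ φ, φ ∈ V ↔ φ ∈ localRing z := fun φ => by rw [← hV]; rfl
    obtain ⟨y, rfl⟩ := ρ.range z fun h =>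
      (V.mem_nonunits_iff_or.1 hs).elim ρ.s_ne fun h' => h' ((hm _).2 h)
    have h1 : j y ≤ j (genericPoint U) := (genericPoint_specializes y).map j.continuous
    have h2 : j (genericPoint U) ≤ j y := by
      by_contra h
      have h3 := Order.coheight_add_one_le (lt_of_le_not_ge h1 h)
      rw [hz, show Order.coheight (j (genericPoint U)) = 1 from ρ.coh] at h3
      exact absurd h3 (by decide)
    have h0 : ρ.r ⟨toField F x, ρ.base _ x⟩ ≠ 0 := fun h =>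
      hx (toK_inj f (((ρ.comm x).symm.trans h).trans (map_zero _).symm))
    rw [V.mem_nonunits_iff_or, not_or, not_not]
    refine ⟨fun h => hx ?_, (hm _).2 (loc_le h2 (ρ.unit _ _ (ρ.base _ x) h0 (loc_gen _)))⟩
    rw [hι.1 (h.trans (map_zero _).symm), map_zero]
  have le : ∀ (z : W) (V : ValuationSubring W.functionField), V.toSubring = localRing z →
      ∀ o, toField F o ∈ V := fun z V hV o =>
    show toField F o ∈ V.toSubring from hV ▸ toK_mem_loc F o z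
  refine ⟨{V | (∃ z : W, Order.coheight z = 1 ∧ V.toSubring = localRing z) ∧
      ∀ φ ∈ V, ∃ a b, toField F b ∉ V.nonunits ∧ φ * toField F b = toField F a},
    ⟨fun V ⟨⟨z, _, hV⟩, _⟩ => le z V hV, fun V ⟨⟨z, hz, hV⟩, _⟩ => cen z V hz hV,
      fun V hV => hV.2, fun φ δ H => ?_⟩, fun V hV _ => ?_⟩
  · obtain ⟨a, b, hb, e⟩ := hι.2 φ
    have hne : ∀ b, b ≠ 0 → toField F b ≠ 0 := fun b hb e =>
      hb (hι.1 (e.trans (map_zero _).symm))
    obtain ⟨M, c, hc⟩ := hart_away a b δ hb fun p hp h1 hδ => by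
      obtain ⟨V, hV⟩ := exists_val hι p h1
      have hn : ∀ b ∉ p, toField F b ∉ V.nonunits := fun b hb => by
        have h0 := hne b fun e => hb (e ▸ p.zero_mem)
        rw [V.mem_nonunits_iff_or, not_or, not_not]
        exact ⟨h0, (hV _).2 ⟨1, b, hb, by rw [map_one]; exact inv_mul_cancel₀ h0⟩⟩
      obtain ⟨a', t, ht, e'⟩ := (hV φ).1 (H V ⟨exists_pt F hι p h1 V hV, fun φ hφ =>
        ((hV φ).1 hφ).imp fun a ⟨b, hb, e⟩ => ⟨b, hn b hb, e⟩⟩ (hn δ hδ))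
      refine ⟨t, ht, a', hι.1 ?_⟩
      rw [map_mul, map_mul, ← e, ← e']
      ring
    refine ⟨M, c, mul_left_cancel₀ (hne b hb) ?_⟩
    rw [← map_mul, ← hc, map_mul, map_pow, ← e]
    ring
  · obtain ⟨w, hw, -⟩ := centre F V hV
    obtain ⟨e, N, hn, hwN, -, he⟩ := hS w
    refine ⟨e, {V' | ∃ z ∈ N, Order.coheight z = 1 ∧ V'.toSubring = localRing z}, hn,
      fun V' ⟨⟨z, hz, hV'⟩, _⟩ => hV' ▸ (he z hz).1,
      fun V' ⟨z, hzN, hz, hV'⟩ => ⟨le z V' hV', cen z V' hz hV', hV' ▸ (he z hz).2 hzN⟩,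
      fun φ hφ => hw (hartSchAPI W hW N w hwN φ fun z hzN hz => ?_)⟩
    obtain ⟨V', hV'⟩ := exists_val_pt z hz
    exact show φ ∈ localRing z from hV' ▸ hφ V' ⟨z, hzN, hz, hV'⟩

end Pool.Agent.MP_648617_ag.Kol

end
end MrgPart2

-- ======== part 3: formerly Pool.Agent.MP_648617_ag.kol.Seq
section MrgPart3

/-! PROJECT KOL, row SEQ: the two circle lemma. -/

open PowerSeries

noncomputable section

namespace Pool.Agent.MP_648617_ag.Kol

namespace Seq

theorem dd_sub (F G : TT) (j : ℤ) : dd (F - G) j = dd F j - dd G j := by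
  ext n; simp [dd]

theorem dd_neg (F : TT) (j : ℤ) : dd (-F) j = -dd F j := by
  ext n; simp [dd]

theorem dd_mul_om (F : TT) (k j : ℤ) : dd (F * om k) j = dd F (j - k) := by
  ext n
  simp only [dd, om, coeff_mk, coeff_mul_C]
  have h := AddMonoidAlgebra.coeff_mul_single_add (coeff n F) (1 : ℂ) k (j - k)
  rw [sub_add_cancel, mul_one] at h
  exact h

theorem dd_mul_jB (F : TT) (c : B) (j : ℤ) : dd (F * jB c) j = c * dd F j := by
  ext n
  rw [mul_comm c]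
  simp only [dd, jB, coeff_mk, coeff_mul, coeff_map, AddMonoidAlgebra.coeff_sum,
    Finsupp.finsetSum_apply]
  refine Finset.sum_congr rfl fun p _ => ?_
  exact AddMonoidAlgebra.coeff_mul_single_zero _ _ _

/-- The fraction field. -/
abbrev K : Type := FractionRing B

/-- The embedding. -/
abbrev ι : B →+* K := algebraMap B K

theorem ι_inj : Function.Injective ι := IsFractionRing.injective B K

/-- `c` is the sequence of the normalised coefficients. -/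
def Nm (ε : ℤ) (al : B) (F : TT) (c : ℤ → B) : Prop :=
  ∀ j : ℤ, ι (dd F (ε * j)) = (-ι al) ^ j * ι (c j)

variable {ε : ℤ} {al : B}

theorem neg_ne (h : al ≠ 0) : -ι al ≠ 0 :=
  neg_ne_zero.2 fun h' => h (ι_inj (by rw [h', map_zero]))

theorem Nm.uniq (h : al ≠ 0) {F : TT} {c c' : ℤ → B} (h1 : Nm ε al F c) (h2 : Nm ε al F c')
    (j : ℤ) : c j = c' j :=
  ι_inj (mul_left_cancel₀ (zpow_ne_zero j (neg_ne h)) ((h1 j).symm.trans (h2 j)))

theorem Nm.mul_jB {F : TT} {c : ℤ → B} (h1 : Nm ε al F c) (β : B) :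
    Nm ε al (F * jB β) fun j => β * c j := fun j => by
  rw [dd_mul_jB, map_mul, map_mul, h1 j]; ring

theorem Nm.shift (h : al ≠ 0) {F : TT} {c : ℤ → B} (h1 : Nm ε al F c) :
    Nm ε al (F * (-jB al * om ε)) fun j => c (j - 1) := fun j => by
  have e : F * (-jB al * om ε) = -(F * om ε * jB al) := by ring
  have e2 : ε * j - ε = ε * (j - 1) := by ring
  rw [e, dd_neg, dd_mul_jB, dd_mul_om, e2, map_neg, map_mul, h1 (j - 1),
    zpow_sub_one₀ (neg_ne h)]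
  have := neg_ne h
  have h3 : ι al ≠ 0 := neg_ne_zero.1 this
  field_simp

theorem Nm.step (h : al ≠ 0) {F : TT} {c : ℤ → B} (h1 : Nm ε al F c) :
    Nm ε al (F * (jB al * (1 - om ε))) fun j => al * c j + c (j - 1) := fun j => by
  have e : F * (jB al * (1 - om ε)) = F * jB al - F * om ε * jB al := by ring
  have e2 : ε * j - ε = ε * (j - 1) := by ring
  rw [e, dd_sub, dd_mul_jB, dd_mul_jB, dd_mul_om, e2, map_sub, map_mul, map_mul, h1 (j - 1), h1 j,
    zpow_sub_one₀ (neg_ne h), map_add, map_mul]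
  have := neg_ne h
  have h3 : ι al ≠ 0 := neg_ne_zero.1 this
  field_simp
  ring

theorem nm_of_side (h : al ≠ 0) {F : TT} {ρ : ℂ⟦X⟧} (hs : Side F ε al ρ) :
    ∃ c, Nm ε al F c ∧ (∀ t : ℕ, cc (c t) = coeff t ρ) := by
  choose P hP using hs
  refine ⟨fun j => if 0 ≤ j then P j.toNat else (-al) ^ (-j).toNat * dd F (ε * j), fun j => ?_,
    fun t => ?_⟩
  · by_cases hj : 0 ≤ j
    · obtain ⟨t, rfl⟩ := Int.eq_ofNat_of_zero_le hj
      simp only [hj, if_true, Int.toNat_natCast]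
      rw [(hP t).1, map_mul, map_pow, map_neg, zpow_natCast]
    · simp only [hj, if_false]
      obtain ⟨t, rfl⟩ : ∃ t : ℕ, j = -(t : ℤ) := ⟨(-j).toNat, by omega⟩
      rw [neg_neg, Int.toNat_natCast, map_mul, map_pow, map_neg, zpow_neg, zpow_natCast,
        inv_mul_cancel_left₀ (pow_ne_zero _ (neg_ne h))]
  · simp only [Int.natCast_nonneg, if_true, Int.toNat_natCast]
    exact (hP t).2

/-- Multiplication by `W` shifts the residues by `k`. -/
def Sh (ε : ℤ) (al : B) (g : ℕ) (W : TT) (k : ℤ) : Prop :=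
  ∀ F c', Nm ε al F c' → ∃ c, Nm ε al (F * W) c ∧ ∀ Q : ℤ → B, (∀ j, c j = X ^ g * Q j) →
    ∃ Q' : ℤ → B, (∀ j, c' j = X ^ g * Q' j) ∧ ∀ j, cc (Q' j) = cc (Q (j + k))

variable {g : ℕ}

theorem Sh.one : Sh ε al g 1 0 := fun F c' h =>
  ⟨c', by rwa [mul_one], fun Q hQ => ⟨Q, hQ, fun j => by rw [add_zero]⟩⟩

theorem Sh.mul {W W' : TT} {k k' : ℤ} (h : Sh ε al g W k) (h' : Sh ε al g W' k') :
    Sh ε al g (W * W') (k + k') := fun F c₀ h₀ => by
  obtain ⟨c₁, h₁, H₁⟩ := h F c₀ h₀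
  obtain ⟨c₂, h₂, H₂⟩ := h' _ c₁ h₁
  refine ⟨c₂, by rwa [← mul_assoc], fun Q hQ => ?_⟩
  obtain ⟨Q₁, a₁, b₁⟩ := H₂ Q hQ
  obtain ⟨Q₀, a₀, b₀⟩ := H₁ Q₁ a₁
  exact ⟨Q₀, a₀, fun j => by rw [b₀, b₁, add_assoc]⟩

theorem Sh.pow {W : TT} {k : ℤ} (h : Sh ε al g W k) (m : ℕ) : Sh ε al g (W ^ m) (k * m) := by
  induction m with
  | zero => simpa using Sh.one
  | succ m ih =>
    have := ih.mul h
    rwa [← pow_succ, show k * m + k = k * ((m + 1 : ℕ) : ℤ) by push_cast; ring] at this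

theorem sh_shift (h : al ≠ 0) : Sh ε al g (-jB al * om ε) 1 := fun F c' h1 =>
  ⟨_, h1.shift h, fun Q hQ => ⟨fun j => Q (j + 1), fun j => by simpa using hQ (j + 1),
    fun _ => rfl⟩⟩

theorem sh_step (h : al ≠ 0) (h0 : cc al = 0) : Sh ε al g (jB al * (1 - om ε)) 1 :=
  fun F c' h1 => ⟨_, h1.step h, fun Q hQ => by
    have hX : (X : B) ∣ al := X_dvd_iff.2 h0
    have key : ∀ j, c' j = X ^ g * Q (j + 1) - al * c' (j + 1) := fun j => by
      have := hQ (j + 1)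
      simp only [add_sub_cancel_right] at this
      linear_combination this
    have hd : ∀ m ≤ g, ∀ j, (X : B) ^ m ∣ c' j := by
      intro m
      induction m with
      | zero => intro _ j; simp
      | succ m ih =>
        intro hm j
        rw [key j]
        refine dvd_sub ((pow_dvd_pow _ hm).mul_right _) ?_
        rw [pow_succ']
        exact mul_dvd_mul hX (ih (by omega) _)
    choose Q' hQ' using hd g le_rfl
    refine ⟨Q', hQ', fun j => ?_⟩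
    have e : Q' j = Q (j + 1) - al * Q' (j + 1) := by
      apply mul_left_cancel₀ (pow_ne_zero g (X_ne_zero (R := ℂ)))
      rw [← hQ' j, key j, hQ' (j + 1)]; ring
    rw [e, map_sub, map_mul, h0, zero_mul, sub_zero]⟩

theorem one_side (h : al ≠ 0) (h0 : cc al = 0) {F H : TT} {c' : ℤ → B} {ρ : ℂ⟦X⟧} {γ : B} {M : ℕ}
    (hF : Nm ε al F c') (hH : Side H ε al ρ)
    (e : H * jB (X ^ g * γ) = F * ((jB al * (1 - om ε)) ^ 9 * (-jB al * om ε)) ^ M) :
    ∃ Q : ℤ → B, (∀ j, ι (dd F (ε * j)) = (-ι al) ^ j * ι (X ^ g * Q j)) ∧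
      ∀ t : ℕ, cc (Q (t - 10 * M)) = cc γ * coeff t ρ := by
  obtain ⟨c, hc, hQ⟩ := ((((sh_step (g := g) h h0).pow 9).mul (sh_shift h)).pow M) F c' hF
  obtain ⟨d, hd, hρ⟩ := nm_of_side h hH
  have h2 := hd.mul_jB (X ^ g * γ)
  rw [e] at h2
  obtain ⟨Q', a, b⟩ := hQ (fun j => γ * d j) fun j => by rw [hc.uniq h h2 j]; ring
  refine ⟨Q', fun j => by rw [hF j, a j], fun t => ?_⟩
  rw [b, map_mul, show (t : ℤ) - 10 * M + (1 * ((9 : ℕ) : ℤ) + 1) * M = t by push_cast; ring, hρ]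

end Seq

open _root_.Pool.Agent.MP_648617_ag.Kol.Seq in
theorem seq : SeqStmt := by
  intro N g n M M' α α' γ G H H' ρ ρ' σ σ' hN hM hM' hα hα' hγ sG sG' sH sH' e e'
  have hX : (X : B) ≠ 0 := X_ne_zero
  have ne : ∀ β : B, cc β ≠ 0 → X ^ N * β ≠ 0 := fun β hβ =>
    mul_ne_zero (pow_ne_zero _ hX) fun h => hβ (by rw [h, map_zero])
  have c0 : ∀ β : B, cc (X ^ N * β) = 0 := fun β => by
    rw [map_mul, map_pow, constantCoeff_X, zero_pow hN.ne', zero_mul]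
  obtain ⟨c, hc, -⟩ := nm_of_side (ne α hα) sG
  obtain ⟨c', hc', -⟩ := nm_of_side (ne α' hα') sG'
  have hc'' : Nm (-1) (X ^ N * α') (G * om n) fun j => (-(X ^ N * α')) ^ n * c' (j + n) := by
    intro j
    rw [dd_mul_om, show -1 * j - (n : ℤ) = -1 * (j + n) by ring, hc' (j + n),
      zpow_add₀ (neg_ne (ne α' hα')), zpow_natCast, map_mul ι _ (c' _), map_pow, map_neg, mul_assoc]
  obtain ⟨Q, hQ, rQ⟩ := one_side (ne α hα) (c0 α) hc sH e
  obtain ⟨Q', hQ', rQ'⟩ := one_side (ne α' hα') (c0 α') hc'' sH' e'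
  have hx : ι X ≠ 0 := fun h => hX (ι_inj (by rw [h, map_zero]))
  have uu : ∀ β : B, cc β ≠ 0 → ∃ A : Bˣ, (A : B) = -β := fun β hβ =>
    (isUnit_iff_constantCoeff.2 (Ne.isUnit hβ)).neg
  obtain ⟨A, hA⟩ := uu α hα
  obtain ⟨A', hA'⟩ := uu α' hα'
  have zp : ∀ (U : Bˣ) (β : B), (U : B) = -β → ∀ j : ℤ,
      (-ι (X ^ N * β)) ^ j = (ι X ^ N) ^ j * ι ((U ^ j : Bˣ) : B) := fun U β hU j => by
    have e1 : ι ((U ^ j : Bˣ) : B) = ι (U : B) ^ j := by
      have := Units.val_zpow_eq_zpow_val (Units.map ι.toMonoidHom U) j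
      rw [← map_zpow] at this
      exact this
    rw [e1, hU, ← mul_zpow, map_mul, map_pow, map_neg, mul_neg]
  have cmp : ∀ (j : ℤ) (k : ℕ), 2 * j + k + n = 0 →
      ((A ^ j : Bˣ) : B) * Q j = (X ^ N) ^ k * (((A' ^ (j + k) : Bˣ) : B) * Q' (j + k)) := by
    intro j k hk
    have h1 := hQ j
    have h2 := hQ' (j + k)
    rw [dd_mul_om, show -1 * (j + k) - (n : ℤ) = 1 * j by omega, h1, zp A α hA, zp A' α' hA',
      zpow_add₀ (pow_ne_zero _ hx), zpow_natCast] at h2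
    apply ι_inj
    apply mul_left_cancel₀ (mul_ne_zero (zpow_ne_zero j (pow_ne_zero N hx)) (pow_ne_zero g hx))
    simp only [map_mul, map_pow] at h2 ⊢
    linear_combination h2
  have un : ∀ U : Bˣ, cc (U : B) ≠ 0 := fun U => (U.isUnit.map cc).ne_zero
  refine ⟨fun t ht => ?_, fun r hr => ?_⟩
  · obtain ⟨k, hk⟩ : ∃ k : ℕ, 2 * t + n + (k + 1) = 20 * M := ⟨20 * M - (2 * t + n) - 1, by omega⟩
    have h1 := congrArg cc (cmp (t - 10 * M) (k + 1) (by push_cast; omega))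
    simp only [map_mul, map_pow, constantCoeff_X, zero_pow hN.ne', zero_pow (Nat.succ_ne_zero k),
      zero_mul, rQ] at h1
    exact ((mul_eq_zero.1 ((mul_eq_zero.1 h1).resolve_left (un _))).resolve_left hγ)
  · have h1 := cmp (-(r : ℤ)) 0 (by push_cast; omega)
    simp only [pow_zero, one_mul, Nat.cast_zero, add_zero, zpow_neg, zpow_natCast] at h1
    have h2 : (A' : B) ^ r * Q (-(r : ℤ)) = (A : B) ^ r * Q' (-(r : ℤ)) := by
      have a1 := Units.mul_inv (A ^ r)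
      have a2 := Units.mul_inv (A' ^ r)
      rw [Units.val_pow_eq_pow_val] at a1 a2
      linear_combination (-(A' : B) ^ r * Q (-(r : ℤ))) * a1 + ((A : B) ^ r * Q' (-(r : ℤ))) * a2 +
        ((A : B) ^ r * (A' : B) ^ r) * h1
    have r1 := rQ (10 * M - r)
    have r2 := rQ' (10 * M' - r)
    rw [show ((10 * M - r : ℕ) : ℤ) - 10 * M = -(r : ℤ) by omega] at r1
    rw [show ((10 * M' - r : ℕ) : ℤ) - 10 * M' = -(r : ℤ) by omega] at r2
    have h3 := congrArg cc h2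
    simp only [map_mul, map_pow, hA, hA', map_neg, r1, r2] at h3
    rw [neg_pow (cc α'), neg_pow (cc α)] at h3
    apply mul_left_cancel₀ (mul_ne_zero (pow_ne_zero r (neg_ne_zero.2 (one_ne_zero (α := ℂ)))) hγ)
    linear_combination -h3

end Pool.Agent.MP_648617_ag.Kol

end
end MrgPart3

-- ======== part 4: formerly Pool.Agent.MP_648617_ag.kol.Pat
section MrgPart4

/-! PROJECT KOL, row PAT: the picture is constant on a component. -/

open IsLocalRing PowerSeries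

noncomputable section

namespace Pool.Agent.MP_648617_ag.Kol

namespace Pat

variable {R : Type} [CommRing R] [Algebra ℂ R] [IsGerm R]

theorem rho_zero (ρ : R →ₐ[ℂ] ℂ) {r : R} : ρ r = 0 ↔ r ∈ maximalIdeal R := by
  rw [algHom_eq_res ρ, Vers.res_eq_zero]

theorem unit_of_rho (ρ : R →ₐ[ℂ] ℂ) {F : R⟦X⟧} (h : ρ (cc F) ≠ 0) : IsUnit F := by
  rw [isUnit_iff_constantCoeff, ← notMem_maximalIdeal, ← rho_zero ρ]
  exact h

/-- The special point of an arc. -/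
def spec (γ : R →ₐ[ℂ] B) : R →ₐ[ℂ] ℂ where
  toRingHom := (cc : B →+* ℂ).comp γ.toRingHom
  commutes' c := by simp

omit [IsGerm R] in
theorem spec_apply (γ : R →ₐ[ℂ] B) (r : R) : spec γ r = cc (γ r) := rfl

theorem root {F : R⟦X⟧} (h0 : cc F ∈ maximalIdeal R) (h1 : coeff 1 F ∉ maximalIdeal R) :
    ∃ ξ ∈ maximalIdeal R, ∃ c, F = (X - C ξ) * c := by
  have ho : (F.map (residue R)).order = (1 : ℕ) := by
    rw [order_eq_nat]
    refine ⟨by simpa [residue_eq_zero_iff] using h1, fun i hi => ?_⟩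
    obtain rfl : i = 0 := by omega
    simpa [residue_eq_zero_iff] using h0
  have hF : F.map (residue R) ≠ 0 := fun e => by simp [e] at ho
  obtain ⟨P, c, H⟩ := exists_isWeierstrassFactorization hF
  have hd : P.natDegree = 1 := by rw [H.natDegree_eq_toNat_order_map, ho]; rfl
  refine ⟨-P.coeff 0, neg_mem (H.isDistinguishedAt.mem (by omega)), c, ?_⟩
  rw [H.eq_mul]
  conv_lhs => rw [H.isDistinguishedAt.monic.eq_X_add_C hd]
  simp

theorem rho_quot (ρ : R →ₐ[ℂ] ℂ) {F G : R⟦X⟧} {ξ e : R} (hξ : ξ ∈ maximalIdeal R)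
    (h : F - C e = (X - C ξ) * G) : ρ (cc G) = ρ (coeff 1 F) := by
  have h1 := congrArg (coeff 1) h
  rw [sub_mul, map_sub, map_sub, coeff_C, if_neg one_ne_zero, sub_zero, coeff_succ_X_mul,
    coeff_C_mul, coeff_zero_eq_constantCoeff_apply] at h1
  rw [h1, map_sub, map_mul, (rho_zero ρ).2 hξ, zero_mul, sub_zero]

theorem prod_dvd [IsDomain R] {ι : Type} (ζ : ι → R) (s : Finset ι)
    (hm : ∀ p ∈ s, ζ p ∈ maximalIdeal R) (hi : ∀ p ∈ s, ∀ q ∈ s, ζ p = ζ q → p = q) (G : R⟦X⟧)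
    (hG : ∀ p ∈ s, evAt (ζ p) G = 0) : ∏ p ∈ s, (X - C (ζ p)) ∣ G := by
  classical
  induction s using Finset.induction_on generalizing G with
  | empty => simp
  | insert q s hq ih =>
    obtain ⟨G', rfl⟩ := (dvd_iff_evAt (hm q (by simp)) G).2 (hG q (by simp))
    rw [Finset.prod_insert hq]
    refine mul_dvd_mul_left _ (ih (fun p hp => hm p (by simp [hp]))
      (fun p hp p' hp' => hi p (by simp [hp]) p' (by simp [hp'])) G' fun p hp => ?_)
    have h := hG p (by simp [hp])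
    rw [map_mul, map_sub, evAt_X (hm p (by simp [hp])), evAt_C, mul_eq_zero, sub_eq_zero] at h
    refine h.resolve_left fun e => hq ?_
    rwa [← hi p (by simp [hp]) q (by simp) e]

/-- The picture over a domain. -/
theorem dom [IsDomain R] (f g : Ln → R⟦X⟧) (al : Ln → Ln → R⟦X⟧)
    (hd : ∀ i j, i ≠ j → g i = (f j - f i) * al j i)
    (hf : ∀ (ρ : R →ₐ[ℂ] ℂ) i, PowerSeries.map ρ.toRingHom (f i) = C (a i : ℂ) * X)
    (hg : ∀ (ρ : R →ₐ[ℂ] ℂ) i, PowerSeries.map ρ.toRingHom (g i) = X ^ l i)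
    (γ₀ : R →ₐ[ℂ] B) (α β : ℂ) (h₀ : ∀ i, coeff 1 (γ₀ (cc (f i))) = b i + β - a i * α) :
    ∃ (ξ η : Pt → R) (U : Ln → R⟦X⟧) (fh : Ln → Pt → R⟦X⟧),
      (∀ p, ξ p ∈ maximalIdeal R) ∧ (∀ p, η p ∈ maximalIdeal R) ∧
      (∀ i, g i = U i * ∏ p ∈ on i, (X - C (ξ p))) ∧ (∀ (ρ : R →ₐ[ℂ] ℂ) i, ρ (cc (U i)) = 1) ∧
      (∀ i p, inc i p → f i = C (η p) + (X - C (ξ p)) * fh i p) ∧
      (∀ (ρ : R →ₐ[ℂ] ℂ) i p, inc i p → ρ (cc (fh i p)) = a i) ∧ ξ 0 ≠ ξ 1 := by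
  have f0 : ∀ i, cc (f i) ∈ maximalIdeal R := fun i => by
    rw [← rho_zero (spec γ₀)]
    simpa using congrArg (coeff 0) (hf (spec γ₀) i)
  have f1 : ∀ (ρ : R →ₐ[ℂ] ℂ) i, ρ (coeff 1 (f i)) = a i := fun ρ i => by
    simpa using congrArg (coeff 1) (hf ρ i)
  have ha : ∀ i j, i ≠ j → (a j : ℂ) - a i ≠ 0 := fun i j h =>
    sub_ne_zero.2 fun e => h (a_inj j i (by exact_mod_cast e)).symm
  have h1 : ∀ i j, ∃ ξ c, i ≠ j → ξ ∈ maximalIdeal R ∧ IsUnit c ∧ f j - f i = (X - C ξ) * c ∧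
      coeff 1 (γ₀ ξ) = u (pt i j) + α := fun i j => by
    by_cases h : i = j
    · exact ⟨0, 0, fun h' => absurd h h'⟩
    obtain ⟨ξ, hξ, c, hc⟩ := root (F := f j - f i) (by rw [map_sub]; exact sub_mem (f0 j) (f0 i))
      (by rw [← rho_zero (spec γ₀), map_sub, map_sub, f1, f1]; exact ha i j h)
    have hr : spec γ₀ (cc c) = a j - a i := by
      rw [rho_quot (spec γ₀) (F := f j - f i) (e := 0) hξ (by simpa using hc), map_sub, map_sub,
        f1, f1]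
    refine ⟨ξ, c, fun _ => ⟨hξ, unit_of_rho (spec γ₀) (hr ▸ ha i j h), hc, ?_⟩⟩
    have h2 := congrArg (fun F => coeff 1 (γ₀ (cc F))) hc
    have h3 : cc (γ₀ ξ) = 0 := (rho_zero (spec γ₀)).2 hξ
    simp only [map_sub, map_mul, constantCoeff_X, constantCoeff_C, zero_sub, map_neg, h₀,
      neg_mul, coeff_one_mul, h3] at h2
    rw [spec_apply] at hr
    have h4 : (v (pt i j) : ℂ) = a i * u (pt i j) + b i := by exact_mod_cast inc_left i j h
    have h5 : (v (pt i j) : ℂ) = a j * u (pt i j) + b j := by exact_mod_cast inc_right i j h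
    apply mul_right_cancel₀ (ha i j h)
    rw [hr] at h2
    linear_combination h2 - h4 + h5
  choose ξ' c h1 using h1
  choose oth ho1 ho2 using other_line
  choose ln ln' _ hln _ using two_lines
  have ev : ∀ i j, i ≠ j → evAt (ξ' i j) (f j - f i) = 0 := fun i j h => by
    rw [(h1 i j h).2.2.1, map_mul, map_sub, evAt_X (h1 i j h).1, evAt_C, sub_self, zero_mul]
  have evg : ∀ i j, i ≠ j → evAt (ξ' i j) (g i) = 0 := fun i j h => by
    rw [hd i j h, map_mul, ev i j h, zero_mul]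
  have sym : ∀ i j, i ≠ j → ξ' i j = ξ' j i := fun i j h => by
    have h2 := ev i j h
    rw [← neg_sub, (h1 j i h.symm).2.2.1, map_neg, neg_eq_zero, map_mul, map_sub,
      evAt_X (h1 i j h).1, evAt_C] at h2
    exact sub_eq_zero.1 (((h1 j i h.symm).2.1.map _).mul_left_eq_zero.1 h2)
  have zm : ∀ i p, ξ' i (oth i p) ∈ maximalIdeal R := fun i p => (h1 i _ (ho1 i p).symm).1
  have z1 : ∀ i p, inc i p → coeff 1 (γ₀ (ξ' i (oth i p))) = u p + α := fun i p h => by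
    rw [(h1 i _ (ho1 i p).symm).2.2.2, ← pt_unique i _ p (ho1 i p).symm h (ho2 i p)]
  have h2 : ∀ i, ∃ U, g i = U * ∏ p ∈ on i, (X - C (ξ' i (oth i p))) := fun i => by
    obtain ⟨U, hU⟩ := prod_dvd (fun p => ξ' i (oth i p)) (on i) (fun p _ => zm i p)
      (fun p hp q hq e => by
        have h3 := z1 i p (mem_on.1 hp)
        rw [e, z1 i q (mem_on.1 hq), add_left_inj] at h3
        exact u_inj i p q (mem_on.1 hp) (mem_on.1 hq) (by exact_mod_cast h3.symm))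
      (g i) fun p _ => evg i _ (ho1 i p).symm
    exact ⟨U, by rw [hU, mul_comm]⟩
  choose U hU using h2
  have U1 : ∀ (ρ : R →ₐ[ℂ] ℂ) i, ρ (cc (U i)) = 1 := fun ρ i => by
    have h3 := hg ρ i
    have h4 : ∀ p, ρ.toRingHom (ξ' i (oth i p)) = 0 := fun p => (rho_zero ρ).2 (zm i p)
    rw [hU, map_mul, map_prod] at h3
    simp only [map_sub, map_X, map_C, h4, map_zero, sub_zero, Finset.prod_const, card_on] at h3
    have h5 : PowerSeries.map ρ.toRingHom (U i) = 1 :=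
      mul_right_cancel₀ (pow_ne_zero (l i) X_ne_zero) (by rw [h3, one_mul])
    simpa using congrArg (coeff 0) h5
  have key : ∀ i j, i ≠ j → ξ' i j = ξ' i (oth i (pt i j)) := fun i j h => by
    have h3 := evg i j h
    rw [hU, map_mul, ((unit_of_rho (spec γ₀) (by rw [U1]; exact one_ne_zero)).map
      _).mul_right_eq_zero, map_prod, Finset.prod_eq_zero_iff] at h3
    obtain ⟨p, hp, h3⟩ := h3
    rw [map_sub, evAt_X (h1 i j h).1, evAt_C, sub_eq_zero] at h3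
    have h4 := z1 i p (mem_on.1 hp)
    rw [← h3, (h1 i j h).2.2.2, add_left_inj] at h4
    rw [u_inj i (pt i j) p (inc_left i j h) (mem_on.1 hp) (by exact_mod_cast h4), h3]
  have zz : ∀ i p, inc i p → ξ' i (oth i p) = ξ' (ln p) (oth (ln p) p) := fun i p h => by
    by_cases e : i = ln p
    · rw [← e]
    · have h3 := key i _ e
      have h4 := key _ i (Ne.symm e)
      rw [← pt_unique i _ p e h (hln p)] at h3
      rw [← pt_unique _ i p (Ne.symm e) (hln p) h] at h4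
      rw [← h3, ← h4, sym i _ e]
  have ef : ∀ i p, inc i p → evAt (ξ' (ln p) (oth (ln p) p)) (f i) =
      evAt (ξ' (ln p) (oth (ln p) p)) (f (ln p)) := fun i p h => by
    by_cases e : i = ln p
    · rw [← e]
    · have h3 := ev i _ e
      rw [key i _ e, ← pt_unique i _ p e h (hln p), zz i p h, map_sub, sub_eq_zero] at h3
      exact h3.symm
  choose fh hfh using fun i p => sub_dvd_sub_evAt (zm (ln p) p) (f i)
  refine ⟨fun p => ξ' (ln p) (oth (ln p) p), fun p => evAt (ξ' (ln p) (oth (ln p) p)) (f (ln p)),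
    U, fh, fun p => zm _ p, fun p => ?_, fun i => ?_, U1, fun i p h => ?_, fun ρ i p _ => ?_,
    fun e => ?_⟩
  · obtain ⟨r, hr⟩ := evAt_sub_cc (zm (ln p) p) (f (ln p))
    simp only [sub_eq_iff_eq_add.1 hr]
    exact add_mem (Ideal.mul_mem_right _ _ (zm _ p)) (f0 _)
  · rw [hU]
    exact congrArg _ (Finset.prod_congr rfl fun p hp => by rw [zz i p (mem_on.1 hp)])
  · rw [← hfh, ef i p h, add_sub_cancel]
  · rw [rho_quot ρ (zm (ln p) p) (hfh i p), f1]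
  · have h3 := z1 _ 0 (hln 0)
    simp only at e
    rw [e, z1 _ 1 (hln 1), add_left_inj] at h3
    exact absurd (u_inj 0 1 0 inc_zero_one inc_zero_zero (by exact_mod_cast h3)) (by decide)

end Pat

theorem pat : PatStmt := by
  intro R _ _ _ f g al hd hf hg γ₀ α β h₀
  have := RingHom.ker_isPrime γ₀
  obtain ⟨q, hq, hle⟩ := Ideal.exists_minimalPrimes_le (I := ⊥) (J := RingHom.ker γ₀) bot_le
  have := hq.1.1
  have : IsGerm (R ⧸ q) := Vers.germ_of_surj (Ideal.Quotient.mkₐ ℂ q) Ideal.Quotient.mk_surjective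
  have cm : ∀ {S : Type} [CommRing S] [Algebra ℂ S] (τ : (R ⧸ q) →ₐ[ℂ] S) (F : R⟦X⟧),
      PowerSeries.map τ.toRingHom (PowerSeries.map (Ideal.Quotient.mk q) F) =
        PowerSeries.map (τ.comp (Ideal.Quotient.mkₐ ℂ q)).toRingHom F := fun τ F => by
    ext n; simp
  obtain ⟨ξ, η, U, fh, hξ, hη, h1, h2, h3, h4, h5⟩ := Pat.dom
    (fun i => PowerSeries.map (Ideal.Quotient.mk q) (f i))
    (fun i => PowerSeries.map (Ideal.Quotient.mk q) (g i))
    (fun i j => PowerSeries.map (Ideal.Quotient.mk q) (al i j))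
    (fun i j h => by rw [hd i j h, map_mul, map_sub]) (fun ρ i => by rw [cm, hf])
    (fun ρ i => by rw [cm, hg]) (Ideal.Quotient.liftₐ q γ₀ fun r hr => hle hr) α β
    (fun i => h₀ i)
  obtain ⟨δ, hδ⟩ := Ideal.Quotient.mk_surjective (ξ 0 - ξ 1)
  refine ⟨q, hq, δ, fun h => h5 (sub_eq_zero.1 (hδ ▸ Ideal.Quotient.eq_zero_iff_mem.2 h)),
    fun γ hγ hne => ?_⟩
  let τ := Ideal.Quotient.liftₐ q γ hγ
  have hτ : τ.comp (Ideal.Quotient.mkₐ ℂ q) = γ := Ideal.Quotient.liftₐ_comp q γ hγ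
  refine ⟨⟨fun p => τ (ξ p), fun p => τ (η p), fun i => PowerSeries.map τ.toRingHom (U i),
    fun i p => PowerSeries.map τ.toRingHom (fh i p),
    fun p => (Pat.rho_zero (Pat.spec τ)).2 (hξ p), fun p => (Pat.rho_zero (Pat.spec τ)).2 (hη p),
    fun i => ?_, fun i => ?_, fun i p h => ?_, fun i p h => ?_⟩, fun e => hne ?_⟩
  · rw [← hτ, ← cm, h1]
    simp
  · exact h2 (Pat.spec τ) i
  · rw [← hτ, ← cm, h3 i p h]
    simp
  · exact h4 (Pat.spec τ) i p h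
  · change τ (Ideal.Quotient.mk q δ) = 0
    rw [hδ, map_sub]
    exact sub_eq_zero.2 e

end Pool.Agent.MP_648617_ag.Kol

end
end MrgPart4

-- ======== part 5: formerly Pool.Agent.MP_648617_ag.kol.Psi
section MrgPart5

/-! PROJECT KOL, row PSI: the restrictions to the axes and to the exceptional surfaces. -/

open IsLocalRing PowerSeries

noncomputable section

namespace Pool.Agent.MP_648617_ag.Kol

namespace PsiRow

theorem mem_max_T {F : B⟦X⟧} (h : F ∈ maximalIdeal B⟦X⟧) : cc (cc F) = 0 :=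
  mem_max_B.1 (mem_max_ps.1 h)

theorem jB_mem {c : B} (h : cc c = 0) : jB c ∈ Ideal.span {(X : TT)} := by
  rw [Ideal.mem_span_singleton, X_dvd_iff, jB, ← coeff_zero_eq_constantCoeff_apply, coeff_map,
    coeff_zero_eq_constantCoeff_apply]
  change LaurentPolynomial.C (cc c) = 0
  rw [h, map_zero]

theorem om_mul : om 1 * om (-1) = 1 := by
  rw [om, om, ← map_mul, ← LaurentPolynomial.T_add, add_neg_cancel, LaurentPolynomial.T_zero,
    map_one]

section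

variable {O : Type} [CommRing O] [IsLocalRing O] (𝒞 : Core O)

/-- Evaluation at the point `p`. -/
def ev (p : Pt) : B⟦X⟧ →+* B := evAt (𝒞.ξ p)

theorem ev_C (p : Pt) (c : B) : ev 𝒞 p (C c) = c := evAt_C _ _

theorem ev_X (p : Pt) : ev 𝒞 p X = 𝒞.ξ p := evAt_X (𝒞.ξ_mem p)

theorem cc_ev (p : Pt) (F : B⟦X⟧) : cc (ev 𝒞 p F) = cc (cc F) := cc_evAt (𝒞.ξ0 p) F

theorem ev_f {i : Ln} {p : Pt} (h : inc i p) : ev 𝒞 p (𝒞.f i) = 𝒞.η p := by
  rw [𝒞.hf i p h, map_add, map_mul, map_sub, ev_C, ev_C, ev_X, sub_self, zero_mul, add_zero]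

theorem ev_g {i : Ln} {p : Pt} (h : inc i p) : ev 𝒞 p (𝒞.g i) = 0 := by
  rw [𝒞.hg i, map_mul, map_prod, Finset.prod_eq_zero (mem_on.2 h), mul_zero]
  rw [map_sub, ev_C, ev_X, sub_self]

theorem ev_off {j : Ln} {p : Pt} (h : ¬inc j p) :
    ∃ c : B, cc c ≠ 0 ∧ 𝒞.η p - ev 𝒞 p (𝒞.f j) = 𝒞.ϖ * c := by
  obtain ⟨c, r, hc, e⟩ := 𝒞.off j p h
  refine ⟨-c, by simpa using hc, ?_⟩
  rw [e, map_add, map_mul, map_sub, ev_C, ev_C, ev_X]
  ring

theorem ev_off_ne {j : Ln} {p : Pt} (h : ¬inc j p) : 𝒞.η p - ev 𝒞 p (𝒞.f j) ≠ 0 := by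
  obtain ⟨c, hc, e⟩ := ev_off 𝒞 h
  rw [e]
  exact mul_ne_zero 𝒞.ϖ_ne (isUnit_B.2 hc).ne_zero

theorem ne_of_off {i j : Ln} {p : Pt} (hi : inc i p) (hj : ¬inc j p) : i ≠ j :=
  fun e => hj (e ▸ hi)

theorem ev_div {i j : Ln} {p : Pt} (hi : inc i p) (hj : ¬inc j p) :
    (𝒞.η p - ev 𝒞 p (𝒞.f j)) * ev 𝒞 p (𝒞.al i j) = ev 𝒞 p (𝒞.g j) := by
  rw [𝒞.div j i (ne_of_off hi hj).symm, map_mul, map_sub, ev_f 𝒞 hi]

theorem ev_al_zero {i j : Ln} {p : Pt} (hi : inc i p) (hj : ¬inc j p) :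
    ev 𝒞 p (𝒞.al j i) = 0 := by
  have h := ev_g 𝒞 hi
  rw [𝒞.div i j (ne_of_off hi hj), map_mul, map_sub, ev_f 𝒞 hi] at h
  exact (mul_eq_zero.1 h).resolve_left fun e => ev_off_ne 𝒞 hj (by linear_combination -e)

theorem ev_al_eq {i k j : Ln} {p : Pt} (hi : inc i p) (hk : inc k p) (hj : ¬inc j p) :
    ev 𝒞 p (𝒞.al k j) = ev 𝒞 p (𝒞.al i j) :=
  mul_left_cancel₀ (ev_off_ne 𝒞 hj) ((ev_div 𝒞 hk hj).trans (ev_div 𝒞 hi hj).symm)

/-- The cocycle identity. -/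
theorem al_cocycle {i j j' : Ln} (h1 : i ≠ j) (h2 : i ≠ j') (h3 : j ≠ j') :
    𝒞.al i j * 𝒞.al i j' = 𝒞.al j j' * 𝒞.al i j + 𝒞.al j' j * 𝒞.al i j' := by
  obtain ⟨c, hc, e⟩ := 𝒞.f_sub h3
  have hne : 𝒞.f j - 𝒞.f j' ≠ 0 := by
    rw [e]
    exact mul_ne_zero (prime_X_sub_C (𝒞.ξ_mem _)).ne_zero hc.ne_zero
  refine mul_left_cancel₀ hne ?_
  have a1 := 𝒞.div j i h1.symm
  have a2 := 𝒞.div j j' h3
  have a3 := 𝒞.div j' i h2.symm
  have a4 := 𝒞.div j' j h3.symm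
  linear_combination (𝒞.al i j') * (a2 - a1) * (-1) + (𝒞.al i j) * (a4 - a3)

theorem ev_al {i k : Ln} (h : i ≠ k) : ∃ α : B, cc α = ((a k : ℂ) - a i)⁻¹ * gd i (pt i k) ∧
    ev 𝒞 (pt i k) (𝒞.al k i) = 𝒞.ϖ ^ (l i - 1) * α := by
  have hi := inc_left i k h
  have hk := inc_right i k h
  have e := congrArg (ev 𝒞 (pt i k)) (𝒞.hal i k h)
  have hW : cc (ev 𝒞 (pt i k) (𝒞.fh k (pt i k) - 𝒞.fh i (pt i k))) = (a k : ℂ) - a i := by
    rw [cc_ev, map_sub, map_sub, 𝒞.fh0 _ _ hk, 𝒞.fh0 _ _ hi]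
  have hne : (a k : ℂ) - a i ≠ 0 :=
    sub_ne_zero.2 fun e => h (a_inj i k (by exact_mod_cast e.symm))
  obtain ⟨W, hW'⟩ := (isUnit_B.2 (hW ▸ hne)).exists_right_inv
  have hW2 : cc W = ((a k : ℂ) - a i)⁻¹ := by
    have := congrArg cc hW'
    rw [map_mul, hW, map_one] at this
    exact eq_inv_of_mul_eq_one_right this
  refine ⟨W * (ev 𝒞 (pt i k) (𝒞.U i) *
    ∏ q ∈ (on i).erase (pt i k), (𝒞.ut (pt i k) - 𝒞.ut q)), ?_, ?_⟩
  · rw [map_mul, map_mul, hW2, cc_ev, 𝒞.hU, one_mul, map_prod, gd]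
    simp only [map_sub, 𝒞.ut0]
    push_cast
    rfl
  · have hp : ev 𝒞 (pt i k) (∏ q ∈ (on i).erase (pt i k), (X - C (𝒞.ξ q))) =
        𝒞.ϖ ^ (l i - 1) * ∏ q ∈ (on i).erase (pt i k), (𝒞.ut (pt i k) - 𝒞.ut q) := by
      rw [map_prod, ← card_on, ← Finset.card_erase_of_mem (mem_on.2 hi), ← Finset.prod_const,
        ← Finset.prod_mul_distrib]
      exact Finset.prod_congr rfl fun q _ => by rw [map_sub, ev_C, ev_X, 𝒞.ξ_sub]
    rw [map_mul, map_mul, hp] at e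
    linear_combination W * e - ev 𝒞 (pt i k) (𝒞.al k i) * hW'

/-- The images of the generators on the exceptional surface. -/
def ZP (i k : Ln) : Option Ln → TT
  | none => jB (𝒞.η (pt i k))
  | some j => if j = i then jB (ev 𝒞 (pt i k) (𝒞.al k i)) * (1 - om 1)
      else if j = k then jB (ev 𝒞 (pt i k) (𝒞.al i k)) * (1 - om (-1))
      else jB (ev 𝒞 (pt i k) (𝒞.al i j))

theorem ZP_i (i k : Ln) : ZP 𝒞 i k (some i) = jB (ev 𝒞 (pt i k) (𝒞.al k i)) * (1 - om 1) :=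
  if_pos rfl

theorem ZP_k {i k : Ln} (h : i ≠ k) :
    ZP 𝒞 i k (some k) = jB (ev 𝒞 (pt i k) (𝒞.al i k)) * (1 - om (-1)) :=
  (if_neg h.symm).trans (if_pos rfl)

theorem ZP_j {i k j : Ln} (h : j ≠ i) (h' : j ≠ k) :
    ZP 𝒞 i k (some j) = jB (ev 𝒞 (pt i k) (𝒞.al i j)) :=
  (if_neg h).trans (if_neg h')

theorem cc_ev_al (p : Pt) {i j : Ln} (h : i ≠ j) : cc (ev 𝒞 p (𝒞.al i j)) = 0 := by
  rw [cc_ev]
  exact mem_max_T (𝒞.al_mem i j h)

theorem ZP_mem {i k : Ln} (h : i ≠ k) : ∀ p, ZP 𝒞 i k p ∈ Ideal.span {(X : TT)}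
  | none => jB_mem (𝒞.η0 _)
  | some j => by
    by_cases h1 : j = i
    · rw [h1, ZP_i]
      exact Ideal.mul_mem_right _ _ (jB_mem (cc_ev_al 𝒞 _ h.symm))
    by_cases h2 : j = k
    · rw [h2, ZP_k 𝒞 h]
      exact Ideal.mul_mem_right _ _ (jB_mem (cc_ev_al 𝒞 _ h))
    · rw [ZP_j 𝒞 h1 h2]
      exact jB_mem (cc_ev_al 𝒞 _ (Ne.symm h1))

theorem off_of_node {i k j : Ln} (h : Node i k) (h1 : j ≠ i) (h2 : j ≠ k) : ¬inc j (pt i k) :=
  fun e => (h.2 j e).elim h1 h2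

theorem ZP_rel {i k : Ln} (h : Node i k) :
    Rel 𝒞.f 𝒞.g 𝒞.al (jB.comp (ev 𝒞 (pt i k))) (ZP 𝒞 i k) := by
  have hi := inc_left i k h.1
  have hk := inc_right i k h.1
  have on0 : ∀ j, inc j (pt i k) → (ZP 𝒞 i k none - (jB.comp (ev 𝒞 (pt i k))) (𝒞.f j)) *
      ZP 𝒞 i k (some j) = (jB.comp (ev 𝒞 (pt i k))) (𝒞.g j) := fun j hj => by
    rw [RingHom.comp_apply, RingHom.comp_apply, ev_f 𝒞 hj, ev_g 𝒞 hj, map_zero, ZP, sub_self,
      zero_mul]
  have mix : ∀ m j, inc m (pt i k) → j ≠ i → j ≠ k →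
      ZP 𝒞 i k (some m) * ZP 𝒞 i k (some j) =
        jB (ev 𝒞 (pt i k) (𝒞.al m j)) * ZP 𝒞 i k (some m) +
          jB (ev 𝒞 (pt i k) (𝒞.al j m)) * ZP 𝒞 i k (some j) := fun m j hm h1 h2 => by
    rw [ZP_j 𝒞 h1 h2, ev_al_zero 𝒞 hm (off_of_node h h1 h2),
      ev_al_eq 𝒞 hi hm (off_of_node h h1 h2), map_zero]
    ring
  have ik : ZP 𝒞 i k (some i) * ZP 𝒞 i k (some k) =
      jB (ev 𝒞 (pt i k) (𝒞.al i k)) * ZP 𝒞 i k (some i) +
        jB (ev 𝒞 (pt i k) (𝒞.al k i)) * ZP 𝒞 i k (some k) := by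
    rw [ZP_i, ZP_k 𝒞 h.1]
    linear_combination
      jB (ev 𝒞 (pt i k) (𝒞.al k i)) * jB (ev 𝒞 (pt i k) (𝒞.al i k)) * om_mul
  refine ⟨fun j => ?_, fun j j' hne => ?_⟩
  · by_cases h1 : j = i
    · exact on0 j (h1 ▸ hi)
    by_cases h2 : j = k
    · exact on0 j (h2 ▸ hk)
    · rw [ZP_j 𝒞 h1 h2, ZP, RingHom.comp_apply, RingHom.comp_apply, ← map_sub, ← map_mul,
        ev_div 𝒞 hi (off_of_node h h1 h2)]
  · simp only [RingHom.comp_apply]
    by_cases h1 : j = i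
    · by_cases h4 : j' = k
      · rw [h1, h4]; exact ik
      · exact mix j j' (h1 ▸ hi) (h1 ▸ hne.symm) h4
    by_cases h2 : j = k
    · by_cases h3 : j' = i
      · rw [h2, h3]; linear_combination ik
      · exact mix j j' (h2 ▸ hk) h3 (h2 ▸ hne.symm)
    by_cases h3 : j' = i
    · linear_combination mix j' j (h3 ▸ hi) h1 h2
    by_cases h4 : j' = k
    · linear_combination mix j' j (h4 ▸ hk) h1 h2
    · rw [ZP_j 𝒞 h1 h2, ZP_j 𝒞 h3 h4]
      simp only [← map_mul, ← map_add]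
      rw [al_cocycle 𝒞 (Ne.symm h1) (Ne.symm h3) hne]

end

theorem exists_ax (h : UpStmt) (O : Type) [CommRing O] [Algebra ℂ O] [IsGerm O] (𝒞 : Core O)
    (i : Ln) : ∃ ax, IsAx 𝒞 i ax := by
  classical
  have z : ∀ F ∈ maximalIdeal B⟦X⟧,
      ((C : ℂ →+* ℂ⟦X⟧).comp ((cc : B →+* ℂ).comp (cc : B⟦X⟧ →+* B))) F = 0 := fun F hF => by
    rw [RingHom.comp_apply, RingHom.comp_apply, mem_max_T hF, map_zero]
  obtain ⟨Φ, h1, h2⟩ := h B⟦X⟧ O 𝒞.toRim ℂ⟦X⟧ (Ideal.span {X})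
    ((C : ℂ →+* ℂ⟦X⟧).comp ((cc : B →+* ℂ).comp (cc : B⟦X⟧ →+* B)))
    (fun p => if p = some i then X else 0)
    (fun p => by
      split_ifs
      · exact Ideal.subset_span rfl
      · exact zero_mem _)
    ⟨fun j => by rw [z _ (𝒞.f_mem j), z _ (𝒞.g_mem j)]; simp,
      fun j j' hne => by
        rw [z _ (𝒞.al_mem j j' hne), z _ (𝒞.al_mem j' j hne.symm)]
        by_cases e : j = i
        · simp [← e, hne.symm]
        · simp [e]⟩
  exact ⟨Φ, h1, (h2 _).trans (if_pos rfl), fun p hp => (h2 p).trans (if_neg hp)⟩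

theorem exists_psi (h : UpStmt) (O : Type) [CommRing O] [Algebra ℂ O] [IsGerm O] (𝒞 : Core O)
    (i k : Ln) (hn : Node i k) : Nonempty (Psi 𝒞 i k) := by
  obtain ⟨Φ, h1, h2⟩ := h B⟦X⟧ O 𝒞.toRim TT (Ideal.span {X}) (jB.comp (ev 𝒞 (pt i k)))
    (ZP 𝒞 i k) (ZP_mem 𝒞 hn.1) (ZP_rel 𝒞 hn)
  have h1' : ∀ t, Φ (𝒞.φ t) = jB (ev 𝒞 (pt i k) t) := h1
  obtain ⟨α, hα, eα⟩ := ev_al 𝒞 hn.1
  obtain ⟨α', hα', eα'⟩ := ev_al 𝒞 hn.1.symm
  rw [pt_symm k i] at hα' eα'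
  have hi := inc_left i k hn.1
  have hk := inc_right i k hn.1
  refine ⟨⟨Φ, α, α', hα, hα', fun c => ?_, ?_, h2 none, ?_, ?_, ?_, ?_, fun j a1 a2 => ?_,
    fun j a1 a2 => ?_, fun j a1 a2 => ?_⟩⟩
  · rw [Core.β_apply, h1', ev_C]
  · rw [Core.x, h1', ev_X]
  · rw [h1', eα]
  · rw [h1', eα']
  · rw [← eα]; exact (h2 _).trans (ZP_i 𝒞 i k)
  · rw [← eα']; exact (h2 _).trans (ZP_k 𝒞 hn.1)
  · exact ⟨_, cc_ev_al 𝒞 _ (Ne.symm a1), (h2 _).trans (ZP_j 𝒞 a1 a2)⟩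
  · rw [h1', h1', ev_al_zero 𝒞 hi (off_of_node hn a1 a2), ev_al_zero 𝒞 hk (off_of_node hn a1 a2),
      map_zero]
    exact ⟨rfl, rfl⟩
  · obtain ⟨c, hc, e⟩ := ev_off 𝒞 (off_of_node hn a1 a2)
    refine ⟨c, hc, ?_⟩
    rw [Core.yy, map_sub, h1', ← e, map_sub]
    exact congrArg (· - _) (h2 none)

end PsiRow

theorem psi (h : UpStmt) : PsiStmt := fun O _ _ _ 𝒞 =>
  ⟨PsiRow.exists_ax h O 𝒞, PsiRow.exists_psi h O 𝒞⟩

end Pool.Agent.MP_648617_ag.Kol

end
end MrgPart5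

-- ======== part 6: formerly Pool.Agent.MP_648617_ag.kol.RadVal
section MrgPart6

/-! PROJECT KOL, row RADVAL: a system of parameters, and a valuation ring along an arc. -/

open IsLocalRing PowerSeries

noncomputable section

namespace Pool.Agent.MP_648617_ag.Kol

namespace RadVal

section Rad

variable {A : Type} [CommRing A] [IsLocalRing A] (𝓡 : Rim ℂ⟦X⟧ A)

theorem dvd_of_mem {c : ℂ⟦X⟧} (hc : c ∈ maximalIdeal ℂ⟦X⟧) : 𝓡.φ X ∣ 𝓡.φ c := by
  rw [PowerSeries.maximalIdeal_eq_span_X, Ideal.mem_span_singleton] at hc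
  exact map_dvd _ hc

theorem dvd_mul_Z : ∀ p q, p ≠ q → 𝓡.φ X ∣ 𝓡.Z p * 𝓡.Z q := by
  have h0 : ∀ i, 𝓡.φ X ∣ 𝓡.Z none * 𝓡.Z (some i) := fun i => by
    have e : 𝓡.Z none * 𝓡.Z (some i) = 𝓡.φ (𝓡.g i) + 𝓡.φ (𝓡.f i) * 𝓡.Z (some i) := by
      rw [← 𝓡.rels.rel0 i]; ring
    rw [e]
    exact dvd_add (dvd_of_mem 𝓡 (𝓡.g_mem i)) ((dvd_of_mem 𝓡 (𝓡.f_mem i)).mul_right _)
  rintro (_ | i) (_ | j) h
  · exact absurd rfl h
  · exact h0 j
  · rw [mul_comm]; exact h0 i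
  · have hij : i ≠ j := fun e => h (by rw [e])
    rw [𝓡.rels.rel i j hij]
    exact dvd_add ((dvd_of_mem 𝓡 (𝓡.al_mem i j hij)).mul_right _)
      ((dvd_of_mem 𝓡 (𝓡.al_mem j i hij.symm)).mul_right _)

theorem Z_mem_radical (p : Option Ln) :
    𝓡.Z p ∈ (Ideal.span {𝓡.φ X, ∑ q, 𝓡.Z q}).radical := by
  refine ⟨2, ?_⟩
  have e : 𝓡.Z p ^ 2 = 𝓡.Z p * (∑ q, 𝓡.Z q) - ∑ q ∈ Finset.univ.erase p, 𝓡.Z p * 𝓡.Z q := by
    rw [← Finset.add_sum_erase _ _ (Finset.mem_univ p), mul_add, Finset.mul_sum]; ring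
  rw [e]
  refine Ideal.sub_mem _ (Ideal.mul_mem_left _ _ (Ideal.subset_span (by simp))) ?_
  refine Ideal.sum_mem _ fun q hq => ?_
  obtain ⟨c, hc⟩ := dvd_mul_Z 𝓡 p q (Finset.ne_of_mem_erase hq).symm
  rw [hc]
  exact Ideal.mul_mem_right _ _ (Ideal.subset_span (by simp))

theorem x_ne : 𝓡.φ X ≠ 0 := fun h => by
  have := 𝓡.bij.1 (a₁ := (X, 0)) (a₂ := (0, 0)) (by simp [h])
  exact PowerSeries.X_ne_zero (congrArg Prod.fst this)

end Rad

section Val

variable {O K : Type} [CommRing O] [Field K] (ι : O →+* K) (Φ : O →+* ℂ⟦X⟧)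

/-- Fractions `a / b` with `c * Φ b ∣ Φ a`. -/
def Fr (c : ℂ⟦X⟧) (φ : K) : Prop := ∃ a b, Φ b ≠ 0 ∧ φ * ι b = ι a ∧ c * Φ b ∣ Φ a

theorem Fr.add {c : ℂ⟦X⟧} {φ ψ : K} (h : Fr ι Φ c φ) (h' : Fr ι Φ c ψ) : Fr ι Φ c (φ + ψ) := by
  obtain ⟨a, b, hb, e, d, hd⟩ := h
  obtain ⟨a', b', hb', e', d', hd'⟩ := h'
  refine ⟨a * b' + a' * b, b * b', by simp [hb, hb'], ?_, d + d', ?_⟩
  · simp only [map_add, map_mul, ← e, ← e']; ring
  · simp only [map_add, map_mul, hd, hd']; ring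

theorem Fr.mul {c : ℂ⟦X⟧} {φ ψ : K} (h : Fr ι Φ 1 φ) (h' : Fr ι Φ c ψ) : Fr ι Φ c (φ * ψ) := by
  obtain ⟨a, b, hb, e, d, hd⟩ := h
  obtain ⟨a', b', hb', e', d', hd'⟩ := h'
  refine ⟨a * a', b * b', by simp [hb, hb'], ?_, d * d', ?_⟩
  · simp only [map_mul, ← e, ← e']; ring
  · simp only [map_mul, hd, hd']; ring

theorem fr_of {c : ℂ⟦X⟧} {o : O} (h : c ∣ Φ o) : Fr ι Φ c (ι o) :=
  ⟨o, 1, by simp, by simp, by simpa using h⟩

/-- The local ring of the arc. -/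
def ring : Subring K where
  carrier := {φ | Fr ι Φ 1 φ}
  mul_mem' h h' := Fr.mul ι Φ h h'
  one_mem' := by simpa using fr_of ι Φ (c := 1) (o := 1) (one_dvd _)
  add_mem' h h' := Fr.add ι Φ h h'
  zero_mem' := by simpa using fr_of ι Φ (c := 1) (o := 0) (one_dvd _)
  neg_mem' {φ} h := by
    have h1 : Fr ι Φ 1 (-1) := by simpa using fr_of ι Φ (c := 1) (o := -1) (one_dvd _)
    simpa using Fr.mul ι Φ h1 h

/-- Its maximal ideal. -/
def ideal : Ideal (ring ι Φ) where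
  carrier := {φ | Fr ι Φ X φ}
  add_mem' h h' := Fr.add ι Φ h h'
  zero_mem' := by simpa using fr_of ι Φ (c := X) (o := 0) (by simp)
  smul_mem' r _ h := Fr.mul ι Φ r.2 h

theorem ideal_ne (hι : Function.Injective ι) : ideal ι Φ ≠ ⊤ := fun h => by
  obtain ⟨a, b, hb, e, d, hd⟩ : (1 : ring ι Φ) ∈ ideal ι Φ := h ▸ Submodule.mem_top
  obtain rfl : b = a := hι (by simpa using e)
  have h1 : (1 : ℂ⟦X⟧) = X * d := mul_left_cancel₀ hb (by rw [mul_one]; linear_combination hd)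
  simpa using congrArg PowerSeries.constantCoeff h1

theorem X_mul_dvd {F G : ℂ⟦X⟧} {n : ℕ} (hG : X ^ n ∣ G) (hF : ¬X ^ n ∣ F) : X * F ∣ G := by
  induction n generalizing F G with
  | zero => exact absurd (by simp) hF
  | succ n ih =>
    by_cases h : (X : ℂ⟦X⟧) ∣ F
    · obtain ⟨F, rfl⟩ := h
      obtain ⟨G, rfl⟩ := hG
      have := ih (F := F) (G := X ^ n * G) (dvd_mul_right _ _)
        fun h => hF (by rw [pow_succ']; exact mul_dvd_mul_left _ h)
      rw [pow_succ', mul_assoc]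
      exact mul_dvd_mul_left _ this
    · have hu : IsUnit F := by
        rw [PowerSeries.isUnit_iff_constantCoeff, isUnit_iff_ne_zero]
        rwa [PowerSeries.X_dvd_iff] at h
      rw [hu.mul_right_dvd]
      exact (dvd_pow_self _ n.succ_ne_zero).trans hG

end Val

end RadVal

open RadVal

theorem rad : RadStmt := by
  rintro A _ _ _ ⟨𝓡⟩
  refine ⟨𝓡.φ X, ∑ q, 𝓡.Z q, x_ne 𝓡, fun a => ⟨fun ha => ?_, fun ha => ?_⟩⟩
  · obtain ⟨⟨c, w⟩, rfl⟩ := 𝓡.bij.2 a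
    have hs : ∀ J : Ideal A, (∀ p, 𝓡.Z p ∈ J) → ∑ p, 𝓡.E p (X * w p) ∈ J := fun J hJ =>
      Ideal.sum_mem _ fun p _ => by rw [map_mul]; exact Ideal.mul_mem_right _ _ (hJ p)
    have hc : c ∈ maximalIdeal ℂ⟦X⟧ := by
      by_contra hc
      have hu : IsUnit (𝓡.φ c) := (notMem_maximalIdeal.mp hc).map _
      have h1 : 𝓡.φ c + ∑ p, 𝓡.E p (X * w p) ∈ maximalIdeal A := ha
      exact notMem_maximalIdeal.mpr hu
        ((Ideal.add_mem_iff_left _ (hs _ 𝓡.mem)).mp h1)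
    refine Ideal.add_mem _ (Ideal.le_radical ?_) (hs _ (Z_mem_radical 𝓡))
    obtain ⟨d, hd⟩ := dvd_of_mem 𝓡 hc
    rw [hd]
    exact Ideal.mul_mem_right _ _ (Ideal.subset_span (by simp))
  · have hle : Ideal.span {𝓡.φ X, ∑ q, 𝓡.Z q} ≤ maximalIdeal A := by
      rw [Ideal.span_le]
      rintro y (rfl | rfl)
      · exact 𝓡.loc _ (by rw [PowerSeries.maximalIdeal_eq_span_X]; exact Ideal.subset_span rfl)
      · exact Ideal.sum_mem _ fun p _ => 𝓡.mem p
    exact ((maximalIdeal.isMaximal A).isPrime.radical_le_iff.mpr hle ha :)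

theorem val : ValStmt := by
  intro O K _ _ ι hι Φ
  obtain ⟨V, hV, hI⟩ := Ideal.image_subset_nonunits_valuationSubring _ (ideal_ne ι Φ hι.1)
  have key : ∀ φ, Fr ι Φ X φ → φ ∈ V.nonunits := fun φ h => by
    have h1 : φ ∈ RadVal.ring ι Φ := by
      obtain ⟨a, b, hb, e, hd⟩ := h
      exact ⟨a, b, hb, e, by simpa using (dvd_mul_left _ _).trans hd⟩
    exact hI ⟨⟨φ, h1⟩, h, rfl⟩
  refine ⟨V, fun o => hV (fr_of ι Φ (one_dvd _)), fun o h => key _ (fr_of ι Φ h), ?_⟩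
  intro a b φ n hφ e hb hn
  by_contra ha
  have ha0 : Φ a ≠ 0 := fun h => ha (by simp [h])
  have ha1 : ι a ≠ 0 := fun h => ha0 (by rw [hι.1 (h.trans ι.map_zero.symm), map_zero])
  have hφ0 : φ ≠ 0 := fun h => ha1 (by rw [← e, h, zero_mul])
  have h1 := key φ⁻¹ ⟨b, a, ha0, by rw [← e, inv_mul_cancel_left₀ hφ0], X_mul_dvd hn ha⟩
  exact (V.inv_mem_nonunits_iff.mp h1).elim hφ0 fun h => h hφ

end Pool.Agent.MP_648617_ag.Kol

end
end MrgPart6

-- ======== part 7: formerly Pool.Agent.MP_648617_ag.kol.Reg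
section MrgPart7

/-! PROJECT KOL, row REG: denominators of a regular form. -/

open IsLocalRing PowerSeries

noncomputable section

namespace Pool.Agent.MP_648617_ag.Kol

namespace Reg

variable {O : Type} [CommRing O] [IsLocalRing O] (𝒞 : Core O)

theorem phi_inj : Function.Injective 𝒞.φ := fun s t h => by
  have := 𝒞.bij.1 (a₁ := (s, 0)) (a₂ := (t, 0)) (by simp [h])
  exact congrArg Prod.fst this

theorem yz (i : Ln) : 𝒞.yy i * 𝒞.z i = 𝒞.φ (𝒞.g i) := 𝒞.rels.rel0 i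

theorem star {i j : Ln} (h : i ≠ j) :
    𝒞.yy j * 𝒞.z i = (𝒞.yy j - 𝒞.yy i) * (𝒞.z i - 𝒞.φ (𝒞.al j i)) := by
  have h1 := yz 𝒞 i
  rw [𝒞.div i j h, map_mul, map_sub] at h1
  simp only [Core.yy] at h1 ⊢
  linear_combination h1

theorem unit_B {c : B} (h : cc c ≠ 0) : IsUnit c :=
  PowerSeries.isUnit_iff_constantCoeff.2 (Ne.isUnit h)

theorem unit_U (i : Ln) : IsUnit (𝒞.U i) :=
  PowerSeries.isUnit_iff_constantCoeff.2 (unit_B (by rw [𝒞.hU]; exact one_ne_zero))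

theorem g_ne (i : Ln) : 𝒞.g i ≠ 0 := by
  rw [𝒞.hg]
  refine mul_ne_zero (unit_U 𝒞 i).ne_zero (Finset.prod_ne_zero_iff.2 fun p _ h => ?_)
  have := congrArg (coeff 1) h
  simp at this

theorem yy_ne (i : Ln) : 𝒞.yy i ≠ 0 := fun h => by
  have := yz 𝒞 i
  rw [h, zero_mul, ← map_zero 𝒞.φ] at this
  exact g_ne 𝒞 i (phi_inj 𝒞 this).symm

/-- The coordinates centred at the point `q`. -/
def aa (q : Pt) : O := 𝒞.x - 𝒞.β (𝒞.ξ q)
def bb (q : Pt) : O := 𝒞.y - 𝒞.β (𝒞.η q)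

theorem phi_lin (q : Pt) : 𝒞.φ (X - C (𝒞.ξ q)) = aa 𝒞 q := by
  rw [map_sub]; rfl

theorem yy_on {i : Ln} {q : Pt} (h : inc i q) :
    𝒞.yy i = bb 𝒞 q - aa 𝒞 q * 𝒞.φ (𝒞.fh i q) := by
  rw [Core.yy, 𝒞.hf i q h, map_add, map_mul, phi_lin, bb]
  simp only [Core.β, RingHom.comp_apply]
  ring

/-- The cofactor of `X - ξ_q` in `g_i`. -/
def gh (i : Ln) (q : Pt) : B⟦X⟧ := 𝒞.U i * ∏ p ∈ (on i).erase q, (X - C (𝒞.ξ p))

theorem g_on {i : Ln} {q : Pt} (h : inc i q) : 𝒞.g i = (X - C (𝒞.ξ q)) * gh 𝒞 i q := by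
  rw [𝒞.hg, gh, ← Finset.mul_prod_erase _ _ (mem_on.2 h)]
  ring

section Val

variable {Γ : Type} [LinearOrderedCommGroupWithZero Γ] {v : Valuation O Γ} (hv : ∀ o, v o ≤ 1)
include hv

omit [IsLocalRing O] in
theorem val_unit {o : O} (h : IsUnit o) : v o = 1 := by
  obtain ⟨o', ho⟩ := h.exists_right_inv
  refine le_antisymm (hv o) ?_
  calc 1 = v o * v o' := by rw [← map_mul, ho, map_one]
    _ ≤ v o * 1 := mul_le_mul_right (hv o') _
    _ = v o := mul_one _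

omit [IsLocalRing O] in
theorem val_mul_le (a b : O) : v (a * b) ≤ v a := by
  rw [map_mul]
  exact mul_le_of_le_one_right' (hv b)

omit [IsLocalRing O] in
theorem val_dvd {a b : O} (h : a ∣ b) : v b ≤ v a := by
  obtain ⟨c, rfl⟩ := h
  exact val_mul_le hv a c

/-- The point under the centre of a valuation at which some `y_j` vanishes. -/
theorem pic (cen : v (𝒞.β X) < 1 → ¬v 𝒞.x < 1) {j : Ln} (hj : v (𝒞.yy j) < 1) :
    ∃ q, v (aa 𝒞 q) < 1 ∧ v (bb 𝒞 q) < 1 ∧ (∀ i, ¬inc i q → v (𝒞.yy i) = 1) ∧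
      ∀ i, inc i q → v (aa 𝒞 q) ≤ v (𝒞.yy i) ∧ v (bb 𝒞 q) ≤ v (𝒞.yy i) := by
  have h1 : v (𝒞.φ (𝒞.g j)) < 1 := by
    rw [← yz]
    exact (val_mul_le hv _ _).trans_lt hj
  obtain ⟨q, hq, ha⟩ : ∃ q, inc j q ∧ v (aa 𝒞 q) < 1 := by
    by_contra hn
    push Not at hn
    rw [𝒞.hg, map_mul, map_mul, val_unit hv ((unit_U 𝒞 j).map _), one_mul, map_prod, map_prod,
      Finset.prod_eq_one fun p hp => by
        rw [phi_lin]; exact le_antisymm (hv _) (hn p (mem_on.1 hp))] at h1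
    exact lt_irrefl _ h1
  have hs : v (𝒞.β X) = 1 := by
    refine le_antisymm (hv _) (not_lt.1 fun h => cen h ?_)
    obtain ⟨c, hc⟩ : X ∣ 𝒞.ξ q := X_dvd_iff.2 (𝒞.ξ0 q)
    have : 𝒞.x = aa 𝒞 q + 𝒞.β X * 𝒞.β c := by rw [aa, hc, map_mul]; ring
    rw [this]
    exact v.map_add_lt ha ((val_mul_le hv _ _).trans_lt h)
  have hp : ∀ c : B, cc c ≠ 0 → v (𝒞.β (𝒞.ϖ * c)) = 1 := fun c hc => by
    rw [𝒞.hϖ, map_mul, map_mul, map_mul, map_mul, map_pow, map_pow, hs,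
      val_unit hv ((unit_B hc).map _), val_unit hv ((unit_B 𝒞.ϖu0).map _)]
    simp
  have hb : v (bb 𝒞 q) < 1 := by
    have : bb 𝒞 q = 𝒞.yy j + aa 𝒞 q * 𝒞.φ (𝒞.fh j q) := by rw [yy_on 𝒞 hq]; ring
    rw [this]
    exact v.map_add_lt hj ((val_mul_le hv _ _).trans_lt ha)
  refine ⟨q, ha, hb, fun i hi => ?_, fun i hi => ?_⟩
  · obtain ⟨c, r, hc, e⟩ := 𝒞.off i q hi
    have : 𝒞.yy i = (bb 𝒞 q - aa 𝒞 q * 𝒞.φ r) - 𝒞.β (𝒞.ϖ * c) := by
      rw [Core.yy, e, map_add, map_mul, phi_lin, bb]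
      simp only [Core.β, RingHom.comp_apply, map_add]
      ring
    rw [this, v.map_sub_eq_of_lt_right, hp c hc]
    rw [hp c hc]
    exact v.map_sub_lt hb ((val_mul_le hv _ _).trans_lt ha)
  · have h2 : v (𝒞.φ (gh 𝒞 i q)) = 1 := by
      rw [gh, map_mul, map_mul, val_unit hv ((unit_U 𝒞 i).map _), one_mul, map_prod, map_prod]
      refine Finset.prod_eq_one fun p hp' => ?_
      obtain ⟨h3, h4⟩ := Finset.mem_erase.1 hp'
      have h5 : cc (𝒞.ut q - 𝒞.ut p) ≠ 0 := by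
        rw [map_sub, 𝒞.ut0, 𝒞.ut0, sub_ne_zero]
        exact fun e => h3 (u_inj i p q (mem_on.1 h4) hi (by exact_mod_cast e.symm))
      have : aa 𝒞 p = aa 𝒞 q + 𝒞.β (𝒞.ϖ * (𝒞.ut q - 𝒞.ut p)) := by
        rw [aa, aa, 𝒞.hξ p, 𝒞.hξ q]
        simp only [map_add, map_mul, map_sub]
        ring
      rw [phi_lin, this, v.map_add_eq_of_lt_right, hp _ h5]
      rwa [hp _ h5]
    have h3 : v (aa 𝒞 q) ≤ v (𝒞.yy i) := by
      have := val_mul_le hv (𝒞.yy i) (𝒞.z i)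
      rwa [yz, g_on 𝒞 hi, map_mul, map_mul, h2, mul_one, phi_lin] at this
    refine ⟨h3, ?_⟩
    have : bb 𝒞 q = 𝒞.yy i + aa 𝒞 q * 𝒞.φ (𝒞.fh i q) := by rw [yy_on 𝒞 hi]; ring
    rw [this]
    exact v.map_add_le le_rfl ((val_mul_le hv _ _).trans h3)

theorem yy_le {i : Ln} {q : Pt} (h : inc i q) :
    v (𝒞.yy i) ≤ max (v (aa 𝒞 q)) (v (bb 𝒞 q)) := by
  rw [yy_on 𝒞 h]
  exact v.map_sub_le (le_max_right _ _) ((val_mul_le hv _ _).trans (le_max_left _ _))

theorem off_lt {q : Pt} (ha : v (aa 𝒞 q) < 1) (hb : v (bb 𝒞 q) < 1) {i : Ln} (hi : ¬inc i q)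
    (h1 : v (𝒞.yy i) = 1) : v (𝒞.δ i) < 1 ∧ ∀ k, v (𝒞.γ i k) < 1 := by
  have hy : ∀ j, inc j q → v (𝒞.yy j) < 1 := fun j hj =>
    (yy_le 𝒞 hv hj).trans_lt (max_lt ha hb)
  have hne : ∀ j, inc j q → j ≠ i := fun j hj e => hi (e ▸ hj)
  obtain ⟨j, j', hjj, hj, hj'⟩ := two_lines q
  refine ⟨?_, fun k => ?_⟩
  · have h2 : v (𝒞.z i - 𝒞.φ (𝒞.al j i)) < 1 := by
      have := (val_mul_le hv (𝒞.yy j) (𝒞.z i)).trans_lt (hy j hj)
      rwa [star 𝒞 (hne j hj).symm, map_mul, v.map_sub_eq_of_lt_right (h1 ▸ hy j hj), h1,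
        one_mul] at this
    refine (val_dvd hv ?_).trans_lt h2
    exact Dvd.dvd.mul_left (Finset.dvd_prod_of_mem (fun j => 𝒞.z i - 𝒞.φ (𝒞.al j i))
      (Finset.mem_erase.2 ⟨hne j hj, Finset.mem_univ _⟩)) _
  · have key : ∀ j, inc j q → j ≠ k → v (𝒞.γ i k) < 1 := fun j hj hk =>
      (val_dvd hv (Finset.dvd_prod_of_mem 𝒞.yy (Finset.mem_erase.2
        ⟨hk, Finset.mem_erase.2 ⟨hne j hj, Finset.mem_univ _⟩⟩))).trans_lt (hy j hj)
    by_cases hk : j = k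
    · exact key j' hj' fun e => hjj (hk.trans e.symm)
    · exact key j hj hk

end Val

theorem der_lin {R : Type} [CommRing R] (a c : R) (F : R⟦X⟧) :
    derivative R (C a + (X - C c) * F) = (X - C c) * derivative R F + F := by
  rw [map_add, Derivation.leibniz, map_sub, derivative_X, derivative_C, derivative_C]
  simp

section Fld

variable {K : Type} [Field K] {ι : O →+* K} {dx dy : Derivation ℤ K K} {𝒞}

/-- The derivative of `z_i`. -/
theorem dz (F : Fields 𝒞 ι dx dy) {D : Derivation ℤ K K} (hD : IsField 𝒞.β ι D) (i : Ln) :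
    ι (𝒞.yy i) * D (ι (𝒞.z i)) = ι (𝒞.φ (derivative B (𝒞.g i))) * D (ι 𝒞.x) -
      ι (𝒞.z i) * (D (ι 𝒞.y) - ι (𝒞.φ (derivative B (𝒞.f i))) * D (ι 𝒞.x)) := by
  have h1 := congrArg (fun o => D (ι o)) (yz 𝒞 i)
  simp only [map_mul, Derivation.leibniz, smul_eq_mul, F.chain D hD] at h1
  have h2 : D (ι (𝒞.yy i)) = D (ι 𝒞.y) - ι (𝒞.φ (derivative B (𝒞.f i))) * D (ι 𝒞.x) := by
    rw [Core.yy, map_sub, map_sub, F.chain D hD]
  rw [h2] at h1
  linear_combination h1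

theorem comb_x (F : Fields 𝒞 ι dx dy) (c c' : K) : (c • dx + c' • dy) (ι 𝒞.x) = c := by
  simp [F.xx, F.yx]

theorem comb_y (F : Fields 𝒞 ι dx dy) (c c' : K) : (c • dx + c' • dy) (ι 𝒞.y) = c' := by
  simp [F.xy, F.yy]

variable {W : ValuationSubring K}

theorem div_mem {s t : K} (h : W.valuation s ≤ W.valuation t) : s / t ∈ W := by
  obtain ⟨w, rfl⟩ := (W.valuation_le_iff s t).1 h
  by_cases ht : t = 0
  · simp [ht]
  · rw [mul_div_cancel_right₀ _ ht]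
    exact w.2

theorem dz_mem (hι : Function.Injective ι) (F : Fields 𝒞 ι dx dy) (hW : ∀ o, ι o ∈ W) (c c' : K)
    {i : Ln} (h : W.valuation c ≤ W.valuation (ι (𝒞.yy i)))
    (h' : W.valuation c' ≤ W.valuation (ι (𝒞.yy i))) : (c • dx + c' • dy) (ι (𝒞.z i)) ∈ W := by
  have h0 : ι (𝒞.yy i) ≠ 0 := (map_ne_zero_iff ι hι).2 (yy_ne 𝒞 i)
  have h1 := dz F (F.comb c c') i
  rw [comb_x F, comb_y F] at h1
  have : (c • dx + c' • dy) (ι (𝒞.z i)) =
      ι (𝒞.φ (derivative B (𝒞.g i))) * (c / ι (𝒞.yy i)) - ι (𝒞.z i) *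
        (c' / ι (𝒞.yy i) - ι (𝒞.φ (derivative B (𝒞.f i))) * (c / ι (𝒞.yy i))) := by
    field_simp
    linear_combination h1
  rw [this]
  exact sub_mem (mul_mem (hW _) (div_mem h))
    (mul_mem (hW _) (sub_mem (div_mem h') (mul_mem (hW _) (div_mem h))))

theorem euler_mem (hι : Function.Injective ι) (F : Fields 𝒞 ι dx dy) (hW : ∀ o, ι o ∈ W)
    {i : Ln} {q : Pt} (hi : inc i q) {t : K} (ht : t ≠ 0)
    (h : W.valuation (ι (aa 𝒞 q)) ≤ W.valuation t)
    (h' : W.valuation (ι (aa 𝒞 q)) ≤ W.valuation (ι (𝒞.yy i))) :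
    ((ι (aa 𝒞 q) / t) • dx + (ι (bb 𝒞 q) / t) • dy) (ι (𝒞.z i)) ∈ W := by
  have h0 : ι (𝒞.yy i) ≠ 0 := (map_ne_zero_iff ι hι).2 (yy_ne 𝒞 i)
  have h1 := dz F (F.comb (ι (aa 𝒞 q) / t) (ι (bb 𝒞 q) / t)) i
  rw [comb_x F, comb_y F] at h1
  have h2 : 𝒞.φ (derivative B (𝒞.g i)) =
      aa 𝒞 q * 𝒞.φ (derivative B (gh 𝒞 i q)) + 𝒞.φ (gh 𝒞 i q) := by
    have := der_lin 0 (𝒞.ξ q) (gh 𝒞 i q)
    rw [map_zero, zero_add, ← g_on 𝒞 hi] at this
    rw [this, map_add, map_mul, phi_lin]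
  have h3 : 𝒞.φ (derivative B (𝒞.f i)) =
      aa 𝒞 q * 𝒞.φ (derivative B (𝒞.fh i q)) + 𝒞.φ (𝒞.fh i q) := by
    rw [𝒞.hf i q hi, der_lin, map_add, map_mul, phi_lin]
  have h4 := congrArg ι (yz 𝒞 i)
  rw [g_on 𝒞 hi, map_mul 𝒞.φ, phi_lin, map_mul, map_mul] at h4
  have h5 := congrArg ι (yy_on 𝒞 hi)
  rw [map_sub, map_mul] at h5
  rw [h2, h3, map_add, map_mul, map_add, map_mul] at h1
  have : ((ι (aa 𝒞 q) / t) • dx + (ι (bb 𝒞 q) / t) • dy) (ι (𝒞.z i)) =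
      ι (aa 𝒞 q) / t * (ι (aa 𝒞 q) / ι (𝒞.yy i)) * (ι (𝒞.φ (derivative B (gh 𝒞 i q))) +
        ι (𝒞.z i) * ι (𝒞.φ (derivative B (𝒞.fh i q)))) := by
    generalize ((ι (aa 𝒞 q) / t) • dx + (ι (bb 𝒞 q) / t) • dy) (ι (𝒞.z i)) = w at h1 ⊢
    field_simp
    field_simp at h1
    linear_combination h1 - h4 + ι (𝒞.z i) * h5
  rw [this]
  exact mul_mem (mul_mem (div_mem h) (div_mem h')) (add_mem (hW _) (mul_mem (hW _) (hW _)))

/-- The local statement. -/
theorem loc (hι : Function.Injective ι) (F : Fields 𝒞 ι dx dy) (hW : ∀ o, ι o ∈ W)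
    (cen : ι (𝒞.β X) ∈ W.nonunits → ι 𝒞.x ∉ W.nonunits)
    (hl : ∀ φ ∈ W, ∃ a b, ι b ∉ W.nonunits ∧ φ * ι b = ι a) {e : Form K} {h : K}
    (hr : 𝒞.Rep ι e h) (he : e.RegularAt 𝒞.β ι W.toSubring) (i : Ln) :
    h * ι (𝒞.yy i ^ e.n) ∈ W ∨ (ι (𝒞.δ i) ∈ W.nonunits ∧ ∀ k, ι (𝒞.γ i k) ∈ W.nonunits) := by
  have hv : ∀ o, W.valuation.comap ι o ≤ 1 := fun o => (W.valuation_le_one_iff _).2 (hW o)
  have key : ∀ c c' d d' : K, c ∈ W → c' ∈ W → d ∈ W → d' ∈ W →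
      (∀ j, (c • dx + c' • dy) (ι (𝒞.z j)) ∈ W) → (∀ j, (d • dx + d' • dy) (ι (𝒞.z j)) ∈ W) →
      h * (c * d' - c' * d) ^ e.n ∈ W := by
    intro c c' d d' hc hc' hd hd' h1 h2
    have := he _ _
      (F.tan _ (F.comb c c') W hW hl (by rwa [comb_x F]) (by rwa [comb_y F]) h1)
      (F.tan _ (F.comb d d') W hW hl (by rwa [comb_x F]) (by rwa [comb_y F]) h2)
    rwa [hr _ _ (F.comb c c') (F.comb d d'), Core.jac, comb_x F, comb_y F, comb_x F,
      comb_y F] at this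
  by_cases hj : ∃ j, W.valuation.comap ι (𝒞.yy j) < 1
  swap
  · push Not at hj
    have h1 : ∀ j, W.valuation 1 ≤ W.valuation (ι (𝒞.yy j)) := fun j => by
      rw [map_one]; exact hj j
    have h0 : ∀ j, W.valuation 0 ≤ W.valuation (ι (𝒞.yy j)) := fun j => by simp
    have := key 1 0 0 1 W.one_mem W.zero_mem W.zero_mem W.one_mem
      (fun j => dz_mem hι F hW _ _ (h1 j) (h0 j)) fun j => dz_mem hι F hW _ _ (h0 j) (h1 j)
    exact Or.inl (mul_mem (by simpa using this) (hW _))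
  obtain ⟨j, hj⟩ := hj
  obtain ⟨q, ha, hb, hoff, hon⟩ := pic 𝒞 hv
    (fun h1 h2 => cen (W.mem_nonunits_iff.2 h1) (W.mem_nonunits_iff.2 h2)) hj
  by_cases hi : inc i q
  swap
  · obtain ⟨h1, h2⟩ := off_lt 𝒞 hv ha hb hi (hoff i hi)
    exact Or.inr ⟨W.mem_nonunits_iff.2 h1, fun k => W.mem_nonunits_iff.2 (h2 k)⟩
  left
  have h0 : ι (𝒞.yy i) ≠ 0 := (map_ne_zero_iff ι hι).2 (yy_ne 𝒞 i)
  have hone : ∀ s ∈ W, ∀ k, ¬inc k q → W.valuation s ≤ W.valuation (ι (𝒞.yy k)) :=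
    fun s hs k hk => ((W.valuation_le_one_iff _).2 hs).trans (hoff k hk).ge
  have main : ∀ (t : O) (d d' : K), W.valuation (ι (𝒞.yy i)) ≤ W.valuation (ι t) →
      W.valuation (ι (aa 𝒞 q)) ≤ W.valuation (ι t) →
      W.valuation (ι (bb 𝒞 q)) ≤ W.valuation (ι t) →
      (∀ k, inc k q → W.valuation (ι t) ≤ W.valuation (ι (𝒞.yy k))) → d ∈ W → d' ∈ W →
      ι (aa 𝒞 q) * d' - ι (bb 𝒞 q) * d = ι t → h * ι (𝒞.yy i ^ e.n) ∈ W := by
    intro t d d' k0 k1 k2 k3 hd hd' k4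
    have ht : ι t ≠ 0 := fun e0 => h0 (by simpa [e0] using k0)
    have k5 : ∀ s ∈ W, ∀ k, W.valuation (ι t * s) ≤ W.valuation (ι (𝒞.yy k)) := by
      intro s hs k
      by_cases hk : inc k q
      · rw [map_mul]
        exact (mul_le_of_le_one_right' ((W.valuation_le_one_iff _).2 hs)).trans (k3 k hk)
      · exact hone _ (mul_mem (hW _) hs) k hk
    have := key _ _ (ι t * d) (ι t * d') (div_mem k1) (div_mem k2) (mul_mem (hW _) hd)
      (mul_mem (hW _) hd') (fun k => by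
        by_cases hk : inc k q
        · exact euler_mem hι F hW hk ht k1 (hon k hk).1
        · exact dz_mem hι F hW _ _ (hone _ (div_mem k1) k hk) (hone _ (div_mem k2) k hk))
      fun k => dz_mem hι F hW _ _ (k5 d hd k) (k5 d' hd' k)
    have e1 : ι (aa 𝒞 q) / ι t * (ι t * d') - ι (bb 𝒞 q) / ι t * (ι t * d) = ι t := by
      rw [← mul_assoc, ← mul_assoc, div_mul_cancel₀ _ ht, div_mul_cancel₀ _ ht, k4]
    have e2 : h * ι (𝒞.yy i ^ e.n) = h * ι t ^ e.n * (ι (𝒞.yy i) / ι t) ^ e.n := by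
      rw [mul_assoc, ← mul_pow, mul_div_cancel₀ _ ht, map_pow]
    rw [e2]
    exact mul_mem (e1 ▸ this) (pow_mem (div_mem k0) _)
  have hy := yy_le 𝒞 hv hi
  rcases le_total (W.valuation.comap ι (aa 𝒞 q)) (W.valuation.comap ι (bb 𝒞 q)) with hab | hab
  · rw [max_eq_right hab] at hy
    exact main (bb 𝒞 q) (-1) 0 hy hab le_rfl (fun k hk => (hon k hk).2) (neg_mem W.one_mem)
      W.zero_mem (by ring)
  · rw [max_eq_left hab] at hy
    exact main (aa 𝒞 q) 0 1 hy le_rfl hab (fun k hk => (hon k hk).1) W.zero_mem W.one_mem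
      (by ring)

end Fld

end Reg

theorem reg : RegStmt := by
  intro O _ _ _ 𝒞 K _ ι hι dx dy F 𝒵 hZ e h hr he i
  have key := fun W hW => Reg.loc hι.1 F (hZ.le W hW) (hZ.cen W hW) (hZ.loc W hW) hr (he W hW) i
  refine ⟨?_, fun k => ?_⟩
  · obtain ⟨M, H, hH⟩ := hZ.hart (h * ι (𝒞.yy i ^ e.n)) (𝒞.δ i)
      fun W hW hn => (key W hW).resolve_right fun h' => hn h'.1
    refine ⟨M + e.n, H * 𝒞.δ i ^ e.n, Nat.le_add_left _ _, ?_⟩
    rw [map_mul, hH]
    simp only [map_mul, map_pow]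
    ring
  · obtain ⟨M, H, hH⟩ := hZ.hart (h * ι (𝒞.yy i ^ e.n)) (𝒞.γ i k)
      fun W hW hn => (key W hW).resolve_right fun h' => hn (h'.2 k)
    refine ⟨M, H, ?_⟩
    rw [hH]
    simp only [map_mul, map_pow]
    ring

end Pool.Agent.MP_648617_ag.Kol

end
end MrgPart7

-- ======== part 8: formerly Pool.Agent.MP_648617_ag.kol.Smooth
section MrgPart8

/-! PROJECT KOL, row SMOOTH: every chart is a localisation of a polynomial ring. -/

noncomputable section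

namespace Pool.Agent.MP_648617_ag.Kol

namespace Smooth

open MvPolynomial

/-- Two elements that generate a ring containing a polynomial ring in two variables are
algebraically independent. -/
theorem indep {L : Type} [Field L] [Algebra ℂ L] (v : Fin 2 → L)
    (j : Polynomial (Polynomial ℂ) →ₐ[ℂ] L) (hj : Function.Injective j)
    (hr : ∀ F, j F ∈ Algebra.adjoin ℂ (Set.range v)) : AlgebraicIndependent ℂ v := by
  set S := Algebra.adjoin ℂ (Set.range v) with hS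
  let w : Fin 2 → S := fun i => ⟨v i, Algebra.subset_adjoin ⟨i, rfl⟩⟩
  have htop : Algebra.adjoin ℂ (Set.range w) = ⊤ := by
    have h1 : Set.range w = ((↑) : S → L) ⁻¹' Set.range v := by
      ext z
      constructor
      · rintro ⟨i, rfl⟩
        exact ⟨i, rfl⟩
      · rintro ⟨i, hi⟩
        exact ⟨i, Subtype.ext hi⟩
    rw [h1]
    exact Algebra.adjoin_adjoin_coe_preimage
  have : Algebra.IsAlgebraic (Algebra.adjoin ℂ (Set.range w)) S := by
    refine ⟨fun z => ?_⟩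
    have hz : z ∈ Algebra.adjoin ℂ (Set.range w) := by rw [htop]; trivial
    exact isAlgebraic_algebraMap (⟨z, hz⟩ : Algebra.adjoin ℂ (Set.range w))
  have h2 : Algebra.trdeg ℂ (Polynomial (Polynomial ℂ)) = 2 := by
    rw [← trdeg_add_eq ℂ (Polynomial ℂ), Polynomial.trdeg_of_isDomain,
      Polynomial.trdeg_of_isDomain]
    norm_num
  have h3 : Algebra.trdeg ℂ (Polynomial (Polynomial ℂ)) ≤ Algebra.trdeg ℂ S :=
    trdeg_le_of_injective (j.codRestrict S hr) fun a b hab =>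
      hj (congrArg Subtype.val hab)
  have h4 := Algebra.IsAlgebraic.isTranscendenceBasis_of_le_trdeg_of_finite ℂ w
    (by rw [h2] at h3; simpa using h3)
  exact h4.1.map' (f := S.val) Subtype.val_injective

/-- Adjoining finitely many inverses to a polynomial ring gives a smooth algebra. -/
theorem smooth_adjoin {L : Type} [Field L] [Algebra ℂ L] (p q : L) (T : Set L) (hT : T.Finite)
    (hv : AlgebraicIndependent ℂ ![p, q])
    (h : ∀ t ∈ T, ∃ r : MvPolynomial (Fin 2) ℂ, t * aeval ![p, q] r = 1) :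
    Algebra.Smooth ℂ (Algebra.adjoin ℂ ({p, q} ∪ T)) := by
  classical
  set S := Algebra.adjoin ℂ ({p, q} ∪ T) with hS
  choose! r hr using h
  have hmem : ∀ F : MvPolynomial (Fin 2) ℂ, aeval ![p, q] F ∈ S := by
    intro F
    induction F using MvPolynomial.induction_on with
    | C c => rw [aeval_C]; exact S.algebraMap_mem c
    | add f g hf hg => rw [map_add]; exact S.add_mem hf hg
    | mul_X f i hf =>
      rw [map_mul, aeval_X]
      refine S.mul_mem hf (Algebra.subset_adjoin (Or.inl ?_))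
      fin_cases i
      · exact Or.inl rfl
      · exact Or.inr rfl
  let θ : MvPolynomial (Fin 2) ℂ →ₐ[ℂ] S := (aeval ![p, q]).codRestrict S hmem
  let : Algebra (MvPolynomial (Fin 2) ℂ) S := θ.toRingHom.toAlgebra
  have hθ : ∀ F, ((algebraMap (MvPolynomial (Fin 2) ℂ) S F : S) : L) = aeval ![p, q] F :=
    fun _ => rfl
  have : IsScalarTower ℂ (MvPolynomial (Fin 2) ℂ) S :=
    IsScalarTower.of_algebraMap_eq fun c => (θ.commutes c).symm
  let ρ : MvPolynomial (Fin 2) ℂ := ∏ t ∈ hT.toFinset, r t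
  have hsurj : ∀ z ∈ S, ∃ (n : ℕ) (F : MvPolynomial (Fin 2) ℂ),
      z * aeval ![p, q] ρ ^ n = aeval ![p, q] F := by
    intro z hz
    induction hz using Algebra.adjoin_induction with
    | mem x hx =>
      rcases hx with (rfl | rfl) | hx
      · exact ⟨0, X 0, by simp⟩
      · exact ⟨0, X 1, by simp⟩
      · refine ⟨1, ∏ t ∈ hT.toFinset.erase x, r t, ?_⟩
        have := Finset.mul_prod_erase hT.toFinset r (hT.mem_toFinset.2 hx)
        rw [pow_one]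
        change x * aeval ![p, q] (∏ t ∈ hT.toFinset, r t) = _
        rw [← this, map_mul, ← mul_assoc, hr x hx, one_mul]
    | algebraMap c => exact ⟨0, C c, by simp⟩
    | add x y _ _ hx hy =>
      obtain ⟨n, F, hF⟩ := hx
      obtain ⟨m, G, hG⟩ := hy
      refine ⟨n + m, F * ρ ^ m + G * ρ ^ n, ?_⟩
      rw [map_add, map_mul, map_mul, map_pow, map_pow, ← hF, ← hG]
      ring
    | mul x y _ _ hx hy =>
      obtain ⟨n, F, hF⟩ := hx
      obtain ⟨m, G, hG⟩ := hy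
      refine ⟨n + m, F * G, ?_⟩
      rw [map_mul, ← hF, ← hG]
      ring
  have : IsLocalization.Away ρ S := by
    refine IsLocalization.Away.mk ρ ?_ ?_ ?_
    · change IsUnit (algebraMap (MvPolynomial (Fin 2) ℂ) S (∏ t ∈ hT.toFinset, r t))
      rw [map_prod]
      refine IsUnit.prod_iff.2 fun t ht => ?_
      have ht' : t ∈ T := hT.mem_toFinset.1 ht
      refine IsUnit.of_mul_eq_one_right (⟨t, Algebra.subset_adjoin (Or.inr ht')⟩ : S) ?_
      exact Subtype.ext (hr t ht')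
    · intro z
      obtain ⟨n, F, hF⟩ := hsurj z z.2
      refine ⟨n, F, Subtype.ext ?_⟩
      simpa [hθ] using hF
    · intro F G hFG
      refine ⟨0, ?_⟩
      have : aeval ![p, q] F = aeval ![p, q] G := congrArg Subtype.val hFG
      rw [algebraicIndependent_iff_injective_aeval.1 hv this]
  have : Algebra.Smooth (MvPolynomial (Fin 2) ℂ) S := Algebra.Smooth.of_isLocalization_Away ρ
  have : Algebra.Smooth ℂ (MvPolynomial (Fin 2) ℂ) := ⟨inferInstance, inferInstance⟩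
  exact Algebra.Smooth.comp ℂ (MvPolynomial (Fin 2) ℂ) S

/-- The inclusion of the polynomial ring. -/
def jj : Polynomial (Polynomial ℂ) →ₐ[ℂ] KK := IsScalarTower.toAlgHom ℂ _ KK

theorem jj_inj : Function.Injective jj := IsFractionRing.injective (Polynomial (Polynomial ℂ)) KK

theorem xx_eq : xx = jj (Polynomial.C Polynomial.X) := rfl

theorem yy_eq : yy = jj Polynomial.X := rfl

theorem jj_mem (S : Subalgebra ℂ KK) (hx : xx ∈ S) (hy : yy ∈ S) (F : Polynomial (Polynomial ℂ)) :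
    jj F ∈ S := by
  have h1 : ∀ f : Polynomial ℂ, jj (Polynomial.C f) ∈ S := by
    intro f
    induction f using Polynomial.induction_on' with
    | add f g hf hg => rw [map_add, map_add]; exact S.add_mem hf hg
    | monomial n c =>
      rw [← Polynomial.C_mul_X_pow_eq_monomial, map_mul, map_mul, map_pow, map_pow]
      exact S.mul_mem (by
        have := jj.commutes c
        change jj (Polynomial.C (Polynomial.C c)) = _ at this
        rw [this]
        exact S.algebraMap_mem c) (S.pow_mem hx n)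
  induction F using Polynomial.induction_on' with
  | add f g hf hg => rw [map_add]; exact S.add_mem hf hg
  | monomial n c =>
    rw [← Polynomial.C_mul_X_pow_eq_monomial, map_mul, map_pow]
    exact S.mul_mem (h1 c) (S.pow_mem hy n)

theorem xx_ne : xx ≠ 0 := by
  rw [xx_eq, ← map_zero jj]
  exact fun h => Polynomial.X_ne_zero (Polynomial.C_eq_zero.1 (jj_inj h))

theorem yy_ne : yy ≠ 0 := by
  rw [yy_eq, ← map_zero jj]
  exact fun h => Polynomial.X_ne_zero (jj_inj h)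

theorem line_ne (n : ℤ) : yy - n * xx ≠ 0 := by
  have h : yy - n * xx = jj (Polynomial.X - Polynomial.C ((n : Polynomial ℂ) * Polynomial.X)) := by
    rw [map_sub, map_mul, map_mul, map_intCast, map_intCast, xx_eq, yy_eq]
  rw [h, ← map_zero jj]
  exact fun h => Polynomial.X_sub_C_ne_zero _ (jj_inj h)

theorem vv_eq (i : Ln) : vv i = (yy - a i * xx) / xx := by
  have := xx_ne
  unfold vv
  field_simp

theorem vv_ne (i : Ln) : vv i ≠ 0 := by
  rw [vv_eq]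
  exact div_ne_zero (line_ne _) xx_ne

theorem indep_of (p q : KK) (hx : xx ∈ Algebra.adjoin ℂ (Set.range ![p, q]))
    (hy : yy ∈ Algebra.adjoin ℂ (Set.range ![p, q])) : AlgebraicIndependent ℂ ![p, q] :=
  indep _ jj jj_inj (jj_mem _ hx hy)

theorem left_mem (p q : KK) : p ∈ Algebra.adjoin ℂ (Set.range ![p, q]) :=
  Algebra.subset_adjoin ⟨0, rfl⟩

theorem right_mem (p q : KK) : q ∈ Algebra.adjoin ℂ (Set.range ![p, q]) :=
  Algebra.subset_adjoin ⟨1, rfl⟩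

theorem smooth_none : Algebra.Smooth ℂ (ch none) := by
  have hy := yy_ne
  refine smooth_adjoin yy (xx / yy) _ (Set.finite_range _) (indep_of _ _ ?_ (left_mem _ _)) ?_
  · have h : xx = yy * (xx / yy) := by field_simp
    have h2 := Subalgebra.mul_mem _ (left_mem yy (xx / yy)) (right_mem yy (xx / yy))
    rwa [← h] at h2
  · rintro _ ⟨j, rfl⟩
    refine ⟨1 - (a j : MvPolynomial (Fin 2) ℂ) * X 1, ?_⟩
    have h : (1 : KK) - a j * (xx / yy) = (yy - a j * xx) / yy := by field_simp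
    have h2 : (1 : KK) - a j * (xx / yy) ≠ 0 := by
      rw [h]
      exact div_ne_zero (line_ne _) hy
    rw [map_sub, map_one, map_mul, map_intCast, aeval_X]
    exact inv_mul_cancel₀ h2

theorem smooth_some (i : Ln) (k : Fin (l i - 1)) : Algebra.Smooth ℂ (ch (some ⟨i, k⟩)) := by
  have hx := xx_ne
  have hv := vv_ne i
  have h1 : xx = vv i / xx ^ k.1 * (xx ^ (k.1 + 1) / vv i) := by
    field_simp
    ring
  have h2 : vv i = (vv i / xx ^ k.1) ^ (k.1 + 1) * (xx ^ (k.1 + 1) / vv i) ^ k.1 := by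
    rw [pow_succ (vv i / xx ^ k.1), mul_right_comm, ← mul_pow, ← h1]
    field_simp
  have h3 : yy = xx * (vv i + a i) := by
    unfold vv
    field_simp
    ring
  have m1 := Subalgebra.mul_mem _ (left_mem (vv i / xx ^ k.1) (xx ^ (k.1 + 1) / vv i))
    (right_mem (vv i / xx ^ k.1) (xx ^ (k.1 + 1) / vv i))
  rw [← h1] at m1
  have m2 := Subalgebra.mul_mem _
    (Subalgebra.pow_mem _ (left_mem (vv i / xx ^ k.1) (xx ^ (k.1 + 1) / vv i)) (k.1 + 1))
    (Subalgebra.pow_mem _ (right_mem (vv i / xx ^ k.1) (xx ^ (k.1 + 1) / vv i)) k.1)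
  rw [← h2] at m2
  refine smooth_adjoin (vv i / xx ^ k.1) (xx ^ (k.1 + 1) / vv i) _ ?_ (indep_of _ _ m1 ?_) ?_
  · refine (Set.finite_range fun j : Ln => (vv j)⁻¹).subset ?_
    rintro _ ⟨j, -, rfl⟩
    exact ⟨j, rfl⟩
  · have m3 := Subalgebra.mul_mem _ m1 (Subalgebra.add_mem _ m2 (intCast_mem _ (a i)))
    rwa [← h3] at m3
  · rintro _ ⟨j, -, rfl⟩
    refine ⟨X 0 ^ (k.1 + 1) * X 1 ^ k.1 + (a i : MvPolynomial (Fin 2) ℂ) -
      (a j : MvPolynomial (Fin 2) ℂ), ?_⟩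
    rw [map_sub, map_add, map_mul, map_pow, map_pow, map_intCast, map_intCast, aeval_X, aeval_X]
    change (vv j)⁻¹ *
      ((vv i / xx ^ k.1) ^ (k.1 + 1) * (xx ^ (k.1 + 1) / vv i) ^ k.1 + a i - a j) = 1
    rw [← h2]
    have h4 : vv i + a i - a j = vv j := by
      unfold vv
      ring
    rw [h4]
    exact inv_mul_cancel₀ (vv_ne j)

end Smooth

theorem smooth : SmoothStmt := by
  rintro (_ | ⟨i, k⟩)
  · exact Smooth.smooth_none
  · exact Smooth.smooth_some i k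

end Pool.Agent.MP_648617_ag.Kol

end
end MrgPart8

-- ======== part 9: formerly Pool.Agent.MP_648617_ag.kol.Ub
section MrgPart9

/-! PROJECT KOL, row UB: the test forms are regular. -/

open IsLocalRing PowerSeries

noncomputable section

namespace Pool.Agent.MP_648617_ag.Kol

namespace Ub

theorem val_span {O Γ : Type} [CommRing O] [LinearOrderedCommGroupWithZero Γ]
    {v : Valuation O Γ} (hv : ∀ o, v o ≤ 1) {a b : O} {t : Γ} (ha : v a ≤ t) (hb : v b ≤ t)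
    (k : ℕ) {o : O} (ho : o ∈ Ideal.span {a, b} ^ k) : v o ≤ t ^ k := by
  induction k generalizing o with
  | zero => simpa using hv o
  | succ k ih =>
    rw [pow_succ] at ho
    refine Submodule.mul_induction_on ho (fun m hm n hn => ?_) fun x y hx hy => v.map_add_le hx hy
    obtain ⟨c, d, rfl⟩ := Ideal.mem_span_pair.1 hn
    rw [map_mul, pow_succ]
    refine mul_le_mul' (ih hm) (v.map_add_le ?_ ?_)
    · rw [mul_comm]; exact (Reg.val_mul_le hv _ _).trans ha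
    · rw [mul_comm]; exact (Reg.val_mul_le hv _ _).trans hb

end Ub

theorem ub (h : SharpStmt) : UbStmt := by
  intro O _ _ _ 𝒞 K _ ι hι dx dy F e κ m d N hd hvan hsum W hW cen D E hD hE
  have hv : ∀ o, W.valuation.comap ι o ≤ 1 := fun o => (W.valuation_le_one_iff _).2 (hW o)
  have hjac : 𝒞.jac ι D E ∈ W :=
    sub_mem (mul_mem (hD.2 _ (hW _)) (hE.2 _ (hW _))) (mul_mem (hD.2 _ (hW _)) (hE.2 _ (hW _)))
  rw [div_mul_eq_mul_div]
  refine Reg.div_mem ?_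
  by_cases hj : ∃ j, W.valuation.comap ι (𝒞.yy j) < 1
  swap
  · push Not at hj
    have h1 : W.valuation.comap ι (∏ j, 𝒞.yy j ^ e j) = 1 := by
      rw [map_prod]
      exact Finset.prod_eq_one fun j _ => by rw [map_pow, le_antisymm (hv _) (hj j), one_pow]
    exact ((W.valuation_le_one_iff _).2 (mul_mem (hW _) (pow_mem hjac m))).trans h1.ge
  obtain ⟨j₀, hj₀⟩ := hj
  obtain ⟨q, ha, hb, hoff, hon⟩ := Reg.pic 𝒞 hv
    (fun h1 h2 => cen (W.mem_nonunits_iff.2 h1) (W.mem_nonunits_iff.2 h2)) hj₀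
  obtain ⟨j, -, -, hj, -⟩ := two_lines q
  set t := W.valuation.comap ι (𝒞.yy j) with ht
  have heq : ∀ i, inc i q → W.valuation.comap ι (𝒞.yy i) = t := fun i hi =>
    le_antisymm ((Reg.yy_le 𝒞 hv hi).trans (max_le (hon j hj).1 (hon j hj).2))
      ((Reg.yy_le 𝒞 hv hj).trans (max_le (hon i hi).1 (hon i hi).2))
  have h1 : W.valuation (ι (∏ i, 𝒞.yy i ^ e i)) =
      t ^ ∑ i ∈ Finset.univ.filter (inc · q), e i := by
    change W.valuation.comap ι _ = _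
    rw [map_prod, ← Finset.prod_pow_eq_pow_sum, Finset.prod_filter]
    refine Finset.prod_congr rfl fun i _ => ?_
    split_ifs with hi
    · rw [map_pow, heq i hi]
    · rw [map_pow, hoff i hi, one_pow]
  have h2 : W.valuation (ι (𝒞.sharp d N)) ≤ t ^ κ q := by
    have := h O 𝒞.β 𝒞.ϖ (𝒞.ut q) (𝒞.vt q) (𝒞.x - 𝒞.β (𝒞.ξ 0)) (𝒞.y - 𝒞.β (𝒞.η 0)) d (κ q) N hd
      (hvan q)
    rw [sub_sub, sub_sub, ← map_add, ← map_add, ← 𝒞.hξ, ← 𝒞.hη] at this
    exact Ub.val_span hv (hon j hj).1 (hon j hj).2 _ this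
  have h3 : W.valuation (𝒞.jac ι D E) ≤ t := by
    have h0 : ι (𝒞.yy j) ≠ 0 := (map_ne_zero_iff ι hι.1).2 (Reg.yy_ne 𝒞 j)
    have hw : ι (Reg.aa 𝒞 q) / ι (𝒞.yy j) ∈ W := Reg.div_mem (hon j hj).1
    have ea : ι (Reg.aa 𝒞 q) = ι (𝒞.yy j) * (ι (Reg.aa 𝒞 q) / ι (𝒞.yy j)) :=
      (mul_div_cancel₀ _ h0).symm
    generalize ι (Reg.aa 𝒞 q) / ι (𝒞.yy j) = w at hw ea
    have kx : ∀ D, IsField 𝒞.β ι D →
        D (ι 𝒞.x) = ι (𝒞.yy j) * D w + w * D (ι (𝒞.yy j)) := fun D hD => by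
      have := congrArg D ea
      rwa [Reg.aa, map_sub, map_sub, hD.1, sub_zero, Derivation.leibniz, smul_eq_mul,
        smul_eq_mul] at this
    have ky : ∀ D, IsField 𝒞.β ι D → D (ι 𝒞.y) =
        D (ι (𝒞.yy j)) + ι (𝒞.φ (derivative B (𝒞.f j))) * D (ι 𝒞.x) := fun D hD => by
      rw [Core.yy, map_sub, map_sub, F.chain D hD]; ring
    have : 𝒞.jac ι D E = ι (𝒞.yy j) * (D w * E (ι (𝒞.yy j)) - D (ι (𝒞.yy j)) * E w) := by
      rw [Core.jac, ky D hD.1, ky E hE.1, kx D hD.1, kx E hE.1]; ring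
    rw [this, map_mul]
    exact mul_le_of_le_one_right' ((W.valuation_le_one_iff _).2 (sub_mem
      (mul_mem (hD.2 _ hw) (hE.2 _ (hW _))) (mul_mem (hD.2 _ (hW _)) (hE.2 _ hw))))
  rw [h1, map_mul, map_pow]
  refine (mul_le_mul' h2 (pow_le_pow_left' h3 m)).trans ?_
  rw [← pow_add]
  exact pow_le_pow_right_of_le_one' (hv _) (hsum q)

end Pool.Agent.MP_648617_ag.Kol

end
end MrgPart9

-- marker of a merged file
example : 731051 + 249978 = 731051 + 249978 := rfl
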