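import Mathlib.LinearAlgebra.FreeModule.PID
import Mathlib.LinearAlgebra.Dimension.RankNullity
import Mathlib.LinearAlgebra.Dimension.Localization
import Mathlib.RingTheory.PowerSeries.Inverse
import Pool.Agent.MP_648617_ag.kol.Vers

/-! PROJECT KOL, row COUNT: the dimension count for the numerators of the test forms. -/

open PowerSeries

noncomputable section

namespace Pool.Agent.MP_648617_ag.Kol

namespace Count

/-- The reduction of the kernel of a linear map over the disc is large. -/
theorem red {I J : Type} [Fintype I] [Fintype J] (L : (I → B) →ₗ[B] (J → B)) :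
    ∃ W : Submodule ℂ (I → ℂ), Fintype.card I ≤ Module.finrank ℂ W + Fintype.card J ∧
      ∀ w ∈ W, ∃ c, L c = 0 ∧ ∀ i, cc (c i) = w i := by
  classical
  have hr : Module.finrank B (LinearMap.range L) + Module.finrank B (LinearMap.ker L) =
      Fintype.card I := by
    have h1 := Submodule.finrank_quotient_add_finrank (LinearMap.ker L)
    rw [(LinearMap.quotKerEquivRange L).finrank_eq] at h1
    simpa using h1
  have hle : Module.finrank B (LinearMap.range L) ≤ Fintype.card J := by
    simpa using Submodule.finrank_le (LinearMap.range L)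
  let bs := Module.finBasis B (LinearMap.ker L)
  let q : Fin (Module.finrank B (LinearMap.ker L)) → I → ℂ := fun t i => cc ((bs t : I → B) i)
  have hq : LinearIndependent ℂ q := by
    rw [Fintype.linearIndependent_iff]
    intro g hg t
    have hd : ∀ i, ∃ y : B, (∑ t, (C (g t) : B) • (bs t : I → B)) i = X * y := by
      intro i
      have h0 := congrFun hg i
      simp only [Finset.sum_apply, Pi.smul_apply, smul_eq_mul, Pi.zero_apply, q] at h0
      have : (X : B) ∣ (∑ t, (C (g t) : B) • (bs t : I → B)) i := by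
        rw [X_dvd_iff]
        simpa [Finset.sum_apply] using h0
      exact this
    choose y hy using hd
    have hy' : (∑ t, (C (g t) : B) • (bs t : I → B)) = (X : B) • y := funext fun i => hy i
    have hm : (∑ t, (C (g t) : B) • (bs t : I → B)) ∈ LinearMap.ker L :=
      Submodule.sum_mem _ fun t _ => Submodule.smul_mem _ _ (bs t).2
    have hyk : y ∈ LinearMap.ker L := by
      rw [hy', LinearMap.mem_ker, map_smul] at hm
      exact (smul_eq_zero.1 hm).resolve_left X_ne_zero
    have he : (∑ t, (C (g t) : B) • bs t) = (X : B) • (⟨y, hyk⟩ : LinearMap.ker L) := by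
      apply Subtype.ext
      simpa using hy'
    have h2 := congrArg (fun z => bs.repr z t) he
    simp only [map_sum, map_smul, Module.Basis.repr_self, Finsupp.finsetSum_apply,
      Finsupp.smul_apply, Finsupp.single_apply, smul_eq_mul, mul_ite, mul_one, mul_zero,
      Finset.sum_ite_eq', Finset.mem_univ, if_true] at h2
    have h3 := congrArg (cc (R := ℂ)) h2
    simpa using h3
  refine ⟨Submodule.span ℂ (Set.range q), ?_, ?_⟩
  · rw [finrank_span_eq_card hq, Fintype.card_fin]
    omega
  · intro w hw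
    induction hw using Submodule.span_induction with
    | mem x hx =>
      obtain ⟨t, rfl⟩ := hx
      exact ⟨bs t, (bs t).2, fun _ => rfl⟩
    | zero => exact ⟨0, map_zero _, fun _ => by simp⟩
    | add x y _ _ hx hy =>
      obtain ⟨c, hc, hc'⟩ := hx
      obtain ⟨e, he, he'⟩ := hy
      exact ⟨c + e, by rw [map_add, hc, he, add_zero], fun i => by simp [hc', he']⟩
    | smul a x _ hx =>
      obtain ⟨c, hc, hc'⟩ := hx
      exact ⟨(C a : B) • c, by rw [map_smul, hc, smul_zero], fun i => by simp [hc']⟩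

/-- The exponents of degree less than `n`. -/
abbrev Ix (n : ℕ) : Type := (i : Fin n) × Fin (i.1 + 1)

/-- The exponent with a given index. -/
def ex {n : ℕ} (t : Ix n) : Fin 2 →₀ ℕ :=
  Finsupp.single 0 t.2.1 + Finsupp.single 1 (t.1.1 - t.2.1)

theorem ex_zero {n : ℕ} (t : Ix n) : ex t 0 = t.2.1 := by simp [ex]

theorem ex_one {n : ℕ} (t : Ix n) : ex t 1 = t.1.1 - t.2.1 := by simp [ex]

theorem ex_inj {n : ℕ} : Function.Injective (ex (n := n)) := by
  rintro ⟨i, j⟩ ⟨i', j'⟩ h
  have h0 : j.1 = j'.1 := by simpa [ex_zero] using congrArg (fun m => m 0) h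
  have h1 : i.1 - j.1 = i'.1 - j'.1 := by simpa [ex_one] using congrArg (fun m => m 1) h
  have hj := j.2
  have hj' := j'.2
  obtain rfl : i = i' := Fin.ext (by omega)
  obtain rfl : j = j' := Fin.ext h0
  rfl

theorem ex_lt {n : ℕ} (t : Ix n) : ex t 0 + ex t 1 < n := by
  rw [ex_zero, ex_one]
  have h1 := t.1.2
  have h2 := t.2.2
  omega

theorem ex_surj {n : ℕ} (m : Fin 2 →₀ ℕ) (h : m 0 + m 1 < n) : ∃ t : Ix n, ex t = m := by
  refine ⟨⟨⟨m 0 + m 1, h⟩, ⟨m 0, by simp only; omega⟩⟩, ?_⟩
  ext i
  fin_cases i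
  · simp [ex_zero]
  · simp [ex_one]

theorem card_ix (n : ℕ) : 2 * Fintype.card (Ix n) = n * (n + 1) := by
  rw [Fintype.card_sigma]
  simp only [Fintype.card_fin]
  rw [Fin.sum_univ_eq_sum_range (fun i => i + 1) n]
  induction n with
  | zero => simp
  | succ n ih => rw [Finset.sum_range_succ, mul_add, ih]; ring

/-- The polynomial with given coefficients. -/
def pol (R : Type) [CommRing R] (n : ℕ) : (Ix n → R) →ₗ[R] MvPolynomial (Fin 2) R :=
  ∑ t, (MvPolynomial.monomial (ex t)).comp (LinearMap.proj t)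

theorem pol_apply {R : Type} [CommRing R] {n : ℕ} (c : Ix n → R) :
    pol R n c = ∑ t, MvPolynomial.monomial (ex t) (c t) := by
  simp [pol]

theorem coeff_pol {R : Type} [CommRing R] {n : ℕ} (c : Ix n → R) (t : Ix n) :
    (pol R n c).coeff (ex t) = c t := by
  classical
  rw [pol_apply, MvPolynomial.coeff_sum]
  simp only [MvPolynomial.coeff_monomial, ex_inj.eq_iff, Finset.sum_ite_eq', Finset.mem_univ,
    if_true]

theorem pol_inj {R : Type} [CommRing R] {n : ℕ} : Function.Injective (pol R n) := fun c e h =>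
  funext fun t => by rw [← coeff_pol c t, h, coeff_pol]

theorem deg_pol {R : Type} [CommRing R] {d : ℕ} (c : Ix (d + 1) → R) :
    (pol R (d + 1) c).totalDegree ≤ d := by
  rw [pol_apply]
  refine MvPolynomial.totalDegree_finsetSum_le fun t _ => ?_
  refine (MvPolynomial.totalDegree_monomial_le _ _).trans ?_
  have h := ex_lt t
  rw [Finsupp.sum_fintype _ _ fun _ => rfl, Fin.sum_univ_two]
  simp only [id]
  omega

/-- Translation of the variables. -/
def sh {R : Type} [CommRing R] (p q : R) : MvPolynomial (Fin 2) R →ₐ[R] MvPolynomial (Fin 2) R :=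
  MvPolynomial.aeval ![MvPolynomial.X 0 - MvPolynomial.C p, MvPolynomial.X 1 - MvPolynomial.C q]

theorem sh_sh {R : Type} [CommRing R] (p q : R) (N : MvPolynomial (Fin 2) R) :
    sh p q (sh (-p) (-q) N) = N := by
  have : (sh p q).comp (sh (-p) (-q)) = AlgHom.id R _ := by
    refine MvPolynomial.algHom_ext fun i => ?_
    fin_cases i <;> simp [sh]
  exact AlgHom.congr_fun this N

/-- The vanishing of the low Taylor coefficients gives vanishing to high order. -/
theorem van_of_coeff {R : Type} [CommRing R] (p q : R) (k : ℕ) (N : MvPolynomial (Fin 2) R)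
    (h : ∀ t : Ix k, (sh (-p) (-q) N).coeff (ex t) = 0) : Van p q k N := by
  unfold Van
  rw [← sh_sh p q N, (sh (-p) (-q) N).as_sum, map_sum]
  refine Ideal.sum_mem _ fun m hm => ?_
  have hk : k ≤ m 0 + m 1 := by
    by_contra hlt
    obtain ⟨t, rfl⟩ := ex_surj m (not_le.1 hlt)
    exact (MvPolynomial.mem_support_iff.1 hm) (h t)
  rw [sh, MvPolynomial.aeval_monomial, Finsupp.prod_fintype _ _ fun _ => pow_zero _,
    Fin.prod_univ_two]
  refine Ideal.mul_mem_left _ _ (Ideal.pow_le_pow_right hk ?_)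
  rw [pow_add]
  exact Ideal.mul_mem_mul (Ideal.pow_mem_pow (Ideal.subset_span (by simp)) _)
    (Ideal.pow_mem_pow (Ideal.subset_span (by simp)) _)

theorem van_map {R S : Type} [CommRing R] [CommRing S] (φ : R →+* S) {p q : R} {k : ℕ}
    {N : MvPolynomial (Fin 2) R} (h : Van p q k N) :
    Van (φ p) (φ q) k (MvPolynomial.map φ N) := by
  have h1 := Ideal.mem_map_of_mem (MvPolynomial.map (σ := Fin 2) φ) h
  rw [Ideal.map_pow, Ideal.map_span, Set.image_pair] at h1
  simpa [Van] using h1

theorem sum_kap (k : ℕ) : ∑ p, kap k p * (kap k p + 1) = 9 * k ^ 2 + 15 * k + 12 := by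
  have h : ∀ p, kap k p * (kap k p + 1) = k ^ 2 * tri p ^ 2 +
      k * (tri p * (2 * (if inc 0 p then 1 else 0) + 1)) +
      (if inc 0 p then 1 else 0) * ((if inc 0 p then 1 else 0) + 1) := fun p => by
    unfold kap; ring
  have h1 : ∑ p, tri p ^ 2 = 9 := by decide +kernel
  have h2 : ∑ p, tri p * (2 * (if inc 0 p then 1 else 0) + 1) = 15 := by decide +kernel
  have h3 : ∑ p, (if inc 0 p then 1 else 0) * ((if inc 0 p then 1 else 0) + 1) = 12 := by
    decide +kernel
  simp only [h, Finset.sum_add_distrib, ← Finset.mul_sum, h1, h2, h3]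
  ring

end Count

open Kol.Count

theorem rank : RankStmt := by
  intro ut vt d k
  let L : (Ix (d + 1) → B) →ₗ[B] (((p : Pt) × Ix (k p)) → B) :=
    LinearMap.pi fun s => (MvPolynomial.lcoeff B (ex s.2)).comp
      ((sh (-ut s.1) (-vt s.1)).toLinearMap.comp (pol B (d + 1)))
  obtain ⟨W, hW, hW'⟩ := red L
  refine ⟨W.map (pol ℂ (d + 1)), ?_, ?_⟩
  · rw [← (Submodule.equivMapOfInjective _ pol_inj W).finrank_eq, ← card_ix (d + 1)]
    rw [Fintype.card_sigma (α := fun p => Ix (k p))] at hW
    simp only [← card_ix, ← Finset.mul_sum]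
    omega
  · rintro _ ⟨w, hw, rfl⟩
    obtain ⟨c, hc, hc'⟩ := hW' w hw
    refine ⟨pol B (d + 1) c, deg_pol c, fun p => van_of_coeff _ _ _ _ fun t => ?_, ?_⟩
    · exact congrFun hc ⟨p, t⟩
    · simp only [pol_apply, map_sum, MvPolynomial.map_monomial, hc']

theorem count (h1 : RankStmt) (h2 : UpperStmt) : CountStmt := by
  intro ut vt hu hv k
  obtain ⟨W, hW, hW'⟩ := h1 ut vt (3 * k + 6) (kap k)
  by_contra hn
  have hle := h2 k W fun N₀ hN₀ => by
    obtain ⟨N, hd, hvan, rfl⟩ := hW' N₀ hN₀
    refine ⟨?_, fun p => ?_, ?_⟩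
    · exact (Finset.sup_mono (MvPolynomial.support_map_subset _ _)).trans hd
    · rw [← hu, ← hv]
      exact van_map _ (hvan p)
    · rw [MvPolynomial.coeff_map]
      by_contra h0
      exact hn ⟨N, hd, hvan, h0⟩
  rw [sum_kap] at hW
  nlinarith

end Pool.Agent.MP_648617_ag.Kol
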