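import Pool.Agent.MP_648617_ag.kol.Poly
import Pool.Agent.MP_648617_ag.kol.Ub

/-! PROJECT KOL, row NF: normal form on the exceptional surface. -/

open IsLocalRing PowerSeries

noncomputable section

namespace Pool.Agent.MP_648617_ag.Kol

namespace Nf

open _root_.Pool.Agent.MP_648617_ag.Kol.Seq

theorem dd_add (F G : TT) (j : ℤ) : dd (F + G) j = dd F j + dd G j := by
  ext n; simp [dd]

theorem dd_one (j : ℤ) : dd 1 j = if j = 0 then 1 else 0 := by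
  ext n
  have h1 : (1 : LaurentPolynomial ℂ).coeff j = if j = 0 then 1 else 0 := by
    rw [AddMonoidAlgebra.one_def, AddMonoidAlgebra.coeff_single, Finsupp.single_apply]
    simp only [eq_comm]
  simp only [dd, coeff_mk, coeff_one]
  split_ifs with h h' h' <;> simp [h1, h, h', coeff_one]

theorem dd_jB (c : B) (j : ℤ) : dd (jB c) j = if j = 0 then c else 0 := by
  rw [← one_mul (jB c), dd_mul_jB, dd_one]
  split_ifs <;> simp

theorem side_add {F G : TT} {ε : ℤ} {A : B} {ρ σ : ℂ⟦X⟧} (h : Side F ε A ρ) (h' : Side G ε A σ) :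
    Side (F + G) ε A (ρ + σ) := fun j => by
  obtain ⟨P, h1, h2⟩ := h j
  obtain ⟨Q, h3, h4⟩ := h' j
  exact ⟨P + Q, by rw [dd_add, h1, h3, mul_add], by rw [map_add, h2, h4, map_add]⟩

theorem side_jB (c : B) {ε : ℤ} (hε : ε ≠ 0) (A : B) : Side (jB c) ε A (C (cc c)) := fun j => by
  rcases Nat.eq_zero_or_pos j with rfl | hj
  · exact ⟨c, by simp [dd_jB], by simp⟩
  · refine ⟨0, ?_, ?_⟩
    · rw [dd_jB, if_neg (mul_ne_zero hε (by omega)), mul_zero]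
    · rw [map_zero, coeff_C, if_neg hj.ne']

theorem jB_mem {c : B} (hc : cc c = 0) : jB c ∈ Ideal.span {(X : TT)} := by
  obtain ⟨c', rfl⟩ := X_dvd_iff.2 hc
  rw [map_mul, jB, map_X]
  exact Ideal.mul_mem_right _ _ (Ideal.mem_span_singleton_self _)

theorem split (G : B⟦X⟧) : ∃ G' : B⟦X⟧, G = C (coeff 0 G) + X * G' ∧
    ∀ j, coeff j G' = coeff (j + 1) G :=
  ⟨PowerSeries.mk fun j => coeff (j + 1) G, by
    rw [add_comm, coeff_zero_eq_constantCoeff_apply]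
    exact eq_X_mul_shift_add_const G, fun j => coeff_mk _ _⟩

section Kappa

variable {ε : ℤ} {A : B} {κ : B⟦X⟧ →+* TT} (hε : ε ≠ 0) (hA : cc A = 0)
  (hC : ∀ c, κ (C c) = jB c) (hX : κ X = -jB A * om ε)

include hC hX in
theorem step (G G' : B⟦X⟧) (c : B) (h : G = C c + X * G') (j : ℤ) :
    dd (κ G) j = (if j = 0 then c else 0) + -A * dd (κ G') (j - ε) := by
  have : κ G = jB c + κ G' * jB (-A) * om ε := by
    rw [h, map_add, map_mul, hC, hX, map_neg]; ring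
  rw [this, dd_add, dd_jB, dd_mul_om, dd_mul_jB]

include hε hA hC hX in
theorem neg_side (G : B⟦X⟧) (j : ℕ) : dd (κ G) (-ε * (j + 1 : ℕ)) = 0 := by
  have key : ∀ n, ∀ (G : B⟦X⟧) (j : ℕ),
      dd (κ G) (-ε * (j + 1 : ℕ)) ∈ maximalIdeal B ^ n := by
    intro n
    induction n with
    | zero => simp
    | succ n ih =>
      intro G j
      obtain ⟨G', h, -⟩ := split G
      rw [step hC hX G G' _ h, if_neg (mul_ne_zero (neg_ne_zero.2 hε) (by omega)), zero_add,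
        show -ε * ((j + 1 : ℕ) : ℤ) - ε = -ε * ((j + 1 + 1 : ℕ) : ℤ) by push_cast; ring, pow_succ']
      exact Ideal.mul_mem_mul (neg_mem (mem_max_B.2 hA)) (ih G' (j + 1))
  exact haus (maximalIdeal B) fun n => key n G j

include hε hA hC hX in
theorem pos_side (j : ℕ) : ∀ G : B⟦X⟧, dd (κ G) (ε * j) = (-A) ^ j * coeff j G := by
  induction j with
  | zero =>
    intro G
    obtain ⟨G', h, -⟩ := split G
    have h0 := neg_side hε hA hC hX G' 0
    rw [step hC hX G G' _ h, show ε * ((0 : ℕ) : ℤ) - ε = -ε * ((0 + 1 : ℕ) : ℤ) by simp, h0]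
    simp
  | succ j ih =>
    intro G
    obtain ⟨G', h, h'⟩ := split G
    rw [step hC hX G G' _ h, if_neg (mul_ne_zero hε (by omega)), zero_add,
      show ε * ((j + 1 : ℕ) : ℤ) - ε = ε * j by push_cast; ring, ih, h', pow_succ', mul_assoc]

end Kappa

theorem axis {ε : ℤ} {A ξ : B} (hε : ε ≠ 0) (hA : cc A = 0) (hξ : cc ξ = 0)
    (Θ : B⟦X⟧⟦X⟧ →+* TT) (θ : B⟦X⟧⟦X⟧ →+* ℂ⟦X⟧) (hΘ : ∀ t, Θ (C t) = jB (evAt ξ t))
    (hΘX : Θ X = jB A * (1 - om ε)) (hθ : ∀ t, θ (C t) = C (cc (cc t))) (hθX : θ X = X)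
    (A' : B) (F : B⟦X⟧⟦X⟧) : Side (Θ (X * F)) ε A (θ (X * F)) ∧ Side (Θ (X * F)) (-ε) A' 0 := by
  obtain ⟨κ, hC, hX⟩ := exists_evI (Ideal.span {(X : TT)}) jB (z := -jB A * om ε)
    (Ideal.mul_mem_right _ _ (neg_mem (jB_mem hA)))
  obtain ⟨σ, sC, sX⟩ := exists_evI (maximalIdeal B⟦X⟧) ((C : B →+* B⟦X⟧).comp (evAt ξ))
    (z := C A + X) (mem_max_ps.2 (by simpa using mem_max_B.2 hA))
  have e1 : Θ = κ.comp σ := by
    refine evI_ext (Ideal.span {(X : TT)}) _ _ (fun t => ?_) ?_ ?_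
    · rw [hΘ, RingHom.comp_apply, sC, RingHom.comp_apply, hC]
    · rw [hΘX, RingHom.comp_apply, sX, map_add, hC, hX]; ring
    · rw [hΘX]; exact Ideal.mul_mem_right _ _ (jB_mem hA)
  have e2 : θ = (PowerSeries.map (cc : B →+* ℂ)).comp σ := by
    refine evI_ext (Ideal.span {(X : ℂ⟦X⟧)}) _ _ (fun t => ?_) ?_ ?_
    · rw [hθ, RingHom.comp_apply, sC, RingHom.comp_apply, map_C, cc_evAt hξ]
    · rw [hθX, RingHom.comp_apply, sX, map_add, map_C, map_X, hA, map_zero, zero_add]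
    · rw [hθX]; exact Ideal.mem_span_singleton_self _
  have hc : ∀ j, cc (coeff j (σ (X * F))) = coeff j (θ (X * F)) := fun j => by
    rw [e2, RingHom.comp_apply, coeff_map]
  refine ⟨fun j => ⟨_, by rw [e1]; exact pos_side hε hA hC hX j _, hc j⟩, fun j => ?_⟩
  rcases j with _ | j
  · refine ⟨coeff 0 (σ (X * F)), ?_, ?_⟩
    · have := pos_side hε hA hC hX 0 (σ (X * F))
      rw [e1]
      simpa using this
    · rw [hc, map_mul, hθX]
      simp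
  · exact ⟨0, by rw [e1, mul_zero]; exact neg_side hε hA hC hX _ j, by simp⟩

theorem const {c ξ : B} (hc : cc c = 0) (Θ : B⟦X⟧⟦X⟧ →+* TT)
    (hΘ : ∀ t, Θ (C t) = jB (evAt ξ t)) (hΘX : Θ X = jB c) {ε : ℤ} (hε : ε ≠ 0) (A : B)
    (F : B⟦X⟧⟦X⟧) : Side (Θ (X * F)) ε A 0 := by
  obtain ⟨σ, sC, sX⟩ := exists_evI (maximalIdeal B) (evAt ξ) (mem_max_B.2 hc)
  have e1 : Θ = jB.comp σ := by
    refine evI_ext (Ideal.span {(X : TT)}) _ _ (fun t => ?_) ?_ ?_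
    · rw [hΘ, RingHom.comp_apply, sC]
    · rw [hΘX, RingHom.comp_apply, sX]
    · rw [hΘX]; exact jB_mem hc
  have := side_jB (σ (X * F)) hε A
  rw [map_mul, map_mul cc, sX, hc, zero_mul, map_zero, ← sX, ← map_mul] at this
  rw [e1]
  exact this

theorem two_le : ∀ i, l i - 1 ≠ 0 := by decide +kernel

end Nf

open Nf

theorem nf : NfStmt := by
  intro O _ _ _ 𝒞 i k hik P ax ax' hax hax' H
  have hξ := 𝒞.ξ0 (pt i k)
  have hφ : ∀ t, P.Ψ (𝒞.φ t) = jB (evAt (𝒞.ξ (pt i k)) t) := fun t =>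
    (map_eq_evAt (P.Ψ.comp 𝒞.φ) (mem_max_B.2 hξ) (P.x.trans (P.base _).symm) t).trans (P.base _)
  have hE : ∀ p t, (P.Ψ.comp (𝒞.E p)) (C t) = jB (evAt (𝒞.ξ (pt i k)) t) := fun p t => by
    rw [RingHom.comp_apply, 𝒞.E_C, hφ]
  have hA : ∀ (j : Ln) (α : B), cc (𝒞.ϖ ^ (l j - 1) * α) = 0 := fun j α => by
    rw [map_mul, map_pow, 𝒞.cc_ϖ, zero_pow (two_le j), zero_mul]
  have hz : ∀ {j : Ln} {χ : O →+* ℂ⟦X⟧}, IsAx 𝒞 j χ → ∀ p, p ≠ some j → ∀ F,
      χ (𝒞.E p (X * F)) = 0 := fun h p hp F => by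
    rw [map_mul, map_mul]
    exact mul_eq_zero_of_left (h.other p hp) _
  obtain ⟨⟨c, G⟩, rfl⟩ := 𝒞.bij.2 H
  have key : ∀ p, Side (P.Ψ (𝒞.E p (X * G p))) 1 (𝒞.ϖ ^ (l i - 1) * P.α) (ax (𝒞.E p (X * G p))) ∧
      Side (P.Ψ (𝒞.E p (X * G p))) (-1) (𝒞.ϖ ^ (l k - 1) * P.α') (ax' (𝒞.E p (X * G p))) := by
    intro p
    by_cases hi : p = some i
    · subst hi
      rw [hz hax' _ (by simpa using hik)]
      exact axis one_ne_zero (hA i _) hξ (P.Ψ.comp (𝒞.E _)) (ax.comp (𝒞.E _)) (hE _) P.zi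
        (fun t => by rw [RingHom.comp_apply, 𝒞.E_C, hax.base]) hax.self _ _
    by_cases hk : p = some k
    · subst hk
      rw [hz hax _ hi]
      exact (axis (ε := -1) (by norm_num) (hA k _) hξ (P.Ψ.comp (𝒞.E _)) (ax'.comp (𝒞.E _)) (hE _)
        P.zk (fun t => by rw [RingHom.comp_apply, 𝒞.E_C, hax'.base]) hax'.self _ _).symm
    obtain ⟨e, he, hZ⟩ : ∃ e : B, cc e = 0 ∧ P.Ψ (𝒞.Z p) = jB e := by
      rcases p with _ | j
      · exact ⟨_, 𝒞.η0 _, P.y⟩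
      · exact P.zj j (fun h => hi (by rw [h])) fun h => hk (by rw [h])
    rw [hz hax _ hi, hz hax' _ hk]
    exact ⟨const he (P.Ψ.comp (𝒞.E p)) (hE p) hZ one_ne_zero _ _,
      const he (P.Ψ.comp (𝒞.E p)) (hE p) hZ (by norm_num) _ _⟩
  have sum : ∀ (ε : ℤ) (A : B) (χ : O →+* ℂ⟦X⟧), ε ≠ 0 → χ (𝒞.φ c) = C (cc (cc c)) →
      (∀ p, Side (P.Ψ (𝒞.E p (X * G p))) ε A (χ (𝒞.E p (X * G p)))) →
      Side (P.Ψ (𝒞.φ c + ∑ p, 𝒞.E p (X * G p))) ε A (χ (𝒞.φ c + ∑ p, 𝒞.E p (X * G p))) := by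
    intro ε A χ hε h0 h
    rw [map_add, map_add, map_sum, map_sum]
    refine side_add ?_ ?_
    · rw [hφ, h0, ← cc_evAt hξ]
      exact side_jB _ hε A
    · induction (Finset.univ : Finset (Option Ln)) using Finset.induction_on with
      | empty => simpa using side_jB 0 hε A
      | insert p s hp ih =>
        rw [Finset.sum_insert hp, Finset.sum_insert hp]
        exact side_add (h p) ih
  exact ⟨sum 1 _ ax one_ne_zero (hax.base c) fun p => (key p).1,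
    sum (-1) _ ax' (by norm_num) (hax'.base c) fun p => (key p).2⟩

end Pool.Agent.MP_648617_ag.Kol
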