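import Mathlib.Algebra.MvPolynomial.NoZeroDivisors
import Mathlib.Algebra.Polynomial.RingDivision
import Mathlib.LinearAlgebra.FiniteDimensional.Lemmas
import Mathlib.RingTheory.Coprime.Lemmas
import Mathlib.RingTheory.MvPolynomial.Ideal
import Mathlib.RingTheory.Polynomial.DegreeLT
import Pool.Agent.MP_648617_ag.kol.Vers

/-! PROJECT KOL, row UPPER: the upper bound for the number of plane curves with given
multiplicities, by removing lines. -/

noncomputable section

namespace Pool.Agent.MP_648617_ag.Kol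

namespace Upper

open MvPolynomial

/-- Polynomials in two variables. -/
abbrev P2 : Type := MvPolynomial (Fin 2) ℂ

/-- The equation of a line. -/
def lin (s t : ℂ) : P2 := X 1 - C s * X 0 - C t

/-- Restriction to a line. -/
def res (s t : ℂ) : P2 →ₐ[ℂ] Polynomial ℂ :=
  aeval ![Polynomial.X, Polynomial.C s * Polynomial.X + Polynomial.C t]

theorem res_zero (s t : ℂ) : res s t (X 0) = Polynomial.X := by simp [res]

theorem res_one (s t : ℂ) :
    res s t (X 1) = Polynomial.C s * Polynomial.X + Polynomial.C t := by simp [res]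

theorem res_C (s t c : ℂ) : res s t (C c) = Polynomial.C c := by simp [res]

/-- A polynomial that vanishes on the line is a multiple of its equation. -/
theorem dvd_of_res {s t : ℂ} {N : P2} (h : res s t N = 0) : lin s t ∣ N := by
  have key : ∀ N : P2, lin s t ∣ N - Polynomial.aeval (X 0 : P2) (res s t N) := by
    intro N
    induction N using MvPolynomial.induction_on with
    | C c => simp
    | add p q hp hq =>
      have : p + q - Polynomial.aeval (X 0 : P2) (res s t (p + q)) =
          (p - Polynomial.aeval (X 0 : P2) (res s t p)) +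
            (q - Polynomial.aeval (X 0 : P2) (res s t q)) := by
        rw [map_add, map_add]; ring
      rw [this]
      exact dvd_add hp hq
    | mul_X p i hp =>
      have hi : lin s t ∣ X i - Polynomial.aeval (X 0 : P2) (res s t (X i)) := by
        fin_cases i
        · simp [res_zero]
        · refine ⟨1, ?_⟩
          simp only [Fin.mk_one, res_one, map_add, map_mul, Polynomial.aeval_C,
            Polynomial.aeval_X, algebraMap_eq, lin]
          ring
      have : p * X i - Polynomial.aeval (X 0 : P2) (res s t (p * X i)) =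
          (p - Polynomial.aeval (X 0 : P2) (res s t p)) * X i +
            Polynomial.aeval (X 0 : P2) (res s t p) *
              (X i - Polynomial.aeval (X 0 : P2) (res s t (X i))) := by
        rw [map_mul, map_mul]; ring
      rw [this]
      exact dvd_add (hp.mul_right _) (hi.mul_left _)
  simpa [h] using key N

theorem coeff_lin (s t : ℂ) : (lin s t).coeff (Finsupp.single 1 1) = 1 := by
  have h1 : (Finsupp.single (0 : Fin 2) 1 : Fin 2 →₀ ℕ) ≠ Finsupp.single 1 1 := by
    intro h
    simpa using congrArg (fun m => m 0) h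
  have h2 : (0 : Fin 2 →₀ ℕ) ≠ Finsupp.single 1 1 := by
    intro h
    simpa using congrArg (fun m => m 1) h
  simp [lin, coeff_X, coeff_C, h1, h2]

theorem lin_ne (s t : ℂ) : lin s t ≠ 0 := fun h => by simpa [h] using coeff_lin s t

theorem one_le_deg (s t : ℂ) : 1 ≤ (lin s t).totalDegree := by
  have h : Finsupp.single (1 : Fin 2) 1 ∈ (lin s t).support := by
    rw [mem_support_iff, coeff_lin]
    exact one_ne_zero
  simpa using le_totalDegree h

theorem deg_quot {s t : ℂ} {M : P2} {d : ℕ} (h : (lin s t * M).totalDegree ≤ d + 1) :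
    M.totalDegree ≤ d := by
  rcases eq_or_ne M 0 with rfl | hM
  · simp
  · rw [totalDegree_mul_of_isDomain (lin_ne s t) hM] at h
    have := one_le_deg s t
    omega

/-- Away from the line its equation is a unit. -/
theorem van_off {s t p q : ℂ} (h : q ≠ s * p + t) {k : ℕ} {M : P2}
    (hM : Van p q k (lin s t * M)) : Van p q k M := by
  unfold Van at *
  set I : Ideal P2 := Ideal.span {X 0 - C p, X 1 - C q} with hI
  have hc : q - s * p - t ≠ 0 := fun h0 => h (by linear_combination h0)
  have hw : lin s t - C (q - s * p - t) ∈ I := by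
    have : lin s t - C (q - s * p - t) = (X 1 - C q) - C s * (X 0 - C p) := by
      simp only [lin, map_sub, map_mul]; ring
    rw [this]
    exact I.sub_mem (Ideal.subset_span (by simp)) (I.mul_mem_left _ (Ideal.subset_span (by simp)))
  have key : ∀ j, j ≤ k → M ∈ I ^ j := by
    intro j
    induction j with
    | zero => intro _; simp
    | succ j ih =>
      intro hj
      have h1 : lin s t * M ∈ I ^ (j + 1) := Ideal.pow_le_pow_right hj hM
      have h2 : M * (lin s t - C (q - s * p - t)) ∈ I ^ (j + 1) := by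
        rw [pow_succ]
        exact Ideal.mul_mem_mul (ih (by omega)) hw
      have h3 : M = C (q - s * p - t)⁻¹ * (lin s t * M - M * (lin s t - C (q - s * p - t))) := by
        have h4 : (C (q - s * p - t)⁻¹ : P2) * C (q - s * p - t) = 1 := by
          rw [← map_mul, inv_mul_cancel₀ hc, map_one]
        linear_combination (-M) * h4
      rw [h3]
      exact Ideal.mul_mem_left _ _ (Ideal.sub_mem _ h1 h2)
  exact key k le_rfl

/-- The affine change of coordinates that moves a point of the line to the origin. -/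
def mv (s p q : ℂ) : P2 →ₐ[ℂ] P2 := aeval ![X 0 + C p, X 1 + C s * X 0 + C q]

/-- The inverse change of coordinates. -/
def mv' (s p q : ℂ) : P2 →ₐ[ℂ] P2 := aeval ![X 0 - C p, X 1 - C q - C s * (X 0 - C p)]

theorem mv'_mv (s p q : ℂ) (N : P2) : mv' s p q (mv s p q N) = N := by
  have : (mv' s p q).comp (mv s p q) = AlgHom.id ℂ _ := by
    refine algHom_ext fun i => ?_
    fin_cases i <;> simp [mv, mv']
  exact AlgHom.congr_fun this N

theorem mv_mem {s p q : ℂ} {k : ℕ} {N : P2} (h : Van p q k N) :
    mv s p q N ∈ idealOfVars (Fin 2) ℂ ^ k := by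
  have h1 := Ideal.mem_map_of_mem (mv s p q) h
  rw [Ideal.map_pow] at h1
  refine Ideal.pow_right_mono ?_ k h1
  rw [Ideal.map_span, Ideal.span_le, Set.image_pair]
  have h0 : (X 0 : P2) ∈ idealOfVars (Fin 2) ℂ := Ideal.subset_span ⟨0, rfl⟩
  have h1 : (X 1 : P2) ∈ idealOfVars (Fin 2) ℂ := Ideal.subset_span ⟨1, rfl⟩
  rintro _ (rfl | rfl)
  · simpa [mv] using h0
  · have : mv s p q (X 1 - C q) = X 1 + C s * X 0 := by simp [mv]
    rw [this]
    exact Ideal.add_mem _ h1 (Ideal.mul_mem_left _ _ h0)

theorem mv'_mem {s p q : ℂ} {k : ℕ} {N : P2} (h : N ∈ idealOfVars (Fin 2) ℂ ^ k) :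
    Van p q k (mv' s p q N) := by
  have h1 := Ideal.mem_map_of_mem (mv' s p q) h
  rw [Ideal.map_pow] at h1
  refine Ideal.pow_right_mono ?_ k h1
  rw [Ideal.map_span, Ideal.span_le]
  have h0 : (X 0 - C p : P2) ∈ Ideal.span {(X 0 - C p : P2), X 1 - C q} :=
    Ideal.subset_span (by simp)
  have h1 : (X 1 - C q : P2) ∈ Ideal.span {(X 0 - C p : P2), X 1 - C q} :=
    Ideal.subset_span (by simp)
  rintro _ ⟨_, ⟨i, rfl⟩, rfl⟩
  fin_cases i
  · simpa [mv'] using h0
  · have : mv' s p q (X 1) = X 1 - C q - C s * (X 0 - C p) := by simp [mv']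
    simp only [Fin.mk_one, SetLike.mem_coe, this]
    exact Ideal.sub_mem _ h1 (Ideal.mul_mem_left _ _ h0)

/-- At a point of the line its equation has order one. -/
theorem van_on {s t p q : ℂ} (h : q = s * p + t) {k : ℕ} {M : P2}
    (hM : Van p q (k + 1) (lin s t * M)) : Van p q k M := by
  have h1 := mv_mem (s := s) hM
  have h2 : mv s p q (lin s t) = X 1 := by
    simp only [mv, lin, h, map_sub, map_mul, map_add, aeval_X, aeval_C, algebraMap_eq,
      Matrix.cons_val_zero, Matrix.cons_val_one]
    ring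
  rw [map_mul, h2, mem_pow_idealOfVars_iff'] at h1
  rw [← mv'_mv s p q M]
  refine mv'_mem ((mem_pow_idealOfVars_iff' _ _).2 fun x hx => ?_)
  rw [← coeff_X_mul x 1]
  refine h1 _ ?_
  rw [map_add, Finsupp.degree_single]
  omega

/-- The restriction to the line vanishes to the same order. -/
theorem dvd_res {s t p q : ℂ} (h : q = s * p + t) {k : ℕ} {N : P2} (hN : Van p q k N) :
    (Polynomial.X - Polynomial.C p) ^ k ∣ res s t N := by
  have h1 := Ideal.mem_map_of_mem (res s t) hN
  rw [Ideal.map_pow] at h1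
  rw [← Ideal.mem_span_singleton, ← Ideal.span_singleton_pow]
  refine Ideal.pow_right_mono ?_ k h1
  rw [Ideal.map_span, Ideal.span_le, Set.image_pair]
  rintro _ (rfl | rfl)
  · simp [res_zero]
  · rw [SetLike.mem_coe, Ideal.mem_span_singleton]
    refine ⟨Polynomial.C s, ?_⟩
    rw [map_sub, res_one, res_C, h, map_add, map_mul]
    ring

theorem deg_res {s t : ℂ} {d : ℕ} {N : P2} (h : N.totalDegree ≤ d) : (res s t N).natDegree ≤ d := by
  have := aeval_natDegree_le (n := 1) N h
    ![Polynomial.X, Polynomial.C s * Polynomial.X + Polynomial.C t] fun i => by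
      fin_cases i
      · simp
      · exact Polynomial.natDegree_linear_le
  rwa [mul_one] at this

theorem coeff_res (d : ℕ) (N : P2) : (res 0 0 N).coeff d = N.coeff (Finsupp.single 0 d) := by
  induction N using MvPolynomial.induction_on' with
  | monomial m c =>
    rw [res, aeval_monomial, Finsupp.prod_fintype _ _ fun _ => pow_zero _, Fin.prod_univ_two,
      coeff_monomial]
    simp only [Matrix.cons_val_zero, Matrix.cons_val_one, map_zero, zero_mul, add_zero,
      Polynomial.algebraMap_eq, Polynomial.coeff_C_mul]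
    rcases Nat.eq_zero_or_pos (m 1) with h | h
    · have hm : m = Finsupp.single 0 d ↔ d = m 0 := by
        constructor
        · rintro rfl
          simp
        · rintro rfl
          ext i
          fin_cases i <;> simp [h]
      simp [h, hm, Polynomial.coeff_X_pow]
    · have hm : m ≠ Finsupp.single 0 d := by
        rintro rfl
        simp at h
      simp [h.ne', hm]
  | add p q hp hq => rw [map_add, Polynomial.coeff_add, coeff_add, hp, hq]

/-- The curves of degree at most `d` with multiplicities at least `κ`. -/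
def V (d : ℕ) (κ : Pt → ℕ) : Submodule ℂ P2 :=
  restrictTotalDegree (Fin 2) ℂ d ⊓ ⨅ p, Submodule.restrictScalars ℂ
    (Ideal.span {(X 0 - C (u p : ℂ) : P2), X 1 - C (v p : ℂ)} ^ κ p)

theorem mem_V {d : ℕ} {κ : Pt → ℕ} {N : P2} :
    N ∈ V d κ ↔ N.totalDegree ≤ d ∧ ∀ p, Van (u p : ℂ) (v p : ℂ) (κ p) N := by
  simp [V, Van, mem_restrictTotalDegree]

instance (d : ℕ) (κ : Pt → ℕ) : Module.Finite ℂ (V d κ) :=
  Submodule.finiteDimensional_of_le (S₂ := restrictTotalDegree (Fin 2) ℂ d) inf_le_left

theorem inc_iff (i : Ln) (p : Pt) : inc i p ↔ (v p : ℂ) = (a i : ℂ) * u p + b i := by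
  unfold inc
  exact_mod_cast Iff.rfl

/-- Division by the equation of a line. -/
theorem quot_mem (i : Ln) {d : ℕ} {κ κ' : Pt → ℕ}
    (h : ∀ p, κ' p = 0 ∨ κ' p + (if inc i p then 1 else 0) ≤ κ p) {N : P2}
    (hN : N ∈ V (d + 1) κ) (h0 : res (a i) (b i) N = 0) :
    N ∈ (V d κ').map (LinearMap.mulLeft ℂ (lin (a i) (b i))) := by
  obtain ⟨M, rfl⟩ := dvd_of_res h0
  refine ⟨M, mem_V.2 ⟨deg_quot (mem_V.1 hN).1, fun p => ?_⟩, rfl⟩
  have hp := (mem_V.1 hN).2 p
  rcases h p with h | h
  · simp [Van, h]
  · by_cases hi : inc i p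
    · rw [if_pos hi] at h
      exact van_on ((inc_iff i p).1 hi) (Ideal.pow_le_pow_right h hp)
    · rw [if_neg hi, add_zero] at h
      exact van_off (fun e => hi ((inc_iff i p).2 e)) (Ideal.pow_le_pow_right h hp)

/-- The polynomial on a line with the given multiplicities. -/
def Pi (i : Ln) (κ : Pt → ℕ) : Polynomial ℂ :=
  ∏ p ∈ on i, (Polynomial.X - Polynomial.C (u p : ℂ)) ^ κ p

theorem monic_Pi (i : Ln) (κ : Pt → ℕ) : (Pi i κ).Monic :=
  Polynomial.monic_prod_of_monic _ _ fun _ _ => (Polynomial.monic_X_sub_C _).pow _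

theorem deg_Pi (i : Ln) (κ : Pt → ℕ) : (Pi i κ).natDegree = ∑ p ∈ on i, κ p := by
  rw [Pi, Polynomial.natDegree_prod_of_monic _ _ fun _ _ => (Polynomial.monic_X_sub_C _).pow _]
  simp only [Polynomial.natDegree_pow, Polynomial.natDegree_X_sub_C, mul_one]

theorem Pi_dvd (i : Ln) {d : ℕ} {κ : Pt → ℕ} {N : P2} (hN : N ∈ V d κ) :
    Pi i κ ∣ res (a i) (b i) N := by
  refine Finset.prod_dvd_of_coprime (fun p hp q hq hpq => ?_) fun p hp =>
    dvd_res ((inc_iff i p).1 (mem_on.1 hp)) ((mem_V.1 hN).2 p)
  refine IsCoprime.pow (Polynomial.isCoprime_X_sub_C_of_isUnit_sub (IsUnit.mk0 _ fun e => hpq ?_))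
  refine u_inj i p q (mem_on.1 hp) (mem_on.1 hq) ?_
  exact_mod_cast sub_eq_zero.1 e

theorem res_mem (i : Ln) {d : ℕ} {κ : Pt → ℕ} {N : P2} (hN : N ∈ V d κ) :
    res (a i) (b i) N ∈ (Polynomial.degreeLT ℂ (d + 1 - ∑ p ∈ on i, κ p)).map
      (LinearMap.mulLeft ℂ (Pi i κ)) := by
  obtain ⟨Q, hQ⟩ := Pi_dvd i hN
  refine ⟨Q, ?_, hQ.symm⟩
  rw [SetLike.mem_coe, Polynomial.mem_degreeLT]
  rcases eq_or_ne Q 0 with rfl | h0
  · simp
  · have h1 := deg_res (s := a i) (t := b i) (mem_V.1 hN).1
    rw [hQ, (monic_Pi i κ).natDegree_mul' h0, deg_Pi] at h1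
    rw [Polynomial.degree_eq_natDegree h0, Nat.cast_lt]
    omega

/-- Removing one line. -/
theorem step (i : Ln) (d : ℕ) (κ κ' : Pt → ℕ)
    (h : ∀ p, κ' p = 0 ∨ κ' p + (if inc i p then 1 else 0) ≤ κ p) :
    Module.finrank ℂ (V (d + 1) κ) ≤
      Module.finrank ℂ (V d κ') + (d + 2 - ∑ p ∈ on i, κ p) := by
  let f : V (d + 1) κ →ₗ[ℂ] Polynomial ℂ :=
    (res (a i) (b i)).toLinearMap.comp (V (d + 1) κ).subtype
  have h1 := LinearMap.finrank_range_add_finrank_ker f
  have h2 : Module.finrank ℂ (LinearMap.range f) ≤ d + 2 - ∑ p ∈ on i, κ p := by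
    have hle : LinearMap.range f ≤ (Polynomial.degreeLT ℂ (d + 2 - ∑ p ∈ on i, κ p)).map
        (LinearMap.mulLeft ℂ (Pi i κ)) := by
      rintro _ ⟨N, rfl⟩
      exact res_mem i N.2
    refine (Submodule.finrank_mono hle).trans ((Submodule.finrank_map_le _ _).trans ?_)
    rw [Module.finrank_eq_card_basis (Polynomial.degreeLT.basis ℂ _), Fintype.card_fin]
  have h3 : Module.finrank ℂ (LinearMap.ker f) ≤ Module.finrank ℂ (V d κ') := by
    rw [← Submodule.finrank_map_subtype_eq]
    have hle : (LinearMap.ker f).map (V (d + 1) κ).subtype ≤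
        (V d κ').map (LinearMap.mulLeft ℂ (lin (a i) (b i))) := by
      rintro _ ⟨N, hN, rfl⟩
      exact quot_mem i h N.2 hN
    exact (Submodule.finrank_mono hle).trans (Submodule.finrank_map_le _ _)
  omega

theorem base : Module.finrank ℂ (V 5 fun _ => 0) ≤ 21 := by
  have h0 : Module.finrank ℂ (V 0 fun _ => 0) ≤ 1 := by
    have hle : (V 0 fun _ => 0) ≤ Submodule.span ℂ {(1 : P2)} := by
      intro N hN
      rw [totalDegree_eq_zero_iff_eq_C.1 (Nat.le_zero.1 (mem_V.1 hN).1), Submodule.mem_span_singleton]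
      exact ⟨_, by rw [smul_eq_C_mul, mul_one]⟩
    exact (Submodule.finrank_mono hle).trans (finrank_span_singleton one_ne_zero).le
  have h := fun d => step 0 d (fun _ => 0) (fun _ => 0) fun _ => Or.inl rfl
  simp only [Finset.sum_const_zero, Nat.sub_zero] at h
  have key : ∀ d, 2 * Module.finrank ℂ (V d fun _ => 0) ≤ (d + 1) * (d + 2) := by
    intro d
    induction d with
    | zero => omega
    | succ d ih =>
      have := h d
      nlinarith
  have := key 5
  omega

/-- The triple points that lie on none of the first `j` lines. -/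
def ep (j : ℕ) (p : Pt) : ℕ := if ∀ i : Ln, i.1 < j → ¬inc i p then tri p else 0

theorem ep_step : ∀ i : Ln, i.1 < 3 → ∀ p, tri p = 0 ∨
    ep (i.1 + 1) p + (if inc i p then 1 else 0) ≤ ep i.1 p := by
  unfold ep
  decide +kernel

theorem ep_le (j : ℕ) (p : Pt) : ep j p ≤ tri p := by
  unfold ep
  split_ifs <;> omega

theorem ep_sum : ∀ i : Ln, i.1 < 3 → ∑ p ∈ on i, ep i.1 p = 3 := by
  unfold ep
  decide +kernel

theorem ep_zero (p : Pt) : ep 0 p = tri p := by simp [ep]

theorem ep_three : ∀ p, ep 3 p = 0 := by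
  unfold ep
  decide +kernel

theorem step' (i : Ln) (hi : i.1 < 3) (d k : ℕ) :
    Module.finrank ℂ (V (d + 1) fun p => k * tri p + ep i.1 p) ≤
      Module.finrank ℂ (V d fun p => k * tri p + ep (i.1 + 1) p) + (d + 2 - (3 * k + 3)) := by
  have h := step i d (fun p => k * tri p + ep i.1 p) (fun p => k * tri p + ep (i.1 + 1) p)
    fun p => by
      rcases ep_step i hi p with h | h
      · left
        have := ep_le (i.1 + 1) p
        simp only [h, mul_zero, zero_add] at this ⊢
        omega
      · right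
        omega
  rw [Finset.sum_add_distrib, ← Finset.mul_sum, sum_tri_on i hi, ep_sum i hi, mul_comm k 3] at h
  exact h

theorem main (k : ℕ) : Module.finrank ℂ (V (3 * k + 5) fun p => k * tri p) ≤ 15 * k + 21 := by
  induction k with
  | zero =>
    have e : (fun p => 0 * tri p) = fun _ => 0 := funext fun _ => zero_mul _
    rw [e]
    exact base
  | succ k ih =>
    have h0 := step' 0 (by decide) (3 * k + 7) k
    have h1 := step' 1 (by decide) (3 * k + 6) k
    have h2 := step' 2 (by decide) (3 * k + 5) k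
    have e0 : (fun p => (k + 1) * tri p) = fun p => k * tri p + ep 0 p :=
      funext fun p => by rw [ep_zero]; ring
    have e3 : (fun p => k * tri p + ep 3 p) = fun p => k * tri p :=
      funext fun p => by rw [ep_three, add_zero]
    change Module.finrank ℂ (V (3 * k + 8) fun p => k * tri p + ep 0 p) ≤
      Module.finrank ℂ (V (3 * k + 7) fun p => k * tri p + ep 1 p) + _ at h0
    change Module.finrank ℂ (V (3 * k + 7) fun p => k * tri p + ep 1 p) ≤
      Module.finrank ℂ (V (3 * k + 6) fun p => k * tri p + ep 2 p) + _ at h1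
    change Module.finrank ℂ (V (3 * k + 6) fun p => k * tri p + ep 2 p) ≤
      Module.finrank ℂ (V (3 * k + 5) fun p => k * tri p + ep 3 p) + _ at h2
    rw [e3] at h2
    rw [e0, show 3 * (k + 1) + 5 = 3 * k + 8 by ring]
    omega

theorem sum_kap_on (k : ℕ) : ∑ p ∈ on 0, kap k p = 3 * k + 6 := by
  have h : ∀ p ∈ on 0, kap k p = k * tri p + 1 := fun p hp => by rw [kap, if_pos (mem_on.1 hp)]
  rw [Finset.sum_congr rfl h, Finset.sum_add_distrib, ← Finset.mul_sum, sum_tri_on 0 (by decide),
    Finset.sum_const, card_on, l_side 0 (by decide), smul_eq_mul]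
  ring

end Upper

open Kol.Upper

theorem upper : UpperStmt := by
  intro k W hW
  have hle : W ≤ (V (3 * k + 5) fun p => k * tri p).map
      (LinearMap.mulLeft ℂ (lin (a 0) (b 0))) := by
    intro N hN
    obtain ⟨hd, hv, hc⟩ := hW N hN
    have hm : N ∈ V (3 * k + 5 + 1) (kap k) := mem_V.2 ⟨hd, hv⟩
    refine quot_mem 0 (fun p => Or.inr le_rfl) hm ?_
    by_contra h0
    have h1 := Polynomial.natDegree_le_of_dvd (Pi_dvd 0 hm) h0
    have h2 := deg_res (s := a 0) (t := b 0) hd
    rw [deg_Pi, sum_kap_on] at h1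
    have h3 := Polynomial.leadingCoeff_ne_zero.2 h0
    rw [Polynomial.leadingCoeff, le_antisymm h2 h1, a_zero, b_zero, Int.cast_zero, coeff_res] at h3
    exact h3 hc
  exact (Submodule.finrank_mono hle).trans ((Submodule.finrank_map_le _ _).trans (main k))

end Pool.Agent.MP_648617_ag.Kol
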