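import Pool.Agent.MP_648617_ag.amp.Ample
import Pool.Agent.MP_648617_ag.kol.First
import Pool.Agent.MP_648617_ag.kol.Arc
import Pool.Agent.MP_648617_ag.kol.Poly
import Pool.Agent.MP_648617_ag.kol.Vers
import Pool.Agent.MP_648617_ag.kol.Ub
import Pool.Agent.MP_648617_ag.kol.Count
import Pool.Agent.MP_648617_ag.kol.Nf
import Pool.Agent.MP_648617_ag.kol.Upper
import Mathlib.LinearAlgebra.Dual.Lemmas
import Pool.Agent.MP_648617_ag.vers.Norm

-- ======== part 0: formerly Pool.Agent.MP_648617_ag.kol.All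
section MrgPart0

/-! PROJECT KOL: all rows together. -/

namespace Pool.Agent.MP_648617_ag.Kol

theorem coreStmt : CoreStmt :=
  core14 (der up) reg (psi up) (lb (psi up) nf seq) (ub sharpStmt) (axv sharpStmt)
    (count rank upper) val

theorem mainStmt : MainStmt :=
  main (a0 (a0poly poly) polyUp) (blow cech) chartStmt smooth cou (ahat (a0poly poly) polyUp) vers
    (e0 (defo up)) std push (first up) pat Amp.ampAPI rad (arc rigid) (der up) model coreStmt

end Pool.Agent.MP_648617_ag.Kol

end MrgPart0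

-- ======== part 1: formerly Pool.Agent.MP_648617_ag.kol.Mini
section MrgPart1

/-! PROJECT KOL, row MINI: a miniversal deformation exists as soon as a versal one does. -/

open IsLocalRing

noncomputable section

namespace Pool.Agent.MP_648617_ag.Kol

namespace Mini

open Vers

variable {A : Type} [CommRing A] [Algebra ℂ A]
  {R : Type} [CommRing R] [Algebra ℂ R] [IsGerm R] {S : Type} [CommRing S] [Algebra ℂ S] [IsGerm S]
  {T : Type} [CommRing T] [Algebra ℂ T] [IsGerm T]

theorem pi_alg (E : Defo A R) (r : R) :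
    E.π (algebraMap R E.O r) = algebraMap ℂ A (res R r) := by
  have : algebraMap R E.O (r - algebraMap ℂ R (res R r)) ∈ RingHom.ker E.π :=
    E.ker ▸ Ideal.mem_map_of_mem _ (sub_res r)
  rw [RingHom.mem_ker, map_sub, map_sub, ← IsScalarTower.algebraMap_apply, AlgHom.commutes,
    sub_eq_zero] at this
  exact this

theorem pi_max (E : Defo A R) {r : R} (hr : r ∈ maximalIdeal R) :
    E.π (algebraMap R E.O r) = 0 := by
  rw [pi_alg, res_eq_zero.2 hr, map_zero]

theorem alg_max (E : Defo A R) {r : R} (hr : r ∈ maximalIdeal R) :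
    algebraMap R E.O r ∈ maximalIdeal E.O :=
  map_max (IsScalarTower.toAlgHom ℂ R E.O) hr

/-- Composition of morphisms of deformations. -/
def comp {D : Defo A R} {E : Defo A S} {F : Defo A T} (f : D.Hom E) (g : E.Hom F) : D.Hom F where
  base := g.base.comp f.base
  tot := g.tot.comp f.tot
  comm r := by rw [AlgHom.comp_apply, f.comm, g.comm]; rfl
  red o := by rw [AlgHom.comp_apply, g.red, f.red]

theorem germ_quot {J : Ideal R} (hJ : J ≤ maximalIdeal R) : IsGerm (R ⧸ J) := by
  have : Nontrivial (R ⧸ J) := Ideal.Quotient.nontrivial_iff.2 fun h =>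
    (maximalIdeal.isMaximal R).ne_top (top_le_iff.1 (h ▸ hJ))
  exact germ_of_surj (Ideal.Quotient.mkₐ ℂ J) Ideal.Quotient.mk_surjective

section Quot

variable (D : Defo A R) (J : Ideal R) [IsGerm (R ⧸ J)]

theorem le_max : J ≤ maximalIdeal R := fun r hr =>
  max_of_map (Ideal.Quotient.mkₐ ℂ J) (by
    rw [Ideal.Quotient.mkₐ_eq_mk, Ideal.Quotient.eq_zero_iff_mem.2 hr]; exact zero_mem _)

theorem map_le_ker : J.map (algebraMap R D.O) ≤ RingHom.ker D.π :=
  D.ker ▸ Ideal.map_mono (le_max J)

/-- The restriction of a deformation to a closed subgerm of the base. -/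
def quot : Defo A (R ⧸ J) where
  O := D.O ⧸ J.map (algebraMap R D.O)
  germ := germ_quot (Ideal.map_le_iff_le_comap.2 fun _ hr => alg_max D (le_max J hr))
  tower := IsScalarTower.of_algebraMap_eq fun c => congrArg (Ideal.Quotient.mk _)
    (IsScalarTower.algebraMap_apply ℂ R D.O c)
  flat := Module.Flat.of_linearEquiv
    (Algebra.TensorProduct.quotIdealMapEquivQuotTensor D.O J).toLinearEquiv
  π := Ideal.Quotient.liftₐ _ D.π fun _ ha => map_le_ker D J ha
  surj a := by
    obtain ⟨o, rfl⟩ := D.surj a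
    exact ⟨Ideal.Quotient.mk _ o, rfl⟩
  ker := by
    refine le_antisymm (fun x hx => ?_) (Ideal.map_le_iff_le_comap.2 fun r hr => ?_)
    · obtain ⟨o, rfl⟩ := Ideal.Quotient.mk_surjective x
      have h : o ∈ (maximalIdeal R).map (algebraMap R D.O) := D.ker ▸ hx
      have h2 : (maximalIdeal R).map (algebraMap R D.O) ≤ ((maximalIdeal (R ⧸ J)).map
          (algebraMap (R ⧸ J) (D.O ⧸ J.map (algebraMap R D.O)))).comap (Ideal.Quotient.mk _) :=
        Ideal.map_le_iff_le_comap.2 fun r hr =>
          Ideal.mem_map_of_mem _ (map_max (Ideal.Quotient.mkₐ ℂ J) hr)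
      exact h2 h
    · obtain ⟨r, rfl⟩ := Ideal.Quotient.mk_surjective r
      exact pi_max D (max_of_map (Ideal.Quotient.mkₐ ℂ J) hr)

/-- The restriction map. -/
def toQuot : D.Hom (quot D J) where
  base := Ideal.Quotient.mkₐ ℂ J
  tot := Ideal.Quotient.mkₐ ℂ _
  comm _ := rfl
  red _ := rfl

/-- The universal property of the restriction. -/
def ofQuot {E : Defo A S} (k : D.Hom E) (h : ∀ r ∈ J, k.base r = 0) : (quot D J).Hom E where
  base := Ideal.Quotient.liftₐ J k.base h
  tot := Ideal.Quotient.liftₐ (J.map (algebraMap R D.O)) k.tot fun a ha => by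
    have h2 : J.map (algebraMap R D.O) ≤ RingHom.ker k.tot :=
      Ideal.map_le_iff_le_comap.2 fun r hr => by
        rw [Ideal.mem_comap, RingHom.mem_ker, k.comm, h r hr, map_zero]
    exact h2 ha
  comm r := by
    obtain ⟨r, rfl⟩ := Ideal.Quotient.mk_surjective r
    exact k.comm r
  red o := by
    obtain ⟨o, rfl⟩ := Ideal.Quotient.mk_surjective o
    exact k.red o

end Quot

/-- A retract of a versal deformation is versal. -/
theorem versal_of_retract {D : Defo A R} {D' : Defo A T} (hD : D.IsVersal) (p : D.Hom D')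
    (s : D'.Hom D) (h1 : ∀ r, p.base (s.base r) = r) (h2 : ∀ o, p.tot (s.tot o) = o) :
    D'.IsVersal := by
  intro S _ _ _ S' _ _ _ E E' q f hq
  obtain ⟨g, hg, hg'⟩ := hD S S' E E' q (comp p f) hq
  refine ⟨comp s g, AlgHom.ext fun r => ?_, AlgHom.ext fun o => ?_⟩
  · exact (AlgHom.congr_fun hg (s.base r)).trans (congrArg f.base (h1 r))
  · exact (AlgHom.congr_fun hg' (s.tot o)).trans (congrArg f.tot (h2 o))

/-- The limit of the iterates of an endomorphism that contracts `t`. -/
theorem exists_lim (i : R →ₐ[ℂ] R) (t : R) (h1 : ∀ r, t ∣ i r - r)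
    (h2 : ∃ m ∈ maximalIdeal R, i t = t * m) : ∃ j : R →ₐ[ℂ] R,
      (∀ n r, j r - (i ^ n) r ∈ maximalIdeal R ^ n) ∧ j t = 0 ∧ ∀ r, t ∣ j r - r := by
  obtain ⟨m, hm, h2⟩ := h2
  have hs : ∀ n r, (i ^ (n + 1)) r = (i ^ n) (i r) := fun n r => by rw [pow_succ]; rfl
  have ht : ∀ n, (i ^ n) t ∈ maximalIdeal R ^ n := fun n => by
    induction n with
    | zero => simp
    | succ n ih =>
      rw [hs, h2, map_mul, pow_succ]
      exact Ideal.mul_mem_mul ih (map_max _ hm)
  have hc : ∀ r n, (i ^ (n + 1)) r - (i ^ n) r ∈ maximalIdeal R ^ n := fun r n => by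
    obtain ⟨c, hc⟩ := h1 r
    rw [hs, ← map_sub, hc, map_mul]
    exact Ideal.mul_mem_right _ _ (ht n)
  choose j hj using fun r => lim (fun n => (i ^ n) r) (hc r)
  have hC : ∀ c, j (algebraMap ℂ R c) = algebraMap ℂ R c := fun c =>
    sub_eq_zero.1 (krull fun n => by simpa using hj (algebraMap ℂ R c) n)
  have hd : ∀ n r, t ∣ (i ^ n) r - r := fun n => by
    induction n with
    | zero => simp
    | succ n ih =>
      intro r
      have := dvd_add (ih (i r)) (h1 r)
      rwa [sub_add_sub_cancel, ← hs] at this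
  refine ⟨{ toFun := j
            map_one' := by simpa using hC 1
            map_zero' := by simpa using hC 0
            map_mul' := fun a b => sub_eq_zero.1 (krull fun n => ?_)
            map_add' := fun a b => sub_eq_zero.1 (krull fun n => ?_)
            commutes' := hC }, fun n r => hj r n, krull fun n => ?_, fun r => ?_⟩
  · have := Ideal.sub_mem _ (Ideal.sub_mem _ (hj (a * b) n)
      (Ideal.mul_mem_right (j b) _ (hj a n))) (Ideal.mul_mem_left _ ((i ^ n) a) (hj b n))
    convert this using 1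
    rw [map_mul]; ring
  · have := Ideal.sub_mem _ (Ideal.sub_mem _ (hj (a + b) n) (hj a n)) (hj b n)
    convert this using 1
    rw [map_add]; ring
  · simpa using Ideal.add_mem _ (hj t n) (ht n)
  · refine Ideal.mem_span_singleton.1 (closed _ fun n => ?_)
    have := Ideal.add_mem _ (Ideal.mem_sup_left (Ideal.mem_span_singleton.2 (hd n r)))
      (Ideal.mem_sup_right (S := Ideal.span {t}) (hj r n))
    convert this using 1
    change j r - r = _
    ring

/-- If an endomorphism of a versal deformation contracts `t`, the restriction to `t = 0` is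
versal. -/
theorem versal_quot {D : Defo A R} (hD : D.IsVersal) (i : D.Hom D) (t : R)
    [IsGerm (R ⧸ Ideal.span {t})] (h1 : ∀ r, t ∣ i.base r - r)
    (h2 : ∃ m ∈ maximalIdeal R, i.base t = t * m)
    (h3 : ∀ o, algebraMap R D.O t ∣ i.tot o - o) : (quot D (Ideal.span {t})).IsVersal := by
  obtain ⟨j, hj, hjt, hjd⟩ := exists_lim i.base t h1 h2
  obtain ⟨k, hk, -, hkd⟩ := exists_lim i.tot (algebraMap R D.O t) h3 (by
    obtain ⟨m, hm, h2⟩ := h2
    exact ⟨_, alg_max D hm, by rw [i.comm, h2, map_mul]⟩)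
  have ht : t ∈ maximalIdeal R := le_max _ (Ideal.mem_span_singleton_self t)
  have hc : ∀ n r, (i.tot ^ n) (algebraMap R D.O r) = algebraMap R D.O ((i.base ^ n) r) := by
    intro n
    induction n with
    | zero => intro r; rfl
    | succ n ih =>
      intro r
      rw [pow_succ, pow_succ]
      exact (congrArg (i.tot ^ n) (i.comm r)).trans (ih _)
  let l : D.Hom D :=
    { base := j
      tot := k
      comm := fun r => sub_eq_zero.1 (krull fun n => by
        have := Ideal.sub_mem _ (hk n (algebraMap R D.O r))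
          (map_pow_max (IsScalarTower.toAlgHom ℂ R D.O) n (hj n r))
        convert this using 1
        rw [hc, map_sub]
        change _ = _ - (algebraMap R D.O _ - algebraMap R D.O _)
        ring)
      red := fun o => by
        obtain ⟨c, hc⟩ := hkd o
        rw [← sub_eq_zero, ← map_sub, hc, map_mul, pi_max D ht, zero_mul] }
  refine versal_of_retract hD (toQuot D _) (ofQuot D _ l fun r hr => ?_) (fun r => ?_) fun o => ?_
  · obtain ⟨c, rfl⟩ := Ideal.mem_span_singleton.1 hr
    change j _ = 0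
    rw [map_mul, hjt, zero_mul]
  · obtain ⟨r, rfl⟩ := Ideal.Quotient.mk_surjective r
    exact Ideal.Quotient.eq.2 (Ideal.mem_span_singleton.2 (hjd r))
  · obtain ⟨o, rfl⟩ := Ideal.Quotient.mk_surjective o
    obtain ⟨c, hc⟩ := hkd o
    exact Ideal.Quotient.eq.2 (hc ▸ Ideal.mul_mem_right c _
      (Ideal.mem_map_of_mem _ (Ideal.mem_span_singleton_self t)))

/-- The difference of two maps that agree to order zero is a derivation. -/
theorem exists_shift {O O₁ Q : Type} [CommRing O] [Algebra ℂ O] [CommRing O₁] [Algebra ℂ O₁]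
    [CommRing Q] [Algebra ℂ Q] (π : O →ₐ[ℂ] A) (hπ : Function.Surjective π) (π₁ : O₁ →ₐ[ℂ] A)
    (G G' : O →ₐ[ℂ] O₁) (hG : ∀ o, π₁ (G o) = π o) (hG' : ∀ o, π₁ (G' o) = π o) (d : O₁)
    (h1 : ∀ y, π₁ y = 0 → d ∣ y) (h2 : ∀ z, d * z = 0 → π₁ z = 0) (q : O →ₐ[ℂ] Q) (e : Q)
    (he : e * e = 0) (h3 : ∀ x, π x = 0 → e * q x = 0) : ∃ f : O →ₐ[ℂ] Q,
      (∀ o x z, G o - G' o = d * z → π₁ z = π x → f o = q o + e * q x) ∧
      ∀ o, ∃ x z, G o - G' o = d * z ∧ π₁ z = π x := by
  have hex : ∀ o, ∃ x z, G o - G' o = d * z ∧ π₁ z = π x := fun o => by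
    obtain ⟨z, hz⟩ := h1 (G o - G' o) (by rw [map_sub, hG, hG', sub_self])
    obtain ⟨x, hx⟩ := hπ (π₁ z)
    exact ⟨x, z, hz, hx.symm⟩
  choose θ ζ hζ hθ using id hex
  have hu : ∀ o x z, G o - G' o = d * z → π₁ z = π x → q o + e * q (θ o) = q o + e * q x := by
    intro o x z hz hx
    have h4 := h2 (ζ o - z) (by rw [mul_sub, ← hζ, ← hz, sub_self])
    have h5 := h3 (θ o - x) (by rw [map_sub, ← hθ, ← hx, ← map_sub, h4])
    rw [map_sub] at h5
    linear_combination h5
  have hC : ∀ c, q (algebraMap ℂ O c) + e * q (θ (algebraMap ℂ O c)) = algebraMap ℂ Q c :=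
    fun c => by rw [hu _ 0 0 (by simp) (by simp)]; simp
  refine ⟨{ toFun := fun o => q o + e * q (θ o)
            map_one' := by simpa using hC 1
            map_zero' := by simpa using hC 0
            map_mul' := fun a b => ?_
            map_add' := fun a b => ?_
            commutes' := hC }, hu, hex⟩
  · rw [hu (a * b) (a * θ b + θ a * b) (G a * ζ b + ζ a * G' b)
      (by rw [map_mul, map_mul]; linear_combination G a * hζ b + G' b * hζ a)
      (by simp only [map_add, map_mul, hG, hG', hθ])]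
    simp only [map_add, map_mul]
    linear_combination -(q (θ a) * q (θ b)) * he
  · rw [hu (a + b) (θ a + θ b) (ζ a + ζ b)
      (by rw [map_add, map_add]; linear_combination hζ a + hζ b)
      (by simp only [map_add, hθ])]
    simp only [map_add]
    ring

theorem pi_of_mul (E : Defo A S) {d : S} (hd : d ≠ 0) {z : E.O}
    (h : algebraMap S E.O d * z = 0) : E.π z = 0 := by
  obtain ⟨k, a, y, hy, ha⟩ := Module.Flat.isTrivialRelation_of_sum_smul_eq_zero (R := S)
    (M := E.O) (ι := Unit) (f := fun _ => d) (x := fun _ => z) (by simpa [Algebra.smul_def] using h)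
  rw [show z = _ from hy (), map_sum]
  refine Finset.sum_eq_zero fun j _ => ?_
  have h1 : a () j ∈ maximalIdeal S := fun hu => hd (by
    have := ha j
    simpa [hu.mul_left_eq_zero] using this)
  rw [Algebra.smul_def, map_mul, pi_max E h1, zero_mul]

/-- Two different first order maps to a line give a parameter that can be dropped. -/
theorem drop_line {D : Defo A R} (hD : D.IsVersal) (E : Defo A S) (g g' : D.Hom E) (d : S)
    (hd : d ≠ 0) (hS : ∀ s ∈ maximalIdeal S, d ∣ s) (t : R) (ht : t ∈ maximalIdeal R)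
    (htd : g.base t - g'.base t = d) [IsGerm (R ⧸ Ideal.span {t})] :
    (quot D (Ideal.span {t})).IsVersal := by
  let J : Ideal R := Ideal.span {t} * maximalIdeal R
  have : IsGerm (R ⧸ J) := germ_quot Ideal.mul_le_right
  have hJ : ∀ r ∈ maximalIdeal R, -Ideal.Quotient.mk J t * Ideal.Quotient.mk J r = 0 :=
    fun r hr => by
      rw [neg_mul, ← map_mul, Ideal.Quotient.eq_zero_iff_mem.2
        (Ideal.mul_mem_mul (Ideal.mem_span_singleton_self t) hr), neg_zero]
  have hee : -Ideal.Quotient.mk J t * -Ideal.Quotient.mk J t = 0 := by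
    rw [mul_neg, hJ t ht, neg_zero]
  obtain ⟨fb, hb, hb'⟩ := exists_shift (res R) (fun c => ⟨algebraMap ℂ R c, (res R).commutes c⟩)
    (res S) g.base g'.base (res_map _) (res_map _) d (fun y hy => hS y (res_eq_zero.1 hy))
    (fun z hz => res_eq_zero.2 fun hu => hd (hu.mul_left_eq_zero.1 hz))
    (toQuot D J).base (-Ideal.Quotient.mk J t) hee fun x hx => hJ x (res_eq_zero.1 hx)
  obtain ⟨ft, hf, hf'⟩ := exists_shift D.π D.surj E.π g.tot g'.tot g.red g'.red
    (algebraMap S E.O d)
    (fun y hy => by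
      have h1 : (maximalIdeal S).map (algebraMap S E.O) ≤ Ideal.span {algebraMap S E.O d} :=
        Ideal.map_le_iff_le_comap.2 fun s hs =>
          Ideal.mem_span_singleton.2 (map_dvd _ (hS s hs))
      exact Ideal.mem_span_singleton.1 (h1 (E.ker.le (RingHom.mem_ker.2 hy))))
    (fun z hz => pi_of_mul E hd hz) (toQuot D J).tot
    (algebraMap (R ⧸ J) (quot D J).O (-Ideal.Quotient.mk J t))
    (by rw [← map_mul, hee, map_zero])
    (fun x hx => by
      have h1 : (maximalIdeal R).map (algebraMap R D.O) ≤ (Ideal.torsionOf _ _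
          (algebraMap (R ⧸ J) (quot D J).O (-Ideal.Quotient.mk J t))).comap (toQuot D J).tot :=
        Ideal.map_le_iff_le_comap.2 fun r hr => by
          rw [Ideal.mem_comap, Ideal.mem_comap, Ideal.mem_torsionOf_iff, (toQuot D J).comm,
            smul_eq_mul, ← map_mul, mul_comm]
          exact (congrArg _ (hJ r hr)).trans (map_zero _)
      have h2 := h1 (D.ker.le (RingHom.mem_ker.2 hx))
      rwa [Ideal.mem_comap, Ideal.mem_torsionOf_iff, smul_eq_mul, mul_comm] at h2)
  let f : D.Hom (quot D J) :=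
    { base := fb
      tot := ft
      comm := fun r => by
        obtain ⟨x, z, hz, hx⟩ := hb' r
        rw [hb r x z hz hx, hf _ (algebraMap R D.O x) (algebraMap S E.O z)
          (by rw [g.comm, g'.comm, ← map_sub, hz, map_mul]) (by rw [pi_alg, pi_alg, hx]),
          (toQuot D J).comm, (toQuot D J).comm, map_add, map_mul]
      red := fun o => by
        obtain ⟨x, z, hz, hx⟩ := hf' o
        rw [hf o x z hz hx, map_add, map_mul, (toQuot D J).red,
          pi_max _ (r := -Ideal.Quotient.mk J t) (neg_mem (map_max (Ideal.Quotient.mkₐ ℂ J) ht)),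
          zero_mul, add_zero] }
  obtain ⟨i, hi, hi'⟩ := hD R (R ⧸ J) D (quot D J) (toQuot D J) f Ideal.Quotient.mk_surjective
  refine versal_quot hD i t (fun r => ?_) ?_ fun o => ?_
  · obtain ⟨x, z, hz, hx⟩ := hb' r
    have h1 : Ideal.Quotient.mk J (i.base r) = Ideal.Quotient.mk J (r - t * x) := by
      refine ((AlgHom.congr_fun hi r).trans (hb r x z hz hx)).trans ?_
      rw [map_sub, map_mul, neg_mul, sub_eq_add_neg]
      rfl
    have h2 := Ideal.mem_span_singleton.1 (Ideal.mul_le_left (Ideal.Quotient.eq.1 h1))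
    have h3 := dvd_sub h2 (dvd_mul_right t x)
    convert h3 using 1
    ring
  · have h1 : Ideal.Quotient.mk J (i.base t) = 0 := by
      refine ((AlgHom.congr_fun hi t).trans (hb t 1 1 (by rw [htd, mul_one]) (by simp))).trans ?_
      rw [map_one, mul_one]
      exact add_neg_cancel _
    obtain ⟨m, hm, h2⟩ := Ideal.mem_span_singleton_mul.1 (Ideal.Quotient.eq_zero_iff_mem.1 h1)
    exact ⟨m, hm, h2.symm⟩
  · obtain ⟨x, z, hz, hx⟩ := hf' o
    have h1 : Ideal.Quotient.mk (J.map (algebraMap R D.O)) (i.tot o) =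
        Ideal.Quotient.mk _ (o - algebraMap R D.O t * x) := by
      refine ((AlgHom.congr_fun hi' o).trans (hf o x z hz hx)).trans ?_
      rw [map_sub, map_mul, map_neg, neg_mul, sub_eq_add_neg]
      rfl
    have h4 : J.map (algebraMap R D.O) ≤ Ideal.span {algebraMap R D.O t} :=
      Ideal.map_le_iff_le_comap.2 fun r hr => Ideal.mem_span_singleton.2
        (map_dvd _ (Ideal.mem_span_singleton.1 (Ideal.mul_le_left hr)))
    have h2 := Ideal.mem_span_singleton.1 (h4 (Ideal.Quotient.eq.1 h1))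
    have h3 := dvd_sub h2 (dvd_mul_right (algebraMap R D.O t) x)
    convert h3 using 1
    ring

/-- A versal deformation that is not miniversal has a parameter that can be dropped. -/
theorem drop {D : Defo A R} (hD : D.IsVersal) (E : Defo A S) (g g' : D.Hom E)
    (hS : maximalIdeal S ^ 2 = ⊥) (hne : g.base ≠ g'.base) :
    ∃ t : R, t ≠ 0 ∧ ∃ _ : IsGerm (R ⧸ Ideal.span {t}), (quot D (Ideal.span {t})).IsVersal := by
  obtain ⟨r, hr⟩ := DFunLike.ne_iff.1 hne
  set t := r - algebraMap ℂ R (res R r)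
  have ht : t ∈ maximalIdeal R := sub_res r
  have hd : g.base t - g'.base t ≠ 0 := fun h => hr (by
    simp only [t, map_sub, AlgHom.commutes] at h
    linear_combination h)
  have hdm : g.base t - g'.base t ∈ maximalIdeal S := sub_mem (map_max _ ht) (map_max _ ht)
  set d := g.base t - g'.base t with hdd
  obtain ⟨φ, hφ⟩ := Module.Projective.exists_dual_eq_one ℂ hd
  let J : Ideal S :=
    { carrier := {s | s ∈ maximalIdeal S ∧ φ s = 0}
      add_mem' := fun ha hb => ⟨add_mem ha.1 hb.1, by rw [map_add, ha.2, hb.2, add_zero]⟩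
      zero_mem' := ⟨zero_mem _, map_zero _⟩
      smul_mem' := fun c s hs => ⟨Ideal.mul_mem_left _ c hs.1, by
        have h1 := Ideal.mul_mem_mul (sub_res c) hs.1
        rw [← pow_two, hS, Ideal.mem_bot, sub_mul, sub_eq_zero, ← Algebra.smul_def] at h1
        rw [smul_eq_mul, h1, map_smul, hs.2, smul_zero]⟩ }
  have : IsGerm (S ⧸ J) := germ_quot fun s hs => hs.1
  have h0 : IsGerm (R ⧸ Ideal.span {t}) :=
    germ_quot ((Ideal.span_singleton_le_iff_mem _).2 ht)
  refine ⟨t, fun h => hd (by rw [hdd, h, map_zero, map_zero, sub_self]), h0,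
    drop_line hD (quot E J) (comp g (toQuot E J)) (comp g' (toQuot E J)) (Ideal.Quotient.mk J d)
      (fun h => ?_) (fun s hs => ?_) t ht ((map_sub (Ideal.Quotient.mk J) _ _).symm)⟩
  · exact one_ne_zero (hφ.symm.trans (Ideal.Quotient.eq_zero_iff_mem.1 h).2)
  · obtain ⟨s, rfl⟩ := Ideal.Quotient.mk_surjective s
    refine ⟨Ideal.Quotient.mk J (algebraMap ℂ S (φ s)), ?_⟩
    rw [← map_mul, Ideal.Quotient.eq]
    refine ⟨sub_mem (max_of_map (Ideal.Quotient.mkₐ ℂ J) hs) (Ideal.mul_mem_right _ _ hdm), ?_⟩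
    rw [mul_comm, ← Algebra.smul_def, map_sub, map_smul, hφ, smul_eq_mul, mul_one, sub_self]

end Mini

open Mini in
theorem mini : MiniStmt := by
  intro A _ _ R _ _ _ D hD
  obtain ⟨J, ⟨R', _, _, _, D', hD', φ, hφ, rfl⟩, hmax⟩ := set_has_maximal_iff_noetherian.2
    (inferInstance : IsNoetherian R R)
    {J | ∃ (R' : Type) (_ : CommRing R') (_ : Algebra ℂ R') (_ : IsGerm R') (D' : Defo A R'),
      D'.IsVersal ∧ ∃ φ : R →ₐ[ℂ] R', Function.Surjective φ ∧ RingHom.ker φ = J}
    ⟨_, R, _, _, _, D, hD, AlgHom.id ℂ R, Function.surjective_id, rfl⟩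
  refine ⟨R', _, _, _, D', hD', fun S _ _ _ E g g' hS => ?_⟩
  by_contra hne
  obtain ⟨t, ht, _, hv⟩ := drop hD' E g g' hS hne
  refine hmax _ ⟨_, _, _, _, _, hv, (Ideal.Quotient.mkₐ ℂ _).comp φ,
    Ideal.Quotient.mk_surjective.comp hφ, rfl⟩ (lt_of_le_of_ne (fun r hr => ?_) fun h => ?_)
  · rw [RingHom.mem_ker, AlgHom.comp_apply, RingHom.mem_ker.1 hr, map_zero]
  · obtain ⟨r, rfl⟩ := hφ t
    have : r ∈ RingHom.ker φ := h ▸ Ideal.Quotient.eq_zero_iff_mem.2
      (Ideal.mem_span_singleton_self _)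
    exact ht this

end Pool.Agent.MP_648617_ag.Kol

end
end MrgPart1

-- marker of a merged file
example : 731051 + 475202 = 731051 + 475202 := rfl
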